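import Pool.Agent.LibTP53.Defs

/-
PLAN (HA). norm^2 = sum_p sum_q re <w p, w q> (as in l2_block of LibSR53.L2). Split q by near (c p) (c q). Not near: <= sum of norms <= B card. Near: group p and q by the value of c:
sum over r in A.image c, s in (A.image c).filter (near r) of re <G r, G s>, G r = sum_{c p = r} w p; re <G r, G s> <= (|G r|^2 + |G s|^2)/2; near symmetric, so the total is
<= sum_r N |G r|^2 <= N D sum_r card (fiber) = N D card A.
-/

set_option autoImplicit false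

noncomputable section

open MeasureTheory Metric Set Filter

namespace Pool.LibTP53

open Pool.LibSR53

open scoped Classical in
/-- near and far pairs in a Hilbert space -/
theorem near_far {ι κ H : Type} [NormedAddCommGroup H] [InnerProductSpace ℂ H]
    (A : Finset ι) (c : ι → κ) (w : ι → H) (near : κ → κ → Prop)
    (hsym : ∀ r s, near r s → near s r) (N B D : ℝ) (hN0 : 0 ≤ N) (hD0 : 0 ≤ D)
    (hN : ∀ r ∈ A.image c, (((A.image c).filter (fun s => near r s)).card : ℝ) ≤ N)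
    (hdiag : ∀ r ∈ A.image c, ‖∑ p ∈ A.filter (fun p => c p = r), w p‖ ^ 2 ≤
      D * ((A.filter (fun p => c p = r)).card : ℝ))
    (hoff : ∑ p ∈ A, ∑ q ∈ A.filter (fun q => ¬ near (c p) (c q)), ‖(inner ℂ (w p) (w q) : ℂ)‖ ≤
      B * (A.card : ℝ)) :
    ‖∑ p ∈ A, w p‖ ^ 2 ≤ (N * D + B) * (A.card : ℝ) := by
  set R := A.image c with hR
  set G : κ → H := fun r => ∑ p ∈ A.filter (fun p => c p = r), w p with hG
  have hmaps : ∀ p ∈ A, c p ∈ R := fun p hp => Finset.mem_image_of_mem c hp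
  have h1 : ‖∑ p ∈ A, w p‖ ^ 2 = ∑ p ∈ A, ∑ q ∈ A, (inner ℂ (w p) (w q) : ℂ).re := by
    have h0 := inner_self_eq_norm_sq (𝕜 := ℂ) (∑ p ∈ A, w p)
    rw [← h0, sum_inner]
    simp only [inner_sum, map_sum]
    rfl
  have h2 : ∑ p ∈ A, ∑ q ∈ A, (inner ℂ (w p) (w q) : ℂ).re
      = ∑ p ∈ A, ∑ q ∈ A.filter (fun q => near (c p) (c q)), (inner ℂ (w p) (w q) : ℂ).re
        + ∑ p ∈ A, ∑ q ∈ A.filter (fun q => ¬ near (c p) (c q)),
            (inner ℂ (w p) (w q) : ℂ).re := by
    rw [← Finset.sum_add_distrib]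
    refine Finset.sum_congr rfl fun p _ => ?_
    rw [Finset.sum_filter_add_sum_filter_not]
  have h3 : ∑ p ∈ A, ∑ q ∈ A.filter (fun q => ¬ near (c p) (c q)),
      (inner ℂ (w p) (w q) : ℂ).re ≤ B * (A.card : ℝ) := by
    refine le_trans (Finset.sum_le_sum fun p _ => Finset.sum_le_sum fun q _ => ?_) hoff
    exact le_trans (le_abs_self _) (Complex.abs_re_le_norm _)
  have h4 : ∑ p ∈ A, ∑ q ∈ A.filter (fun q => near (c p) (c q)), (inner ℂ (w p) (w q) : ℂ).re
      = ∑ r ∈ R, ∑ s ∈ R, if near r s then (inner ℂ (G r) (G s) : ℂ).re else 0 := by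
    rw [← Finset.sum_fiberwise_of_maps_to hmaps]
    refine Finset.sum_congr rfl fun r _ => ?_
    have h5 : ∀ p ∈ A.filter (fun p => c p = r),
        ∑ q ∈ A.filter (fun q => near (c p) (c q)), (inner ℂ (w p) (w q) : ℂ).re
        = ∑ s ∈ R, if near r s then (inner ℂ (w p) (G s) : ℂ).re else 0 := by
      intro p hp
      have hpr : c p = r := (Finset.mem_filter.mp hp).2
      rw [Finset.sum_filter, ← Finset.sum_fiberwise_of_maps_to hmaps]
      refine Finset.sum_congr rfl fun s _ => ?_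
      by_cases hrs : near r s
      · rw [if_pos hrs]
        simp only [hG, inner_sum]
        rw [Complex.re_sum]
        refine Finset.sum_congr rfl fun q hq => ?_
        have hqs : c q = s := (Finset.mem_filter.mp hq).2
        rw [hpr, hqs, if_pos hrs]
      · rw [if_neg hrs]
        refine Finset.sum_eq_zero fun q hq => ?_
        have hqs : c q = s := (Finset.mem_filter.mp hq).2
        rw [hpr, hqs, if_neg hrs]
    rw [Finset.sum_congr rfl h5, Finset.sum_comm]
    refine Finset.sum_congr rfl fun s _ => ?_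
    by_cases hrs : near r s
    · simp only [if_pos hrs]
      simp only [hG, sum_inner]
      rw [Complex.re_sum]
    · simp only [if_neg hrs, Finset.sum_const_zero]
  have h6 : ∑ r ∈ R, ∑ s ∈ R, (if near r s then (inner ℂ (G r) (G s) : ℂ).re else 0)
      ≤ ∑ r ∈ R, ∑ s ∈ R, (if near r s then (‖G r‖ ^ 2 + ‖G s‖ ^ 2) / 2 else 0) := by
    refine Finset.sum_le_sum fun r _ => Finset.sum_le_sum fun s _ => ?_
    by_cases hrs : near r s
    · rw [if_pos hrs, if_pos hrs]
      have h7 : (inner ℂ (G r) (G s) : ℂ).re ≤ ‖G r‖ * ‖G s‖ :=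
        le_trans (le_trans (le_abs_self _) (Complex.abs_re_le_norm _)) (norm_inner_le_norm _ _)
      nlinarith [sq_nonneg (‖G r‖ - ‖G s‖)]
    · rw [if_neg hrs, if_neg hrs]
  have hiff : ∀ r s, near r s ↔ near s r := fun r s => ⟨hsym r s, hsym s r⟩
  have h8 : ∑ r ∈ R, ∑ s ∈ R, (if near r s then (‖G r‖ ^ 2 + ‖G s‖ ^ 2) / 2 else 0)
      = ∑ r ∈ R, ∑ s ∈ R, (if near r s then ‖G r‖ ^ 2 else 0) := by
    have h9 : ∑ r ∈ R, ∑ s ∈ R, (if near r s then ‖G s‖ ^ 2 else 0)
        = ∑ r ∈ R, ∑ s ∈ R, (if near r s then ‖G r‖ ^ 2 else 0) := by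
      rw [Finset.sum_comm]
      refine Finset.sum_congr rfl fun r _ => Finset.sum_congr rfl fun s _ => ?_
      by_cases hrs : near r s
      · rw [if_pos hrs, if_pos ((hiff r s).1 hrs)]
      · rw [if_neg hrs, if_neg (fun h => hrs ((hiff r s).2 h))]
    have h10 : ∑ r ∈ R, ∑ s ∈ R, (if near r s then (‖G r‖ ^ 2 + ‖G s‖ ^ 2) / 2 else 0)
        = (∑ r ∈ R, ∑ s ∈ R, (if near r s then ‖G r‖ ^ 2 else 0)
          + ∑ r ∈ R, ∑ s ∈ R, (if near r s then ‖G s‖ ^ 2 else 0)) / 2 := by
      rw [← Finset.sum_add_distrib, Finset.sum_div]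
      refine Finset.sum_congr rfl fun r _ => ?_
      rw [← Finset.sum_add_distrib, Finset.sum_div]
      refine Finset.sum_congr rfl fun s _ => ?_
      by_cases hrs : near r s
      · rw [if_pos hrs, if_pos hrs, if_pos hrs]
      · rw [if_neg hrs, if_neg hrs, if_neg hrs]; norm_num
    rw [h10, h9]; ring
  have h11 : ∑ r ∈ R, ∑ s ∈ R, (if near r s then ‖G r‖ ^ 2 else 0)
      ≤ N * D * (A.card : ℝ) := by
    have h12 : ∀ r ∈ R, ∑ s ∈ R, (if near r s then ‖G r‖ ^ 2 else 0)
        ≤ N * (D * ((A.filter (fun p => c p = r)).card : ℝ)) := by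
      intro r hr
      rw [← Finset.sum_filter, Finset.sum_const, nsmul_eq_mul]
      have h13 := hN r hr
      have h14 : ‖G r‖ ^ 2 ≤ D * ((A.filter (fun p => c p = r)).card : ℝ) := hdiag r hr
      exact mul_le_mul h13 h14 (sq_nonneg _) hN0
    refine le_trans (Finset.sum_le_sum h12) (le_of_eq ?_)
    rw [← Finset.mul_sum, ← Finset.mul_sum]
    have h15 : (A.card : ℝ) = ∑ r ∈ R, ((A.filter (fun p => c p = r)).card : ℝ) := by
      rw [Finset.card_eq_sum_card_fiberwise hmaps]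
      push_cast
      rfl
    rw [h15]; ring
  rw [h1, h2, h4]
  have h16 := le_trans h6 (h8.le.trans h11)
  nlinarith [h3, h16]

end Pool.LibTP53
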