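import Pool.Agent.LibTP53.Defs
import Pool.Agent.LibSR53.K1
import Pool.Agent.LibSR53.K4
import Pool.Agent.LibSR53.K5

/-
PLAN (MB). K x = int ex x xi m xi, m integrable (bounded, measurable, bounded support). (1) continuous: continuous_of_dominated. (2) norm <= int |m|. (3) radial: linear isometry equivalence U with
U x = y (reflection), m radial, volume invariant (k4_inv in LibSR53.K4: copy). (4) int eta(x-y) K y dy = int m xi (int eta (x-y) ex y xi dy) dxi (Fubini: |eta||m| integrable on the product) and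
int eta(x-y) ex y xi dy = ex x xi int eta w ex (-w) xi dw (substitution w = x - y) = ex x xi for m xi /= 0 (heta). (5) for f Schwartz: int K(x-y) f y dy = int m xi ex x xi (int ex (-y) xi f y dy).
-/

set_option autoImplicit false

noncomputable section

open MeasureTheory Metric Set Filter

namespace Pool.LibTP53

open Pool.LibSR53

private theorem MB_norm_ex {d : ℕ} (v ξ : E d) : ‖ex v ξ‖ = 1 := K5_ex_norm v ξ

private theorem MB_inv {d : ℕ} (φ : E d → ℂ) (hφ : ∀ ξ ξ', ‖ξ‖ = ‖ξ'‖ → φ ξ = φ ξ')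
    (v w : E d) (h : ‖v‖ = ‖w‖) : ∫ ξ, ex v ξ * φ ξ = ∫ ξ, ex w ξ * φ ξ := by
  set U : E d ≃ₗᵢ[ℝ] E d := (ℝ ∙ (v - w))ᗮ.reflection with hU
  have h1 : U v = w := Submodule.reflection_sub h
  rw [← U.measurePreserving.integral_comp U.toHomeomorph.measurableEmbedding
    (fun ξ => ex w ξ * φ ξ)]
  refine integral_congr_ae (Eventually.of_forall fun ξ => ?_)
  beta_reduce
  have h2 : ex w (U ξ) = ex v ξ := by
    unfold ex
    rw [← h1, U.inner_map_map]
  rw [h2, hφ (U ξ) ξ (U.norm_map ξ)]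

private theorem MB_swap {d : ℕ} (k : E d → E d → ℂ)
    (hk : Continuous fun p : E d × E d => k p.1 p.2) (hb : ∀ z ξ, ‖k z ξ‖ ≤ 1) (g m : E d → ℂ)
    (hg : Integrable g) (hm : Integrable m) :
    ∫ y, ∫ ξ, k y ξ * (g y * m ξ) = ∫ ξ, ∫ y, k y ξ * (g y * m ξ) := by
  have h1 : Integrable (Function.uncurry fun y ξ => k y ξ * (g y * m ξ)) (volume.prod volume) :=
    (hg.mul_prod hm).bdd_mul (f := fun p : E d × E d => k p.1 p.2) hk.aestronglyMeasurable
      (c := 1) (Eventually.of_forall fun p => hb p.1 p.2)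
  exact integral_integral_swap h1

/-- the kernel of a multiplier supported in an annulus -/
theorem kernel_facts (d : ℕ) (ε A : ℝ) (η : SchwartzMap (E d) ℂ)
    (hη : ∀ ξ : E d, ε ≤ ‖ξ‖ → ‖ξ‖ ≤ A → ∫ w, ex (-w) ξ * η w = 1)
    (m : E d → ℂ) (hm : Measurable m) (hmb : ∃ B : ℝ, ∀ ξ, ‖m ξ‖ ≤ B)
    (hrad : ∀ ξ ξ' : E d, ‖ξ‖ = ‖ξ'‖ → m ξ = m ξ')
    (hsupp : ∀ ξ, m ξ ≠ 0 → ε ≤ ‖ξ‖ ∧ ‖ξ‖ ≤ A) :
    Continuous (fun x => ∫ ξ, ex x ξ * m ξ) ∧
    (∃ B : ℝ, ∀ x : E d, ‖∫ ξ, ex x ξ * m ξ‖ ≤ B) ∧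
    (∀ x y : E d, ‖x‖ = ‖y‖ → ∫ ξ, ex x ξ * m ξ = ∫ ξ, ex y ξ * m ξ) ∧
    (∀ x : E d, ∫ y, η (x - y) * ∫ ξ, ex y ξ * m ξ = ∫ ξ, ex x ξ * m ξ) ∧
    (∀ (f : SchwartzMap (E d) ℂ) (x : E d),
      ∫ y, (∫ ξ, ex (x - y) ξ * m ξ) * f y =
        ∫ ξ, ex x ξ * (m ξ * ∫ y, ex (-y) ξ * f y)) := by
  obtain ⟨B, hB⟩ := hmb
  have hmi : Integrable m := by
    have h1 : IntegrableOn m (closedBall (0 : E d) A) :=
      Measure.integrableOn_of_bounded measure_closedBall_lt_top.ne hm.aestronglyMeasurable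
        (Eventually.of_forall hB)
    refine (integrableOn_iff_integrable_of_support_subset fun ξ hξ => ?_).1 h1
    rw [mem_closedBall_zero_iff]
    exact (hsupp ξ hξ).2
  have hexc : Continuous fun p : E d × E d => ex p.1 p.2 := by
    unfold ex
    fun_prop
  have hex2 : ∀ x : E d, Continuous fun ξ : E d => ex x ξ := fun x =>
    hexc.comp (by fun_prop : Continuous fun ξ : E d => (x, ξ))
  have hex1 : ∀ ξ : E d, Continuous fun x : E d => ex x ξ := fun ξ =>
    hexc.comp (by fun_prop : Continuous fun x : E d => (x, ξ))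
  have hnorm : ∀ x ξ : E d, ‖ex x ξ * m ξ‖ = ‖m ξ‖ := fun x ξ => by
    rw [norm_mul, MB_norm_ex, one_mul]
  refine ⟨?_, ⟨∫ ξ, ‖m ξ‖, fun x => ?_⟩, fun x y hxy => MB_inv m hrad x y hxy, fun x => ?_,
    fun f x => ?_⟩
  · refine continuous_of_dominated (bound := fun ξ => ‖m ξ‖) (fun x => ?_) (fun x => ?_)
      hmi.norm (Eventually.of_forall fun ξ => ?_)
    · exact ((hex2 x).aestronglyMeasurable).mul hmi.1
    · exact Eventually.of_forall fun ξ => (hnorm x ξ).le
    · exact (hex1 ξ).mul continuous_const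
  · refine (norm_integral_le_integral_norm _).trans (le_of_eq ?_)
    exact integral_congr_ae (Eventually.of_forall fun ξ => hnorm x ξ)
  · have hg : Integrable fun y : E d => η (x - y) := (η.integrable).comp_sub_left x
    have h1 := MB_swap (fun y ξ => ex y ξ) hexc (fun y ξ => (MB_norm_ex y ξ).le)
      (fun y => η (x - y)) m hg hmi
    have h2 : ∫ y, η (x - y) * ∫ ξ, ex y ξ * m ξ = ∫ y, ∫ ξ, ex y ξ * (η (x - y) * m ξ) := by
      refine integral_congr_ae (Eventually.of_forall fun y => ?_)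
      beta_reduce
      rw [← integral_const_mul]
      refine integral_congr_ae (Eventually.of_forall fun ξ => ?_)
      beta_reduce
      ring
    rw [h2, h1]
    refine integral_congr_ae (Eventually.of_forall fun ξ => ?_)
    beta_reduce
    by_cases h0 : m ξ = 0
    · simp [h0]
    · have h3 : ∫ y, ex y ξ * (η (x - y) * m ξ) = (∫ y, ex y ξ * η (x - y)) * m ξ := by
        rw [← integral_mul_const]
        refine integral_congr_ae (Eventually.of_forall fun y => ?_)
        beta_reduce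
        ring
      have h4 : ∫ y, ex y ξ * η (x - y) = ∫ w, ex (x - w) ξ * η w := by
        rw [← integral_sub_left_eq_self (fun w => ex (x - w) ξ * η w) volume x]
        refine integral_congr_ae (Eventually.of_forall fun y => ?_)
        beta_reduce
        rw [sub_sub_cancel]
      have h5 : ∫ w, ex (x - w) ξ * η w = ex x ξ * ∫ w, ex (-w) ξ * η w := by
        rw [← integral_const_mul]
        refine integral_congr_ae (Eventually.of_forall fun w => ?_)
        beta_reduce
        rw [← K5_ex_mul]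
        ring
      rw [h3, h4, h5, hη ξ (hsupp ξ h0).1 (hsupp ξ h0).2, mul_one]
  · have h1 := MB_swap (fun y ξ => ex (x - y) ξ)
      (hexc.comp (by fun_prop : Continuous fun p : E d × E d => (x - p.1, p.2)))
      (fun y ξ => (MB_norm_ex (x - y) ξ).le) (fun y => f y) m f.integrable hmi
    have h2 : ∫ y, (∫ ξ, ex (x - y) ξ * m ξ) * f y = ∫ y, ∫ ξ, ex (x - y) ξ * (f y * m ξ) := by
      refine integral_congr_ae (Eventually.of_forall fun y => ?_)
      beta_reduce
      rw [← integral_mul_const]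
      refine integral_congr_ae (Eventually.of_forall fun ξ => ?_)
      beta_reduce
      ring
    rw [h2, h1]
    refine integral_congr_ae (Eventually.of_forall fun ξ => ?_)
    beta_reduce
    rw [← integral_const_mul, ← integral_const_mul]
    refine integral_congr_ae (Eventually.of_forall fun y => ?_)
    beta_reduce
    rw [← K5_ex_mul]
    ring

end Pool.LibTP53
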