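import Pool.Agent.LibTP53.Defs
import Pool.Agent.LibSR53.F3

/-
PLAN (GB). Pointwise (Jensen/Hoelder with the measure |h(x-y)| dy, or ENNReal.lintegral_mul_le_Lp_mul_Lq applied to |h|^(1/p') and |h|^(1/p)|f|):
|int h(x-y) f y|^p <= (int |h|)^(p-1) int |h(x-y)| |f y|^p dy; integrate in x (Tonelli, lintegral_lintegral_swap; translation and reflection invariance): <= (int |h|)^p int |f|^p.
eLpNorm_eq_lintegral_rpow_enorm_toReal.
-/

set_option autoImplicit false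

noncomputable section

open MeasureTheory Metric Set Filter

namespace Pool.LibTP53

open Pool.LibSR53

private theorem GB_pt (d : ℕ) (p q : ℝ) (hpq : p.HolderConjugate q) (h f : E d → ℂ)
    (hh : AEStronglyMeasurable h volume) (hf : AEStronglyMeasurable f volume) (x : E d) :
    ‖∫ y, h (x - y) * f y‖ₑ ^ p ≤
      (∫⁻ y, ‖h y‖ₑ) ^ (p / q) * ∫⁻ y, ‖h (x - y)‖ₑ * ‖f y‖ₑ ^ p := by
  have hp : 0 < p := hpq.pos
  have hq : 0 < q := hpq.symm.pos
  have hqm : AEMeasurable (fun y => ‖h (x - y)‖ₑ) volume :=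
    (hh.comp_quasiMeasurePreserving
      (quasiMeasurePreserving_sub_left_of_right_invariant volume x)).enorm
  have hfm : AEMeasurable (fun y => ‖f y‖ₑ) volume := hf.enorm
  have e1 : ‖∫ y, h (x - y) * f y‖ₑ ≤ ∫⁻ y, ‖h (x - y)‖ₑ * ‖f y‖ₑ := by
    refine (enorm_integral_le_lintegral_enorm _).trans (le_of_eq ?_)
    refine lintegral_congr fun y => ?_
    rw [enorm_mul]
  have e2 : ∫⁻ y, ‖h (x - y)‖ₑ * ‖f y‖ₑ ≤
      (∫⁻ y, ‖h (x - y)‖ₑ) ^ (1 / q) * (∫⁻ y, ‖h (x - y)‖ₑ * ‖f y‖ₑ ^ p) ^ (1 / p) := by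
    have e3 := ENNReal.lintegral_mul_le_Lp_mul_Lq (volume : Measure (E d)) hpq.symm
      (f := fun y => ‖h (x - y)‖ₑ ^ (1 / q)) (g := fun y => ‖h (x - y)‖ₑ ^ (1 / p) * ‖f y‖ₑ)
      (hqm.pow_const _) ((hqm.pow_const _).mul hfm)
    have e4 : (∫⁻ y, ‖h (x - y)‖ₑ * ‖f y‖ₑ) =
        ∫⁻ y, ((fun y => ‖h (x - y)‖ₑ ^ (1 / q)) * fun y => ‖h (x - y)‖ₑ ^ (1 / p) * ‖f y‖ₑ) y := by
      refine lintegral_congr fun y => ?_
      simp only [Pi.mul_apply]
      rw [← mul_assoc, ← ENNReal.rpow_add_of_nonneg _ _ (by positivity) (by positivity)]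
      rw [show 1 / q + 1 / p = 1 by
        have := hpq.symm.inv_add_inv_eq_one
        simpa [one_div] using this]
      rw [ENNReal.rpow_one]
    rw [e4]
    refine e3.trans (le_of_eq ?_)
    congr 1
    · congr 1
      refine lintegral_congr fun y => ?_
      rw [← ENNReal.rpow_mul, one_div, inv_mul_cancel₀ hq.ne', ENNReal.rpow_one]
    · congr 1
      refine lintegral_congr fun y => ?_
      rw [ENNReal.mul_rpow_of_nonneg _ _ hp.le, ← ENNReal.rpow_mul, one_div,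
        inv_mul_cancel₀ hp.ne', ENNReal.rpow_one]
  have e5 : (∫⁻ y, ‖h (x - y)‖ₑ) = ∫⁻ y, ‖h y‖ₑ :=
    lintegral_sub_left_eq_self (fun y => ‖h y‖ₑ) x
  calc ‖∫ y, h (x - y) * f y‖ₑ ^ p
      ≤ ((∫⁻ y, ‖h (x - y)‖ₑ) ^ (1 / q) *
          (∫⁻ y, ‖h (x - y)‖ₑ * ‖f y‖ₑ ^ p) ^ (1 / p)) ^ p :=
        ENNReal.rpow_le_rpow (e1.trans e2) hp.le
    _ = _ := by
        rw [ENNReal.mul_rpow_of_nonneg _ _ hp.le, ← ENNReal.rpow_mul, ← ENNReal.rpow_mul, e5]
        rw [one_div_mul_cancel hp.ne', ENNReal.rpow_one, one_div_mul_eq_div]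

/-- Young inequality L1 * Lp -/
theorem young_L1 (d : ℕ) (p : ℝ) (hp : 1 < p) (h f : E d → ℂ)
    (hh : AEStronglyMeasurable h volume) (hf : AEStronglyMeasurable f volume) :
    eLpNorm (fun x => ∫ y, h (x - y) * f y) (ENNReal.ofReal p) volume ≤
      (∫⁻ x, ‖h x‖ₑ) * eLpNorm f (ENNReal.ofReal p) volume := by
  have hp0 : 0 < p := by linarith
  have hpq : p.HolderConjugate (Real.conjExponent p) := Real.HolderConjugate.conjExponent hp
  set q := Real.conjExponent p with hq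
  have hq0 : 0 < q := hpq.symm.pos
  have hne : ENNReal.ofReal p ≠ 0 := by simpa using hp0
  have htop : ENNReal.ofReal p ≠ ⊤ := ENNReal.ofReal_ne_top
  rw [eLpNorm_eq_lintegral_rpow_enorm_toReal hne htop,
    eLpNorm_eq_lintegral_rpow_enorm_toReal hne htop, ENNReal.toReal_ofReal hp0.le]
  set A := ∫⁻ x, ‖h x‖ₑ with hA
  have hjm : AEMeasurable (fun z : E d × E d => ‖h (z.1 - z.2)‖ₑ * ‖f z.2‖ₑ ^ p)
      (volume.prod volume) := by
    refine AEMeasurable.mul ?_ ?_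
    · exact (hh.comp_quasiMeasurePreserving
        (quasiMeasurePreserving_sub_of_right_invariant volume volume)).enorm
    · exact (hf.comp_snd.enorm).pow_const _
  have key : ∫⁻ x, ‖∫ y, h (x - y) * f y‖ₑ ^ p ≤ A ^ p * ∫⁻ y, ‖f y‖ₑ ^ p := by
    calc ∫⁻ x, ‖∫ y, h (x - y) * f y‖ₑ ^ p
        ≤ ∫⁻ x, A ^ (p / q) * ∫⁻ y, ‖h (x - y)‖ₑ * ‖f y‖ₑ ^ p :=
          lintegral_mono fun x => GB_pt d p q hpq h f hh hf x
      _ = A ^ (p / q) * ∫⁻ x, ∫⁻ y, ‖h (x - y)‖ₑ * ‖f y‖ₑ ^ p := by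
          refine lintegral_const_mul'' _ ?_
          exact hjm.lintegral_prod_right'
      _ = A ^ (p / q) * ∫⁻ y, ∫⁻ x, ‖h (x - y)‖ₑ * ‖f y‖ₑ ^ p := by
          rw [lintegral_lintegral_swap hjm]
      _ = A ^ (p / q) * ∫⁻ y, A * ‖f y‖ₑ ^ p := by
          congr 1
          refine lintegral_congr fun y => ?_
          have hm : AEMeasurable (fun x => ‖h (x - y)‖ₑ) volume :=
            (hh.comp_quasiMeasurePreserving
              (measurePreserving_sub_right volume y).quasiMeasurePreserving).enorm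
          rw [lintegral_mul_const'' _ hm]
          congr 1
          exact lintegral_sub_right_eq_self (fun x => ‖h x‖ₑ) y
      _ = A ^ (p / q) * (A * ∫⁻ y, ‖f y‖ₑ ^ p) := by
          rw [lintegral_const_mul'' _ (hf.enorm.pow_const _)]
      _ = A ^ p * ∫⁻ y, ‖f y‖ₑ ^ p := by
          rw [← mul_assoc]
          congr 1
          have : p / q + 1 = p := by
            have h1 := hpq.inv_add_inv_eq_one
            field_simp at h1 ⊢
            nlinarith
          conv_rhs => rw [← this]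
          rw [ENNReal.rpow_add_of_nonneg _ _ (by positivity) (by norm_num), ENNReal.rpow_one]
  calc (∫⁻ x, ‖∫ y, h (x - y) * f y‖ₑ ^ p) ^ (1 / p)
      ≤ (A ^ p * ∫⁻ y, ‖f y‖ₑ ^ p) ^ (1 / p) :=
        ENNReal.rpow_le_rpow key (by positivity)
    _ = _ := by
        rw [ENNReal.mul_rpow_of_nonneg _ _ (by positivity), ← ENNReal.rpow_mul,
          mul_one_div_cancel hp0.ne', ENNReal.rpow_one]

end Pool.LibTP53
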