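import Pool.Agent.LibTP53.GB

/-
PLAN (GF). young_L1 with h w = int_z eta (w - z) K1 z, K1 = indicator of the closed unit ball times K: int |h| <= (int |eta|)(int |K1|) (Tonelli), and int |K1| <= |ball|^(1-1/p) |K|_p
(Hoelder: eLpNorm_le_eLpNorm_mul_rpow_measure_univ on the restricted measure, or lintegral version). Constant C = 1 + (int |eta|) |ball|^(1-1/p). h is AEStronglyMeasurable
(continuous, or integral of a jointly measurable function).
-/

set_option autoImplicit false

noncomputable section

open MeasureTheory Metric Set Filter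

namespace Pool.LibTP53

open Pool.LibSR53

/-- the part of the kernel in the unit ball -/
theorem low_part (d : ℕ) (p : ℝ) (hp1 : 1 < p) (η : SchwartzMap (E d) ℂ) : ∃ C : ℝ, 0 < C ∧
    ∀ (K f : E d → ℂ), Continuous K → MemLp f (ENNReal.ofReal p) volume →
    eLpNorm (fun x => ∫ y, (∫ z, η (x - y - z) * ({z : E d | ‖z‖ ≤ 1}.indicator K z)) * f y)
      (ENNReal.ofReal p) volume ≤
      ENNReal.ofReal C * eLpNorm K (ENNReal.ofReal p) volume *
        eLpNorm f (ENNReal.ofReal p) volume := by
  classical
  have hp0 : 0 < p := by linarith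
  set B : Set (E d) := {z : E d | ‖z‖ ≤ 1} with hB
  have hBm : MeasurableSet B := (isClosed_le continuous_norm continuous_const).measurableSet
  have hBfin : volume B ≠ ⊤ := by
    have : B = Metric.closedBall 0 1 := by ext z; simp [hB]
    rw [this]
    exact measure_closedBall_lt_top.ne
  set V : ENNReal := (volume B) ^ (1 - 1 / p) with hV
  have hVfin : V ≠ ⊤ := by
    rw [hV]
    refine ENNReal.rpow_ne_top_of_nonneg ?_ hBfin
    rw [sub_nonneg, div_le_one hp0]
    exact hp1.le
  set N : ENNReal := ∫⁻ x, ‖η x‖ₑ with hN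
  have hNfin : N ≠ ⊤ := by
    have : Integrable (fun x => η x) (volume : Measure (E d)) := η.integrable
    exact this.2.ne
  refine ⟨1 + (N * V).toReal, by positivity, fun K f hK hf => ?_⟩
  have hK1 : StronglyMeasurable (B.indicator K) := hK.stronglyMeasurable.indicator hBm
  have hη : StronglyMeasurable (fun x : E d => η x) := η.continuous.stronglyMeasurable
  have hjm : StronglyMeasurable (fun w : E d × E d => η (w.1 - w.2) * B.indicator K w.2) := by
    refine StronglyMeasurable.mul ?_ ?_
    · exact hη.comp_measurable (measurable_fst.sub measurable_snd)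
    · exact hK1.comp_measurable measurable_snd
  set h : E d → ℂ := fun w => ∫ z, η (w - z) * B.indicator K z with hh
  have hhm : AEStronglyMeasurable h volume := by
    have : StronglyMeasurable h := hjm.integral_prod_right'
    exact this.aestronglyMeasurable
  have hY := young_L1 d p hp1 h f hhm hf.1
  have h1 : ∫⁻ w, ‖h w‖ₑ ≤ N * ∫⁻ z, ‖B.indicator K z‖ₑ := by
    have hjm2 : AEMeasurable (fun w : E d × E d => ‖η (w.1 - w.2)‖ₑ * ‖B.indicator K w.2‖ₑ)
        (volume.prod volume) := by
      have a1 : AEMeasurable (fun w : E d × E d => ‖η (w.1 - w.2)‖ₑ) (volume.prod volume) :=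
        (hη.comp_measurable (measurable_fst.sub measurable_snd)).enorm.aemeasurable
      have a2 : AEMeasurable (fun w : E d × E d => ‖B.indicator K w.2‖ₑ)
          (volume.prod volume) :=
        (hK1.comp_measurable measurable_snd).enorm.aemeasurable
      exact a1.mul a2
    calc ∫⁻ w, ‖h w‖ₑ ≤ ∫⁻ w, ∫⁻ z, ‖η (w - z)‖ₑ * ‖B.indicator K z‖ₑ := by
          refine lintegral_mono fun w => ?_
          refine (enorm_integral_le_lintegral_enorm _).trans (le_of_eq ?_)
          refine lintegral_congr fun z => ?_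
          rw [enorm_mul]
      _ = ∫⁻ z, ∫⁻ w, ‖η (w - z)‖ₑ * ‖B.indicator K z‖ₑ := lintegral_lintegral_swap hjm2
      _ = ∫⁻ z, N * ‖B.indicator K z‖ₑ := by
          refine lintegral_congr fun z => ?_
          have hm : AEMeasurable (fun w => ‖η (w - z)‖ₑ) volume :=
            (hη.comp_measurable (measurable_id.sub_const z)).enorm.aemeasurable
          rw [lintegral_mul_const'' _ hm]
          congr 1
          exact lintegral_sub_right_eq_self (fun x => ‖η x‖ₑ) z
      _ = N * ∫⁻ z, ‖B.indicator K z‖ₑ := lintegral_const_mul'' _ hK1.enorm.aemeasurable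
  have h2 : ∫⁻ z, ‖B.indicator K z‖ₑ ≤ eLpNorm K (ENNReal.ofReal p) volume * V := by
    have e1 : ∫⁻ z, ‖B.indicator K z‖ₑ = eLpNorm K 1 (volume.restrict B) := by
      rw [← eLpNorm_one_eq_lintegral_enorm, eLpNorm_indicator_eq_eLpNorm_restrict hBm]
    rw [e1]
    have e2 := eLpNorm_le_eLpNorm_mul_rpow_measure_univ (μ := volume.restrict B)
      (p := 1) (q := ENNReal.ofReal p) (f := K)
      (by rw [← ENNReal.ofReal_one]; exact ENNReal.ofReal_le_ofReal hp1.le)
      hK.stronglyMeasurable.aestronglyMeasurable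
    refine e2.trans ?_
    refine mul_le_mul' (eLpNorm_mono_measure _ Measure.restrict_le_self) (le_of_eq ?_)
    rw [Measure.restrict_apply_univ, hV]
    congr 1
    rw [ENNReal.toReal_one, ENNReal.toReal_ofReal hp0.le, div_one]
  calc eLpNorm (fun x => ∫ y, (∫ z, η (x - y - z) * B.indicator K z) * f y)
        (ENNReal.ofReal p) volume
      ≤ (∫⁻ x, ‖h x‖ₑ) * eLpNorm f (ENNReal.ofReal p) volume := hY
    _ ≤ (N * (eLpNorm K (ENNReal.ofReal p) volume * V)) * eLpNorm f (ENNReal.ofReal p) volume :=
        mul_le_mul' (h1.trans (mul_le_mul' le_rfl h2)) le_rfl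
    _ = (N * V) * eLpNorm K (ENNReal.ofReal p) volume * eLpNorm f (ENNReal.ofReal p) volume := by
        ring
    _ ≤ ENNReal.ofReal (1 + (N * V).toReal) * eLpNorm K (ENNReal.ofReal p) volume *
        eLpNorm f (ENNReal.ofReal p) volume := by
        refine mul_le_mul' (mul_le_mul' ?_ le_rfl) le_rfl
        have hfin : N * V ≠ ⊤ := ENNReal.mul_ne_top hNfin hVfin
        conv_lhs => rw [← ENNReal.ofReal_toReal hfin]
        exact ENNReal.ofReal_le_ofReal (by linarith)

end Pool.LibTP53
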