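import Pool.Agent.LibTP53.Defs

/-
PLAN (GE). f has a measurable representative (hf.1.mk); all integrals in y are unchanged. e0 a unit vector, K0 r = if 1 < r and r <= n then K (r e0) else 0, so K0 |z| = K z for 1 < |z| <= n (hrad),
f_n y = if |y| <= n and |f y| <= n then f y else 0. Apply h to K0, f_n: bounded by C |K|_p |f|_p (eLpNorm_mono: |K0|z|| <= |K z|, |f_n| <= |f|). For every x the function
T_n x = int_y (int_z eta (x-y-z) K0|z|) f_n y tends to T x = int_y (int_z eta(x-y-z) 1_{1<|z|} K z) f y: inner integrals converge (dominated by |eta||K|, K bounded integrable), outer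
dominated by M(x-y)|f y|, M = |eta| * |K| (convolution) is bounded and integrable, hence in L^(p'), and f in L^p: Hoelder (MemLp.integrable_mul). Fatou:
Lp.eLpNorm_lim_le_liminf_eLpNorm (T_n AEStronglyMeasurable: StronglyMeasurable.integral_prod_right' for the joint measurable integrand, or continuity).
-/

set_option autoImplicit false

noncomputable section

open MeasureTheory Metric Set Filter

namespace Pool.LibTP53

open Pool.LibSR53

/-- continuity of a convolution -/
private lemma GE_cont {d : ℕ} {a b : E d → ℂ} (ha : Integrable a) (hb : Continuous b) {B : ℝ}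
    (hB : ∀ x, ‖b x‖ ≤ B) : Continuous fun x => ∫ z, b (x - z) * a z := by
  have hbd : BddAbove (range fun x => ‖b x‖) := ⟨B, by rintro _ ⟨x, rfl⟩; exact hB x⟩
  have h := BddAbove.continuous_convolution_right_of_integrable (μ := volume)
    (ContinuousLinearMap.mul ℝ ℂ) hbd ha hb
  have e : (fun x => ∫ z, b (x - z) * a z) =
      MeasureTheory.convolution a b (ContinuousLinearMap.mul ℝ ℂ) volume := by
    funext x
    unfold MeasureTheory.convolution
    refine integral_congr_ae (Eventually.of_forall fun z => ?_)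
    simp only [ContinuousLinearMap.mul_apply']
    ring
  rw [e]
  exact h

/-- continuity and integrability of a real convolution -/
private lemma GE_real {d : ℕ} {a b : E d → ℝ} (ha : Integrable a) (hb : Continuous b) {B : ℝ}
    (hB : ∀ x, ‖b x‖ ≤ B) (hbi : Integrable b) :
    (Continuous fun x => ∫ z, b (x - z) * a z) ∧ Integrable fun x => ∫ z, b (x - z) * a z := by
  have hbd : BddAbove (range fun x => ‖b x‖) := ⟨B, by rintro _ ⟨x, rfl⟩; exact hB x⟩
  have h := BddAbove.continuous_convolution_right_of_integrable (μ := volume)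
    (ContinuousLinearMap.mul ℝ ℝ) hbd ha hb
  have h' := ha.integrable_convolution (μ := volume) (ContinuousLinearMap.mul ℝ ℝ) hbi
  have e : (fun x => ∫ z, b (x - z) * a z) =
      MeasureTheory.convolution a b (ContinuousLinearMap.mul ℝ ℝ) volume := by
    funext x
    unfold MeasureTheory.convolution
    refine integral_congr_ae (Eventually.of_forall fun z => ?_)
    simp only [ContinuousLinearMap.mul_apply']
    ring
  rw [e]
  exact ⟨h, h'⟩

/-- the limit of the double integrals -/
private lemma GE_lim {d : ℕ} {p : ℝ} (hp : 1 < p) {η K : E d → ℂ} (hη : Continuous η)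
    (hηi : Integrable η) {B : ℝ} (hB : ∀ x, ‖η x‖ ≤ B) (hKi : Integrable K)
    {kn : ℕ → E d → ℂ} {k : E d → ℂ} (hkm : ∀ n, AEStronglyMeasurable (kn n) volume)
    (hk : ∀ n z, ‖kn n z‖ ≤ ‖K z‖) (hkl : ∀ z, Tendsto (fun n => kn n z) atTop (nhds (k z)))
    {g : E d → ℂ} (hg : MemLp g (ENNReal.ofReal p) volume)
    {fn : ℕ → E d → ℂ} (hfm : ∀ n, AEStronglyMeasurable (fn n) volume)
    (hf : ∀ n z, ‖fn n z‖ ≤ ‖g z‖) (hfl : ∀ z, Tendsto (fun n => fn n z) atTop (nhds (g z)))
    (x : E d) :
    Tendsto (fun n => ∫ y, (∫ z, η (x - y - z) * kn n z) * fn n y) atTop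
      (nhds (∫ y, (∫ z, η (x - y - z) * k z) * g y)) := by
  have hB0 : 0 ≤ B := (norm_nonneg _).trans (hB 0)
  have hKn : Integrable fun z => ‖K z‖ := hKi.norm
  have hηn : Integrable fun z => ‖η z‖ := hηi.norm
  have hηc : Continuous fun z => ‖η z‖ := hη.norm
  have hBn : ∀ z, ‖(‖η z‖)‖ ≤ B := fun z => by rw [norm_norm]; exact hB z
  obtain ⟨hMc, hMi⟩ := GE_real hKn hηc hBn hηn
  have hηs : ∀ u : E d, AEStronglyMeasurable (fun z => η (u - z)) volume := fun u =>
    (hη.comp (continuous_const.sub continuous_id)).aestronglyMeasurable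
  have hηs' : ∀ u : E d, AEStronglyMeasurable (fun z => ‖η (u - z)‖) volume := fun u =>
    (hη.comp (continuous_const.sub continuous_id)).norm.aestronglyMeasurable
  have hbi : ∀ u : E d, Integrable fun z => ‖η (u - z)‖ * ‖K z‖ := fun u =>
    hKn.bdd_mul (c := B) (hηs' u) (Eventually.of_forall fun z => by
      rw [norm_norm]; exact hB _)
  have hMb : ∀ u : E d, ∫ z, ‖η (u - z)‖ * ‖K z‖ ≤ B * ∫ z, ‖K z‖ := by
    intro u
    rw [← integral_const_mul]
    exact integral_mono (hbi u) (hKn.const_mul B) fun z =>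
      mul_le_mul_of_nonneg_right (hB _) (norm_nonneg _)
  have hM0 : ∀ u : E d, 0 ≤ ∫ z, ‖η (u - z)‖ * ‖K z‖ := fun u =>
    integral_nonneg fun z => mul_nonneg (norm_nonneg _) (norm_nonneg _)
  have hkni : ∀ n, Integrable (kn n) := fun n =>
    hKi.mono (hkm n) (Eventually.of_forall (hk n))
  have hMn : ∀ (n : ℕ) (u : E d), ‖∫ z, η (u - z) * kn n z‖ ≤ ∫ z, ‖η (u - z)‖ * ‖K z‖ := by
    intro n u
    refine (norm_integral_le_integral_norm _).trans ?_
    refine integral_mono_of_nonneg (Eventually.of_forall fun z => norm_nonneg _) (hbi u)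
      (Eventually.of_forall fun z => ?_)
    show ‖η (u - z) * kn n z‖ ≤ ‖η (u - z)‖ * ‖K z‖
    rw [norm_mul]
    exact mul_le_mul_of_nonneg_left (hk n z) (norm_nonneg _)
  -- inner limit
  have hin : ∀ u : E d, Tendsto (fun n => ∫ z, η (u - z) * kn n z) atTop
      (nhds (∫ z, η (u - z) * k z)) := by
    intro u
    refine tendsto_integral_of_dominated_convergence (fun z => ‖η (u - z)‖ * ‖K z‖)
      (fun n => (hηs u).mul (hkm n)) (hbi u) (fun n => Eventually.of_forall fun z => ?_)
      (Eventually.of_forall fun z => (hkl z).const_mul _)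
    rw [norm_mul]
    exact mul_le_mul_of_nonneg_left (hk n z) (norm_nonneg _)
  -- integrability of the outer bound
  have hp0 : 0 < p := by linarith
  have hgp : Integrable fun y => ‖g y‖ ^ p := by
    have h := hg.integrable_norm_rpow (by simpa using hp0) ENNReal.ofReal_ne_top
    rwa [ENNReal.toReal_ofReal hp0.le] at h
  have hout : Integrable fun y => (∫ z, ‖η (x - y - z)‖ * ‖K z‖) * ‖g y‖ := by
    have hMx : Integrable fun y => ∫ z, ‖η (x - y - z)‖ * ‖K z‖ := hMi.comp_sub_left x
    refine ((hMx.add (hgp.const_mul (B * ∫ z, ‖K z‖)))).mono ?_ (Eventually.of_forall fun y => ?_)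
    · exact (hMc.comp (continuous_const.sub continuous_id)).aestronglyMeasurable.mul hg.1.norm
    · have h1 : ‖g y‖ ≤ 1 + ‖g y‖ ^ p := by
        rcases le_total ‖g y‖ 1 with h | h
        · have : 0 ≤ ‖g y‖ ^ p := Real.rpow_nonneg (norm_nonneg _) _
          linarith
        · have : ‖g y‖ ^ (1 : ℝ) ≤ ‖g y‖ ^ p := Real.rpow_le_rpow_of_exponent_le h hp.le
          rw [Real.rpow_one] at this
          linarith
      have h2 := hM0 (x - y)
      have h3 := hMb (x - y)
      have h4 : 0 ≤ ‖g y‖ ^ p := Real.rpow_nonneg (norm_nonneg _) _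
      have h5 : 0 ≤ B * ∫ z, ‖K z‖ := h2.trans h3
      rw [Real.norm_of_nonneg (mul_nonneg h2 (norm_nonneg _))]
      refine le_trans ?_ (Real.le_norm_self _)
      show _ ≤ (∫ z, ‖η (x - y - z)‖ * ‖K z‖) + B * (∫ z, ‖K z‖) * ‖g y‖ ^ p
      calc (∫ z, ‖η (x - y - z)‖ * ‖K z‖) * ‖g y‖
          ≤ (∫ z, ‖η (x - y - z)‖ * ‖K z‖) * (1 + ‖g y‖ ^ p) := mul_le_mul_of_nonneg_left h1 h2
        _ = (∫ z, ‖η (x - y - z)‖ * ‖K z‖) + (∫ z, ‖η (x - y - z)‖ * ‖K z‖) * ‖g y‖ ^ p := by
            ring
        _ ≤ _ := by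
            have := mul_le_mul_of_nonneg_right h3 h4
            linarith
  refine tendsto_integral_of_dominated_convergence
    (fun y => (∫ z, ‖η (x - y - z)‖ * ‖K z‖) * ‖g y‖) (fun n => ?_) hout
    (fun n => Eventually.of_forall fun y => ?_)
    (Eventually.of_forall fun y => (hin (x - y)).mul (hfl y))
  · exact (((GE_cont (hkni n) hη hB).comp
      (continuous_const.sub continuous_id)).aestronglyMeasurable).mul (hfm n)
  · rw [norm_mul]
    exact mul_le_mul (hMn n _) (hf n y) (norm_nonneg _) (hM0 _)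

/-- passage to general radial kernels and general f in Lp -/
theorem high_lim (d : ℕ) (hd : 2 ≤ d) (p : ℝ) (hp1 : 1 < p) (η : SchwartzMap (E d) ℂ) (C : ℝ)
    (h : ∀ (K0 : ℝ → ℂ), Measurable K0 → (∃ B : ℝ, ∀ r, ‖K0 r‖ ≤ B) →
      (∀ r, r ≤ 1 → K0 r = 0) → (∃ N : ℝ, ∀ r, N < r → K0 r = 0) →
      ∀ f : E d → ℂ, Measurable f → (∃ B : ℝ, ∀ x, ‖f x‖ ≤ B) → (∃ N : ℝ, ∀ x, N < ‖x‖ → f x = 0) →
      eLpNorm (fun x => ∫ y, (∫ z, η (x - y - z) * K0 ‖z‖) * f y) (ENNReal.ofReal p) volume ≤
        ENNReal.ofReal C * eLpNorm (fun z : E d => K0 ‖z‖) (ENNReal.ofReal p) volume *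
          eLpNorm f (ENNReal.ofReal p) volume)
    (K : E d → ℂ) (hK : Continuous K) (hKi : Integrable K) (hKb : ∃ B : ℝ, ∀ x, ‖K x‖ ≤ B)
    (hrad : ∀ x y : E d, ‖x‖ = ‖y‖ → K x = K y)
    (f : E d → ℂ) (hf : MemLp f (ENNReal.ofReal p) volume) :
    eLpNorm (fun x => ∫ y, (∫ z, η (x - y - z) * ({z : E d | 1 < ‖z‖}.indicator K z)) * f y)
      (ENNReal.ofReal p) volume ≤
      ENNReal.ofReal C * eLpNorm K (ENNReal.ofReal p) volume *
        eLpNorm f (ENNReal.ofReal p) volume := by
  classical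
  obtain ⟨B, hB⟩ := hKb
  set g := hf.1.mk f with hgdef
  have hgm : StronglyMeasurable g := hf.1.stronglyMeasurable_mk
  have hfg : f =ᵐ[volume] g := hf.1.ae_eq_mk
  have hgL : MemLp g (ENNReal.ofReal p) volume := (memLp_congr_ae hfg).1 hf
  rw [eLpNorm_congr_ae hfg]
  have e0 : (fun x => ∫ y, (∫ z, η (x - y - z) * ({z : E d | 1 < ‖z‖}.indicator K z)) * f y) =
      fun x => ∫ y, (∫ z, η (x - y - z) * ({z : E d | 1 < ‖z‖}.indicator K z)) * g y := by
    funext x
    refine integral_congr_ae (hfg.mono fun y hy => ?_)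
    show (∫ z, η (x - y - z) * ({z : E d | 1 < ‖z‖}.indicator K z)) * f y =
      (∫ z, η (x - y - z) * ({z : E d | 1 < ‖z‖}.indicator K z)) * g y
    rw [hy]
  rw [e0]
  obtain ⟨v, hv⟩ : ∃ v : E d, ‖v‖ = 1 :=
    ⟨EuclideanSpace.single ⟨0, by omega⟩ 1, by simp⟩
  set K0 : ℕ → ℝ → ℂ := fun n r => if 1 < r ∧ r ≤ n then K (r • v) else 0 with hK0
  have hB0 : 0 ≤ B := (norm_nonneg _).trans (hB 0)
  have hval : ∀ (n : ℕ) (z : E d), K0 n ‖z‖ = if 1 < ‖z‖ ∧ ‖z‖ ≤ n then K z else 0 := by
    intro n z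
    have h1 : K (‖z‖ • v) = K z := hrad _ _ (by rw [norm_smul, hv, mul_one, norm_norm])
    simp only [hK0, h1]
  set fn : ℕ → E d → ℂ := fun n y => if ‖y‖ ≤ n ∧ ‖g y‖ ≤ n then g y else 0 with hfn
  have hK0m : ∀ n, Measurable (K0 n) := by
    intro n
    refine Measurable.ite ?_ ?_ measurable_const
    · exact (measurableSet_Ioi).inter (measurableSet_Iic)
    · exact (hK.comp (continuous_id.smul continuous_const)).measurable
  have hfnm : ∀ n, Measurable (fn n) := by
    intro n
    refine Measurable.ite ?_ hgm.measurable measurable_const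
    exact (measurableSet_le measurable_norm measurable_const).inter
      (measurableSet_le hgm.measurable.norm measurable_const)
  have hbound : ∀ n, eLpNorm (fun x => ∫ y, (∫ z, η (x - y - z) * K0 n ‖z‖) * fn n y)
      (ENNReal.ofReal p) volume ≤ ENNReal.ofReal C * eLpNorm K (ENNReal.ofReal p) volume *
        eLpNorm g (ENNReal.ofReal p) volume := by
    intro n
    refine (h (K0 n) (hK0m n) ⟨B, fun r => ?_⟩ (fun r hr => ?_) ⟨n, fun r hr => ?_⟩ (fn n)
      (hfnm n) ⟨n, fun x => ?_⟩ ⟨n, fun x hx => ?_⟩).trans ?_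
    · simp only [hK0]
      split_ifs
      · exact hB _
      · rw [norm_zero]
        exact hB0
    · simp only [hK0]
      exact if_neg fun h' => absurd h'.1 (not_lt.2 hr)
    · simp only [hK0]
      exact if_neg fun h' => absurd h'.2 (not_le.2 hr)
    · simp only [hfn]
      split_ifs with h'
      · exact h'.2
      · rw [norm_zero]
        exact Nat.cast_nonneg n
    · simp only [hfn]
      exact if_neg fun h' => absurd h'.1 (not_le.2 hx)
    · gcongr
      · refine eLpNorm_mono fun z => ?_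
        rw [hval n z]
        split_ifs
        · exact le_rfl
        · rw [norm_zero]
          exact norm_nonneg _
      · refine eLpNorm_mono fun y => ?_
        simp only [hfn]
        split_ifs
        · exact le_rfl
        · rw [norm_zero]
          exact norm_nonneg _
  have hkm : ∀ n, AEStronglyMeasurable (fun z : E d => K0 n ‖z‖) volume := fun n =>
    ((hK0m n).comp measurable_norm).aestronglyMeasurable
  have hkK : ∀ (n : ℕ) (z : E d), ‖K0 n ‖z‖‖ ≤ ‖K z‖ := by
    intro n z
    rw [hval n z]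
    split_ifs
    · exact le_rfl
    · rw [norm_zero]
      exact norm_nonneg _
  have hfg' : ∀ (n : ℕ) (y : E d), ‖fn n y‖ ≤ ‖g y‖ := by
    intro n y
    simp only [hfn]
    split_ifs
    · exact le_rfl
    · rw [norm_zero]
      exact norm_nonneg _
  have hkl : ∀ z : E d, Tendsto (fun n => K0 n ‖z‖) atTop
      (nhds ({z : E d | 1 < ‖z‖}.indicator K z)) := by
    intro z
    obtain ⟨N, hN⟩ := exists_nat_ge ‖z‖
    refine tendsto_const_nhds.congr' ?_
    filter_upwards [eventually_ge_atTop N] with n hn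
    have hn' : ‖z‖ ≤ (n : ℝ) := hN.trans (by exact_mod_cast hn)
    rw [hval n z]
    by_cases h1 : 1 < ‖z‖
    · rw [if_pos ⟨h1, hn'⟩, Set.indicator_of_mem (show z ∈ {z : E d | 1 < ‖z‖} from h1)]
    · rw [if_neg fun h' => h1 h'.1, Set.indicator_of_notMem (show z ∉ {z : E d | 1 < ‖z‖} from h1)]
  have hfl : ∀ y : E d, Tendsto (fun n => fn n y) atTop (nhds (g y)) := by
    intro y
    obtain ⟨N, hN⟩ := exists_nat_ge (max ‖y‖ ‖g y‖)
    refine tendsto_const_nhds.congr' ?_
    filter_upwards [eventually_ge_atTop N] with n hn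
    have hn' : (N : ℝ) ≤ (n : ℝ) := by exact_mod_cast hn
    simp only [hfn]
    rw [if_pos ⟨(le_max_left _ _).trans (hN.trans hn'), (le_max_right _ _).trans (hN.trans hn')⟩]
  have hηB : ∀ x : E d, ‖η x‖ ≤ SchwartzMap.seminorm ℝ 0 0 η := fun x =>
    SchwartzMap.norm_le_seminorm ℝ η x
  have hTm : ∀ n, AEStronglyMeasurable
      (fun x => ∫ y, (∫ z, η (x - y - z) * K0 n ‖z‖) * fn n y) volume := by
    intro n
    have hki : Integrable fun z : E d => K0 n ‖z‖ :=
      hKi.mono (hkm n) (Eventually.of_forall (hkK n))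
    have hc := GE_cont hki η.continuous hηB
    have hfi : Integrable (fn n) := by
      have h1 : Integrable ((closedBall (0 : E d) n).indicator fun _ => (n : ℝ)) :=
        (integrable_indicator_iff isClosed_closedBall.measurableSet).2
          (integrableOn_const (measure_closedBall_lt_top.ne))
      refine h1.mono (hfnm n).aestronglyMeasurable (Eventually.of_forall fun y => ?_)
      simp only [hfn]
      by_cases h' : ‖y‖ ≤ n ∧ ‖g y‖ ≤ n
      · rw [if_pos h', Set.indicator_of_mem (by simpa using h'.1)]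
        exact h'.2.trans (Real.le_norm_self _)
      · rw [if_neg h', norm_zero]
        exact norm_nonneg _
    have hMB : ∀ u : E d, ‖(∫ z, η (u - z) * K0 n ‖z‖)‖ ≤
        ∫ z : E d, SchwartzMap.seminorm ℝ 0 0 η * ‖K0 n ‖z‖‖ := by
      intro u
      refine (norm_integral_le_integral_norm _).trans ?_
      refine integral_mono_of_nonneg (Eventually.of_forall fun z => norm_nonneg _)
        (hki.norm.const_mul _) (Eventually.of_forall fun z => ?_)
      show ‖η (u - z) * K0 n ‖z‖‖ ≤ _
      rw [norm_mul]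
      exact mul_le_mul_of_nonneg_right (hηB _) (norm_nonneg _)
    exact (GE_cont (b := fun u => ∫ z, η (u - z) * K0 n ‖z‖) hfi hc hMB).aestronglyMeasurable
  have hlim : ∀ x, Tendsto (fun n => ∫ y, (∫ z, η (x - y - z) * K0 n ‖z‖) * fn n y) atTop
      (nhds (∫ y, (∫ z, η (x - y - z) * ({z : E d | 1 < ‖z‖}.indicator K z)) * g y)) := fun x =>
    GE_lim hp1 η.continuous η.integrable hηB hKi (kn := fun n z => K0 n ‖z‖) hkm hkK hkl hgL
      (fun n => (hfnm n).aestronglyMeasurable) hfg' hfl x
  refine (Lp.eLpNorm_lim_le_liminf_eLpNorm hTm _ (Eventually.of_forall hlim)).trans ?_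
  refine (Filter.liminf_le_liminf (Eventually.of_forall hbound)).trans ?_
  rw [Filter.liminf_const]

end Pool.LibTP53
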