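import Pool.Agent.LibTP53.GD
import Pool.Agent.LibTP53.GE
import Pool.Agent.LibTP53.GF

/-
PLAN (GG). K = eta * K (hK) gives: K bounded (sup |eta| int |K|) and continuous (continuous_of_dominated: eta uniformly continuous/bounded, dominated by sup|eta| |K|). For f in L^p:
int K(x-y) f y = int (int eta(x-y-z) K z) f y = low + high (indicator of |z| <= 1 plus indicator of 1 < |z|; both double integrals converge absolutely: |eta|*|K| is bounded and
integrable, so in L^(p'), and f in L^p). eLpNorm_add_le (measurability as in GE), low_part, high_part + high_lim. Constant = sum (+1). For f not in L^p but measurable nothing is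
claimed. Lower bound: f = eta (Schwartz): int K(x-y) eta y = int eta (x-y) K y = K x (substitution y -> x-y), so |K|_p <= B |eta|_p <= (C B) with C >= |eta|_p (finite: eta.memLp).
-/

set_option autoImplicit false

noncomputable section

open MeasureTheory Metric Set Filter

namespace Pool.LibTP53

open Pool.LibSR53

/-- convolution of a Schwartz function with an integrable function -/
theorem GG_conv (d : ℕ) (η : SchwartzMap (E d) ℂ) (g : E d → ℂ) (hg : Integrable g) :
    Continuous (fun w : E d => ∫ z, η (w - z) * g z) ∧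
    (∃ B : ℝ, ∀ w : E d, ‖∫ z, η (w - z) * g z‖ ≤ B) ∧
    Integrable (fun w : E d => ∫ z, η (w - z) * g z) := by
  obtain ⟨M, hM⟩ : ∃ M : ℝ, ∀ x, ‖η x‖ ≤ M := by
    obtain ⟨C, hC⟩ := η.decay 0 0
    refine ⟨C, fun x => ?_⟩
    have := hC.2 x
    simpa using this
  have hM0 : 0 ≤ M := (norm_nonneg _).trans (hM 0)
  have hηc : Continuous η := η.continuous
  have hb : ∀ w z : E d, ‖η (w - z) * g z‖ ≤ M * ‖g z‖ := by
    intro w z
    rw [norm_mul]
    exact mul_le_mul_of_nonneg_right (hM _) (norm_nonneg _)
  have hm : ∀ w : E d, AEStronglyMeasurable (fun z => η (w - z) * g z) volume := by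
    intro w
    exact ((hηc.comp (continuous_const.sub continuous_id)).aestronglyMeasurable).mul hg.1
  refine ⟨?_, ?_, ?_⟩
  · refine continuous_of_dominated hm (fun w => Filter.Eventually.of_forall (hb w))
      (hg.norm.const_mul M) (Filter.Eventually.of_forall fun z => ?_)
    exact (hηc.comp (continuous_id.sub continuous_const)).mul continuous_const
  · refine ⟨∫ z, M * ‖g z‖, fun w => ?_⟩
    exact norm_integral_le_of_norm_le (hg.norm.const_mul M) (Filter.Eventually.of_forall (hb w))
  · have h1 := (hg.integrable_convolution (ContinuousLinearMap.mul ℂ ℂ)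
      (η.integrable (μ := (volume : Measure (E d)))))
    refine h1.congr (Filter.Eventually.of_forall fun w => ?_)
    simp only [MeasureTheory.convolution, ContinuousLinearMap.mul_apply']
    refine integral_congr_ae (Filter.Eventually.of_forall fun z => ?_)
    exact mul_comm _ _

/-- products of a bounded integrable function with a function of Lp -/
theorem GG_int (d : ℕ) (p : ℝ) (hp1 : 1 < p) (A f : E d → ℂ) (hAc : Continuous A)
    (hAb : ∃ B : ℝ, ∀ w, ‖A w‖ ≤ B) (hAi : Integrable A)
    (hf : MemLp f (ENNReal.ofReal p) volume) (x : E d) :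
    Integrable (fun y => A (x - y) * f y) := by
  obtain ⟨B, hB⟩ := hAb
  have hB0 : 0 ≤ B := (norm_nonneg _).trans (hB 0)
  have h1 : Integrable (fun y => A (x - y)) := hAi.comp_sub_left x
  have h2 : Integrable (fun y => ‖f y‖ ^ p) := by
    have := hf.integrable_norm_rpow (by simp; linarith) (by simp)
    rwa [ENNReal.toReal_ofReal (by linarith)] at this
  refine (h1.norm.add (h2.const_mul B)).mono' ?_ (Filter.Eventually.of_forall fun y => ?_)
  · exact (hAc.comp (continuous_const.sub continuous_id)).aestronglyMeasurable.mul hf.1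
  · rw [norm_mul]
    simp only [Pi.add_apply]
    have hp : 0 ≤ ‖f y‖ ^ p := Real.rpow_nonneg (norm_nonneg _) _
    rcases le_total ‖f y‖ 1 with h | h
    · have : ‖A (x - y)‖ * ‖f y‖ ≤ ‖A (x - y)‖ * 1 :=
        mul_le_mul_of_nonneg_left h (norm_nonneg _)
      nlinarith
    · have h3 : ‖f y‖ ≤ ‖f y‖ ^ p := by
        have := Real.rpow_le_rpow_of_exponent_le h hp1.le
        rwa [Real.rpow_one] at this
      have : ‖A (x - y)‖ * ‖f y‖ ≤ B * ‖f y‖ ^ p :=
        mul_le_mul (hB _) h3 (norm_nonneg _) hB0
      linarith [norm_nonneg (A (x - y))]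

/-- measurability of the convolution -/
theorem GG_meas (d : ℕ) (A f : E d → ℂ) (hAc : Continuous A)
    (hf : AEStronglyMeasurable f volume) :
    AEStronglyMeasurable (fun x : E d => ∫ y, A (x - y) * f y) volume := by
  have h1 : AEStronglyMeasurable (fun z : E d × E d => A (z.1 - z.2) * f z.2)
      ((volume : Measure (E d)).prod volume) :=
    (hAc.comp (continuous_fst.sub continuous_snd)).aestronglyMeasurable.mul hf.comp_snd
  exact h1.integral_prod_right'

/-- radial convolution operators -/
theorem mult_main (d : ℕ) (hd : 4 ≤ d) (p : ℝ) (hp1 : 1 < p)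
    (hp2 : p < 2 * ((d : ℝ) + 1) / ((d : ℝ) + 3)) (η : SchwartzMap (E d) ℂ)
    (hη : ∃ ε : ℝ, 0 < ε ∧ Van η ε) :
    ∃ C : ℝ, 0 < C ∧ ∀ K : E d → ℂ, Integrable K → (∀ x y : E d, ‖x‖ = ‖y‖ → K x = K y) →
      (∀ x, ∫ y, η (x - y) * K y = K x) →
      (∀ f : E d → ℂ, MemLp f (ENNReal.ofReal p) volume →
        eLpNorm (fun x => ∫ y, K (x - y) * f y) (ENNReal.ofReal p) volume ≤
          ENNReal.ofReal C * eLpNorm K (ENNReal.ofReal p) volume *
            eLpNorm f (ENNReal.ofReal p) volume) ∧
      (∀ B : ENNReal, (∀ f : SchwartzMap (E d) ℂ,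
        eLpNorm (fun x => ∫ y, K (x - y) * f y) (ENNReal.ofReal p) volume ≤
          B * eLpNorm f (ENNReal.ofReal p) volume) →
        eLpNorm K (ENNReal.ofReal p) volume ≤ ENNReal.ofReal C * B) := by
  classical
  obtain ⟨C1, hC1, hlow⟩ := low_part d p hp1 η
  obtain ⟨C2, hC2, hhigh⟩ := high_part d hd p hp1 hp2 η hη
  have hηp : MemLp η (ENNReal.ofReal p) (volume : Measure (E d)) := η.memLp _
  set N : ℝ := (eLpNorm η (ENNReal.ofReal p) (volume : Measure (E d))).toReal with hN
  have hN0 : 0 ≤ N := ENNReal.toReal_nonneg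
  refine ⟨C1 + C2 + N, by linarith, ?_⟩
  intro K hKi hrad hK
  have hKeq : (fun x : E d => ∫ y, η (x - y) * K y) = K := funext hK
  obtain ⟨c1, c2, -⟩ := GG_conv d η K hKi
  have hKc : Continuous K := hKeq ▸ c1
  have hKb : ∃ B : ℝ, ∀ x, ‖K x‖ ≤ B := by
    obtain ⟨B, hB⟩ := c2
    exact ⟨B, fun x => by rw [← hK x]; exact hB x⟩
  have hp1' : (1 : ENNReal) ≤ ENNReal.ofReal p := by
    rw [← ENNReal.ofReal_one]
    exact ENNReal.ofReal_le_ofReal hp1.le
  constructor
  · intro f hf
    have hms1 : MeasurableSet {z : E d | ‖z‖ ≤ 1} :=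
      measurableSet_le measurable_norm measurable_const
    have hms2 : MeasurableSet {z : E d | 1 < ‖z‖} :=
      measurableSet_lt measurable_const measurable_norm
    have hi1 : Integrable ({z : E d | ‖z‖ ≤ 1}.indicator K) := hKi.indicator hms1
    have hi2 : Integrable ({z : E d | 1 < ‖z‖}.indicator K) := hKi.indicator hms2
    obtain ⟨a1, a2, a3⟩ := GG_conv d η _ hi1
    obtain ⟨b1, b2, b3⟩ := GG_conv d η _ hi2
    have hηc : Continuous η := η.continuous
    obtain ⟨M, hM⟩ : ∃ M : ℝ, ∀ x, ‖η x‖ ≤ M := by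
      obtain ⟨C, hC⟩ := η.decay 0 0
      refine ⟨C, fun x => ?_⟩
      have := hC.2 x
      simpa using this
    have hint : ∀ (g : E d → ℂ), Integrable g → ∀ w : E d, Integrable (fun z => η (w - z) * g z) := by
      intro g hg w
      refine (hg.norm.const_mul M).mono'
        (((hηc.comp (continuous_const.sub continuous_id)).aestronglyMeasurable).mul hg.1)
        (Filter.Eventually.of_forall fun z => ?_)
      rw [norm_mul]
      exact mul_le_mul_of_nonneg_right (hM _) (norm_nonneg _)
    have hsplit : ∀ w : E d, K w = (∫ z, η (w - z) * ({z : E d | ‖z‖ ≤ 1}.indicator K z)) +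
        ∫ z, η (w - z) * ({z : E d | 1 < ‖z‖}.indicator K z) := by
      intro w
      rw [← integral_add (hint _ hi1 w) (hint _ hi2 w)]
      conv_lhs => rw [← hK w]
      refine integral_congr_ae (Filter.Eventually.of_forall fun z => ?_)
      simp only
      rw [← mul_add]
      congr 1
      by_cases h : ‖z‖ ≤ 1
      · have h' : ¬ (1 < ‖z‖) := not_lt.mpr h
        rw [Set.indicator_of_mem (show z ∈ {z : E d | ‖z‖ ≤ 1} from h),
          Set.indicator_of_notMem (show z ∉ {z : E d | 1 < ‖z‖} from h'), add_zero]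
      · have h' : 1 < ‖z‖ := not_le.mp h
        rw [Set.indicator_of_notMem (show z ∉ {z : E d | ‖z‖ ≤ 1} from h),
          Set.indicator_of_mem (show z ∈ {z : E d | 1 < ‖z‖} from h'), zero_add]
    have hsum : (fun x : E d => ∫ y, K (x - y) * f y) =
        (fun x : E d => ∫ y, (∫ z, η (x - y - z) * ({z : E d | ‖z‖ ≤ 1}.indicator K z)) * f y) +
        (fun x : E d => ∫ y, (∫ z, η (x - y - z) * ({z : E d | 1 < ‖z‖}.indicator K z)) * f y) := by
      funext x
      simp only [Pi.add_apply]
      rw [← integral_add (GG_int d p hp1 _ f a1 a2 a3 hf x) (GG_int d p hp1 _ f b1 b2 b3 hf x)]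
      refine integral_congr_ae (Filter.Eventually.of_forall fun y => ?_)
      simp only
      rw [hsplit (x - y), add_mul]
    have hadd := eLpNorm_add_le (GG_meas d _ f a1 hf.1) (GG_meas d _ f b1 hf.1) hp1'
    rw [hsum]
    refine hadd.trans ?_
    refine (add_le_add (hlow K f hKc hf)
      (high_lim d (by omega) p hp1 η C2 hhigh K hKc hKi hKb hrad f hf)).trans ?_
    rw [← add_mul, ← add_mul, ← ENNReal.ofReal_add hC1.le hC2.le]
    have h12 : C1 + C2 ≤ C1 + C2 + N := by linarith
    gcongr ENNReal.ofReal ?_ * _ * _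
  · intro B hB
    have h1 := hB η
    have h2 : (fun x : E d => ∫ y, K (x - y) * η y) = K := by
      funext x
      rw [← hK x]
      rw [← integral_sub_left_eq_self (fun y => η (x - y) * K y) volume x]
      refine integral_congr_ae (Filter.Eventually.of_forall fun y => ?_)
      simp only [sub_sub_cancel]
      exact mul_comm _ _
    rw [h2] at h1
    refine h1.trans ?_
    rw [mul_comm]
    gcongr
    rw [← ENNReal.ofReal_toReal hηp.2.ne]
    exact ENNReal.ofReal_le_ofReal (by linarith)

end Pool.LibTP53
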