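import Pool.Agent.LibTP53.GB
import Pool.Agent.LibTP53.GE

/-
PLAN (HE). Copy of high_lim (row GE, proven) where Integrable K is replaced by MemLp K p (K still continuous and bounded, p <= 2). The only use of integrability of K was the
domination: M = |eta| * |K| (convolution). Now: K in L^p and bounded, so K in L^(p') (p' >= 2 >= p: MemLp of a bounded function for larger exponents, e.g. MemLp.mono_exponent does not
apply on infinite measure; use |K|^(p') <= B^(p'-p) |K|^p), |eta| * |K| is bounded and in L^(p') (young: eta in L1; young_L1 in row GB for the exponent p' or Minkowski), f in L^p, Hoelder.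
Alternative: |int int |eta(x-y-z)||K z||f y|| <= by Tonelli int |K z| (|eta| * |f|)(x-z) dz with |eta|*|f| in L^p (young_L1) and K in L^(p').
-/

set_option autoImplicit false

noncomputable section

open MeasureTheory Metric Set Filter

namespace Pool.LibTP53

open Pool.LibSR53

private lemma HE_mul {a b A p : ℝ} (hp1 : 1 < p) (hp2 : p ≤ 2) (ha : 0 ≤ a) (haA : a ≤ A)
    (hA : 1 ≤ A) (hb : 0 ≤ b) : a * b ≤ A * (a ^ p + b ^ p) := by
  have hA0 : 0 ≤ A := zero_le_one.trans hA
  have hap : 0 ≤ a ^ p := Real.rpow_nonneg ha _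
  have hbp : 0 ≤ b ^ p := Real.rpow_nonneg hb _
  rcases le_total 1 b with h1 | h1
  · have h2 : b ≤ b ^ p := by
      have := Real.rpow_le_rpow_of_exponent_le h1 hp1.le
      rwa [Real.rpow_one] at this
    calc a * b ≤ A * b ^ p := mul_le_mul haA h2 hb hA0
      _ ≤ A * (a ^ p + b ^ p) := mul_le_mul_of_nonneg_left (by linarith) hA0
  · rcases le_total a b with h3 | h3
    · rcases eq_or_lt_of_le hb with h0 | h0
      · rw [← h0, mul_zero]
        positivity
      · have h4 : b ^ (2 : ℝ) ≤ b ^ p := Real.rpow_le_rpow_of_exponent_ge h0 h1 hp2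
        have h5 : b ^ (2 : ℝ) = b * b := by
          rw [Real.rpow_two, sq]
        calc a * b ≤ b * b := mul_le_mul_of_nonneg_right h3 hb
          _ ≤ b ^ p := by rw [← h5]; exact h4
          _ = 1 * b ^ p := (one_mul _).symm
          _ ≤ A * (a ^ p + b ^ p) := mul_le_mul hA (by linarith) hbp hA0
    · rcases eq_or_lt_of_le ha with h0 | h0
      · rw [← h0, zero_mul]
        positivity
      · have h4 : a ^ (2 : ℝ) = a ^ p * a ^ (2 - p) := by
          rw [← Real.rpow_add h0]
          congr 1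
          ring
        have h5 : a ^ (2 - p) ≤ A := by
          have e1 : a ^ (2 - p) ≤ A ^ (2 - p) := Real.rpow_le_rpow ha haA (by linarith)
          have e2 : A ^ (2 - p) ≤ A ^ (1 : ℝ) :=
            Real.rpow_le_rpow_of_exponent_le hA (by linarith)
          rw [Real.rpow_one] at e2
          exact e1.trans e2
        have h6 : a ^ (2 : ℝ) = a * a := by
          rw [Real.rpow_two, sq]
        calc a * b ≤ a * a := mul_le_mul_of_nonneg_left h3 ha
          _ = a ^ p * a ^ (2 - p) := by rw [← h6, h4]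
          _ ≤ a ^ p * A := mul_le_mul_of_nonneg_left h5 hap
          _ = A * a ^ p := mul_comm _ _
          _ ≤ A * (a ^ p + b ^ p) := mul_le_mul_of_nonneg_left (by linarith) hA0

/-- products of a bounded function of Lp with a function of Lp -/
theorem HE_int (d : ℕ) (p : ℝ) (hp1 : 1 < p) (hp2 : p ≤ 2) (A f : E d → ℂ)
    (hAb : ∃ B : ℝ, ∀ w, ‖A w‖ ≤ B) (hA : MemLp A (ENNReal.ofReal p) volume)
    (hf : MemLp f (ENNReal.ofReal p) volume) (x : E d) :
    Integrable (fun y => A (x - y) * f y) := by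
  obtain ⟨B, hB⟩ := hAb
  have hp0 : 0 < p := by linarith
  have h1 : Integrable (fun y => ‖A y‖ ^ p) := by
    have := hA.integrable_norm_rpow (by simpa using hp0) (by simp)
    rwa [ENNReal.toReal_ofReal hp0.le] at this
  have h2 : Integrable (fun y => ‖f y‖ ^ p) := by
    have := hf.integrable_norm_rpow (by simpa using hp0) (by simp)
    rwa [ENNReal.toReal_ofReal hp0.le] at this
  have h3 : Integrable (fun y => ‖A (x - y)‖ ^ p) := h1.comp_sub_left x
  refine ((h3.add h2).const_mul (max B 1)).mono' ?_ (Filter.Eventually.of_forall fun y => ?_)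
  · exact (hA.1.comp_quasiMeasurePreserving
      (quasiMeasurePreserving_sub_left_of_right_invariant volume x)).mul hf.1
  · rw [norm_mul]
    simp only [Pi.add_apply]
    exact HE_mul hp1 hp2 (norm_nonneg _) ((hB _).trans (le_max_left _ _)) (le_max_right _ _)
      (norm_nonneg _)

/-- convolution of a Schwartz function with a bounded function of Lp -/
theorem HE_conv (d : ℕ) (p : ℝ) (hp1 : 1 < p) (η : SchwartzMap (E d) ℂ) (g : E d → ℂ)
    (hgb : ∃ B : ℝ, ∀ x, ‖g x‖ ≤ B) (hg : MemLp g (ENNReal.ofReal p) volume) :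
    (∀ w : E d, Integrable (fun z => ‖η (w - z)‖ * ‖g z‖)) ∧
    (∃ B : ℝ, ∀ w : E d, ∫ z, ‖η (w - z)‖ * ‖g z‖ ≤ B) ∧
    MemLp (fun w : E d => ((∫ z, ‖η (w - z)‖ * ‖g z‖ : ℝ) : ℂ)) (ENNReal.ofReal p) volume := by
  obtain ⟨B, hB⟩ := hgb
  have hB0 : 0 ≤ B := (norm_nonneg _).trans (hB 0)
  have hηi : Integrable (fun z => η z) (volume : Measure (E d)) := η.integrable
  have hηc : Continuous (fun z => η z) := η.continuous
  have hηw : ∀ w : E d, Integrable (fun z => ‖η (w - z)‖) := fun w =>
    (hηi.comp_sub_left w).norm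
  have hint : ∀ w : E d, Integrable (fun z => ‖η (w - z)‖ * ‖g z‖) := by
    intro w
    refine ((hηw w).const_mul B).mono' ((hηw w).1.mul hg.1.norm)
      (Filter.Eventually.of_forall fun z => ?_)
    rw [norm_mul, norm_norm, norm_norm, mul_comm]
    exact mul_le_mul_of_nonneg_right (hB _) (norm_nonneg _)
  have hb : ∀ w : E d, ∫ z, ‖η (w - z)‖ * ‖g z‖ ≤ B * ∫ z, ‖η z‖ := by
    intro w
    rw [← integral_sub_left_eq_self (fun z => ‖η z‖) volume w, ← integral_const_mul]
    refine integral_mono (hint w) ((hηw w).const_mul B) fun z => ?_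
    show ‖η (w - z)‖ * ‖g z‖ ≤ B * ‖η (w - z)‖
    rw [mul_comm]
    exact mul_le_mul_of_nonneg_right (hB _) (norm_nonneg _)
  refine ⟨hint, ⟨_, hb⟩, ?_, ?_⟩
  · have h1 : AEStronglyMeasurable (fun z : E d × E d => ‖η (z.1 - z.2)‖ * ‖g z.2‖)
        ((volume : Measure (E d)).prod volume) :=
      (hηc.comp (continuous_fst.sub continuous_snd)).norm.aestronglyMeasurable.mul
        hg.1.norm.comp_snd
    exact Complex.continuous_ofReal.comp_aestronglyMeasurable h1.integral_prod_right'
  · have hY := young_L1 d p hp1 (fun z => ((‖η z‖ : ℝ) : ℂ)) (fun z => ((‖g z‖ : ℝ) : ℂ))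
      (Complex.continuous_ofReal.comp_aestronglyMeasurable hηc.norm.aestronglyMeasurable)
      (Complex.continuous_ofReal.comp_aestronglyMeasurable hg.1.norm)
    have e1 : (fun w : E d => ((∫ z, ‖η (w - z)‖ * ‖g z‖ : ℝ) : ℂ)) =
        fun w : E d => ∫ z, ((‖η (w - z)‖ : ℝ) : ℂ) * ((‖g z‖ : ℝ) : ℂ) := by
      funext w
      rw [← integral_complex_ofReal]
      refine integral_congr_ae (Filter.Eventually.of_forall fun z => ?_)
      simp only
      push_cast
      rfl
    rw [e1]
    refine lt_of_le_of_lt hY (ENNReal.mul_lt_top ?_ ?_)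
    · have : (∫⁻ x : E d, ‖((‖η x‖ : ℝ) : ℂ)‖ₑ) = ∫⁻ x, ‖η x‖ₑ := by
        refine lintegral_congr fun x => ?_
        rw [← ofReal_norm, Complex.norm_real, norm_norm, ofReal_norm]
      rw [this]
      exact hηi.2
    · have : eLpNorm (fun z : E d => ((‖g z‖ : ℝ) : ℂ)) (ENNReal.ofReal p) volume =
          eLpNorm g (ENNReal.ofReal p) volume := by
        refine eLpNorm_congr_norm_ae (Filter.Eventually.of_forall fun z => ?_)
        rw [Complex.norm_real, norm_norm]
      rw [this]
      exact hg.2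

/-- continuity of a convolution -/
private lemma HE_cont {d : ℕ} {a b : E d → ℂ} (ha : Integrable a) (hb : Continuous b) {B : ℝ}
    (hB : ∀ x, ‖b x‖ ≤ B) : Continuous fun x => ∫ z, b (x - z) * a z := by
  have hbd : BddAbove (range fun x => ‖b x‖) := ⟨B, by rintro _ ⟨x, rfl⟩; exact hB x⟩
  have h := BddAbove.continuous_convolution_right_of_integrable (μ := volume)
    (ContinuousLinearMap.mul ℝ ℂ) hbd ha hb
  have e : (fun x => ∫ z, b (x - z) * a z) =
      MeasureTheory.convolution a b (ContinuousLinearMap.mul ℝ ℂ) volume := by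
    funext x
    unfold MeasureTheory.convolution
    refine integral_congr_ae (Eventually.of_forall fun z => ?_)
    simp only [ContinuousLinearMap.mul_apply']
    ring
  rw [e]
  exact h

/-- the limit of the double integrals -/
private lemma HE_lim {d : ℕ} {p : ℝ} (hp : 1 < p) (hp2 : p ≤ 2) (η : SchwartzMap (E d) ℂ)
    {K : E d → ℂ} {B : ℝ} (hB : ∀ x, ‖η x‖ ≤ B) (hKb : ∃ B : ℝ, ∀ x, ‖K x‖ ≤ B)
    (hKp : MemLp K (ENNReal.ofReal p) volume)
    {kn : ℕ → E d → ℂ} {k : E d → ℂ} (hkni : ∀ n, Integrable (kn n))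
    (hk : ∀ n z, ‖kn n z‖ ≤ ‖K z‖) (hkl : ∀ z, Tendsto (fun n => kn n z) atTop (nhds (k z)))
    {g : E d → ℂ} (hg : MemLp g (ENNReal.ofReal p) volume)
    {fn : ℕ → E d → ℂ} (hfm : ∀ n, AEStronglyMeasurable (fn n) volume)
    (hf : ∀ n z, ‖fn n z‖ ≤ ‖g z‖) (hfl : ∀ z, Tendsto (fun n => fn n z) atTop (nhds (g z)))
    (x : E d) :
    Tendsto (fun n => ∫ y, (∫ z, η (x - y - z) * kn n z) * fn n y) atTop
      (nhds (∫ y, (∫ z, η (x - y - z) * k z) * g y)) := by
  have hη : Continuous (fun z => η z) := η.continuous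
  obtain ⟨hbi, ⟨B1, hB1⟩, hML⟩ := HE_conv d p hp η K hKb hKp
  have hηs : ∀ u : E d, AEStronglyMeasurable (fun z => η (u - z)) volume := fun u =>
    (hη.comp (continuous_const.sub continuous_id)).aestronglyMeasurable
  have hM0 : ∀ u : E d, 0 ≤ ∫ z, ‖η (u - z)‖ * ‖K z‖ := fun u =>
    integral_nonneg fun z => mul_nonneg (norm_nonneg _) (norm_nonneg _)
  have hMn : ∀ (n : ℕ) (u : E d), ‖∫ z, η (u - z) * kn n z‖ ≤ ∫ z, ‖η (u - z)‖ * ‖K z‖ := by
    intro n u
    refine (norm_integral_le_integral_norm _).trans ?_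
    refine integral_mono_of_nonneg (Eventually.of_forall fun z => norm_nonneg _) (hbi u)
      (Eventually.of_forall fun z => ?_)
    show ‖η (u - z) * kn n z‖ ≤ ‖η (u - z)‖ * ‖K z‖
    rw [norm_mul]
    exact mul_le_mul_of_nonneg_left (hk n z) (norm_nonneg _)
  have hin : ∀ u : E d, Tendsto (fun n => ∫ z, η (u - z) * kn n z) atTop
      (nhds (∫ z, η (u - z) * k z)) := by
    intro u
    refine tendsto_integral_of_dominated_convergence (fun z => ‖η (u - z)‖ * ‖K z‖)
      (fun n => (hηs u).mul (hkni n).1) (hbi u) (fun n => Eventually.of_forall fun z => ?_)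
      (Eventually.of_forall fun z => (hkl z).const_mul _)
    rw [norm_mul]
    exact mul_le_mul_of_nonneg_left (hk n z) (norm_nonneg _)
  have hout : Integrable fun y => (∫ z, ‖η (x - y - z)‖ * ‖K z‖) * ‖g y‖ := by
    have h1 := HE_int d p hp hp2 _ g ⟨B1, fun w => by
      rw [Complex.norm_real, Real.norm_of_nonneg (hM0 w)]; exact hB1 w⟩ hML hg x
    refine h1.norm.congr (Eventually.of_forall fun y => ?_)
    simp only
    rw [norm_mul, Complex.norm_real, Real.norm_of_nonneg (hM0 _)]
  refine tendsto_integral_of_dominated_convergence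
    (fun y => (∫ z, ‖η (x - y - z)‖ * ‖K z‖) * ‖g y‖) (fun n => ?_) hout
    (fun n => Eventually.of_forall fun y => ?_)
    (Eventually.of_forall fun y => (hin (x - y)).mul (hfl y))
  · exact (((HE_cont (hkni n) hη hB).comp
      (continuous_const.sub continuous_id)).aestronglyMeasurable).mul (hfm n)
  · rw [norm_mul]
    exact mul_le_mul (hMn n _) (hf n y) (norm_nonneg _) (hM0 _)

/-- passage to general radial kernels in Lp and general f in Lp -/
theorem high_limP (d : ℕ) (hd : 2 ≤ d) (p : ℝ) (hp1 : 1 < p) (hp2 : p ≤ 2)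
    (η : SchwartzMap (E d) ℂ) (C : ℝ)
    (h : ∀ (K0 : ℝ → ℂ), Measurable K0 → (∃ B : ℝ, ∀ r, ‖K0 r‖ ≤ B) →
      (∀ r, r ≤ 1 → K0 r = 0) → (∃ N : ℝ, ∀ r, N < r → K0 r = 0) →
      ∀ f : E d → ℂ, Measurable f → (∃ B : ℝ, ∀ x, ‖f x‖ ≤ B) → (∃ N : ℝ, ∀ x, N < ‖x‖ → f x = 0) →
      eLpNorm (fun x => ∫ y, (∫ z, η (x - y - z) * K0 ‖z‖) * f y) (ENNReal.ofReal p) volume ≤
        ENNReal.ofReal C * eLpNorm (fun z : E d => K0 ‖z‖) (ENNReal.ofReal p) volume *
          eLpNorm f (ENNReal.ofReal p) volume)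
    (K : E d → ℂ) (hK : Continuous K) (hKb : ∃ B : ℝ, ∀ x, ‖K x‖ ≤ B)
    (hKp : MemLp K (ENNReal.ofReal p) volume)
    (hrad : ∀ x y : E d, ‖x‖ = ‖y‖ → K x = K y)
    (f : E d → ℂ) (hf : MemLp f (ENNReal.ofReal p) volume) :
    eLpNorm (fun x => ∫ y, (∫ z, η (x - y - z) * ({z : E d | 1 < ‖z‖}.indicator K z)) * f y)
      (ENNReal.ofReal p) volume ≤
      ENNReal.ofReal C * eLpNorm K (ENNReal.ofReal p) volume *
        eLpNorm f (ENNReal.ofReal p) volume := by
  classical
  obtain ⟨B, hB⟩ := hKb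
  set g := hf.1.mk f with hgdef
  have hgm : StronglyMeasurable g := hf.1.stronglyMeasurable_mk
  have hfg : f =ᵐ[volume] g := hf.1.ae_eq_mk
  have hgL : MemLp g (ENNReal.ofReal p) volume := (memLp_congr_ae hfg).1 hf
  rw [eLpNorm_congr_ae hfg]
  have e0 : (fun x => ∫ y, (∫ z, η (x - y - z) * ({z : E d | 1 < ‖z‖}.indicator K z)) * f y) =
      fun x => ∫ y, (∫ z, η (x - y - z) * ({z : E d | 1 < ‖z‖}.indicator K z)) * g y := by
    funext x
    refine integral_congr_ae (hfg.mono fun y hy => ?_)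
    show (∫ z, η (x - y - z) * ({z : E d | 1 < ‖z‖}.indicator K z)) * f y =
      (∫ z, η (x - y - z) * ({z : E d | 1 < ‖z‖}.indicator K z)) * g y
    rw [hy]
  rw [e0]
  obtain ⟨v, hv⟩ : ∃ v : E d, ‖v‖ = 1 :=
    ⟨EuclideanSpace.single ⟨0, by omega⟩ 1, by simp⟩
  set K0 : ℕ → ℝ → ℂ := fun n r => if 1 < r ∧ r ≤ n then K (r • v) else 0 with hK0
  have hB0 : 0 ≤ B := (norm_nonneg _).trans (hB 0)
  have hval : ∀ (n : ℕ) (z : E d), K0 n ‖z‖ = if 1 < ‖z‖ ∧ ‖z‖ ≤ n then K z else 0 := by
    intro n z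
    have h1 : K (‖z‖ • v) = K z := hrad _ _ (by rw [norm_smul, hv, mul_one, norm_norm])
    simp only [hK0, h1]
  set fn : ℕ → E d → ℂ := fun n y => if ‖y‖ ≤ n ∧ ‖g y‖ ≤ n then g y else 0 with hfn
  have hK0m : ∀ n, Measurable (K0 n) := by
    intro n
    refine Measurable.ite ?_ ?_ measurable_const
    · exact (measurableSet_Ioi).inter (measurableSet_Iic)
    · exact (hK.comp (continuous_id.smul continuous_const)).measurable
  have hfnm : ∀ n, Measurable (fn n) := by
    intro n
    refine Measurable.ite ?_ hgm.measurable measurable_const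
    exact (measurableSet_le measurable_norm measurable_const).inter
      (measurableSet_le hgm.measurable.norm measurable_const)
  have hbound : ∀ n, eLpNorm (fun x => ∫ y, (∫ z, η (x - y - z) * K0 n ‖z‖) * fn n y)
      (ENNReal.ofReal p) volume ≤ ENNReal.ofReal C * eLpNorm K (ENNReal.ofReal p) volume *
        eLpNorm g (ENNReal.ofReal p) volume := by
    intro n
    refine (h (K0 n) (hK0m n) ⟨B, fun r => ?_⟩ (fun r hr => ?_) ⟨n, fun r hr => ?_⟩ (fn n)
      (hfnm n) ⟨n, fun x => ?_⟩ ⟨n, fun x hx => ?_⟩).trans ?_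
    · simp only [hK0]
      split_ifs
      · exact hB _
      · rw [norm_zero]
        exact hB0
    · simp only [hK0]
      exact if_neg fun h' => absurd h'.1 (not_lt.2 hr)
    · simp only [hK0]
      exact if_neg fun h' => absurd h'.2 (not_le.2 hr)
    · simp only [hfn]
      split_ifs with h'
      · exact h'.2
      · rw [norm_zero]
        exact Nat.cast_nonneg n
    · simp only [hfn]
      exact if_neg fun h' => absurd h'.1 (not_le.2 hx)
    · gcongr
      · refine eLpNorm_mono fun z => ?_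
        rw [hval n z]
        split_ifs
        · exact le_rfl
        · rw [norm_zero]
          exact norm_nonneg _
      · refine eLpNorm_mono fun y => ?_
        simp only [hfn]
        split_ifs
        · exact le_rfl
        · rw [norm_zero]
          exact norm_nonneg _
  have hkm : ∀ n, AEStronglyMeasurable (fun z : E d => K0 n ‖z‖) volume := fun n =>
    ((hK0m n).comp measurable_norm).aestronglyMeasurable
  have hkK : ∀ (n : ℕ) (z : E d), ‖K0 n ‖z‖‖ ≤ ‖K z‖ := by
    intro n z
    rw [hval n z]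
    split_ifs
    · exact le_rfl
    · rw [norm_zero]
      exact norm_nonneg _
  have hfg' : ∀ (n : ℕ) (y : E d), ‖fn n y‖ ≤ ‖g y‖ := by
    intro n y
    simp only [hfn]
    split_ifs
    · exact le_rfl
    · rw [norm_zero]
      exact norm_nonneg _
  have hkni : ∀ n, Integrable (fun z : E d => K0 n ‖z‖) := by
    intro n
    have h1 : Integrable ((closedBall (0 : E d) n).indicator fun _ => B) :=
      (integrable_indicator_iff isClosed_closedBall.measurableSet).2
        (integrableOn_const (measure_closedBall_lt_top.ne))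
    refine h1.mono (hkm n) (Eventually.of_forall fun y => ?_)
    show ‖K0 n ‖y‖‖ ≤ ‖(closedBall (0 : E d) n).indicator (fun _ => B) y‖
    rw [hval n y]
    by_cases h' : 1 < ‖y‖ ∧ ‖y‖ ≤ n
    · rw [if_pos h', Set.indicator_of_mem (by simpa using h'.2)]
      exact (hB _).trans (Real.le_norm_self _)
    · rw [if_neg h', norm_zero]
      exact norm_nonneg _
  have hkl : ∀ z : E d, Tendsto (fun n => K0 n ‖z‖) atTop
      (nhds ({z : E d | 1 < ‖z‖}.indicator K z)) := by
    intro z
    obtain ⟨N, hN⟩ := exists_nat_ge ‖z‖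
    refine tendsto_const_nhds.congr' ?_
    filter_upwards [eventually_ge_atTop N] with n hn
    have hn' : ‖z‖ ≤ (n : ℝ) := hN.trans (by exact_mod_cast hn)
    rw [hval n z]
    by_cases h1 : 1 < ‖z‖
    · rw [if_pos ⟨h1, hn'⟩, Set.indicator_of_mem (show z ∈ {z : E d | 1 < ‖z‖} from h1)]
    · rw [if_neg fun h' => h1 h'.1, Set.indicator_of_notMem (show z ∉ {z : E d | 1 < ‖z‖} from h1)]
  have hfl : ∀ y : E d, Tendsto (fun n => fn n y) atTop (nhds (g y)) := by
    intro y
    obtain ⟨N, hN⟩ := exists_nat_ge (max ‖y‖ ‖g y‖)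
    refine tendsto_const_nhds.congr' ?_
    filter_upwards [eventually_ge_atTop N] with n hn
    have hn' : (N : ℝ) ≤ (n : ℝ) := by exact_mod_cast hn
    simp only [hfn]
    rw [if_pos ⟨(le_max_left _ _).trans (hN.trans hn'), (le_max_right _ _).trans (hN.trans hn')⟩]
  have hηB : ∀ x : E d, ‖η x‖ ≤ SchwartzMap.seminorm ℝ 0 0 η := fun x =>
    SchwartzMap.norm_le_seminorm ℝ η x
  have hTm : ∀ n, AEStronglyMeasurable
      (fun x => ∫ y, (∫ z, η (x - y - z) * K0 n ‖z‖) * fn n y) volume := by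
    intro n
    have hki := hkni n
    have hc := HE_cont hki η.continuous hηB
    have hfi : Integrable (fn n) := by
      have h1 : Integrable ((closedBall (0 : E d) n).indicator fun _ => (n : ℝ)) :=
        (integrable_indicator_iff isClosed_closedBall.measurableSet).2
          (integrableOn_const (measure_closedBall_lt_top.ne))
      refine h1.mono (hfnm n).aestronglyMeasurable (Eventually.of_forall fun y => ?_)
      simp only [hfn]
      by_cases h' : ‖y‖ ≤ n ∧ ‖g y‖ ≤ n
      · rw [if_pos h', Set.indicator_of_mem (by simpa using h'.1)]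
        exact h'.2.trans (Real.le_norm_self _)
      · rw [if_neg h', norm_zero]
        exact norm_nonneg _
    have hMB : ∀ u : E d, ‖(∫ z, η (u - z) * K0 n ‖z‖)‖ ≤
        ∫ z : E d, SchwartzMap.seminorm ℝ 0 0 η * ‖K0 n ‖z‖‖ := by
      intro u
      refine (norm_integral_le_integral_norm _).trans ?_
      refine integral_mono_of_nonneg (Eventually.of_forall fun z => norm_nonneg _)
        (hki.norm.const_mul _) (Eventually.of_forall fun z => ?_)
      show ‖η (u - z) * K0 n ‖z‖‖ ≤ _
      rw [norm_mul]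
      exact mul_le_mul_of_nonneg_right (hηB _) (norm_nonneg _)
    exact (HE_cont (b := fun u => ∫ z, η (u - z) * K0 n ‖z‖) hfi hc hMB).aestronglyMeasurable
  have hlim : ∀ x, Tendsto (fun n => ∫ y, (∫ z, η (x - y - z) * K0 n ‖z‖) * fn n y) atTop
      (nhds (∫ y, (∫ z, η (x - y - z) * ({z : E d | 1 < ‖z‖}.indicator K z)) * g y)) := fun x =>
    HE_lim hp1 hp2 η hηB ⟨B, hB⟩ hKp (kn := fun n z => K0 n ‖z‖) hkni hkK hkl hgL
      (fun n => (hfnm n).aestronglyMeasurable) hfg' hfl x
  refine (Lp.eLpNorm_lim_le_liminf_eLpNorm hTm _ (Eventually.of_forall hlim)).trans ?_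
  refine (Filter.liminf_le_liminf (Eventually.of_forall hbound)).trans ?_
  rw [Filter.liminf_const]

end Pool.LibTP53
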