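import Pool.Agent.LibTP53.Defs
import Pool.Agent.LibSR53.K1

/-
PLAN (MA). phi xi = psi_A xi - psi_e xi with smooth compactly supported bumps: psi_A = 1 on closedBall 0 A, psi_e = 1 on closedBall 0 (eps/4), support in ball 0 (eps/2) (ContDiffBump centred at 0
with rIn, rOut; for A < eps nothing to prove beyond existence: use max A eps). phi is smooth with compact support: HasCompactSupport.toSchwartzMap (or the constructor). eta = inverse Fourier
transform of phi (FourierTransform.fourierInv on SchwartzMap, F (F^-1 phi) = phi). Van: the integral is (F eta) xi by Real.fourier_eq' (see fourier_ex in LibSR53.K1), equal to phi xi = 0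
for |xi| < eps/4. On eps <= |xi| <= A: phi = 1.
-/

set_option autoImplicit false

noncomputable section

open MeasureTheory Metric Set Filter
open scoped FourierTransform

namespace Pool.LibTP53

open Pool.LibSR53

/-- a Schwartz function whose Fourier transform is one on an annulus and zero near the origin -/
theorem exists_eta (d : ℕ) (ε A : ℝ) (hε : 0 < ε) : ∃ η : SchwartzMap (E d) ℂ,
    (∃ ε' : ℝ, 0 < ε' ∧ Van η ε') ∧
    ∀ ξ : E d, ε ≤ ‖ξ‖ → ‖ξ‖ ≤ A → ∫ w, ex (-w) ξ * η w = 1 := by
  have hR1 : (0 : ℝ) < max A ε + 1 := by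
    have := le_max_right A ε
    linarith
  have hR2 : max A ε + 1 < max A ε + 2 := by linarith
  set pA : ContDiffBump (0 : E d) := ⟨max A ε + 1, max A ε + 2, hR1, hR2⟩ with hpA
  set pe : ContDiffBump (0 : E d) := ⟨ε / 4, ε / 2, by linarith, by linarith⟩ with hpe
  have hcs : HasCompactSupport fun ξ : E d => (((pA ξ - pe ξ : ℝ)) : ℂ) := by
    have h1 : HasCompactSupport fun ξ : E d => pA ξ - pe ξ :=
      pA.hasCompactSupport.sub pe.hasCompactSupport
    exact h1.comp_left (g := fun x : ℝ => (x : ℂ)) (by simp)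
  have hcd : ContDiff ℝ ((⊤ : ℕ∞) : WithTop ℕ∞) fun ξ : E d => (((pA ξ - pe ξ : ℝ)) : ℂ) :=
    Complex.ofRealCLM.contDiff.comp (pA.contDiff.sub pe.contDiff)
  obtain ⟨φ, hφ⟩ : ∃ φ : SchwartzMap (E d) ℂ, ∀ ξ, φ ξ = (((pA ξ - pe ξ : ℝ)) : ℂ) :=
    ⟨hcs.toSchwartzMap hcd, fun ξ => rfl⟩
  have hF : ∀ ξ, ∫ w, ex (-w) ξ * (𝓕⁻ φ : SchwartzMap (E d) ℂ) w = φ ξ := by
    intro ξ
    rw [← fourier_ex, FourierTransform.fourier_fourierInv_eq]
  refine ⟨𝓕⁻ φ, ⟨ε / 4, by linarith, ?_⟩, ?_⟩
  · intro ξ hξ
    have h1 := hF ξ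
    have h2 : φ ξ = 0 := by
      rw [hφ]
      have h3 : pA ξ = 1 := by
        refine pA.one_of_mem_closedBall ?_
        rw [mem_closedBall, dist_zero_right]
        have := le_max_right A ε
        change ‖ξ‖ ≤ max A ε + 1
        linarith
      have h4 : pe ξ = 1 := by
        refine pe.one_of_mem_closedBall ?_
        rw [mem_closedBall, dist_zero_right]
        exact hξ.le
      rw [h3, h4]
      simp
    rw [← h2, ← h1]
    refine integral_congr_ae (Eventually.of_forall fun w => ?_)
    simp only [ex, inner_neg_left]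
    congr 2
    push_cast
    ring
  · intro ξ h1 h2
    rw [hF, hφ]
    have h3 : pA ξ = 1 := by
      refine pA.one_of_mem_closedBall ?_
      rw [mem_closedBall, dist_zero_right]
      have := le_max_left A ε
      change ‖ξ‖ ≤ max A ε + 1
      linarith
    have h4 : pe ξ = 0 := by
      refine pe.zero_of_le_dist ?_
      rw [dist_zero_right]
      change ε / 2 ≤ ‖ξ‖
      linarith
    rw [h3, h4]
    simp

end Pool.LibTP53
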