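import Pool.Agent.LibTP53.GA
import Pool.Agent.LibSR53.V1

/-
PLAN (GC). polar_sg applied to h z = eta (w - z) * K0 |z| (integrable: bounded, measurable and vanishing for |z| > N; or bounded times Schwartz). On the sphere of radius r: |zeta| = r a.e.
(K7_ae in LibSR53.K7), so int h dsg(r) = K0 r * int eta (w - zeta).
-/

set_option autoImplicit false

noncomputable section

open MeasureTheory Metric Set Filter

namespace Pool.LibTP53

open Pool.LibSR53

/-- convolution with a radial function -/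
theorem conv_polar (d : ℕ) (hd : 2 ≤ d) : ∃ c : ℝ, 0 < c ∧ ∀ (η : SchwartzMap (E d) ℂ)
    (K0 : ℝ → ℂ), Measurable K0 → (∃ B : ℝ, ∀ r, ‖K0 r‖ ≤ B) → ∀ w : E d,
    ∫ z, η (w - z) * K0 ‖z‖ = (c : ℂ) * ∫ r in Ioi (0 : ℝ), K0 r * ∫ ζ, η (w - ζ) ∂(sg d r) := by
  obtain ⟨c, hc, h⟩ := polar_sg d hd
  refine ⟨c, hc, fun η K0 hK hB w => ?_⟩
  obtain ⟨B, hB⟩ := hB
  have hη : Integrable (fun z : E d => η (w - z)) := η.integrable.comp_sub_left w
  have hint : Integrable (fun z : E d => η (w - z) * K0 ‖z‖) :=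
    hη.mul_bdd (c := B) (hK.comp measurable_norm).aestronglyMeasurable
      (Filter.Eventually.of_forall fun z => hB ‖z‖)
  rw [h _ hint]
  congr 1
  apply setIntegral_congr_fun measurableSet_Ioi
  intro r _
  have hae : ∀ᵐ ζ ∂(sg d r), ‖ζ‖ = r := by
    unfold sg
    have h := ae_restrict_mem (μ := (Measure.hausdorffMeasure ((d : ℝ) - 1) : Measure (E d)))
      (isClosed_sphere (x := (0 : E d)) (ε := r)).measurableSet
    filter_upwards [h] with ζ hζ
    exact mem_sphere_zero_iff_norm.mp hζ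
  show (∫ ζ, η (w - ζ) * K0 ‖ζ‖ ∂(sg d r)) = K0 r * ∫ ζ, η (w - ζ) ∂(sg d r)
  rw [← integral_const_mul]
  apply integral_congr_ae
  filter_upwards [hae] with ζ hζ
  rw [hζ, mul_comm]

end Pool.LibTP53
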