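import Pool.Agent.LibTP53.Defs
import Pool.Agent.LibSR53.D1

/-
PLAN (DA). Copy of exists_lev (LibSR53.D1) with card replaced by ww. Q p j := exists k, p in sc k (En a b n T) and exists i <= k, 2^(j+i) <= ww (nb (sc k T) p (2^i)). ww of a subset of T is
<= ww T (wn >= 0), so 2^j <= ww T, j <= N with N a natural bound of ww T (2^j >= j). m p = Nat.findGreatest (Q p) N. Q p 0: p itself is in nb (sc k T) p 1 with wn = 1.
dens: for p in sc k (lev ..) not Q p (j+1); note that DensW a b n T uses the neighbourhoods in T for both, so no subset argument is needed.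
-/

set_option autoImplicit false

noncomputable section

open MeasureTheory Metric Set Filter

namespace Pool.LibTP53

open Pool.LibSR53

private theorem DA_mem_sc {d : ℕ} {k : ℕ} {S : Finset (P d)} {p : P d} :
    p ∈ sc k S ↔ p ∈ S ∧ (2 : ℝ) ^ k ≤ p.2 ∧ p.2 < (2 : ℝ) ^ (k + 1) := by
  unfold sc; rw [Finset.mem_filter]

private theorem DA_mem_nb {d : ℕ} {S : Finset (P d)} {p q : P d} {h : ℝ} :
    q ∈ nb S p h ↔ q ∈ S ∧ dist q p ≤ h := by
  unfold nb; rw [Finset.mem_filter]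

private theorem DA_mem_lev {d : ℕ} {S : Finset (P d)} {m : P d → ℕ} {n : ℕ} {q : P d} :
    q ∈ lev S m n ↔ q ∈ S ∧ m q = n := by
  unfold lev; rw [Finset.mem_filter]

private theorem DA_mem_En {d : ℕ} {a : E d → ℤ} {b : ℝ → ℤ} {n : ℤ} {T : Finset (P d)}
    {q : P d} : q ∈ En a b n T ↔ q ∈ T ∧ lv a b q = n := by
  unfold En; rw [Finset.mem_filter]

private theorem DA_unique {d : ℕ} {k j : ℕ} {S T : Finset (P d)} {p : P d} (h1 : p ∈ sc k S)
    (h2 : p ∈ sc j T) : k = j := by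
  rw [DA_mem_sc] at h1 h2
  have h6 : j < k + 1 :=
    (pow_lt_pow_iff_right₀ (one_lt_two (α := ℝ))).mp (h2.2.1.trans_lt h1.2.2)
  have h7 : k < j + 1 :=
    (pow_lt_pow_iff_right₀ (one_lt_two (α := ℝ))).mp (h1.2.1.trans_lt h2.2.2)
  omega

private theorem DA_wn_nonneg {d : ℕ} (a : E d → ℤ) (b : ℝ → ℤ) (n : ℤ) (q : P d) :
    0 ≤ wn a b n q := by
  unfold wn
  split_ifs
  · exact zpow_nonneg (by norm_num) _
  · exact le_refl _

private theorem DA_ww_mono {d : ℕ} (a : E d → ℤ) (b : ℝ → ℤ) (n : ℤ) {S T : Finset (P d)}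
    (h : S ⊆ T) : ww a b n S ≤ ww a b n T := by
  unfold ww
  exact Finset.sum_le_sum_of_subset_of_nonneg h fun q _ _ => DA_wn_nonneg a b n q

private theorem DA_wn_self {d : ℕ} {a : E d → ℤ} {b : ℝ → ℤ} {n : ℤ} {q : P d}
    (h : lv a b q = n) : wn a b n q = 1 := by
  unfold wn
  rw [h, if_pos (le_refl _), sub_self, zpow_zero]

/-- existence of the level function -/
theorem exists_levW {d : ℕ} (a : E d → ℤ) (b : ℝ → ℤ) (n : ℤ) (T : Finset (P d)) :
    ∃ m : P d → ℕ, LevW a b n T m := by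
  classical
  obtain ⟨Q, hQ⟩ : ∃ Q : P d → ℕ → Prop, ∀ p j, Q p j ↔ ∃ k, p ∈ sc k (En a b n T) ∧ ∃ i, i ≤ k ∧
      (2 : ℝ) ^ (j + i) ≤ ww a b n (nb (sc k T) p ((2 : ℝ) ^ i)) := ⟨_, fun _ _ => Iff.rfl⟩
  obtain ⟨N, hN⟩ : ∃ N : ℕ, ww a b n T ≤ (N : ℝ) := exists_nat_ge _
  have hb : ∀ p j, Q p j → j ≤ N := by
    intro p j h
    obtain ⟨k, -, i, -, h2⟩ := (hQ p j).mp h
    have h3 : ww a b n (nb (sc k T) p ((2 : ℝ) ^ i)) ≤ ww a b n T := by
      refine DA_ww_mono a b n fun q hq => ?_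
      exact (DA_mem_sc.mp (DA_mem_nb.mp hq).1).1
    have h4 : (2 : ℝ) ^ j ≤ (N : ℝ) := by
      calc (2 : ℝ) ^ j ≤ (2 : ℝ) ^ (j + i) :=
            pow_le_pow_right₀ one_le_two (Nat.le_add_right _ _)
        _ ≤ _ := h2
        _ ≤ _ := h3
        _ ≤ _ := hN
    have h5 : 2 ^ j ≤ N := by exact_mod_cast h4
    exact (Nat.lt_two_pow_self).le.trans h5
  refine ⟨fun p => Nat.findGreatest (Q p) N, ?_, ?_⟩
  · intro j k p hp i hi
    by_contra hcon
    push Not at hcon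
    have hp' := DA_mem_sc.mp hp
    have hp1 := DA_mem_lev.mp hp'.1
    have h2 : p ∈ sc k (En a b n T) := by
      rw [DA_mem_sc]
      exact ⟨hp1.1, hp'.2⟩
    have h4 : Q p (j + 1) := by
      rw [hQ]
      refine ⟨k, h2, i, hi, ?_⟩
      rw [pow_add]
      exact hcon.le
    have h5 := Nat.le_findGreatest (hb p _ h4) h4
    have h6 : Nat.findGreatest (Q p) N = j := hp1.2
    omega
  · intro k p hp
    have h0 : Q p 0 := by
      rw [hQ]
      refine ⟨k, hp, 0, Nat.zero_le _, ?_⟩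
      rw [add_zero, pow_zero]
      have hp' := DA_mem_sc.mp hp
      have hp1 := DA_mem_En.mp hp'.1
      have hmem : p ∈ nb (sc k T) p 1 := by
        rw [DA_mem_nb, DA_mem_sc]
        exact ⟨⟨hp1.1, hp'.2⟩, by rw [dist_self]; exact zero_le_one⟩
      have h2 : wn a b n p ≤ ww a b n (nb (sc k T) p 1) := by
        unfold ww
        exact Finset.single_le_sum (fun q _ => DA_wn_nonneg a b n q) hmem
      rw [DA_wn_self hp1.2] at h2
      exact h2
    have h2 : Q p (Nat.findGreatest (Q p) N) :=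
      Nat.findGreatest_spec (Nat.zero_le _) h0
    obtain ⟨k', hk', i, hi, h3⟩ := (hQ p _).mp h2
    have h4 : k' = k := DA_unique hk' hp
    subst h4
    exact ⟨i, hi, h3⟩

end Pool.LibTP53
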