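import Pool.Agent.LibTP53.DA
import Pool.Agent.LibSR53.Q2

/-
PLAN (DD). Copy of restricted (LibSR53.Q2): m from exists_levW, sum over the density levels, triangle inequality in L^q, geometric series. wtW >= 0 (wn >= 0, radii >= 1 by Sep).
-/

set_option autoImplicit false

noncomputable section

open MeasureTheory Metric Set Filter

namespace Pool.LibTP53

open Pool.LibSR53

/-- summation over the density levels -/
theorem restrictedW (d : ℕ) (F : P d → E d → ℂ)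
    (hF : ∀ p : P d, 1 ≤ p.2 → AEStronglyMeasurable (F p) volume)
    (q : ℝ) (hq1 : 1 < q) (C0 δ : ℝ) (hC0 : 0 < C0) (hδ : 0 < δ)
    (h : ∀ (Y : Finset (E d)) (R : Finset ℝ) (a : E d → ℤ) (b : ℝ → ℤ)
      (n : ℤ) (m : P d → ℕ), Sep Y R → LevW a b n (Y ×ˢ R) m →
      ∀ (j : ℕ) (γ : P d → ℂ), (∀ p, ‖γ p‖ ≤ 1) →
      ∫⁻ x, ‖∑ p ∈ lev (En a b n (Y ×ˢ R)) m j, γ p * F p x‖ₑ ^ q ≤
        ENNReal.ofReal (C0 * (2 : ℝ) ^ (-(δ * j)) * wtW a b n (Y ×ˢ R))) :
    ∃ C : ℝ, 0 < C ∧ ∀ (Y : Finset (E d)) (R : Finset ℝ) (a : E d → ℤ) (b : ℝ → ℤ) (n : ℤ),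
      Sep Y R → ∀ γ : P d → ℂ, (∀ p, ‖γ p‖ ≤ 1) →
      ∫⁻ x, ‖∑ p ∈ En a b n (Y ×ˢ R), γ p * F p x‖ₑ ^ q ≤
        ENNReal.ofReal (C * wtW a b n (Y ×ˢ R)) := by
  classical
  have hq0 : 0 < q := one_pos.trans hq1
  set ρ : ℝ := (2 : ℝ) ^ (-(δ / q)) with hρ
  have hρ0 : 0 < ρ := Real.rpow_pos_of_pos two_pos _
  have hρ1 : ρ < 1 := Real.rpow_lt_one_of_one_lt_of_neg one_lt_two (by
    have := div_pos hδ hq0
    linarith)
  have h1ρ : 0 < 1 - ρ := by linarith
  refine ⟨C0 * ((1 - ρ)⁻¹) ^ q, by positivity, fun Y R a b n hS γ hγ => ?_⟩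
  set S : Finset (P d) := En a b n (Y ×ˢ R) with hSdef
  set W : ℝ := wtW a b n (Y ×ˢ R) with hWdef
  have hone : ∀ p ∈ Y ×ˢ R, 1 ≤ p.2 := fun p hp => hS.one_le p.2 (Finset.mem_product.1 hp).2
  have hw : 0 ≤ W := by
    rw [hWdef]
    unfold wtW
    refine Finset.sum_nonneg fun p hp => ?_
    have h1 : 0 ≤ wn a b n p := by
      unfold wn
      split_ifs
      · positivity
      · exact le_refl _
    exact mul_nonneg h1 (pow_nonneg (zero_le_one.trans (hone p hp)) _)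
  have honeS : ∀ p ∈ S, 1 ≤ p.2 := by
    intro p hp
    rw [hSdef] at hp
    unfold En at hp
    exact hone p (Finset.mem_filter.1 hp).1
  obtain ⟨m, hm⟩ := exists_levW a b n (Y ×ˢ R)
  set f : ℕ → E d → ℂ := fun j x => ∑ p ∈ lev S m j, γ p * F p x with hf
  have hmeas : ∀ j, AEStronglyMeasurable (f j) volume := by
    intro j
    have h1 : f j = ∑ p ∈ lev S m j, fun x => γ p * F p x := by
      funext x
      rw [Finset.sum_apply]
    rw [h1]
    refine Finset.aestronglyMeasurable_sum _ fun p hp => ?_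
    have hpS : p ∈ S := by
      unfold lev at hp
      exact (Finset.mem_filter.1 hp).1
    exact (hF p (honeS p hpS)).const_mul (γ p)
  have hsum : ∀ x, ∑ p ∈ S, γ p * F p x = (∑ j ∈ S.image m, f j) x := by
    intro x
    rw [Finset.sum_apply]
    have h1 := (Finset.sum_fiberwise_of_maps_to (s := S) (t := S.image m) (g := m)
      (fun p hp => Finset.mem_image_of_mem m hp) (fun p => γ p * F p x)).symm
    rw [h1]
    refine Finset.sum_congr rfl fun j _ => ?_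
    rw [hf]
    show _ = ∑ p ∈ lev S m j, γ p * F p x
    unfold lev
    congr
  have hp0 : ENNReal.ofReal q ≠ 0 := by
    rw [Ne, ENNReal.ofReal_eq_zero]
    linarith
  have hpt : ENNReal.ofReal q ≠ ⊤ := ENNReal.ofReal_ne_top
  have hp1 : 1 ≤ ENNReal.ofReal q := by
    rw [ENNReal.one_le_ofReal]
    exact hq1.le
  have hnorm : ∀ g : E d → ℂ, eLpNorm g (ENNReal.ofReal q) volume =
      (∫⁻ x, ‖g x‖ₑ ^ q) ^ (1 / q) := by
    intro g
    rw [eLpNorm_eq_lintegral_rpow_enorm_toReal hp0 hpt, ENNReal.toReal_ofReal hq0.le]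
  have hn : ∀ j, eLpNorm (f j) (ENNReal.ofReal q) volume ≤
      ENNReal.ofReal ((C0 * W) ^ (1 / q) * ρ ^ j) := by
    intro j
    rw [hnorm]
    have h1 := ENNReal.rpow_le_rpow (h Y R a b n m hS hm j γ hγ) (one_div_nonneg.2 hq0.le)
    refine h1.trans (le_of_eq ?_)
    rw [ENNReal.ofReal_rpow_of_nonneg (by positivity) (one_div_nonneg.2 hq0.le)]
    congr 1
    rw [← hWdef, show C0 * (2 : ℝ) ^ (-(δ * j)) * W = (C0 * W) * (2 : ℝ) ^ (-(δ * j)) by ring,
      Real.mul_rpow (by positivity) (by positivity), ← Real.rpow_mul two_pos.le]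
    congr 1
    rw [hρ, ← Real.rpow_natCast, ← Real.rpow_mul two_pos.le]
    congr 1
    field_simp
  have htri : eLpNorm (∑ j ∈ S.image m, f j) (ENNReal.ofReal q) volume ≤
      ENNReal.ofReal ((C0 * W) ^ (1 / q) * (1 - ρ)⁻¹) := by
    refine (eLpNorm_sum_le (fun j _ => hmeas j) hp1).trans ?_
    refine (Finset.sum_le_sum fun j _ => hn j).trans ?_
    rw [← ENNReal.ofReal_sum_of_nonneg (fun j _ => by positivity)]
    refine ENNReal.ofReal_le_ofReal ?_
    rw [← Finset.mul_sum]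
    refine mul_le_mul_of_nonneg_left ?_ (by positivity)
    rw [← tsum_geometric_of_lt_one hρ0.le hρ1]
    exact (summable_geometric_of_lt_one hρ0.le hρ1).sum_le_tsum _ (fun j _ => by positivity)
  have hfin : ∫⁻ x, ‖∑ p ∈ S, γ p * F p x‖ₑ ^ q =
      (eLpNorm (∑ j ∈ S.image m, f j) (ENNReal.ofReal q) volume) ^ q := by
    rw [hnorm, ← ENNReal.rpow_mul, one_div, inv_mul_cancel₀ hq0.ne', ENNReal.rpow_one]
    simp only [hsum]
  rw [hfin]
  refine (ENNReal.rpow_le_rpow htri hq0.le).trans (le_of_eq ?_)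
  rw [ENNReal.ofReal_rpow_of_nonneg (by positivity) hq0.le]
  congr 1
  rw [Real.mul_rpow (by positivity) (by positivity), ← Real.rpow_mul (by positivity), one_div,
    inv_mul_cancel₀ hq0.ne', Real.rpow_one]
  ring

end Pool.LibTP53
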