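import Pool.Agent.LibTP53.Defs

/-
PLAN (CA). inv_sq_sum: R is 1-separated. For every natural m at most two points of R satisfy m <= |r - c| < m+1 (one in [c+m, c+m+1), one in (c-m-1, c-m]), so the sum is
<= 2 sum_m 1/(1+m)^2 <= 4 (sum_{m <= N} 1/(1+m)^2 <= 2 by telescoping 1/(1+m)^2 <= 1/m - 1/(m+1)). Fiber the sum over m = floor |r-c| (Finset.sum_fiberwise_of_maps_to).
Wf_sum: with t = norm (p.1 - y) >= 0, x = p.2 - r: |t - |x|| is |t - x| or |t + x|, so 1/(1+|t-|x||)^2 <= 1/(1+|r-(p.2-t)|)^2 + 1/(1+|r-(p.2+t)|)^2, and the second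
summand of Wf is 1/(1+|r-(t-p.2)|)^2. Three applications of inv_sq_sum: <= 12.
-/

set_option autoImplicit false

noncomputable section

open MeasureTheory Metric Set Filter

namespace Pool.LibTP53

open Pool.LibSR53

private theorem CA_harm (n : ℕ) :
    ∑ m ∈ Finset.range (n + 1), (1 : ℝ) / (1 + (m : ℝ)) ^ 2 ≤ 2 - 1 / ((n : ℝ) + 1) := by
  induction n with
  | zero => norm_num
  | succ n ih =>
    rw [Finset.sum_range_succ]
    have h1 : (0 : ℝ) < (n : ℝ) + 1 := by positivity
    have h2 : (0 : ℝ) < (n : ℝ) + 2 := by positivity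
    have hstep : (1 : ℝ) / (1 + ((n + 1 : ℕ) : ℝ)) ^ 2
        ≤ 1 / ((n : ℝ) + 1) - 1 / ((n : ℝ) + 2) := by
      have e1 : 1 / ((n : ℝ) + 1) - 1 / ((n : ℝ) + 2) = 1 / (((n : ℝ) + 1) * ((n : ℝ) + 2)) := by
        field_simp
        ring
      have e2 : (1 + ((n + 1 : ℕ) : ℝ)) = (n : ℝ) + 2 := by
        push_cast
        ring
      rw [e1, e2]
      apply one_div_le_one_div_of_le (by positivity)
      nlinarith
    have e3 : (((n + 1 : ℕ) : ℝ) + 1) = (n : ℝ) + 2 := by
      push_cast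
      ring
    rw [e3]
    linarith

private theorem CA_two (R : Finset ℝ) (hR : ∀ r ∈ R, ∀ s ∈ R, r ≠ s → 1 ≤ |r - s|) (c : ℝ)
    (m : ℕ) : (R.filter (fun r => ⌊|r - c|⌋₊ = m)).card ≤ 2 := by
  classical
  have hinj : Set.InjOn (fun r : ℝ => decide (c ≤ r))
      (↑(R.filter (fun r => ⌊|r - c|⌋₊ = m)) : Set ℝ) := by
    intro r hr s hs hrs
    rw [Finset.mem_coe, Finset.mem_filter] at hr hs
    by_contra hne
    have h1 := hR r hr.1 s hs.1 hne
    have fr1 : (m : ℝ) ≤ |r - c| := by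
      have := Nat.floor_le (abs_nonneg (r - c))
      rw [hr.2] at this
      exact this
    have fr2 : |r - c| < (m : ℝ) + 1 := by
      have := Nat.lt_floor_add_one (|r - c|)
      rw [hr.2] at this
      exact this
    have fs1 : (m : ℝ) ≤ |s - c| := by
      have := Nat.floor_le (abs_nonneg (s - c))
      rw [hs.2] at this
      exact this
    have fs2 : |s - c| < (m : ℝ) + 1 := by
      have := Nat.lt_floor_add_one (|s - c|)
      rw [hs.2] at this
      exact this
    have hiff : c ≤ r ↔ c ≤ s := by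
      simpa using hrs
    by_cases hc : c ≤ r
    · have hc' := hiff.1 hc
      rw [abs_of_nonneg (by linarith)] at fr1 fr2 fs1 fs2
      have h2 : |r - s| < 1 := by
        rw [abs_lt]
        constructor <;> linarith
      linarith
    · have hc' : ¬ c ≤ s := fun h => hc (hiff.2 h)
      have hc1 := not_le.1 hc
      have hc2 := not_le.1 hc'
      rw [abs_of_neg (by linarith)] at fr1 fr2 fs1 fs2
      have h2 : |r - s| < 1 := by
        rw [abs_lt]
        constructor <;> linarith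
      linarith
  have hcard := Finset.card_le_card_of_injOn (s := R.filter (fun r => ⌊|r - c|⌋₊ = m))
    (t := (Finset.univ : Finset Bool)) (fun r : ℝ => decide (c ≤ r))
    (fun _ _ => Finset.mem_coe.2 (Finset.mem_univ _)) hinj
  simpa using hcard

/-- one-separated points on the line -/
theorem inv_sq_sum (R : Finset ℝ) (hR : ∀ r ∈ R, ∀ s ∈ R, r ≠ s → 1 ≤ |r - s|) (c : ℝ) :
    ∑ r ∈ R, 1 / (1 + |r - c|) ^ 2 ≤ 4 := by
  classical
  set M : ℕ := R.sup (fun r => ⌊|r - c|⌋₊) with hM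
  have hmaps : ∀ r ∈ R, ⌊|r - c|⌋₊ ∈ Finset.range (M + 1) := by
    intro r hr
    rw [Finset.mem_range]
    exact Nat.lt_succ_of_le (Finset.le_sup (f := fun r => ⌊|r - c|⌋₊) hr)
  rw [← Finset.sum_fiberwise_of_maps_to hmaps]
  have hfib : ∀ m ∈ Finset.range (M + 1),
      ∑ r ∈ R.filter (fun r => ⌊|r - c|⌋₊ = m), 1 / (1 + |r - c|) ^ 2
        ≤ 2 * (1 / (1 + (m : ℝ)) ^ 2) := by
    intro m _
    have hb : ∀ r ∈ R.filter (fun r => ⌊|r - c|⌋₊ = m),
        1 / (1 + |r - c|) ^ 2 ≤ 1 / (1 + (m : ℝ)) ^ 2 := by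
      intro r hr
      rw [Finset.mem_filter] at hr
      have fr1 : (m : ℝ) ≤ |r - c| := by
        have := Nat.floor_le (abs_nonneg (r - c))
        rw [hr.2] at this
        exact this
      apply one_div_le_one_div_of_le (by positivity)
      apply pow_le_pow_left₀ (by positivity)
      linarith
    have h1 := Finset.sum_le_card_nsmul _ _ _ hb
    refine h1.trans ?_
    rw [nsmul_eq_mul]
    apply mul_le_mul_of_nonneg_right
    · exact_mod_cast CA_two R hR c m
    · positivity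
  refine (Finset.sum_le_sum hfib).trans ?_
  rw [← Finset.mul_sum]
  have h3 := CA_harm M
  have h4 : (0 : ℝ) < 1 / ((M : ℝ) + 1) := by positivity
  linarith

/-- row sums of the localisation factor over the radii -/
theorem Wf_sum {d : ℕ} (R : Finset ℝ) (hR : ∀ r ∈ R, ∀ s ∈ R, r ≠ s → 1 ≤ |r - s|) (p : P d)
    (y : E d) : ∑ r ∈ R, Wf p ((y, r) : P d) ≤ 12 := by
  have hpt : ∀ r ∈ R, Wf p ((y, r) : P d) ≤
      1 / (1 + |r - (p.2 - ‖p.1 - y‖)|) ^ 2 + 1 / (1 + |r - (p.2 + ‖p.1 - y‖)|) ^ 2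
        + 1 / (1 + |r - (‖p.1 - y‖ - p.2)|) ^ 2 := by
    intro r _
    unfold Wf
    simp only
    generalize ‖p.1 - y‖ = t
    have h2 : |t - (p.2 + r)| = |r - (t - p.2)| := by
      rw [← abs_neg]
      congr 1
      ring
    rw [h2]
    apply add_le_add_left
    rcases le_total 0 (p.2 - r) with h | h
    · have h3 : |t - (|p.2 - r|)| = |r - (p.2 - t)| := by
        rw [abs_of_nonneg h]
        congr 1
        ring
      rw [h3]
      exact le_add_of_nonneg_right (by positivity)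
    · have h3 : |t - (|p.2 - r|)| = |r - (p.2 + t)| := by
        rw [abs_of_nonpos h, ← abs_neg]
        congr 1
        ring
      rw [h3]
      exact le_add_of_nonneg_left (by positivity)
  refine (Finset.sum_le_sum hpt).trans ?_
  rw [Finset.sum_add_distrib, Finset.sum_add_distrib]
  have e1 := inv_sq_sum R hR (p.2 - ‖p.1 - y‖)
  have e2 := inv_sq_sum R hR (p.2 + ‖p.1 - y‖)
  have e3 := inv_sq_sum R hR (‖p.1 - y‖ - p.2)
  linarith

end Pool.LibTP53
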