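import Pool.Agent.LibTP53.NJ
import Pool.Agent.LibTP53.CI
import Pool.Agent.LibTP53.DC
import Pool.Agent.LibTP53.DD
import Pool.Agent.LibSR53.V2
import Pool.Agent.LibSR53.F1

/-
PLAN (FA). Assembly, as in discrete (LibSR53.F1): ker_FkL, totalW give hL2 (the conversion of the Lp norm into the lintegral is in F1: copy), Fk_tail gives hT, then levelW and restrictedW with
theta = 1/(nu d + 1). q (1 + theta) < 2 iff q < 2(d+1)/(d+3).
-/

set_option autoImplicit false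

noncomputable section

open MeasureTheory Metric Set Filter

namespace Pool.LibTP53

open Pool.LibSR53

/-- restricted estimate for one level -/
theorem level_Fk (d : ℕ) (hd : 4 ≤ d) (η : SchwartzMap (E d) ℂ) (ε : ℝ) (hε : 0 < ε)
    (hη : Van η ε) (q : ℝ) (hq1 : 1 < q) (hq2 : q * (1 + 1 / (nu d + 1)) < 2) :
    ∃ C : ℝ, 0 < C ∧ ∀ (Y : Finset (E d)) (R : Finset ℝ) (a : E d → ℤ) (b : ℝ → ℤ) (n : ℤ),
      Sep Y R → ∀ γ : P d → ℂ, (∀ p, ‖γ p‖ ≤ 1) →
      ∫⁻ x, ‖∑ p ∈ En a b n (Y ×ˢ R), γ p * Fk η p.1 p.2 x‖ₑ ^ q ≤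
        ENNReal.ofReal (C * wtW a b n (Y ×ˢ R)) := by
  have hd2 : 2 ≤ d := by omega
  have hd' : (4 : ℝ) ≤ d := by exact_mod_cast hd
  have hν : 0 < nu d + 1 := by unfold nu; linarith
  obtain ⟨C0, v, hv, hae⟩ := ker_FkL hd2 η ε hε hη
  obtain ⟨C2, hC2, htot⟩ := totalW d hd C0 v hv
  set θ := 1 / (nu d + 1) with hθdef
  have hθ : 0 ≤ θ := div_nonneg zero_le_one hν.le
  set F : P d → E d → ℂ := fun a => Fk η a.1 a.2 with hFdef
  have hFm : ∀ a : P d, 1 ≤ a.2 → AEStronglyMeasurable (F a) volume := fun a ha =>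
    (Fk_continuous hd2 η a.1 a.2 (by linarith)).aestronglyMeasurable
  have hL2 : ∀ (Y : Finset (E d)) (R : Finset ℝ) (a : E d → ℤ) (b : ℝ → ℤ) (n : ℤ)
      (S : Finset (P d)) (u : ℝ), Sep Y R → S ⊆ En a b n (Y ×ˢ R) → 1 ≤ u →
      DensW a b n (Y ×ˢ R) u S → ∀ γ : P d → ℂ, (∀ p, ‖γ p‖ ≤ 1) →
      ∫⁻ x, ‖∑ p ∈ S, γ p * F p x‖ₑ ^ (2 : ℝ) ≤
        ENNReal.ofReal (C2 * (1 + Real.log u) ^ 2 * u ^ θ * wt S) := by
    intro Y R a b n S u hYR hS hu hD γ hγ
    have hone : ∀ p ∈ S, 1 ≤ p.2 := by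
      classical
      intro p hp
      have h1 := hS hp
      unfold En at h1
      have h2 := (Finset.mem_filter.mp h1).1
      exact hYR.one_le _ (Finset.mem_product.mp h2).2
    have h1 := htot Y R a b n S u hYR hS hu hD γ hγ
    have h2 : ∫⁻ x, ‖∑ p ∈ S, γ p * F p x‖ₑ ^ (2 : ℝ) =
        ENNReal.ofReal (‖∑ p ∈ S, γ p • v p‖ ^ 2) := by
      have h3 : ((∑ p ∈ S, γ p • v p : Lp ℂ 2 (volume : Measure (E d))) : E d → ℂ) =ᵐ[volume]
          fun x => ∑ p ∈ S, γ p * F p x := by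
        have h4 : ∀ T : Finset (P d), (∀ p ∈ T, 1 ≤ p.2) →
            ((∑ p ∈ T, γ p • v p : Lp ℂ 2 (volume : Measure (E d))) : E d → ℂ) =ᵐ[volume]
            fun x => ∑ p ∈ T, γ p * F p x := by
          classical
          intro T
          induction T using Finset.induction_on with
          | empty =>
            intro _
            simp only [Finset.sum_empty]
            exact Lp.coeFn_zero _ _ _
          | insert a T ha ih =>
            intro hT
            rw [Finset.sum_insert ha]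
            have e1 := Lp.coeFn_add (γ a • v a) (∑ p ∈ T, γ p • v p)
            have e2 := Lp.coeFn_smul (γ a) (v a)
            have e3 := ih (fun p hp => hT p (Finset.mem_insert_of_mem hp))
            have e4 := hae a (hT a (Finset.mem_insert_self _ _))
            filter_upwards [e1, e2, e3, e4] with x x1 x2 x3 x4
            rw [x1, Finset.sum_insert ha, Pi.add_apply, x2, x3, Pi.smul_apply, x4]
            simp [hFdef]
        exact h4 S hone
      have h8 := lintegral_congr_ae (h3.fun_comp (fun z : ℂ => ‖z‖ₑ ^ (2 : ℝ)))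
      simp only [Function.comp_def] at h8
      rw [← h8]
      set f := ∑ p ∈ S, γ p • v p with hf
      have h5 : ‖f‖ₑ = (∫⁻ x, ‖(f : E d → ℂ) x‖ₑ ^ (2 : ℝ)) ^ (1 / (2 : ℝ)) := by
        rw [Lp.enorm_def, eLpNorm_eq_lintegral_rpow_enorm_toReal (by simp) (by simp)]
        simp
      have h6 : ‖f‖ₑ ^ (2 : ℝ) = ∫⁻ x, ‖(f : E d → ℂ) x‖ₑ ^ (2 : ℝ) := by
        rw [h5, ← ENNReal.rpow_mul]
        norm_num
      rw [← h6, ← ofReal_norm_eq_enorm, ENNReal.ofReal_rpow_of_nonneg (norm_nonneg _) (by norm_num)]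
      norm_num
    rw [h2]
    exact ENNReal.ofReal_le_ofReal h1
  have hT : ∀ M : ℕ, ∃ C : ℝ, 0 < C ∧ ∀ (p : P d) (D : ℝ), 1 ≤ p.2 → 1 ≤ D →
      ∫⁻ x in {x : E d | D < |‖x - p.1‖ - p.2|}, ‖F p x‖ₑ ≤
        ENNReal.ofReal (C * p.2 ^ (d - 1) / D ^ M) := by
    intro M
    obtain ⟨C, hC, h⟩ := Fk_tail hd2 η M
    exact ⟨C, hC, fun p D hp hD => h p.1 p.2 D (by linarith) hD⟩
  obtain ⟨C, δ, hC, hδ, h⟩ := levelW d hd2 F θ C2 hθ hFm hL2 hT q hq1 hq2
  exact restrictedW d F hFm q hq1 C δ hC hδ h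

end Pool.LibTP53
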