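import Pool.Agent.LibTP53.Defs
import Pool.Agent.LibSR53.I1

/-
PLAN (IA). This is the second half of the proof of interpolate (LibSR53.I1) with abstract pieces: copy its private lemmas (i1_tangent, i1_subadd, i1_tele, i1_geo, i1_double, i1_term) and the part of
interpolate from the pointwise bound on (hpt, hterm, final calc) with B j = (2^j)^p m j. C = p K 2 (1-rho)^(-1) + 1, rho = 2^(-(p/s - 1)).
-/

set_option autoImplicit false

noncomputable section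

open MeasureTheory Metric Set Filter

namespace Pool.LibTP53

open Pool.LibSR53

/-- tangent line inequality -/
private lemma ia_tangent {p T T' : ℝ} (hp : 1 ≤ p) (h0 : 0 ≤ T') (h : T' ≤ T) :
    T ^ p ≤ T' ^ p + p * (T - T') * T ^ (p - 1) := by
  rcases eq_or_lt_of_le (h0.trans h) with hT | hT
  · have h1 : T' = 0 := le_antisymm (h.trans hT.symm.le) h0
    rw [h1, ← hT]
    simp
  have h2 : -1 ≤ T' / T - 1 := by
    have : 0 ≤ T' / T := div_nonneg h0 hT.le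
    linarith
  have h3 := one_add_mul_self_le_rpow_one_add h2 hp
  have h4 : 1 + (T' / T - 1) = T' / T := by ring
  rw [h4, Real.div_rpow h0 hT.le, le_div_iff₀ (Real.rpow_pos_of_pos hT _)] at h3
  have h5 : T ^ (p - 1) = T ^ p / T := by
    rw [Real.rpow_sub hT, Real.rpow_one]
  rw [h5]
  have h6 : p * (T - T') * (T ^ p / T) = -(p * (T' / T - 1)) * T ^ p := by
    field_simp
    ring
  rw [h6]
  nlinarith [h3]

private lemma ia_subadd {q : ℝ} (hq0 : 0 < q) (hq1 : q ≤ 1) (a : ℤ → ℝ) (ha : ∀ j, 0 ≤ a j)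
    (J : Finset ℤ) : (∑ j ∈ J, a j) ^ q ≤ ∑ j ∈ J, a j ^ q := by
  classical
  induction J using Finset.induction_on with
  | empty => simp [Real.zero_rpow hq0.ne']
  | insert m J hm ih =>
    rw [Finset.sum_insert hm, Finset.sum_insert hm]
    exact (Real.rpow_add_le_add_rpow (ha m) (Finset.sum_nonneg fun j _ => ha j) hq0.le hq1).trans
      (add_le_add le_rfl ih)

/-- the telescoping inequality -/
private lemma ia_tele {p : ℝ} (hp1 : 1 < p) (hp2 : p < 2) (a : ℤ → ℝ) (ha : ∀ j, 0 ≤ a j)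
    (J : Finset ℤ) : (∑ j ∈ J, a j) ^ p ≤
      p * ∑ j ∈ J, a j * ∑ i ∈ J.filter (fun i => i ≤ j), a i ^ (p - 1) := by
  induction J using Finset.induction_on_max with
  | empty => simp [Real.zero_rpow (by linarith : p ≠ 0)]
  | insert m J hm ih =>
    have hmJ : m ∉ J := fun h => lt_irrefl _ (hm m h)
    rw [Finset.sum_insert hmJ, Finset.sum_insert hmJ]
    have hT : 0 ≤ ∑ j ∈ J, a j := Finset.sum_nonneg fun j _ => ha j
    have h1 := ia_tangent hp1.le hT (by linarith [ha m] : ∑ j ∈ J, a j ≤ a m + ∑ j ∈ J, a j)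
    have h2 : (a m + ∑ j ∈ J, a j) ^ (p - 1) ≤
        ∑ i ∈ (insert m J).filter (fun i => i ≤ m), a i ^ (p - 1) := by
      have h3 : (insert m J).filter (fun i => i ≤ m) = insert m J := by
        rw [Finset.filter_eq_self]
        intro i hi
        rcases Finset.mem_insert.1 hi with h | h
        · exact h.le
        · exact (hm i h).le
      rw [h3, ← Finset.sum_insert hmJ]
      exact ia_subadd (by linarith) (by linarith) a ha _
    have h4 : ∑ j ∈ J, a j * ∑ i ∈ J.filter (fun i => i ≤ j), a i ^ (p - 1) ≤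
        ∑ j ∈ J, a j * ∑ i ∈ (insert m J).filter (fun i => i ≤ j), a i ^ (p - 1) := by
      refine Finset.sum_le_sum fun j _ => mul_le_mul_of_nonneg_left ?_ (ha j)
      refine Finset.sum_le_sum_of_subset_of_nonneg ?_ fun i _ _ => Real.rpow_nonneg (ha i) _
      exact Finset.filter_subset_filter _ (Finset.subset_insert _ _)
    have h5 : a m + ∑ j ∈ J, a j - ∑ j ∈ J, a j = a m := by ring
    rw [h5] at h1
    calc (a m + ∑ j ∈ J, a j) ^ p
        ≤ (∑ j ∈ J, a j) ^ p + p * a m * (a m + ∑ j ∈ J, a j) ^ (p - 1) := h1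
      _ ≤ p * ∑ j ∈ J, a j * ∑ i ∈ J.filter (fun i => i ≤ j), a i ^ (p - 1) +
          p * a m * ∑ i ∈ (insert m J).filter (fun i => i ≤ m), a i ^ (p - 1) := by
        refine add_le_add ih (mul_le_mul_of_nonneg_left h2 ?_)
        exact mul_nonneg (by linarith) (ha m)
      _ ≤ p * ∑ j ∈ J, a j * ∑ i ∈ (insert m J).filter (fun i => i ≤ j), a i ^ (p - 1) +
          p * a m * ∑ i ∈ (insert m J).filter (fun i => i ≤ m), a i ^ (p - 1) := by
        have hp0 : 0 ≤ p := by linarith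
        exact add_le_add (mul_le_mul_of_nonneg_left h4 hp0) le_rfl
      _ = _ := by ring

/-- geometric series over a finite set of integers -/
private lemma ia_geo {ρ : ℝ} (h0 : 0 ≤ ρ) (h1 : ρ < 1) (J : Finset ℤ) (e : ℤ → ℕ)
    (he : Set.InjOn e J) : ∑ i ∈ J, ρ ^ e i ≤ (1 - ρ)⁻¹ := by
  classical
  rw [← Finset.sum_image (f := fun n : ℕ => ρ ^ n) he, ← tsum_geometric_of_lt_one h0 h1]
  exact (summable_geometric_of_lt_one h0 h1).sum_le_tsum _ fun n _ => pow_nonneg h0 n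

private lemma ia_double {ρ : ℝ} (h0 : 0 ≤ ρ) (h1 : ρ < 1) (J : Finset ℤ) (B : ℤ → ℝ)
    (hB : ∀ j, 0 ≤ B j) :
    ∑ j ∈ J, ∑ i ∈ J.filter (fun i => i ≤ j), ρ ^ (j - i).toNat * (B j + B i) ≤
      2 * (1 - ρ)⁻¹ * ∑ j ∈ J, B j := by
  have hA : ∑ j ∈ J, ∑ i ∈ J.filter (fun i => i ≤ j), ρ ^ (j - i).toNat * B j ≤
      (1 - ρ)⁻¹ * ∑ j ∈ J, B j := by
    rw [Finset.mul_sum]
    refine Finset.sum_le_sum fun j _ => ?_
    rw [← Finset.sum_mul]
    refine mul_le_mul_of_nonneg_right ?_ (hB j)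
    refine ia_geo h0 h1 _ (fun i => (j - i).toNat) ?_
    intro i hi i' hi' h
    have hi1 := (Finset.mem_filter.1 (Finset.mem_coe.1 hi)).2
    have hi2 := (Finset.mem_filter.1 (Finset.mem_coe.1 hi')).2
    simp only at h
    omega
  have hC : ∑ j ∈ J, ∑ i ∈ J.filter (fun i => i ≤ j), ρ ^ (j - i).toNat * B i ≤
      (1 - ρ)⁻¹ * ∑ j ∈ J, B j := by
    have : ∑ j ∈ J, ∑ i ∈ J.filter (fun i => i ≤ j), ρ ^ (j - i).toNat * B i =
        ∑ i ∈ J, ∑ j ∈ J.filter (fun j => i ≤ j), ρ ^ (j - i).toNat * B i := by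
      simp only [Finset.sum_filter]
      rw [Finset.sum_comm]
    rw [this, Finset.mul_sum]
    refine Finset.sum_le_sum fun i _ => ?_
    rw [← Finset.sum_mul]
    refine mul_le_mul_of_nonneg_right ?_ (hB i)
    refine ia_geo h0 h1 _ (fun j => (j - i).toNat) ?_
    intro j hj j' hj' h
    have hi1 := (Finset.mem_filter.1 (Finset.mem_coe.1 hj)).2
    have hi2 := (Finset.mem_filter.1 (Finset.mem_coe.1 hj')).2
    simp only at h
    omega
  calc ∑ j ∈ J, ∑ i ∈ J.filter (fun i => i ≤ j), ρ ^ (j - i).toNat * (B j + B i)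
      = ∑ j ∈ J, ∑ i ∈ J.filter (fun i => i ≤ j), ρ ^ (j - i).toNat * B j +
        ∑ j ∈ J, ∑ i ∈ J.filter (fun i => i ≤ j), ρ ^ (j - i).toNat * B i := by
        rw [← Finset.sum_add_distrib]
        refine Finset.sum_congr rfl fun j _ => ?_
        rw [← Finset.sum_add_distrib]
        refine Finset.sum_congr rfl fun i _ => ?_
        ring
    _ ≤ (1 - ρ)⁻¹ * ∑ j ∈ J, B j + (1 - ρ)⁻¹ * ∑ j ∈ J, B j := add_le_add hA hC
    _ = _ := by ring

/-- the product of the two norms -/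
private lemma ia_term {p s K μj μi : ℝ} {j i : ℤ} (hs1 : 1 < s)
    (hK : 0 ≤ K) (hj : 0 ≤ μj) (hi : 0 ≤ μi) (hij : i ≤ j) :
    (K * ((2 : ℝ) ^ j) ^ s * μj) ^ (1 / s) *
      (K * ((2 : ℝ) ^ i) ^ ((p - 1) * s / (s - 1)) * μi) ^ (1 / (s / (s - 1))) ≤
      K * (((2 : ℝ) ^ (-(p / s - 1))) ^ (j - i).toNat *
        (((2 : ℝ) ^ j) ^ p * μj + ((2 : ℝ) ^ i) ^ p * μi)) := by
  have hs0 : 0 < s := by linarith
  have hs3 : 0 < s - 1 := by linarith
  have h2j : (0 : ℝ) < 2 ^ j := zpow_pos two_pos j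
  have h2i : (0 : ℝ) < 2 ^ i := zpow_pos two_pos i
  have e1 : ∀ (k : ℤ) (t : ℝ), ((2 : ℝ) ^ k) ^ t = (2 : ℝ) ^ ((k : ℝ) * t) := by
    intro k t
    rw [← Real.rpow_intCast, ← Real.rpow_mul two_pos.le]
  have hsum : 1 / s + (s - 1) / s = 1 := by
    field_simp
    ring
  have e2 : (1 / (s / (s - 1))) = (s - 1) / s := by
    rw [one_div, inv_div]
  rw [e2, Real.mul_rpow (mul_nonneg hK (Real.rpow_nonneg h2j.le _)) hj,
    Real.mul_rpow hK (Real.rpow_nonneg h2j.le _),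
    Real.mul_rpow (mul_nonneg hK (Real.rpow_nonneg h2i.le _)) hi,
    Real.mul_rpow hK (Real.rpow_nonneg h2i.le _)]
  have hKK : K ^ (1 / s) * K ^ ((s - 1) / s) = K := by
    rcases eq_or_lt_of_le hK with h | h
    · rw [← h, Real.zero_rpow (by positivity), zero_mul]
    · rw [← Real.rpow_add h, hsum, Real.rpow_one]
  have hAM := Real.geom_mean_le_arith_mean2_weighted (w₁ := 1 / s) (w₂ := (s - 1) / s)
    (p₁ := ((2 : ℝ) ^ j) ^ p * μj) (p₂ := ((2 : ℝ) ^ i) ^ p * μi) (by positivity) (by positivity)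
    (by positivity) (by positivity) hsum
  have hAM2 : 1 / s * (((2 : ℝ) ^ j) ^ p * μj) + (s - 1) / s * (((2 : ℝ) ^ i) ^ p * μi) ≤
      ((2 : ℝ) ^ j) ^ p * μj + ((2 : ℝ) ^ i) ^ p * μi := by
    have a1 : 1 / s ≤ 1 := by rw [div_le_one hs0]; exact hs1.le
    have a2 : (s - 1) / s ≤ 1 := by rw [div_le_one hs0]; linarith
    have b1 : 0 ≤ ((2 : ℝ) ^ j) ^ p * μj := by positivity
    have b2 : 0 ≤ ((2 : ℝ) ^ i) ^ p * μi := by positivity
    nlinarith
  have hto : (((j - i).toNat : ℕ) : ℝ) = (j : ℝ) - i := by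
    have : (((j - i).toNat : ℕ) : ℤ) = j - i := Int.toNat_of_nonneg (by omega)
    have h3 : (((j - i).toNat : ℤ) : ℝ) = ((j - i : ℤ) : ℝ) := by rw [this]
    rw [Int.cast_natCast] at h3
    rw [h3]
    push_cast
    ring
  have key : K ^ (1 / s) * (((2 : ℝ) ^ j) ^ s) ^ (1 / s) * μj ^ (1 / s) *
      (K ^ ((s - 1) / s) * (((2 : ℝ) ^ i) ^ ((p - 1) * s / (s - 1))) ^ ((s - 1) / s) *
        μi ^ ((s - 1) / s)) =
      K * (((2 : ℝ) ^ (-(p / s - 1))) ^ (j - i).toNat *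
        ((((2 : ℝ) ^ j) ^ p * μj) ^ (1 / s) * (((2 : ℝ) ^ i) ^ p * μi) ^ ((s - 1) / s))) := by
    rw [Real.mul_rpow (Real.rpow_nonneg h2j.le _) hj, Real.mul_rpow (Real.rpow_nonneg h2i.le _) hi]
    have c1 : (((2 : ℝ) ^ j) ^ s) ^ (1 / s) * (((2 : ℝ) ^ i) ^ ((p - 1) * s / (s - 1))) ^
        ((s - 1) / s) = ((2 : ℝ) ^ (-(p / s - 1))) ^ (j - i).toNat *
        ((((2 : ℝ) ^ j) ^ p) ^ (1 / s) * (((2 : ℝ) ^ i) ^ p) ^ ((s - 1) / s)) := by
      rw [← Real.rpow_natCast ((2 : ℝ) ^ (-(p / s - 1))), hto]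
      simp only [e1, ← Real.rpow_mul two_pos.le, ← Real.rpow_add two_pos]
      congr 1
      field_simp
      ring
    calc K ^ (1 / s) * (((2 : ℝ) ^ j) ^ s) ^ (1 / s) * μj ^ (1 / s) *
        (K ^ ((s - 1) / s) * (((2 : ℝ) ^ i) ^ ((p - 1) * s / (s - 1))) ^ ((s - 1) / s) *
          μi ^ ((s - 1) / s)) = (K ^ (1 / s) * K ^ ((s - 1) / s)) *
          ((((2 : ℝ) ^ j) ^ s) ^ (1 / s) * (((2 : ℝ) ^ i) ^ ((p - 1) * s / (s - 1))) ^
            ((s - 1) / s)) * (μj ^ (1 / s) * μi ^ ((s - 1) / s)) := by ring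
      _ = _ := by
        rw [hKK, c1]
        ring
  rw [key]
  refine mul_le_mul_of_nonneg_left ?_ hK
  exact mul_le_mul_of_nonneg_left (hAM.trans hAM2) (by positivity)

/-- interpolation between levels -/
theorem interp_levels (p s K : ℝ) (hp1 : 1 < p) (hp2 : p < 2) (hs1 : 1 < s) (hs2 : s < p)
    (hK : 0 ≤ K) : ∃ C : ℝ, 0 < C ∧ ∀ {X : Type} [MeasurableSpace X] (μ : Measure X)
    (J : Finset ℤ) (f : ℤ → X → ℂ) (m : ℤ → ℝ), (∀ j ∈ J, AEStronglyMeasurable (f j) μ) →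
    (∀ j, 0 ≤ m j) →
    (∀ j ∈ J, ∫⁻ x, ‖f j x‖ₑ ^ s ∂μ ≤ ENNReal.ofReal (K * ((2 : ℝ) ^ j) ^ s * m j)) →
    (∀ j ∈ J, ∫⁻ x, ‖f j x‖ₑ ^ ((p - 1) * s / (s - 1)) ∂μ ≤
      ENNReal.ofReal (K * ((2 : ℝ) ^ j) ^ ((p - 1) * s / (s - 1)) * m j)) →
    ∫⁻ x, ‖∑ j ∈ J, f j x‖ₑ ^ p ∂μ ≤ ENNReal.ofReal (C * ∑ j ∈ J, ((2 : ℝ) ^ j) ^ p * m j) := by
  classical
  set ρ : ℝ := (2 : ℝ) ^ (-(p / s - 1)) with hρ
  have hs0 : 0 < s := by linarith
  have hs3 : 0 < s - 1 := by linarith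
  have hps : 1 < p / s := by rwa [lt_div_iff₀ hs0, one_mul]
  have hρ0 : 0 ≤ ρ := Real.rpow_nonneg two_pos.le _
  have hρ1 : ρ < 1 := Real.rpow_lt_one_of_one_lt_of_neg one_lt_two (by linarith)
  have hgeo : 0 ≤ 2 * (1 - ρ)⁻¹ := mul_nonneg two_pos.le (inv_nonneg.2 (by linarith))
  have hp0 : 0 ≤ p := by linarith
  have hq2 : 0 < (p - 1) * s / (s - 1) := by
    have : 0 < p - 1 := by linarith
    positivity
  refine ⟨p * (K * (2 * (1 - ρ)⁻¹)) + 1, by positivity, fun {X} _ μ J f m hfm' hm h1 h2 => ?_⟩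
  let B : ℤ → ℝ := fun j => ((2 : ℝ) ^ j) ^ p * m j
  have hB : ∀ j, 0 ≤ B j := fun j =>
    mul_nonneg (Real.rpow_nonneg (zpow_pos two_pos j).le _) (hm j)
  have hfe : ∀ j ∈ J, AEMeasurable (fun x => ‖f j x‖ₑ) μ := fun j hj => (hfm' j hj).enorm
  -- pointwise bound
  have hpt : ∀ x, ‖∑ j ∈ J, f j x‖ₑ ^ p ≤ ENNReal.ofReal p *
      ∑ j ∈ J, ∑ i ∈ J.filter (fun i => i ≤ j), ‖f j x‖ₑ * ‖f i x‖ₑ ^ (p - 1) := by
    intro x
    have h3 := ia_tele hp1 hp2 (fun j => ‖f j x‖) (fun j => norm_nonneg _) J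
    have h4 : ‖∑ j ∈ J, f j x‖ ^ p ≤ (∑ j ∈ J, ‖f j x‖) ^ p :=
      Real.rpow_le_rpow (norm_nonneg _) (norm_sum_le _ _) hp0
    have h5 := ENNReal.ofReal_le_ofReal (h4.trans h3)
    rw [← ofReal_norm, ENNReal.ofReal_rpow_of_nonneg (norm_nonneg _) hp0]
    refine h5.trans (le_of_eq ?_)
    rw [ENNReal.ofReal_mul hp0, ENNReal.ofReal_sum_of_nonneg]
    · congr 1
      refine Finset.sum_congr rfl fun j _ => ?_
      rw [ENNReal.ofReal_mul (norm_nonneg _), ENNReal.ofReal_sum_of_nonneg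
        (fun i _ => Real.rpow_nonneg (norm_nonneg _) _), Finset.mul_sum]
      refine Finset.sum_congr rfl fun i _ => ?_
      rw [← ofReal_norm, ← ofReal_norm,
        ENNReal.ofReal_rpow_of_nonneg (norm_nonneg _) (by linarith)]
    · intro j _
      exact mul_nonneg (norm_nonneg _)
        (Finset.sum_nonneg fun i _ => Real.rpow_nonneg (norm_nonneg _) _)
  -- one term
  have hterm : ∀ j ∈ J, ∀ i ∈ J, i ≤ j → ∫⁻ x, ‖f j x‖ₑ * ‖f i x‖ₑ ^ (p - 1) ∂μ ≤
      ENNReal.ofReal (K * (ρ ^ (j - i).toNat * (B j + B i))) := by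
    intro j hj i hi hij
    have hconj : s.HolderConjugate (s / (s - 1)) := Real.HolderConjugate.conjExponent hs1
    have h3 := ENNReal.lintegral_mul_le_Lp_mul_Lq μ hconj (hfe j hj)
      ((hfe i hi).pow_const (p - 1))
    have h4 := h1 j hj
    have h5 := h2 i hi
    have e3 : ∀ x, (‖f i x‖ₑ ^ (p - 1)) ^ (s / (s - 1)) = ‖f i x‖ₑ ^ ((p - 1) * s / (s - 1)) := by
      intro x
      rw [← ENNReal.rpow_mul]
      congr 1
      ring
    simp only [Pi.mul_apply] at h3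
    refine h3.trans ?_
    simp only [e3]
    have h6 : (∫⁻ x, ‖f j x‖ₑ ^ s ∂μ) ^ (1 / s) ≤
        ENNReal.ofReal ((K * ((2 : ℝ) ^ j) ^ s * m j) ^ (1 / s)) := by
      rw [← ENNReal.ofReal_rpow_of_nonneg (mul_nonneg (mul_nonneg hK (Real.rpow_nonneg
        (zpow_pos two_pos j).le _)) (hm j)) (by positivity)]
      exact ENNReal.rpow_le_rpow h4 (by positivity)
    have h7 : (∫⁻ x, ‖f i x‖ₑ ^ ((p - 1) * s / (s - 1)) ∂μ) ^ (1 / (s / (s - 1))) ≤
        ENNReal.ofReal ((K * ((2 : ℝ) ^ i) ^ ((p - 1) * s / (s - 1)) * m i) ^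
          (1 / (s / (s - 1)))) := by
      rw [← ENNReal.ofReal_rpow_of_nonneg (mul_nonneg (mul_nonneg hK (Real.rpow_nonneg
        (zpow_pos two_pos i).le _)) (hm i)) (by positivity)]
      exact ENNReal.rpow_le_rpow h5 (by positivity)
    refine (mul_le_mul' h6 h7).trans ?_
    rw [← ENNReal.ofReal_mul (Real.rpow_nonneg (mul_nonneg (mul_nonneg hK (Real.rpow_nonneg
        (zpow_pos two_pos j).le _)) (hm j)) _)]
    exact ENNReal.ofReal_le_ofReal (ia_term hs1 hK (hm j) (hm i) hij)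
  have hRS : 0 ≤ ∑ j ∈ J, B j := Finset.sum_nonneg fun j _ => hB j
  calc ∫⁻ x, ‖∑ j ∈ J, f j x‖ₑ ^ p ∂μ
      ≤ ∫⁻ x, ENNReal.ofReal p * ∑ j ∈ J, ∑ i ∈ J.filter (fun i => i ≤ j),
          ‖f j x‖ₑ * ‖f i x‖ₑ ^ (p - 1) ∂μ := lintegral_mono hpt
    _ = ENNReal.ofReal p * ∑ j ∈ J, ∑ i ∈ J.filter (fun i => i ≤ j),
          ∫⁻ x, ‖f j x‖ₑ * ‖f i x‖ₑ ^ (p - 1) ∂μ := by
        rw [lintegral_const_mul' _ _ ENNReal.ofReal_ne_top, lintegral_finsetSum']
        · congr 1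
          refine Finset.sum_congr rfl fun j hj => ?_
          rw [lintegral_finsetSum']
          intro i hi
          exact (hfe j hj).mul ((hfe i (Finset.mem_filter.1 hi).1).pow_const _)
        · intro j hj
          exact Finset.aemeasurable_fun_sum _ fun i hi =>
            (hfe j hj).mul ((hfe i (Finset.mem_filter.1 hi).1).pow_const _)
    _ ≤ ENNReal.ofReal p * ∑ j ∈ J, ∑ i ∈ J.filter (fun i => i ≤ j),
          ENNReal.ofReal (K * (ρ ^ (j - i).toNat * (B j + B i))) := by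
        refine mul_le_mul' le_rfl ?_
        refine Finset.sum_le_sum fun j hj => Finset.sum_le_sum fun i hi => ?_
        exact hterm j hj i (Finset.mem_filter.1 hi).1 (Finset.mem_filter.1 hi).2
    _ = ENNReal.ofReal (p * ∑ j ∈ J, ∑ i ∈ J.filter (fun i => i ≤ j),
          K * (ρ ^ (j - i).toNat * (B j + B i))) := by
        have hnn : ∀ j i : ℤ, 0 ≤ K * (ρ ^ (j - i).toNat * (B j + B i)) := fun j i =>
          mul_nonneg hK (mul_nonneg (pow_nonneg hρ0 _) (add_nonneg (hB j) (hB i)))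
        rw [ENNReal.ofReal_mul hp0, ENNReal.ofReal_sum_of_nonneg
          (fun j _ => Finset.sum_nonneg fun i _ => hnn j i)]
        congr 1
        refine Finset.sum_congr rfl fun j _ => ?_
        rw [ENNReal.ofReal_sum_of_nonneg (fun i _ => hnn j i)]
    _ ≤ _ := by
        refine ENNReal.ofReal_le_ofReal ?_
        have h3 : ∑ j ∈ J, ∑ i ∈ J.filter (fun i => i ≤ j),
            K * (ρ ^ (j - i).toNat * (B j + B i)) =
            K * ∑ j ∈ J, ∑ i ∈ J.filter (fun i => i ≤ j), ρ ^ (j - i).toNat * (B j + B i) := by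
          rw [Finset.mul_sum]
          refine Finset.sum_congr rfl fun j _ => ?_
          rw [Finset.mul_sum]
        rw [h3]
        have h4 := ia_double hρ0 hρ1 J B hB
        calc p * (K * ∑ j ∈ J, ∑ i ∈ J.filter (fun i => i ≤ j),
              ρ ^ (j - i).toNat * (B j + B i))
            ≤ p * (K * (2 * (1 - ρ)⁻¹ * ∑ j ∈ J, B j)) :=
              mul_le_mul_of_nonneg_left (mul_le_mul_of_nonneg_left h4 hK) hp0
          _ = p * (K * (2 * (1 - ρ)⁻¹)) * ∑ j ∈ J, B j := by ring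
          _ ≤ _ := by
              refine mul_le_mul_of_nonneg_right ?_ hRS
              linarith

end Pool.LibTP53
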