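import Pool.Agent.LibTP53.Defs

/-
PLAN (IB). Exchange the sums: for q in T the contribution is q.2^(d-1) sum over n in J, n <= l of (2^n)^p 2^(l-n), l = lv q; (2^n)^p 2^(l-n) = (2^l)^p rho^(l-n), rho = 2^(-(p-1)) < 1, and
the sum over n <= l in J is <= 1/(1-rho) (injection n |-> (l-n).toNat as in i1_geo of LibSR53.I1).
-/

set_option autoImplicit false

noncomputable section

open MeasureTheory Metric Set Filter

namespace Pool.LibTP53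

open Pool.LibSR53

/-- geometric series over a finite set of integers -/
private lemma ib_geo {ρ : ℝ} (h0 : 0 ≤ ρ) (h1 : ρ < 1) (J : Finset ℤ) (e : ℤ → ℕ)
    (he : Set.InjOn e J) : ∑ i ∈ J, ρ ^ e i ≤ (1 - ρ)⁻¹ := by
  classical
  rw [← Finset.sum_image (f := fun n : ℕ => ρ ^ n) he, ← tsum_geometric_of_lt_one h0 h1]
  exact (summable_geometric_of_lt_one h0 h1).sum_le_tsum _ fun n _ => pow_nonneg h0 n

private lemma ib_term {p : ℝ} (l n : ℤ) (h : n ≤ l) :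
    ((2 : ℝ) ^ n) ^ p * (2 : ℝ) ^ (l - n) =
      ((2 : ℝ) ^ l) ^ p * ((2 : ℝ) ^ (-(p - 1))) ^ (l - n).toNat := by
  have e1 : ∀ (k : ℤ) (t : ℝ), ((2 : ℝ) ^ k) ^ t = (2 : ℝ) ^ ((k : ℝ) * t) := by
    intro k t
    rw [← Real.rpow_intCast, ← Real.rpow_mul two_pos.le]
  have hto : (((l - n).toNat : ℕ) : ℝ) = (l : ℝ) - n := by
    have : (((l - n).toNat : ℕ) : ℤ) = l - n := Int.toNat_of_nonneg (by omega)
    have h3 : (((l - n).toNat : ℤ) : ℝ) = ((l - n : ℤ) : ℝ) := by rw [this]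
    rw [Int.cast_natCast] at h3
    rw [h3]
    push_cast
    ring
  rw [← Real.rpow_natCast ((2 : ℝ) ^ (-(p - 1))), hto, ← Real.rpow_intCast 2 (l - n), e1, e1,
    ← Real.rpow_mul two_pos.le, ← Real.rpow_add two_pos, ← Real.rpow_add two_pos]
  congr 1
  push_cast
  ring

/-- summation of the weights over the levels -/
theorem sum_wtW (p : ℝ) (hp : 1 < p) : ∃ C : ℝ, 0 < C ∧ ∀ (d : ℕ) (a : E d → ℤ) (b : ℝ → ℤ)
    (T : Finset (P d)) (J : Finset ℤ), (∀ q ∈ T, 0 ≤ q.2) →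
    ∑ n ∈ J, ((2 : ℝ) ^ n) ^ p * wtW a b n T ≤
      C * ∑ q ∈ T, ((2 : ℝ) ^ lv a b q) ^ p * q.2 ^ (d - 1) := by
  classical
  set ρ : ℝ := (2 : ℝ) ^ (-(p - 1)) with hρ
  have hρ0 : 0 ≤ ρ := Real.rpow_nonneg two_pos.le _
  have hρ1 : ρ < 1 := Real.rpow_lt_one_of_one_lt_of_neg one_lt_two (by linarith)
  have hC : 0 < (1 - ρ)⁻¹ := inv_pos.2 (by linarith)
  refine ⟨(1 - ρ)⁻¹, hC, fun d a b T J hT => ?_⟩
  have e1 : ∑ n ∈ J, ((2 : ℝ) ^ n) ^ p * wtW a b n T =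
      ∑ q ∈ T, ∑ n ∈ J, ((2 : ℝ) ^ n) ^ p * (wn a b n q * q.2 ^ (d - 1)) := by
    rw [Finset.sum_comm]
    refine Finset.sum_congr rfl fun n _ => ?_
    rw [wtW, Finset.mul_sum]
  rw [e1, Finset.mul_sum]
  refine Finset.sum_le_sum fun q hq => ?_
  have hq0 : 0 ≤ q.2 ^ (d - 1) := pow_nonneg (hT q hq) _
  have e2 : ∑ n ∈ J, ((2 : ℝ) ^ n) ^ p * (wn a b n q * q.2 ^ (d - 1)) =
      (∑ n ∈ J, ((2 : ℝ) ^ n) ^ p * wn a b n q) * q.2 ^ (d - 1) := by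
    rw [Finset.sum_mul]
    exact Finset.sum_congr rfl fun n _ => by ring
  have e3 : ∑ n ∈ J, ((2 : ℝ) ^ n) ^ p * wn a b n q =
      ∑ n ∈ J.filter (fun n => n ≤ lv a b q),
        ((2 : ℝ) ^ lv a b q) ^ p * ρ ^ (lv a b q - n).toNat := by
    rw [Finset.sum_filter]
    refine Finset.sum_congr rfl fun n _ => ?_
    by_cases h : n ≤ lv a b q
    · rw [if_pos h, wn, if_pos h, ib_term _ _ h]
    · rw [if_neg h, wn, if_neg h, mul_zero]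
  have e4 : ∑ n ∈ J.filter (fun n => n ≤ lv a b q), ρ ^ (lv a b q - n).toNat ≤ (1 - ρ)⁻¹ := by
    refine ib_geo hρ0 hρ1 _ (fun n => (lv a b q - n).toNat) ?_
    intro i hi i' hi' h
    have hi1 := (Finset.mem_filter.1 (Finset.mem_coe.1 hi)).2
    have hi2 := (Finset.mem_filter.1 (Finset.mem_coe.1 hi')).2
    simp only at h
    omega
  rw [e2, e3, ← Finset.mul_sum]
  have h2 : 0 ≤ ((2 : ℝ) ^ lv a b q) ^ p := Real.rpow_nonneg (zpow_pos two_pos _).le _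
  calc ((2 : ℝ) ^ lv a b q) ^ p * (∑ n ∈ J.filter (fun n => n ≤ lv a b q),
        ρ ^ (lv a b q - n).toNat) * q.2 ^ (d - 1)
      ≤ ((2 : ℝ) ^ lv a b q) ^ p * (1 - ρ)⁻¹ * q.2 ^ (d - 1) :=
        mul_le_mul_of_nonneg_right (mul_le_mul_of_nonneg_left e4 h2) hq0
    _ = (1 - ρ)⁻¹ * (((2 : ℝ) ^ lv a b q) ^ p * q.2 ^ (d - 1)) := by ring

end Pool.LibTP53
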