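import Pool.Agent.LibTP53.FA
import Pool.Agent.LibTP53.IA
import Pool.Agent.LibTP53.IB

/-
PLAN (FB). discrete_int: s with 1 < s < p close to p as in discrete (LibSR53.F1), level_Fk for the exponents s and (p-1)s/(s-1). J = image of lv on Y x R, f n = sum over En a b n (Y x R) of gamma F,
|gamma| <= 2^n there, scale by 2^n as in i1_piece of LibSR53.I1 (multiply gamma by 2^(-n), put 0 outside En), m n = wtW a b n (Y x R) >= 0. interp_levels, sum over the fibres of lv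
(sum_fiberwise_of_maps_to; En is the fibre), then sum_wtW.
discrete_prod: a y = Int.clog 2 (f y) (as lv in the proof of interpolate): f y <= 2^(a y) <= 2 f y for f y > 0, same for b; (2^(a+b))^p <= (4 f g)^p. norm gamma <= f g <= 2^(lv).
-/

set_option autoImplicit false

noncomputable section

open MeasureTheory Metric Set Filter

namespace Pool.LibTP53

open Pool.LibSR53

/-- one level, coefficients at most 2^j -/
private lemma FB_piece {d : ℕ} (F : P d → E d → ℂ) (T : Finset (P d)) (t C0 M : ℝ) (ht : 0 < t)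
    (h1 : ∀ γ : P d → ℂ, (∀ i, ‖γ i‖ ≤ 1) →
      ∫⁻ x, ‖∑ i ∈ T, γ i * F i x‖ₑ ^ t ≤ ENNReal.ofReal (C0 * M))
    (j : ℤ) (γ : P d → ℂ) (hγ : ∀ i ∈ T, ‖γ i‖ ≤ (2 : ℝ) ^ j) :
    ∫⁻ x, ‖∑ i ∈ T, γ i * F i x‖ₑ ^ t ≤
      ENNReal.ofReal (C0 * ((2 : ℝ) ^ j) ^ t * M) := by
  classical
  have h2j : (0 : ℝ) < 2 ^ j := zpow_pos two_pos j
  let γ' : P d → ℂ := fun i => if i ∈ T then γ i / ((2 : ℝ) ^ j : ℝ) else 0
  have hγ' : ∀ i, ‖γ' i‖ ≤ 1 := by
    intro i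
    by_cases hi : i ∈ T
    · have h0 : γ' i = γ i / ((2 : ℝ) ^ j : ℝ) := if_pos hi
      rw [h0, norm_div, Complex.norm_real, Real.norm_of_nonneg h2j.le, div_le_one h2j]
      exact hγ i hi
    · have h0 : γ' i = 0 := if_neg hi
      rw [h0, norm_zero]
      exact zero_le_one
  have e1 : ∀ x, ∑ i ∈ T, γ i * F i x = (((2 : ℝ) ^ j : ℝ) : ℂ) * ∑ i ∈ T, γ' i * F i x := by
    intro x
    rw [Finset.mul_sum]
    refine Finset.sum_congr rfl fun i hi => ?_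
    have h0 : γ' i = γ i / ((2 : ℝ) ^ j : ℝ) := if_pos hi
    have h3 : (((2 : ℝ) ^ j : ℝ) : ℂ) ≠ 0 := Complex.ofReal_ne_zero.2 h2j.ne'
    rw [h0]
    field_simp
  have e2 : ∀ x, ‖∑ i ∈ T, γ i * F i x‖ₑ ^ t =
      ENNReal.ofReal (((2 : ℝ) ^ j) ^ t) * ‖∑ i ∈ T, γ' i * F i x‖ₑ ^ t := by
    intro x
    rw [e1, enorm_mul, ENNReal.mul_rpow_of_nonneg _ _ ht.le]
    congr 1
    rw [← ofReal_norm, Complex.norm_real, Real.norm_of_nonneg h2j.le,
      ENNReal.ofReal_rpow_of_nonneg h2j.le ht.le]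
  simp only [e2]
  rw [lintegral_const_mul' _ _ ENNReal.ofReal_ne_top]
  calc ENNReal.ofReal (((2 : ℝ) ^ j) ^ t) * ∫⁻ x, ‖∑ i ∈ T, γ' i * F i x‖ₑ ^ t
      ≤ ENNReal.ofReal (((2 : ℝ) ^ j) ^ t) * ENNReal.ofReal (C0 * M) := by
        gcongr
        exact h1 γ' hγ'
    _ = ENNReal.ofReal (((2 : ℝ) ^ j) ^ t * (C0 * M)) := by
        rw [ENNReal.ofReal_mul (Real.rpow_nonneg h2j.le _)]
    _ = _ := by
        congr 1
        ring

/-- the discrete inequality, dyadic coefficients -/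
theorem discrete_int (d : ℕ) (hd : 4 ≤ d) (η : SchwartzMap (E d) ℂ) (ε : ℝ) (hε : 0 < ε)
    (hη : Van η ε) (p : ℝ) (hp1 : 1 < p) (hp2 : p * (1 + 1 / (nu d + 1)) < 2) :
    ∃ C : ℝ, 0 < C ∧ ∀ (Y : Finset (E d)) (R : Finset ℝ) (a : E d → ℤ) (b : ℝ → ℤ), Sep Y R →
      ∀ γ : P d → ℂ, (∀ q ∈ Y ×ˢ R, ‖γ q‖ ≤ (2 : ℝ) ^ lv a b q) →
      ∫⁻ x, ‖∑ q ∈ Y ×ˢ R, γ q * Fk η q.1 q.2 x‖ₑ ^ p ≤
        ENNReal.ofReal (C * ∑ q ∈ Y ×ˢ R, ((2 : ℝ) ^ lv a b q) ^ p * q.2 ^ (d - 1)) := by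
  classical
  have hd2 : 2 ≤ d := by omega
  have hd' : (4 : ℝ) ≤ d := by exact_mod_cast hd
  have hν : 0 < nu d + 1 := by unfold nu; linarith
  set θ : ℝ := 1 / (nu d + 1) with hθdef
  have hθ : 0 ≤ θ := div_nonneg zero_le_one hν.le
  have hpθ : p < 2 := by nlinarith
  obtain ⟨s, hs1, hs2, hs3⟩ : ∃ s : ℝ, 1 < s ∧ s < p ∧ (p - 1) * s / (s - 1) * (1 + θ) < 2 := by
    have hcont : ContinuousAt (fun s : ℝ => (p - 1) * s / (s - 1) * (1 + θ)) p := by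
      apply ContinuousAt.mul _ continuousAt_const
      apply ContinuousAt.div
      · exact (continuous_const.mul continuous_id).continuousAt
      · exact (continuous_id.sub continuous_const).continuousAt
      · linarith
    have hval : (p - 1) * p / (p - 1) * (1 + θ) < 2 := by
      rw [mul_div_assoc, mul_div_cancel₀ _ (by linarith : p - 1 ≠ 0)]
      exact hp2
    have hev : ∀ᶠ s in nhds p, (p - 1) * s / (s - 1) * (1 + θ) < 2 :=
      hcont.eventually_lt continuousAt_const hval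
    obtain ⟨r, hr, hball⟩ := Metric.eventually_nhds_iff.mp hev
    refine ⟨max ((1 + p) / 2) (p - r / 2), ?_, ?_, ?_⟩
    · exact lt_of_lt_of_le (by linarith) (le_max_left _ _)
    · exact max_lt (by linarith) (by linarith)
    · apply hball
      rw [Real.dist_eq, abs_lt]
      constructor
      · have := le_max_right ((1 + p) / 2) (p - r / 2)
        linarith
      · have : max ((1 + p) / 2) (p - r / 2) < p := max_lt (by linarith) (by linarith)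
        linarith
  have hq2 : 1 < (p - 1) * s / (s - 1) := by
    rw [lt_div_iff₀ (by linarith)]
    nlinarith
  obtain ⟨Ca, hCa, ha⟩ := level_Fk d hd η ε hε hη s hs1 (by nlinarith)
  obtain ⟨Cb, hCb, hb⟩ := level_Fk d hd η ε hε hη _ hq2 hs3
  obtain ⟨Ci, hCi, hi⟩ := interp_levels p s (Ca + Cb) hp1 hpθ hs1 hs2 (by linarith)
  obtain ⟨Cw, hCw, hw⟩ := sum_wtW p hp1
  refine ⟨Ci * Cw, mul_pos hCi hCw, ?_⟩
  intro Y R a b hS γ hγ
  set T : Finset (P d) := Y ×ˢ R with hT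
  have hT1 : ∀ q ∈ T, 1 ≤ q.2 := fun q hq => hS.one_le q.2 (Finset.mem_product.1 hq).2
  have hEn : ∀ n, En a b n T ⊆ T := fun n => Finset.filter_subset _ _
  have hlvn : ∀ n, ∀ q ∈ En a b n T, lv a b q = n := fun n q hq => (Finset.mem_filter.1 hq).2
  set J : Finset ℤ := T.image (lv a b) with hJ
  have hwn : ∀ (n : ℤ) (q : P d), 0 ≤ wn a b n q := by
    intro n q
    unfold wn
    split_ifs
    · positivity
    · exact le_rfl
  have hm : ∀ n, 0 ≤ wtW a b n T := fun n => Finset.sum_nonneg fun q hq =>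
    mul_nonneg (hwn n q) (pow_nonneg (by linarith [hT1 q hq]) _)
  have hγn : ∀ n, ∀ q ∈ En a b n T, ‖γ q‖ ≤ (2 : ℝ) ^ n := by
    intro n q hq
    have h1 := hγ q (hEn n hq)
    rwa [hlvn n q hq] at h1
  have hmeas : ∀ j ∈ J, AEStronglyMeasurable
      (fun x => ∑ q ∈ En a b j T, γ q * Fk η q.1 q.2 x) (volume : Measure (E d)) := by
    intro j _
    refine Finset.aestronglyMeasurable_fun_sum _ fun q hq => ?_
    exact aestronglyMeasurable_const.mul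
      (Fk_continuous hd2 η q.1 q.2 (by linarith [hT1 q (hEn j hq)])).aestronglyMeasurable
  have hsA : ∀ j ∈ J, ∫⁻ x, ‖∑ q ∈ En a b j T, γ q * Fk η q.1 q.2 x‖ₑ ^ s ≤
      ENNReal.ofReal ((Ca + Cb) * ((2 : ℝ) ^ j) ^ s * wtW a b j T) := by
    intro j _
    refine (FB_piece (fun q => Fk η q.1 q.2) (En a b j T) s Ca (wtW a b j T) (by linarith)
      (fun γ' hγ' => ha Y R a b j hS γ' hγ') j γ (hγn j)).trans (ENNReal.ofReal_le_ofReal ?_)
    refine mul_le_mul_of_nonneg_right (mul_le_mul_of_nonneg_right (by linarith) ?_) (hm j)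
    exact Real.rpow_nonneg (zpow_pos two_pos j).le _
  have hsB : ∀ j ∈ J, ∫⁻ x, ‖∑ q ∈ En a b j T, γ q * Fk η q.1 q.2 x‖ₑ ^ ((p - 1) * s / (s - 1)) ≤
      ENNReal.ofReal ((Ca + Cb) * ((2 : ℝ) ^ j) ^ ((p - 1) * s / (s - 1)) * wtW a b j T) := by
    intro j _
    refine (FB_piece (fun q => Fk η q.1 q.2) (En a b j T) _ Cb (wtW a b j T) (by linarith)
      (fun γ' hγ' => hb Y R a b j hS γ' hγ') j γ (hγn j)).trans (ENNReal.ofReal_le_ofReal ?_)
    refine mul_le_mul_of_nonneg_right (mul_le_mul_of_nonneg_right (by linarith) ?_) (hm j)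
    exact Real.rpow_nonneg (zpow_pos two_pos j).le _
  have hmain := hi (volume : Measure (E d)) J
    (fun j x => ∑ q ∈ En a b j T, γ q * Fk η q.1 q.2 x) (fun j => wtW a b j T) hmeas hm hsA hsB
  have hdec : ∀ x, ∑ q ∈ T, γ q * Fk η q.1 q.2 x =
      ∑ j ∈ J, ∑ q ∈ En a b j T, γ q * Fk η q.1 q.2 x := by
    intro x
    have h1 := (Finset.sum_fiberwise_of_maps_to (s := T) (t := J) (g := lv a b)
      (fun q hq => Finset.mem_image_of_mem (lv a b) hq) (fun q => γ q * Fk η q.1 q.2 x)).symm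
    rw [h1]
    refine Finset.sum_congr rfl fun j _ => ?_
    refine Finset.sum_congr ?_ fun _ _ => rfl
    ext q
    simp [En]
  simp only [hdec]
  refine hmain.trans (ENNReal.ofReal_le_ofReal ?_)
  have h2 := hw d a b T J (fun q hq => by linarith [hT1 q hq])
  calc Ci * ∑ j ∈ J, ((2 : ℝ) ^ j) ^ p * wtW a b j T
      ≤ Ci * (Cw * ∑ q ∈ T, ((2 : ℝ) ^ lv a b q) ^ p * q.2 ^ (d - 1)) :=
        mul_le_mul_of_nonneg_left h2 hCi.le
    _ = _ := by ring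

/-- the discrete inequality for dominated coefficients -/
theorem discrete_prod (d : ℕ) (hd : 4 ≤ d) (η : SchwartzMap (E d) ℂ) (ε : ℝ) (hε : 0 < ε)
    (hη : Van η ε) (p : ℝ) (hp1 : 1 < p) (hp2 : p * (1 + 1 / (nu d + 1)) < 2) :
    ∃ C : ℝ, 0 < C ∧ ∀ (Y : Finset (E d)) (R : Finset ℝ) (f : E d → ℝ) (g : ℝ → ℝ), Sep Y R →
      (∀ y ∈ Y, 0 < f y) → (∀ r ∈ R, 0 < g r) →
      ∀ γ : P d → ℂ, (∀ q ∈ Y ×ˢ R, ‖γ q‖ ≤ f q.1 * g q.2) →
      ∫⁻ x, ‖∑ q ∈ Y ×ˢ R, γ q * Fk η q.1 q.2 x‖ₑ ^ p ≤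
        ENNReal.ofReal (C * ∑ q ∈ Y ×ˢ R, (f q.1 * g q.2) ^ p * q.2 ^ (d - 1)) := by
  obtain ⟨C, hC, h⟩ := discrete_int d hd η ε hε hη p hp1 hp2
  refine ⟨C * 4 ^ p, by positivity, ?_⟩
  intro Y R f g hS hf hg γ hγ
  have hup : ∀ t : ℝ, t ≤ (2 : ℝ) ^ (Int.clog 2 t) := by
    intro t
    have := Int.self_le_zpow_clog (b := 2) (by norm_num) t
    exact_mod_cast this
  have hlow : ∀ t : ℝ, 0 < t → (2 : ℝ) ^ (Int.clog 2 t) ≤ 2 * t := by
    intro t ht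
    have h3 := Int.zpow_pred_clog_lt_self (b := 2) (by norm_num) ht
    have h4 : (2 : ℝ) ^ (Int.clog 2 t) = 2 * (2 : ℝ) ^ (Int.clog 2 t - 1) := by
      rw [zpow_sub_one₀ two_ne_zero]
      field_simp
    rw [h4]
    have h5 : (2 : ℝ) ^ (Int.clog 2 t - 1) ≤ t := by exact_mod_cast h3.le
    linarith
  have hlv : ∀ q : P d, (2 : ℝ) ^ lv (fun y => Int.clog 2 (f y)) (fun r => Int.clog 2 (g r)) q =
      (2 : ℝ) ^ (Int.clog 2 (f q.1)) * (2 : ℝ) ^ (Int.clog 2 (g q.2)) := by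
    intro q
    unfold lv
    rw [zpow_add₀ two_ne_zero]
  have h1 := h Y R (fun y => Int.clog 2 (f y)) (fun r => Int.clog 2 (g r)) hS γ (by
    intro q hq
    rw [hlv]
    obtain ⟨hy, hr⟩ := Finset.mem_product.1 hq
    exact (hγ q hq).trans (mul_le_mul (hup _) (hup _) (hg _ hr).le (zpow_pos two_pos _).le))
  refine h1.trans (ENNReal.ofReal_le_ofReal ?_)
  rw [mul_assoc]
  refine mul_le_mul_of_nonneg_left ?_ hC.le
  rw [Finset.mul_sum]
  refine Finset.sum_le_sum fun q hq => ?_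
  obtain ⟨hy, hr⟩ := Finset.mem_product.1 hq
  have hfp := hf _ hy
  have hgp := hg _ hr
  have hq1 : 1 ≤ q.2 := hS.one_le _ hr
  rw [← mul_assoc]
  refine mul_le_mul_of_nonneg_right ?_ (pow_nonneg (by linarith) _)
  rw [hlv, ← Real.mul_rpow (by norm_num) (mul_pos hfp hgp).le]
  refine Real.rpow_le_rpow (by positivity) ?_ (by linarith)
  calc (2 : ℝ) ^ (Int.clog 2 (f q.1)) * (2 : ℝ) ^ (Int.clog 2 (g q.2))
      ≤ (2 * f q.1) * (2 * g q.2) :=
        mul_le_mul (hlow _ hfp) (hlow _ hgp) (zpow_pos two_pos _).le (by linarith)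
    _ = 4 * (f q.1 * g q.2) := by ring

end Pool.LibTP53
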