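import Pool.Agent.LibTP53.Defs
import Pool.Agent.LibSR53.F2

/-
PLAN (FC). Copy of lattice_split (LibSR53.F2, with its private lemmas) where Lambda is given as a product: the set Lambda = image of (piFinset x I) under f2pt is
(image of piFinset under the centre part) x (image of I under the cast) (Finset.product_image / ext). Λ1, Λ2 consist of integer points.
-/

set_option autoImplicit false

noncomputable section

open MeasureTheory Metric Set Filter

namespace Pool.LibTP53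

open Pool.LibSR53

private def f2Q (d : ℕ) : Set (P d) := {q | (∀ i, q.1 i ∈ Ico (0 : ℝ) 1) ∧ q.2 ∈ Ico (0 : ℝ) 1}

private lemma f2Q_meas (d : ℕ) : MeasurableSet (f2Q d) := by
  have h1 : f2Q d = (⋂ i : Fin d, {q : P d | q.1 i ∈ Ico (0 : ℝ) 1}) ∩
      {q : P d | q.2 ∈ Ico (0 : ℝ) 1} := by
    ext q
    simp [f2Q]
  rw [h1]
  refine MeasurableSet.inter (MeasurableSet.iInter fun i => ?_) ?_
  · have h2 : Measurable fun q : P d => q.1 i := by fun_prop
    exact h2 measurableSet_Ico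
  · have h2 : Measurable fun q : P d => q.2 := by fun_prop
    exact h2 measurableSet_Ico

private lemma f2_haar (d : ℕ) : (volume : Measure (P d)).IsAddHaarMeasure := by
  rw [Measure.volume_eq_prod]
  infer_instance

private lemma f2Q_fin (d : ℕ) : volume (f2Q d) ≠ ⊤ := by
  have := f2_haar d
  have hb : Bornology.IsBounded (f2Q d) := by
    rw [isBounded_iff_forall_norm_le]
    refine ⟨Real.sqrt d + 1, fun q hq => ?_⟩
    have h1 : ‖q.1‖ ≤ Real.sqrt d := by
      rw [EuclideanSpace.norm_eq]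
      apply Real.sqrt_le_sqrt
      calc ∑ i, ‖q.1 i‖ ^ 2 ≤ ∑ _i : Fin d, (1 : ℝ) := by
            refine Finset.sum_le_sum fun i _ => ?_
            have h2 := hq.1 i
            rw [Real.norm_eq_abs, abs_of_nonneg h2.1]
            have h3 := h2.2
            have h4 := h2.1
            nlinarith
        _ = d := by simp
    have h2 : ‖q.2‖ ≤ 1 := by
      rw [Real.norm_eq_abs, abs_of_nonneg hq.2.1]
      exact hq.2.2.le
    rw [Prod.norm_def]
    have h3 : 0 ≤ Real.sqrt d := Real.sqrt_nonneg _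
    exact max_le (by linarith) (by linarith)
  exact hb.measure_lt_top.ne

private def f2pt {d : ℕ} (m : (Fin d → ℤ) × ℤ) : P d :=
  (WithLp.toLp 2 (fun i => (m.1 i : ℝ)), (m.2 : ℝ))

private lemma f2pt_int {d : ℕ} (m : (Fin d → ℤ) × ℤ) : IsInt (f2pt m) :=
  ⟨fun i => ⟨m.1 i, rfl⟩, ⟨m.2, rfl⟩⟩

private lemma f2_floor {x a : ℝ} {n : ℤ} (hn : a = n) (h : x - a ∈ Ico (0 : ℝ) 1) :
    ⌊x⌋ = n := by
  rw [Int.floor_eq_iff]
  rw [hn] at h
  have h1 := h.1
  have h2 := h.2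
  constructor <;> linarith

private lemma f2_uniq {d : ℕ} {x a b : P d} (ha : IsInt a) (hb : IsInt b) (h1 : x - a ∈ f2Q d)
    (h2 : x - b ∈ f2Q d) : a = b := by
  refine Prod.ext ?_ ?_
  · ext i
    obtain ⟨n, hn⟩ := ha.1 i
    obtain ⟨m, hm⟩ := hb.1 i
    have h3 : ⌊x.1 i⌋ = n := f2_floor hn (h1.1 i)
    have h4 : ⌊x.1 i⌋ = m := f2_floor hm (h2.1 i)
    rw [hn, hm, ← h3, ← h4]
  · obtain ⟨n, hn⟩ := ha.2
    obtain ⟨m, hm⟩ := hb.2
    have h3 : ⌊x.2⌋ = n := f2_floor hn h1.2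
    have h4 : ⌊x.2⌋ = m := f2_floor hm h2.2
    rw [hn, hm, ← h3, ← h4]

private lemma f2_box {y R : ℝ} (h : |y| ≤ R) : ⌊y⌋ ∈ Finset.Icc (-(⌈R⌉ + 1)) (⌈R⌉ + 1) := by
  rw [Finset.mem_Icc]
  have h1 := abs_le.1 h
  have h2 := Int.le_ceil R
  have h3 := Int.floor_le y
  have h4 := Int.lt_floor_add_one y
  constructor
  · have h5 : (-(⌈R⌉ + 1 : ℤ) : ℝ) ≤ (⌊y⌋ : ℝ) := by
      push_cast
      linarith
    exact_mod_cast h5
  · have h5 : (⌊y⌋ : ℝ) ≤ ((⌈R⌉ + 1 : ℤ) : ℝ) := by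
      push_cast
      linarith
    exact_mod_cast h5

/-- decomposition of integrals over translates of the integer lattice, product form -/
theorem lattice_splitP (d : ℕ) : ∃ Q : Set (P d), MeasurableSet Q ∧ volume Q ≠ ⊤ ∧
    ∀ R : ℝ, ∃ (Λ1 : Finset (E d)) (Λ2 : Finset ℝ),
      (∀ y ∈ Λ1, ∀ i, ∃ n : ℤ, y i = n) ∧ (∀ r ∈ Λ2, ∃ n : ℤ, r = n) ∧
      (∀ f : P d → ℂ, Integrable f → (∀ a, R < ‖a‖ → f a = 0) →
        ∫ a, f a = ∫ q in Q, ∑ a ∈ Λ1 ×ˢ Λ2, f (q + a)) ∧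
      (∀ f : P d → ENNReal, Measurable f → (∀ a, R < ‖a‖ → f a = 0) →
        ∫⁻ a, f a = ∫⁻ q in Q, ∑ a ∈ Λ1 ×ˢ Λ2, f (q + a)) := by
  classical
  have := f2_haar d
  refine ⟨f2Q d, f2Q_meas d, f2Q_fin d, fun R => ?_⟩
  let I : Finset ℤ := Finset.Icc (-(⌈R⌉ + 1)) (⌈R⌉ + 1)
  let Λ1 : Finset (E d) := (Fintype.piFinset fun _ : Fin d => I).image
    fun m : Fin d → ℤ => WithLp.toLp 2 (fun i => (m i : ℝ))
  let Λ2 : Finset ℝ := I.image fun m : ℤ => (m : ℝ)
  have hΛ1 : ∀ y ∈ Λ1, ∀ i, ∃ n : ℤ, y i = n := by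
    intro y hy i
    obtain ⟨m, _, rfl⟩ := Finset.mem_image.1 hy
    exact ⟨m i, rfl⟩
  have hΛ2 : ∀ r ∈ Λ2, ∃ n : ℤ, r = n := by
    intro r hr
    obtain ⟨m, _, rfl⟩ := Finset.mem_image.1 hr
    exact ⟨m, rfl⟩
  let Λ : Finset (P d) := Λ1 ×ˢ Λ2
  let S : P d → Set (P d) := fun a => {x | x - a ∈ f2Q d}
  have hΛ : ∀ a ∈ Λ, IsInt a := by
    intro a ha
    have h1 := Finset.mem_product.1 ha
    exact ⟨hΛ1 _ h1.1, hΛ2 _ h1.2⟩
  have hSm : ∀ a, MeasurableSet (S a) := by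
    intro a
    exact (measurable_sub_const a) (f2Q_meas d)
  have hdisj : (Λ : Set (P d)).PairwiseDisjoint S := by
    intro a ha b hb hab
    refine Set.disjoint_left.2 fun x hxa hxb => hab ?_
    exact f2_uniq (hΛ a ha) (hΛ b hb) hxa hxb
  have hcov : ∀ x : P d, x ∉ (⋃ a ∈ Λ, S a) → R < ‖x‖ := by
    intro x hx
    by_contra hcon
    push Not at hcon
    apply hx
    have h1 : ∀ i, |x.1 i| ≤ R := by
      intro i
      have h2 : ‖x.1 i‖ ≤ ‖x.1‖ := PiLp.norm_apply_le x.1 i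
      rw [Real.norm_eq_abs] at h2
      exact h2.trans ((norm_fst_le x).trans hcon)
    have h2 : |x.2| ≤ R := by
      have h3 : ‖x.2‖ ≤ ‖x‖ := norm_snd_le x
      rw [Real.norm_eq_abs] at h3
      exact h3.trans hcon
    simp only [mem_iUnion]
    refine ⟨f2pt (fun i => ⌊x.1 i⌋, ⌊x.2⌋), Finset.mem_product.2 ⟨?_, ?_⟩, ?_⟩
    · exact Finset.mem_image.2 ⟨fun i => ⌊x.1 i⌋, Fintype.mem_piFinset.2 fun i => f2_box (h1 i),
        rfl⟩
    · exact Finset.mem_image.2 ⟨⌊x.2⌋, f2_box h2, rfl⟩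
    · refine ⟨fun i => ?_, ?_⟩
      · change x.1 i - (⌊x.1 i⌋ : ℝ) ∈ Ico (0 : ℝ) 1
        have h3 := Int.floor_le (x.1 i)
        have h4 := Int.lt_floor_add_one (x.1 i)
        constructor <;> linarith
      · change x.2 - (⌊x.2⌋ : ℝ) ∈ Ico (0 : ℝ) 1
        have h3 := Int.floor_le x.2
        have h4 := Int.lt_floor_add_one x.2
        constructor <;> linarith
  have hpre : ∀ a : P d, (fun q : P d => q + a) ⁻¹' (S a) = f2Q d := by
    intro a
    ext q
    simp [S]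
  have hmp : ∀ a : P d, MeasurePreserving (fun q : P d => q + a) volume volume := fun a =>
    measurePreserving_add_right volume a
  have hemb : ∀ a : P d, MeasurableEmbedding (fun q : P d => q + a) := fun a =>
    measurableEmbedding_addRight a
  refine ⟨Λ1, Λ2, hΛ1, hΛ2, ?_, ?_⟩
  · intro f hf hfR
    have h1 : ∫ x in ⋃ a ∈ Λ, S a, f x = ∫ x, f x :=
      setIntegral_eq_integral_of_forall_compl_eq_zero fun x hx => hfR x (hcov x hx)
    rw [← h1, integral_biUnion_finset Λ (fun a _ => hSm a) hdisj fun a _ => hf.integrableOn,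
      integral_finsetSum _ fun a _ => (hf.comp_add_right a).integrableOn]
    refine Finset.sum_congr rfl fun a _ => ?_
    have h2 := (hmp a).setIntegral_preimage_emb (hemb a) f (S a)
    rw [hpre a] at h2
    exact h2.symm
  · intro f hf hfR
    have h1 : ∫⁻ x in ⋃ a ∈ Λ, S a, f x = ∫⁻ x, f x := by
      rw [← lintegral_indicator (Finset.measurableSet_biUnion Λ fun a _ => hSm a)]
      refine lintegral_congr fun x => ?_
      by_cases hx : x ∈ ⋃ a ∈ Λ, S a
      · rw [indicator_of_mem hx]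
      · rw [indicator_of_notMem hx, hfR x (hcov x hx)]
    rw [← h1, lintegral_biUnion_finset hdisj (fun a _ => hSm a),
      lintegral_finsetSum Λ (f := fun a q => f (q + a)) fun a _ =>
        hf.comp (measurable_add_const a)]
    refine Finset.sum_congr rfl fun a _ => ?_
    have h2 := (hmp a).setLIntegral_comp_preimage_emb (hemb a) f (S a)
    rw [hpre a] at h2
    exact h2.symm

end Pool.LibTP53
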