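import Pool.Agent.LibTP53.NG
import Pool.Agent.LibSR53.K1
import Pool.Agent.LibSR53.K3
import Pool.Agent.LibSR53.K5

/-
PLAN (NH). Copy of the proof of Ip_bound (LibSR53.K5) with K5_m replaced by Hm d chi r r' (chi from H_bound with delta = eps/2; chi = 1 on |xi| >= eps and phi = 0 on |xi| < eps, so
phi = chi (1+|xi|^2)^(-(d+1)) F(Psi1)) and hH replaced by H_bound. Ip Psi r r' v = int Psi1 w H(v - w). Use (1+|v-w|)^(-nu) <= (1+|v|)^(-nu) (1+|w|)^nu and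
Ef r r' |v-w| <= (1+|w|)^2 Ef r r' |v| (because 1+||v|-x| <= (1+||v-w|-x|)(1+|w|)); |Psi1 w| (1+|w|)^(nu+2) is integrable (power d+2 instead of d in hPint).
Integrability of Hm: Hm_facts (NF).
-/

set_option autoImplicit false

noncomputable section

open MeasureTheory Metric Set Filter

namespace Pool.LibTP53

open Pool.LibSR53

private lemma NH_one {a b w : ℝ} (x : ℝ) (hw : 0 ≤ w) (hab : |a - b| ≤ w) :
    1 / (1 + |a - x|) ^ 2 ≤ (1 + w) ^ 2 * (1 / (1 + |b - x|) ^ 2) := by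
  have h0 : 0 ≤ |a - x| := abs_nonneg _
  have h1 : 0 ≤ |b - x| := abs_nonneg _
  have h2 : |b - x| ≤ |a - x| + w := by
    have := abs_sub_le b a x
    rw [abs_sub_comm b a] at this
    linarith
  have h3 : 1 + |b - x| ≤ (1 + |a - x|) * (1 + w) := by nlinarith
  have h4 : (1 + |b - x|) ^ 2 ≤ ((1 + |a - x|) * (1 + w)) ^ 2 :=
    pow_le_pow_left₀ (by positivity) h3 2
  rw [mul_one_div, div_le_div_iff₀ (by positivity) (by positivity)]
  nlinarith [h4]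

lemma NH_Ef_nonneg (r r' t : ℝ) : 0 ≤ Ef r r' t := by
  unfold Ef
  positivity

private lemma NH_Ef {d : ℕ} (r r' : ℝ) (v w : E d) :
    Ef r r' ‖v - w‖ ≤ (1 + ‖w‖) ^ 2 * Ef r r' ‖v‖ := by
  have h : |‖v - w‖ - ‖v‖| ≤ ‖w‖ := by
    have := abs_norm_sub_norm_le (v - w) v
    rwa [show v - w - v = -w by abel, norm_neg] at this
  unfold Ef
  rw [mul_add]
  exact add_le_add (NH_one _ (norm_nonneg w) h) (NH_one _ (norm_nonneg w) h)

/-- the localised bound for the Gram matrix -/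
theorem Ip_loc {d : ℕ} (hd : 2 ≤ d) (Ψ φ : SchwartzMap (E d) ℂ)
    (hφ : ∀ v, Ψ v = ∫ ξ, ex v ξ * φ ξ) (ε : ℝ) (hε : 0 < ε) (hv : ∀ ξ, ‖ξ‖ < ε → φ ξ = 0) :
    ∃ C : ℝ, 0 < C ∧ ∀ r r' : ℝ, 0 < r → 0 < r' → ∀ v : E d,
      ‖Ip Ψ r r' v‖ ≤ C * (r * r') ^ (nu d) * (1 + ‖v‖) ^ (-nu d) * Ef r r' ‖v‖ := by
  classical
  obtain ⟨χ, hχc, hχ1, _, hχone, C2, hC2, hHb⟩ := H_bound d hd (ε / 2) (by positivity)
  obtain ⟨Ψ1, hΨ1⟩ := exists_Psi1 φ (d + 1)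
  have hn := K5_nu_nonneg hd
  set ν := nu d with hν
  -- weight of Psi1
  have hPint : Integrable (fun w : E d => ‖Ψ1 w‖ * ((1 + ‖w‖) ^ ν * (1 + ‖w‖) ^ 2)) := by
    have h0 : Integrable (fun w : E d =>
        (2 : ℝ) ^ (d + 2) * (‖w‖ ^ 0 * ‖Ψ1 w‖ + ‖w‖ ^ (d + 2) * ‖Ψ1 w‖)) :=
      ((SchwartzMap.integrable_pow_mul volume Ψ1 0).add
        (SchwartzMap.integrable_pow_mul volume Ψ1 (d + 2))).const_mul _
    refine h0.mono' ?_ (ae_of_all _ fun w => ?_)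
    · apply Continuous.aestronglyMeasurable
      have h1 : Continuous fun w : E d => (1 + ‖w‖) ^ ν := by
        apply Continuous.rpow_const (by fun_prop)
        intro w; left; positivity
      exact (Ψ1.continuous.norm).mul (h1.mul (by fun_prop))
    · have h1 : (1 + ‖w‖) ^ ν ≤ (1 + ‖w‖) ^ d := by
        rw [← Real.rpow_natCast]
        apply Real.rpow_le_rpow_of_exponent_le
        · linarith [norm_nonneg w]
        · rw [hν]; unfold nu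
          linarith [Nat.cast_nonneg (α := ℝ) d]
      have h1' : (1 + ‖w‖) ^ ν * (1 + ‖w‖) ^ 2 ≤ (1 + ‖w‖) ^ (d + 2) := by
        rw [pow_add]
        exact mul_le_mul_of_nonneg_right h1 (by positivity)
      have h2 : (1 + ‖w‖) ^ (d + 2) ≤ 2 ^ (d + 2) * (1 + ‖w‖ ^ (d + 2)) := by
        rcases le_total ‖w‖ 1 with hw | hw
        · calc (1 + ‖w‖) ^ (d + 2) ≤ 2 ^ (d + 2) := by
                apply pow_le_pow_left₀ (by positivity); linarith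
            _ ≤ 2 ^ (d + 2) * (1 + ‖w‖ ^ (d + 2)) := by
                have : (0 : ℝ) ≤ ‖w‖ ^ (d + 2) := by positivity
                nlinarith [pow_pos (two_pos : (0 : ℝ) < 2) (d + 2)]
        · calc (1 + ‖w‖) ^ (d + 2) ≤ (2 * ‖w‖) ^ (d + 2) := by
                apply pow_le_pow_left₀ (by positivity); linarith
            _ = 2 ^ (d + 2) * ‖w‖ ^ (d + 2) := mul_pow _ _ _
            _ ≤ 2 ^ (d + 2) * (1 + ‖w‖ ^ (d + 2)) := by
                have : (0 : ℝ) < 2 ^ (d + 2) := by positivity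
                nlinarith
      rw [Real.norm_of_nonneg (by positivity)]
      have h3 : 0 ≤ ‖Ψ1 w‖ := norm_nonneg _
      calc ‖Ψ1 w‖ * ((1 + ‖w‖) ^ ν * (1 + ‖w‖) ^ 2)
          ≤ ‖Ψ1 w‖ * (2 ^ (d + 2) * (1 + ‖w‖ ^ (d + 2))) :=
            mul_le_mul_of_nonneg_left (h1'.trans h2) h3
        _ = 2 ^ (d + 2) * (‖w‖ ^ 0 * ‖Ψ1 w‖ + ‖w‖ ^ (d + 2) * ‖Ψ1 w‖) := by ring
  set Q := ∫ w : E d, ‖Ψ1 w‖ * ((1 + ‖w‖) ^ ν * (1 + ‖w‖) ^ 2) with hQ
  have hQ0 : 0 ≤ Q := integral_nonneg fun w => by positivity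
  refine ⟨C2 * Q + 1, by positivity, fun r r' hr hr' v => ?_⟩
  set m := Hm d χ r r' with hm
  obtain ⟨hmint, _⟩ := Hm_facts d hd χ hχc hχ1 r r' hr hr'
  have hH := hHb r r' hr hr'
  -- Fubini
  have hkey : Ip Ψ r r' v = ∫ w, Ψ1 w * ∫ ξ, ex (v - w) ξ * m ξ := by
    rw [Ip_fourier hd φ φ.integrable Ψ hφ r r' hr hr' v]
    have h1 : ∀ ξ : E d, ex v ξ * φ ξ * (sh d r ξ : ℂ) * (sh d r' ξ : ℂ) =
        ∫ w, ex (v - w) ξ * m ξ * Ψ1 w := by
      intro ξ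
      have h2 : ∫ w, ex (v - w) ξ * m ξ * Ψ1 w = ex v ξ * m ξ * ∫ w, ex (-w) ξ * Ψ1 w := by
        rw [← integral_const_mul]
        congr 1
        ext w
        rw [← K5_ex_mul v w ξ]; ring
      rw [h2, ← hΨ1 ξ]
      by_cases h : ε ≤ ‖ξ‖
      · have h3 : m ξ = (((((1 + ‖ξ‖ ^ 2) ^ (d + 1))⁻¹ * sh d r ξ * sh d r' ξ : ℝ)) : ℂ) := by
          rw [hm]; unfold Hm
          rw [hχone ‖ξ‖ (by linarith), one_mul]
        rw [h3]
        have h4 : (((1 + ‖ξ‖ ^ 2) ^ (d + 1) : ℝ) : ℂ) ≠ 0 := by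
          exact_mod_cast (by positivity : (0 : ℝ) < (1 + ‖ξ‖ ^ 2) ^ (d + 1)).ne'
        rw [Complex.ofReal_mul, Complex.ofReal_mul, Complex.ofReal_inv]
        field_simp
      · rw [hv ξ (not_le.mp h)]
        simp
    simp_rw [h1]
    rw [integral_integral_swap]
    · congr 1
      ext w
      rw [← integral_const_mul]
      congr 1
      ext ξ
      ring
    · have h5 : Integrable (fun p : E d × E d => m p.1 * Ψ1 p.2) (volume.prod volume) :=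
        hmint.mul_prod Ψ1.integrable
      have h6 := h5.bdd_mul (K5_ex_cont v).aestronglyMeasurable
        (ae_of_all _ fun p => (K5_ex_norm (v - p.2) p.1).le)
      refine h6.congr (ae_of_all _ fun p => ?_)
      simp only [Function.uncurry]
      ring
  rw [hkey]
  have hfin : ‖∫ w, Ψ1 w * ∫ ξ, ex (v - w) ξ * m ξ‖ ≤
      ∫ w, (C2 * (r * r') ^ ν * (1 + ‖v‖) ^ (-ν) * Ef r r' ‖v‖) *
        (‖Ψ1 w‖ * ((1 + ‖w‖) ^ ν * (1 + ‖w‖) ^ 2)) := by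
    apply norm_integral_le_of_norm_le (hPint.const_mul _)
    refine ae_of_all _ fun w => ?_
    rw [norm_mul]
    have h1 := hH (v - w)
    have h2 : (1 + ‖v - w‖) ^ (-ν) ≤ (1 + ‖v‖) ^ (-ν) * (1 + ‖w‖) ^ ν := by
      have e1 : (1 + ‖v‖) ≤ (1 + ‖v - w‖) * (1 + ‖w‖) := by
        have := norm_add_le (v - w) w
        rw [sub_add_cancel] at this
        nlinarith [norm_nonneg (v - w), norm_nonneg w]
      have e2 : (1 + ‖v - w‖) ^ (-ν) * (1 + ‖w‖) ^ (-ν) ≤ (1 + ‖v‖) ^ (-ν) := by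
        rw [← Real.mul_rpow (by positivity) (by positivity)]
        exact Real.rpow_le_rpow_of_nonpos (by positivity) e1 (by linarith)
      have e3 : (1 + ‖w‖) ^ (-ν) * (1 + ‖w‖) ^ ν = 1 := by
        rw [← Real.rpow_add (by positivity)]; simp
      have e4 : 0 ≤ (1 + ‖w‖) ^ ν := by positivity
      calc (1 + ‖v - w‖) ^ (-ν)
          = ((1 + ‖v - w‖) ^ (-ν) * (1 + ‖w‖) ^ (-ν)) * (1 + ‖w‖) ^ ν := by
            rw [mul_assoc, e3, mul_one]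
        _ ≤ (1 + ‖v‖) ^ (-ν) * (1 + ‖w‖) ^ ν := mul_le_mul_of_nonneg_right e2 e4
    have h3 : 0 ≤ C2 * (r * r') ^ ν := by positivity
    have h4 := NH_Ef r r' v w
    have h5 : (1 + ‖v - w‖) ^ (-ν) * Ef r r' ‖v - w‖ ≤
        ((1 + ‖v‖) ^ (-ν) * (1 + ‖w‖) ^ ν) * ((1 + ‖w‖) ^ 2 * Ef r r' ‖v‖) :=
      mul_le_mul h2 h4 (NH_Ef_nonneg _ _ _) (by positivity)
    calc ‖Ψ1 w‖ * ‖∫ ξ, ex (v - w) ξ * m ξ‖
        ≤ ‖Ψ1 w‖ * (C2 * (r * r') ^ ν * ((1 + ‖v - w‖) ^ (-ν) * Ef r r' ‖v - w‖)) := by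
          apply mul_le_mul_of_nonneg_left _ (norm_nonneg _)
          rw [← mul_assoc]
          exact h1
      _ ≤ ‖Ψ1 w‖ * (C2 * (r * r') ^ ν *
            (((1 + ‖v‖) ^ (-ν) * (1 + ‖w‖) ^ ν) * ((1 + ‖w‖) ^ 2 * Ef r r' ‖v‖))) := by
          apply mul_le_mul_of_nonneg_left _ (norm_nonneg _)
          exact mul_le_mul_of_nonneg_left h5 h3
      _ = _ := by ring
  refine hfin.trans ?_
  rw [integral_const_mul]
  have hE := NH_Ef_nonneg r r' ‖v‖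
  have h1 : 0 ≤ (r * r') ^ ν * (1 + ‖v‖) ^ (-ν) * Ef r r' ‖v‖ := by positivity
  calc C2 * (r * r') ^ ν * (1 + ‖v‖) ^ (-ν) * Ef r r' ‖v‖ * Q
      = C2 * Q * ((r * r') ^ ν * (1 + ‖v‖) ^ (-ν) * Ef r r' ‖v‖) := by ring
    _ ≤ (C2 * Q + 1) * ((r * r') ^ ν * (1 + ‖v‖) ^ (-ν) * Ef r r' ‖v‖) := by
        apply mul_le_mul_of_nonneg_right _ h1
        linarith
    _ = _ := by ring

end Pool.LibTP53
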