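import Pool.Agent.LibTP53.Defs

/-
PLAN (CD). degree: the set is the union over the integers beta with |b r - beta| < s0 (Finset.Ioo (b r - s0) (b r + s0), 2 s0 - 1 elements) of X_beta = {s in R : b s = beta, Ac b R r s <= M}.
If X_beta is nonempty let s* in X_beta with |r - s*| maximal (Finset.exists_max_image): X_beta is contained in As b R r s* (b t = beta = b s*, |t - r| <= |r - s*|; |t-r| = |r-t|), so card <= M.
Ac_dist: As b R r s is a 1-separated finite subset of [r - x, r + x], x = |r - s|, hence card <= 2 x + 1 (proof: the map t |-> floor (t - (r - x)) is injective on it with values in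
{0,..,floor(2x)}); M + 1 <= Ac gives M <= 2x.
-/

set_option autoImplicit false

noncomputable section

open MeasureTheory Metric Set Filter

namespace Pool.LibTP53

open Pool.LibSR53

open scoped Classical in
/-- every radius has few near radii -/
theorem degree (b : ℝ → ℤ) (R : Finset ℝ) (r : ℝ) (s0 M : ℕ) :
    ((R.filter (fun s => |b r - b s| < (s0 : ℤ) ∧ Ac b R r s ≤ M)).card : ℝ) ≤ 2 * s0 * M := by
  have h1 : (R.filter (fun s => |b r - b s| < (s0 : ℤ) ∧ Ac b R r s ≤ M)).card ≤
      M * (Finset.Ioo (b r - (s0 : ℤ)) (b r + (s0 : ℤ))).card := by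
    apply Finset.card_le_mul_card_image_of_maps_to (f := b)
    · intro s hs
      rw [Finset.mem_filter] at hs
      rw [Finset.mem_Ioo]
      have := abs_lt.mp hs.2.1
      omega
    · intro β _
      by_cases hne : ((R.filter (fun s => |b r - b s| < (s0 : ℤ) ∧ Ac b R r s ≤ M)).filter
          (fun s => b s = β)).Nonempty
      · obtain ⟨s, hs, hmax⟩ := Finset.exists_max_image _ (fun s => |r - s|) hne
        rw [Finset.mem_filter, Finset.mem_filter] at hs
        refine le_trans (Finset.card_le_card ?_) hs.1.2.2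
        intro t ht
        have hm := hmax t ht
        rw [Finset.mem_filter, Finset.mem_filter] at ht
        simp only [As, Finset.mem_filter]
        refine ⟨ht.1.1, ?_, ?_⟩
        · rw [ht.2, hs.2]
        · rw [abs_sub_comm t r]
          exact hm
      · rw [Finset.not_nonempty_iff_eq_empty] at hne
        rw [hne]
        simp
  have h2 : (Finset.Ioo (b r - (s0 : ℤ)) (b r + (s0 : ℤ))).card ≤ 2 * s0 := by
    rw [Int.card_Ioo]
    omega
  have h3 : (R.filter (fun s => |b r - b s| < (s0 : ℤ) ∧ Ac b R r s ≤ M)).card ≤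
      2 * s0 * M := by
    refine h1.trans ?_
    rw [mul_comm]
    exact Nat.mul_le_mul_right _ h2
  exact_mod_cast h3

/-- many radii need a large distance -/
theorem Ac_dist (b : ℝ → ℤ) (R : Finset ℝ) (hR : ∀ r ∈ R, ∀ s ∈ R, r ≠ s → 1 ≤ |r - s|)
    (r s : ℝ) (M : ℕ) (h : M < Ac b R r s) : (M : ℝ) ≤ 2 * |r - s| := by
  classical
  have h1 : (As b R r s).card ≤ (Finset.range (⌊2 * |r - s|⌋₊ + 1)).card := by
    apply Finset.card_le_card_of_injOn (fun t => ⌊t - (r - |r - s|)⌋₊)
    · intro t ht
      have ht' : t ∈ As b R r s := ht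
      simp only [As, Finset.mem_filter] at ht'
      have h2 := abs_le.mp ht'.2.2
      rw [Finset.mem_coe, Finset.mem_range, Nat.lt_succ_iff]
      exact Nat.floor_le_floor (by linarith)
    · intro t ht t' ht' he
      have ht1 : t ∈ As b R r s := ht
      have ht1' : t' ∈ As b R r s := ht'
      simp only [As, Finset.mem_filter] at ht1 ht1'
      have h2 := abs_le.mp ht1.2.2
      have h2' := abs_le.mp ht1'.2.2
      by_contra hne
      have h3 := hR t ht1.1 t' ht1'.1 hne
      have he' : ⌊t - (r - |r - s|)⌋₊ = ⌊t' - (r - |r - s|)⌋₊ := he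
      have h4 : ((⌊t - (r - |r - s|)⌋₊ : ℕ) : ℝ) ≤ t - (r - |r - s|) :=
        Nat.floor_le (by linarith)
      have h4' : ((⌊t' - (r - |r - s|)⌋₊ : ℕ) : ℝ) ≤ t' - (r - |r - s|) :=
        Nat.floor_le (by linarith)
      have h5 := Nat.lt_floor_add_one (t - (r - |r - s|))
      have h5' := Nat.lt_floor_add_one (t' - (r - |r - s|))
      rw [he'] at h4 h5
      rcases le_abs.mp h3 with h6 | h6 <;> linarith
  rw [Finset.card_range] at h1
  have h2 : M < (As b R r s).card := h
  have h3 : M ≤ ⌊2 * |r - s|⌋₊ := by omega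
  calc (M : ℝ) ≤ (⌊2 * |r - s|⌋₊ : ℝ) := by exact_mod_cast h3
    _ ≤ 2 * |r - s| := Nat.floor_le (by positivity)

end Pool.LibTP53
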