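import Pool.Agent.LibTP53.CG
import Pool.Agent.LibTP53.HA
import Pool.Agent.LibSR53.L2

/-
PLAN (CH). M = ceil (u^theta), theta = 1/(nu+1), 1 <= M <= 2 u^theta; s0 = natural with 2^s0 >= u, 1 <= s0 <= C (1 + log u). near r s := |b r - b s| < s0 and Ac b (Rk k R) r s <= M and
Ac b (Rk k R) s r <= M (symmetric). near_far with A = sc k S, c = Prod.snd, w p = gamma p . v p. N = 2 s0 M (degree on Rk k R; the radii of sc k S are in Rk k R).
hdiag: D = C0 (2 2^k)^(d-1), proof as hfix inside l2_diag of LibSR53.L2 (copy; Ker.fix, centres 1-separated by Sep.ysep). hoff: not near p.2 q.2 means one of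
M < Ac p.2 q.2, M < Ac q.2 p.2, b q.2 + s0 <= b p.2, b p.2 + s0 <= b q.2. |<w p, w q>| <= C0 2^(k(d-1)) kernel(p,q) (KerL.loc with R = 2^k, |gamma| <= 1). The sums for the 1st and
3rd are row_far; for the 2nd and 4th exchange p and q (Finset.sum_comm after writing filters as if-then-else; norm_inner_symm). B = 2 C0 2^(k(d-1)) C (u M^(-nu) + u 2^(-s0)),
u M^(-nu) <= u u^(-nu theta) = u^theta, u 2^(-s0) <= 1 <= u^theta.
-/

set_option autoImplicit false

noncomputable section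

open MeasureTheory Metric Set Filter

namespace Pool.LibTP53

open Pool.LibSR53

/-- the majorant of the Gram matrix at one scale -/
private def CH_K (d : ℕ) (k : ℕ) (p q : P d) : ℝ :=
  (1 + dist p q) ^ (-nu d) / (1 + dist p q / 2 ^ k) ^ (d + 2) * Wf p q

private theorem CH_Wf_nonneg {d : ℕ} (p q : P d) : 0 ≤ Wf p q := by
  unfold Wf
  positivity

private theorem CH_Wf_comm {d : ℕ} (p q : P d) : Wf p q = Wf q p := by
  unfold Wf
  rw [norm_sub_rev p.1 q.1, abs_sub_comm p.2 q.2, add_comm p.2 q.2]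

private theorem CH_K_nonneg (d : ℕ) (k : ℕ) (p q : P d) : 0 ≤ CH_K d k p q := by
  unfold CH_K
  have h1 := CH_Wf_nonneg p q
  have h2 : 0 ≤ dist p q := dist_nonneg
  positivity

private theorem CH_K_comm (d : ℕ) (k : ℕ) (p q : P d) : CH_K d k p q = CH_K d k q p := by
  unfold CH_K
  rw [dist_comm p q, CH_Wf_comm p q]

/-- the near pairs of radii -/
private def CH_near (b : ℝ → ℤ) (Q : Finset ℝ) (s0 M : ℕ) (r s : ℝ) : Prop :=
  |b r - b s| < (s0 : ℤ) ∧ Ac b Q r s ≤ M ∧ Ac b Q s r ≤ M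

private theorem CH_near_symm (b : ℝ → ℤ) (Q : Finset ℝ) (s0 M : ℕ) (r s : ℝ)
    (h : CH_near b Q s0 M r s) : CH_near b Q s0 M s r := by
  refine ⟨?_, h.2.2, h.2.1⟩
  rw [abs_sub_comm]
  exact h.1

private theorem CH_not_near (b : ℝ → ℤ) (Q : Finset ℝ) (s0 M : ℕ) (r s : ℝ)
    (h : ¬ CH_near b Q s0 M r s) :
    M < Ac b Q r s ∨ M < Ac b Q s r ∨ b s + (s0 : ℤ) ≤ b r ∨ b r + (s0 : ℤ) ≤ b s := by
  by_contra hcon
  push Not at hcon
  obtain ⟨h1, h2, h3, h4⟩ := hcon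
  apply h
  refine ⟨?_, h1, h2⟩
  rw [abs_lt]
  constructor <;> omega

open scoped Classical in
/-- the double sum over the far pairs -/
private theorem CH_double {ι : Type} (A : Finset ι) (K : ι → ι → ℝ) (hK0 : ∀ p q, 0 ≤ K p q)
    (hKs : ∀ p q, K p q = K q p) (X : ι → ι → Prop) (Z : ι → ι → Prop) (Nn : ι → ι → Prop)
    (h : ∀ p q, ¬ Nn p q → X p q ∨ X q p ∨ Z p q ∨ Z q p) (c1 c2 : ℝ)
    (hX : ∀ p ∈ A, ∑ q ∈ A.filter (fun q => X p q), K p q ≤ c1)
    (hZ : ∀ p ∈ A, ∑ q ∈ A.filter (fun q => Z p q), K p q ≤ c2) :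
    ∑ p ∈ A, ∑ q ∈ A.filter (fun q => ¬ Nn p q), K p q ≤ 2 * (c1 + c2) * (A.card : ℝ) := by
  have hswap : ∀ W : ι → ι → Prop, ∑ p ∈ A, ∑ q ∈ A, (if W q p then K p q else 0) =
      ∑ p ∈ A, ∑ q ∈ A, (if W p q then K p q else 0) := by
    intro W
    rw [Finset.sum_comm]
    refine Finset.sum_congr rfl fun p _ => Finset.sum_congr rfl fun q _ => ?_
    rw [hKs q p]
  have hle : ∀ (W : ι → ι → Prop) (c : ℝ), (∀ p ∈ A, ∑ q ∈ A.filter (fun q => W p q), K p q ≤ c) →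
      ∑ p ∈ A, ∑ q ∈ A, (if W p q then K p q else 0) ≤ c * (A.card : ℝ) := by
    intro W c hW
    calc ∑ p ∈ A, ∑ q ∈ A, (if W p q then K p q else 0) ≤ ∑ p ∈ A, c := by
          refine Finset.sum_le_sum fun p hp => ?_
          rw [← Finset.sum_filter]
          exact hW p hp
      _ = c * (A.card : ℝ) := by
          rw [Finset.sum_const, nsmul_eq_mul, mul_comm]
  have hX1 := hle X c1 hX
  have hZ1 := hle Z c2 hZ
  have hX2 := hswap X
  have hZ2 := hswap Z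
  have hmain : ∑ p ∈ A, ∑ q ∈ A.filter (fun q => ¬ Nn p q), K p q ≤
      ∑ p ∈ A, ∑ q ∈ A, ((if X p q then K p q else 0) + (if X q p then K p q else 0) +
        (if Z p q then K p q else 0) + (if Z q p then K p q else 0)) := by
    refine Finset.sum_le_sum fun p _ => ?_
    rw [Finset.sum_filter]
    refine Finset.sum_le_sum fun q _ => ?_
    have h0 := hK0 p q
    have n1 : 0 ≤ (if X p q then K p q else 0) := by split_ifs <;> simp [h0]
    have n2 : 0 ≤ (if X q p then K p q else 0) := by split_ifs <;> simp [h0]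
    have n3 : 0 ≤ (if Z p q then K p q else 0) := by split_ifs <;> simp [h0]
    have n4 : 0 ≤ (if Z q p then K p q else 0) := by split_ifs <;> simp [h0]
    by_cases hn : Nn p q
    · rw [if_neg (not_not.2 hn)]
      linarith
    · rw [if_pos hn]
      rcases h p q hn with h1 | h1 | h1 | h1
      · rw [if_pos h1]
        linarith
      · rw [if_pos h1]
        linarith
      · rw [if_pos h1]
        linarith
      · rw [if_pos h1]
        linarith
  refine hmain.trans ?_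
  simp only [Finset.sum_add_distrib]
  rw [hX2, hZ2]
  linarith

open scoped Classical in
/-- points with the same radius -/
private theorem CH_fix {H : Type} [NormedAddCommGroup H] [InnerProductSpace ℂ H] {d : ℕ}
    {C0 : ℝ} {v : P d → H} (hv : Ker d C0 v) (A : Finset (P d))
    (hsep : ∀ p ∈ A, ∀ q ∈ A, p.1 ≠ q.1 → 1 ≤ dist p.1 q.1) (M : ℝ)
    (h1 : ∀ p ∈ A, 1 ≤ p.2) (hM : ∀ p ∈ A, p.2 ≤ M) (γ : P d → ℂ) (hγ : ∀ p, ‖γ p‖ ≤ 1)
    (ρ : ℝ) (hρ : ρ ∈ A.image Prod.snd) :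
    ‖∑ p ∈ A.filter (fun p => p.2 = ρ), γ p • v p‖ ^ 2 ≤
      C0 * M ^ (d - 1) * ((A.filter (fun p => p.2 = ρ)).card : ℝ) := by
  have hC0 := hv.pos
  obtain ⟨p1, hp1, rfl⟩ := Finset.mem_image.1 hρ
  set T := A.filter (fun p => p.2 = p1.2) with hT
  have hinj : Set.InjOn Prod.fst (T : Set (P d)) := by
    intro a ha b hb hab
    have ha' := (Finset.mem_filter.1 ha).2
    have hb' := (Finset.mem_filter.1 hb).2
    exact Prod.ext hab (ha'.trans hb'.symm)
  have hTs : ∑ p ∈ T, γ p • v p = ∑ y ∈ T.image Prod.fst, γ (y, p1.2) • v (y, p1.2) := by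
    rw [Finset.sum_image hinj]
    refine Finset.sum_congr rfl fun p hp => ?_
    rw [← (Finset.mem_filter.1 hp).2]
  have hcard : (T.image Prod.fst).card = T.card := Finset.card_image_of_injOn hinj
  have h2 := hv.fix p1.2 (h1 p1 hp1) (T.image Prod.fst) (fun y => γ (y, p1.2)) (by
    intro y hy z hz hyz
    obtain ⟨a, ha, rfl⟩ := Finset.mem_image.1 hy
    obtain ⟨b, hb, rfl⟩ := Finset.mem_image.1 hz
    exact hsep a (Finset.mem_filter.1 ha).1 b (Finset.mem_filter.1 hb).1 hyz)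
  rw [hTs]
  refine h2.trans ?_
  have h4 : ∑ y ∈ T.image Prod.fst, ‖γ (y, p1.2)‖ ^ 2 ≤ (T.card : ℝ) := by
    rw [← hcard]
    calc ∑ y ∈ T.image Prod.fst, ‖γ (y, p1.2)‖ ^ 2 ≤ ∑ y ∈ T.image Prod.fst, (1 : ℝ) := by
          refine Finset.sum_le_sum fun y _ => ?_
          exact pow_le_one₀ (norm_nonneg _) (hγ _)
      _ = ((T.image Prod.fst).card : ℝ) := by simp
  have h5 : p1.2 ^ (d - 1) ≤ M ^ (d - 1) :=
    pow_le_pow_left₀ (le_trans zero_le_one (h1 p1 hp1)) (hM p1 hp1) _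
  have h6 : 0 ≤ p1.2 := le_trans zero_le_one (h1 p1 hp1)
  have h7 : 0 ≤ M := h6.trans (hM p1 hp1)
  exact mul_le_mul (mul_le_mul_of_nonneg_left h5 hC0.le) h4
    (Finset.sum_nonneg fun _ _ => by positivity) (by positivity)

/-- the choice of the two parameters -/
private theorem CH_param (d : ℕ) (hd : 4 ≤ d) (u : ℝ) (hu : 1 ≤ u) :
    ∃ M s0 : ℕ, 1 ≤ M ∧ 1 ≤ s0 ∧ (M : ℝ) ≤ 2 * u ^ (1 / (nu d + 1)) ∧
      (s0 : ℝ) ≤ 2 * (1 + Real.log u) ∧ u * (M : ℝ) ^ (-nu d) ≤ u ^ (1 / (nu d + 1)) ∧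
      u / 2 ^ s0 ≤ 1 := by
  have hν : 1 < nu d := by
    have : (4 : ℝ) ≤ d := by exact_mod_cast hd
    simp only [nu]
    linarith
  have hu0 : 0 < u := by linarith
  have hlog : 0 ≤ Real.log u := Real.log_nonneg hu
  set t : ℝ := u ^ (1 / (nu d + 1)) with ht
  have ht1 : 1 ≤ t := Real.one_le_rpow hu (by positivity)
  have hl2 : (1 : ℝ) / 2 < Real.log 2 := by
    have := Real.log_two_gt_d9
    linarith
  refine ⟨⌈t⌉₊, ⌈Real.log u / Real.log 2⌉₊ + 1, ?_, ?_, ?_, ?_, ?_, ?_⟩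
  · exact Nat.one_le_ceil_iff.2 (by linarith)
  · omega
  · have := (Nat.ceil_lt_add_one (show 0 ≤ t by linarith)).le
    linarith
  · have h1 : 0 ≤ Real.log u / Real.log 2 := by positivity
    have h2 := (Nat.ceil_lt_add_one h1).le
    have h3 : Real.log u / Real.log 2 ≤ 2 * Real.log u := by
      rw [div_le_iff₀ (by linarith)]
      nlinarith
    push_cast
    linarith
  · have h1 : t ≤ (⌈t⌉₊ : ℝ) := Nat.le_ceil t
    have h2 : (⌈t⌉₊ : ℝ) ^ (-nu d) ≤ t ^ (-nu d) :=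
      Real.rpow_le_rpow_of_nonpos (by linarith) h1 (by linarith)
    have h3 : u * t ^ (-nu d) = t := by
      rw [ht, ← Real.rpow_mul hu0.le]
      nth_rewrite 1 [← Real.rpow_one u]
      rw [← Real.rpow_add hu0]
      congr 1
      field_simp
      ring
    calc u * (⌈t⌉₊ : ℝ) ^ (-nu d) ≤ u * t ^ (-nu d) := by gcongr
      _ = t := h3
  · rw [div_le_one (by positivity)]
    have h1 : Real.log u / Real.log 2 ≤ (⌈Real.log u / Real.log 2⌉₊ : ℝ) := Nat.le_ceil _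
    have h2 : Real.log u ≤ (⌈Real.log u / Real.log 2⌉₊ : ℝ) * Real.log 2 := by
      rwa [div_le_iff₀ (by linarith)] at h1
    have h3 : u ≤ 2 ^ ⌈Real.log u / Real.log 2⌉₊ := by
      have h4 : Real.log u ≤ Real.log (2 ^ ⌈Real.log u / Real.log 2⌉₊) := by
        rw [Real.log_pow]
        exact h2
      exact (Real.log_le_log_iff hu0 (by positivity)).1 h4
    refine h3.trans ?_
    exact pow_le_pow_right₀ (by norm_num) (by omega)

/-- the square function estimate inside one scale -/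
theorem same_scaleW {H : Type} [NormedAddCommGroup H] [InnerProductSpace ℂ H] (d : ℕ)
    (hd : 4 ≤ d) (C0 : ℝ) (v : P d → H) (hv : KerL d C0 v) : ∃ C : ℝ, 0 < C ∧
    ∀ (Y : Finset (E d)) (R : Finset ℝ) (a : E d → ℤ) (b : ℝ → ℤ) (n : ℤ) (S : Finset (P d))
      (u : ℝ), Sep Y R → S ⊆ En a b n (Y ×ˢ R) → 1 ≤ u → DensW a b n (Y ×ˢ R) u S →
    ∀ (k : ℕ) (γ : P d → ℂ), (∀ p, ‖γ p‖ ≤ 1) →
    ‖∑ p ∈ sc k S, γ p • v p‖ ^ 2 ≤
      C * (1 + Real.log u) * u ^ (1 / (nu d + 1)) * 2 ^ (k * (d - 1)) * ((sc k S).card : ℝ) := by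
  classical
  obtain ⟨Cf, hCf, hfar⟩ := row_far d hd
  have hC0 := hv.pos
  refine ⟨8 * 2 ^ (d - 1) * C0 + 4 * C0 * Cf, by positivity, ?_⟩
  intro Y R a b n S u hYR hS hu hD k γ hγ
  have hu0 : 0 < u := by linarith
  obtain ⟨M, s0, hM1, hs1, hM, hs0, hMu, hsu⟩ := CH_param d hd u hu
  have hlog : 0 ≤ Real.log u := Real.log_nonneg hu
  set t : ℝ := u ^ (1 / (nu d + 1)) with ht
  have ht1 : 1 ≤ t := by
    refine Real.one_le_rpow hu ?_
    have : 0 ≤ nu d := by
      have : (4 : ℝ) ≤ d := by exact_mod_cast hd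
      simp only [nu]
      linarith
    positivity
  have h2k : (1 : ℝ) ≤ 2 ^ k := one_le_pow₀ (by norm_num)
  have hmem : ∀ p ∈ sc k S, p ∈ S ∧ (2 : ℝ) ^ k ≤ p.2 ∧ p.2 < (2 : ℝ) ^ (k + 1) := by
    intro p hp
    simp only [sc, Finset.mem_filter] at hp
    exact hp
  have hYRm : ∀ p ∈ sc k S, p.1 ∈ Y ∧ p.2 ∈ R := by
    intro p hp
    have h2 := hS (hmem p hp).1
    simp only [En, Finset.mem_filter, Finset.mem_product] at h2
    exact h2.1
  have h2M : ∀ p ∈ sc k S, p.2 ≤ 2 * 2 ^ k := by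
    intro p hp
    have := (hmem p hp).2.2.le
    rw [pow_succ] at this
    linarith
  have hmain := near_far (sc k S) (Prod.snd : P d → ℝ) (fun p => γ p • v p)
    (CH_near b (Rk k R) s0 M) (CH_near_symm b (Rk k R) s0 M) (2 * s0 * M)
    (C0 * 2 ^ (k * (d - 1)) * (2 * (Cf * u * (M : ℝ) ^ (-nu d) + Cf * u / 2 ^ s0)))
    (C0 * (2 * 2 ^ k) ^ (d - 1)) (by positivity) (by positivity) ?_ ?_ ?_
  · refine hmain.trans ?_
    have hcard : (0 : ℝ) ≤ ((sc k S).card : ℝ) := Nat.cast_nonneg _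
    refine mul_le_mul_of_nonneg_right ?_ hcard
    have e1 : ((2 : ℝ) * 2 ^ k) ^ (d - 1) = 2 ^ (d - 1) * 2 ^ (k * (d - 1)) := by
      rw [mul_pow, ← pow_mul]
    rw [e1]
    have hG : (0 : ℝ) < 2 ^ (k * (d - 1)) := by positivity
    set G : ℝ := 2 ^ (k * (d - 1)) with hGdef
    set D2 : ℝ := 2 ^ (d - 1) with hD2
    have hD2p : 0 < D2 := by positivity
    have hM0 : (0 : ℝ) ≤ M := Nat.cast_nonneg _
    have hs00 : (0 : ℝ) ≤ s0 := Nat.cast_nonneg _
    have b1 : 2 * (s0 : ℝ) * M ≤ 8 * (1 + Real.log u) * t := by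
      have : (s0 : ℝ) * M ≤ (2 * (1 + Real.log u)) * (2 * t) :=
        mul_le_mul hs0 hM hM0 (by linarith)
      linarith
    have b2 : 2 * (s0 : ℝ) * M * (C0 * (D2 * G)) ≤
        8 * (1 + Real.log u) * t * (C0 * (D2 * G)) := by
      refine mul_le_mul_of_nonneg_right b1 ?_
      positivity
    have b3 : Cf * u * (M : ℝ) ^ (-nu d) + Cf * u / 2 ^ s0 ≤ 2 * Cf * ((1 + Real.log u) * t) := by
      have c1 : Cf * u * (M : ℝ) ^ (-nu d) ≤ Cf * t := by
        rw [mul_assoc]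
        exact mul_le_mul_of_nonneg_left hMu hCf.le
      have c2 : Cf * u / 2 ^ s0 ≤ Cf * 1 := by
        rw [mul_div_assoc]
        exact mul_le_mul_of_nonneg_left hsu hCf.le
      have c3 : t ≤ (1 + Real.log u) * t := by nlinarith
      have c4 : (1 : ℝ) ≤ (1 + Real.log u) * t := ht1.trans c3
      have c5 : Cf * t ≤ Cf * ((1 + Real.log u) * t) := mul_le_mul_of_nonneg_left c3 hCf.le
      have c6 : Cf * 1 ≤ Cf * ((1 + Real.log u) * t) := mul_le_mul_of_nonneg_left c4 hCf.le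
      linarith
    have b4 : C0 * G * (2 * (Cf * u * (M : ℝ) ^ (-nu d) + Cf * u / 2 ^ s0)) ≤
        C0 * G * (2 * (2 * Cf * ((1 + Real.log u) * t))) := by
      refine mul_le_mul_of_nonneg_left ?_ (by positivity)
      linarith
    calc 2 * (s0 : ℝ) * M * (C0 * (D2 * G)) +
          C0 * G * (2 * (Cf * u * (M : ℝ) ^ (-nu d) + Cf * u / 2 ^ s0))
        ≤ 8 * (1 + Real.log u) * t * (C0 * (D2 * G)) +
          C0 * G * (2 * (2 * Cf * ((1 + Real.log u) * t))) := add_le_add b2 b4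
      _ = (8 * D2 * C0 + 4 * C0 * Cf) * (1 + Real.log u) * t * G := by ring
  · intro r hr
    refine le_trans ?_ (degree b (Rk k R) r s0 M)
    rw [Nat.cast_le]
    refine Finset.card_le_card ?_
    intro s hs
    obtain ⟨hs1, hs2⟩ := Finset.mem_filter.1 hs
    obtain ⟨p, hp, rfl⟩ := Finset.mem_image.1 hs1
    refine Finset.mem_filter.2 ⟨?_, hs2.1, hs2.2.1⟩
    simp only [Rk, Finset.mem_filter]
    exact ⟨(hYRm p hp).2, (hmem p hp).2⟩
  · intro r hr
    exact CH_fix hv.toKer (sc k S)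
      (fun p hp q hq h => hYR.ysep p.1 (hYRm p hp).1 q.1 (hYRm q hq).1 h) (2 * 2 ^ k)
      (fun p hp => h2k.trans (hmem p hp).2.1) h2M γ hγ r hr
  · have hin : ∀ p ∈ sc k S, ∀ q ∈ sc k S, ‖(inner ℂ (γ p • v p) (γ q • v q) : ℂ)‖ ≤
        C0 * 2 ^ (k * (d - 1)) * CH_K d k p q := by
      intro p hp q hq
      rw [inner_smul_left, inner_smul_right, norm_mul, norm_mul, RCLike.norm_conj]
      have h3 := hv.loc (2 ^ k) h2k p q (hmem p hp).2.1 (h2M p hp) (hmem q hq).2.1 (h2M q hq)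
      rw [← pow_mul] at h3
      calc ‖γ p‖ * (‖γ q‖ * ‖(inner ℂ (v p) (v q) : ℂ)‖)
          ≤ 1 * (1 * ‖(inner ℂ (v p) (v q) : ℂ)‖) := by
            gcongr
            · exact hγ p
            · exact hγ q
        _ ≤ _ := by
            rw [one_mul, one_mul]
            exact h3
    have hdbl := CH_double (sc k S) (CH_K d k) (CH_K_nonneg d k) (CH_K_comm d k)
      (fun p q => M < Ac b (Rk k R) p.2 q.2) (fun p q => b q.2 + (s0 : ℤ) ≤ b p.2)
      (fun p q => CH_near b (Rk k R) s0 M p.2 q.2)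
      (fun p q h => CH_not_near b (Rk k R) s0 M p.2 q.2 h)
      (Cf * u * (M : ℝ) ^ (-nu d)) (Cf * u / 2 ^ s0)
      (fun p hp => by
        have h9 := (hfar Y R a b n S u k p hYR hS hu0.le hD hp).1 M hM1
        simp only [CH_K]
        convert h9)
      (fun p hp => by
        have h9 := (hfar Y R a b n S u k p hYR hS hu0.le hD hp).2 s0 hs1
        simp only [CH_K]
        convert h9)
    calc ∑ p ∈ sc k S, ∑ q ∈ (sc k S).filter (fun q => ¬ CH_near b (Rk k R) s0 M p.2 q.2),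
          ‖(inner ℂ (γ p • v p) (γ q • v q) : ℂ)‖
        ≤ ∑ p ∈ sc k S, ∑ q ∈ (sc k S).filter (fun q => ¬ CH_near b (Rk k R) s0 M p.2 q.2),
          C0 * 2 ^ (k * (d - 1)) * CH_K d k p q := by
          refine Finset.sum_le_sum fun p hp => Finset.sum_le_sum fun q hq => ?_
          exact hin p hp q (Finset.mem_filter.1 hq).1
      _ = C0 * 2 ^ (k * (d - 1)) * ∑ p ∈ sc k S,
          ∑ q ∈ (sc k S).filter (fun q => ¬ CH_near b (Rk k R) s0 M p.2 q.2), CH_K d k p q := by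
          simp only [Finset.mul_sum]
      _ ≤ C0 * 2 ^ (k * (d - 1)) *
          (2 * (Cf * u * (M : ℝ) ^ (-nu d) + Cf * u / 2 ^ s0) * ((sc k S).card : ℝ)) := by
          refine mul_le_mul_of_nonneg_left hdbl ?_
          positivity
      _ = _ := by ring

end Pool.LibTP53
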