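import Pool.Agent.LibTP53.Defs
import Pool.Agent.LibSR53.C1
import Pool.Agent.LibSR53.C2

/-
PLAN (CB). Copy of the proof of count_ball (LibSR53.C1), with number of centres (image under Prod.fst) instead of number of points. Let N = Q.filter (dist q p <= 2^(k+j)).
Maximal 2^k-separated T' subset of N (exists_sep_C2 in C2 with h = 2^k: every q in N has a in T' with dist q a < 2^k). packing: T'.card <= C (2^(k+j)/2^k)^(d+1) =
C 2^(j(d+1)). N.image fst is contained in the union over a in T' of (Q.filter (dist q a <= 2^k)).image fst, each of cardinality <= B 2^k (a in Q).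
-/

set_option autoImplicit false

noncomputable section

open MeasureTheory Metric Set Filter

namespace Pool.LibTP53

open Pool.LibSR53

private lemma CB_mem_nb {d : ℕ} {S : Finset (P d)} {p q : P d} {h : ℝ} :
    q ∈ nb S p h ↔ q ∈ S ∧ dist q p ≤ h := by
  unfold nb
  rw [Finset.mem_filter]

/-- number of centres in large balls -/
theorem columns (d : ℕ) : ∃ C : ℝ, 0 < C ∧ ∀ (k : ℕ) (B : ℝ) (Q : Finset (P d)), 0 ≤ B →
    (∀ z ∈ Q, (((nb Q z ((2 : ℝ) ^ k)).image Prod.fst).card : ℝ) ≤ B * 2 ^ k) →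
    ∀ (p : P d) (j : ℕ), (((nb Q p ((2 : ℝ) ^ (k + j))).image Prod.fst).card : ℝ) ≤
      C * B * 2 ^ k * 2 ^ (j * (d + 1)) := by
  obtain ⟨C, hC, hpack⟩ := packing d
  refine ⟨C, hC, fun k B Q hB hQ p j => ?_⟩
  set N := nb Q p ((2 : ℝ) ^ (k + j)) with hN
  obtain ⟨T, hTN, hTsep, hcov⟩ := exists_sep_C2 N (h := (2 : ℝ) ^ k) (by positivity)
  have hTcard : (T.card : ℝ) ≤ C * 2 ^ (j * (d + 1)) := by
    have h1 := hpack ((2 : ℝ) ^ k) ((2 : ℝ) ^ (k + j)) (by positivity)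
      (pow_le_pow_right₀ (by norm_num) (by omega)) p T hTsep
      (fun a ha => (CB_mem_nb.1 (hTN ha)).2)
    have h2 : (2 : ℝ) ^ (k + j) / 2 ^ k = 2 ^ j := by
      rw [pow_add]
      field_simp
    rw [h2, ← pow_mul] at h1
    exact h1
  have hsub : N.image Prod.fst ⊆ T.biUnion fun a => (nb Q a ((2 : ℝ) ^ k)).image Prod.fst := by
    intro y hy
    obtain ⟨q, hq, rfl⟩ := Finset.mem_image.1 hy
    obtain ⟨a, ha, hqa⟩ := hcov q hq
    exact Finset.mem_biUnion.2 ⟨a, ha, Finset.mem_image.2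
      ⟨q, CB_mem_nb.2 ⟨(CB_mem_nb.1 hq).1, hqa.le⟩, rfl⟩⟩
  have h1 : ((N.image Prod.fst).card : ℝ) ≤
      ∑ a ∈ T, (((nb Q a ((2 : ℝ) ^ k)).image Prod.fst).card : ℝ) := by
    have h2 := (Finset.card_le_card hsub).trans Finset.card_biUnion_le
    exact_mod_cast h2
  have h2 : ∑ a ∈ T, (((nb Q a ((2 : ℝ) ^ k)).image Prod.fst).card : ℝ) ≤
      ∑ _a ∈ T, B * 2 ^ k := by
    refine Finset.sum_le_sum fun a ha => ?_
    exact hQ a (CB_mem_nb.1 (hTN ha)).1
  rw [Finset.sum_const, nsmul_eq_mul] at h2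
  have h3 : (T.card : ℝ) * (B * 2 ^ k) ≤ C * 2 ^ (j * (d + 1)) * (B * 2 ^ k) :=
    mul_le_mul_of_nonneg_right hTcard (by positivity)
  calc ((N.image Prod.fst).card : ℝ) ≤ C * 2 ^ (j * (d + 1)) * (B * 2 ^ k) :=
        h1.trans (h2.trans h3)
    _ = C * B * 2 ^ k * 2 ^ (j * (d + 1)) := by ring

end Pool.LibTP53
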