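import Pool.Agent.LibTP53.CA
import Pool.Agent.LibTP53.CB
import Pool.Agent.LibSR53.L1

/-
PLAN (CC). Copy of the proof of far_sum (LibSR53.L1). For q in Q choose j = g q with 2^j <= 2 dist p q < 2^(j+1) (exists_nat_pow_near, 2 dist >= L >= 1); L < 2^(j+1). Then
kernel weight (1+dist)^(-nu)/(1+dist/2^k)^(d+2) <= w j := (2^j/2)^(-nu) / (1 + 2^j/2/2^k)^(d+2) . For fixed j group the q of the shell by their centre y = q.1
(Finset.sum_fiberwise_of_maps_to with Prod.fst): for every centre the sum of Wf p q over the q with that centre is <= 12 (Wf_sum on R, inject r = q.2, q = (y, q.2), Wf >= 0),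
number of centres in the shell <= number of centres in nb Q p (2^j) (dist < 2^(j+1)/2 = 2^j) <= B 2^j for j <= k and <= C1 B 2^k 2^((j-k)(d+1)) for j >= k (columns).
So shell j contributes <= 12 (B + C1 B) 2^nu ... <= C B 2^(j(1-nu)) in both cases (as in L1: for j = k+m, 2^(m(d+1)) / (1+2^m/2)^(d+2) <= 2^(d+2) 2^(-m)).
Geometric series (geom_tail_aux in L1), smallest index j0 with L < 2^(j0+1): sum <= C B L^(1-nu).
-/

set_option autoImplicit false

noncomputable section

open MeasureTheory Metric Set Filter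

namespace Pool.LibTP53

open Pool.LibSR53

theorem CC_Wf_nonneg {d : ℕ} (p q : P d) : 0 ≤ Wf p q := by
  unfold Wf
  positivity

/-- the localisation factor summed over a finite set: at most 12 times the number of centres -/
theorem CC_sum_Wf {d : ℕ} (R : Finset ℝ) (hR : ∀ r ∈ R, ∀ s ∈ R, r ≠ s → 1 ≤ |r - s|)
    (S : Finset (P d)) (hS : ∀ q ∈ S, q.2 ∈ R) (p : P d) :
    ∑ q ∈ S, Wf p q ≤ 12 * ((S.image Prod.fst).card : ℝ) := by
  classical
  have h1 : ∑ y ∈ S.image Prod.fst, ∑ q ∈ S with q.1 = y, Wf p q = ∑ q ∈ S, Wf p q :=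
    Finset.sum_fiberwise_of_maps_to (fun q hq => Finset.mem_image_of_mem Prod.fst hq) _
  rw [← h1]
  have h2 : ∀ y ∈ S.image Prod.fst, ∑ q ∈ S with q.1 = y, Wf p q ≤ 12 := by
    intro y _
    have h3 : ∑ q ∈ S with q.1 = y, Wf p q =
        ∑ r ∈ (S.filter (fun q => q.1 = y)).image Prod.snd, Wf p ((y, r) : P d) := by
      rw [Finset.sum_image]
      · refine Finset.sum_congr rfl fun q hq => ?_
        have h4 : q.1 = y := (Finset.mem_filter.1 hq).2
        rw [← h4]
      · intro a ha b hb hab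
        have ha' : a.1 = y := (Finset.mem_filter.1 (Finset.mem_coe.1 ha)).2
        have hb' : b.1 = y := (Finset.mem_filter.1 (Finset.mem_coe.1 hb)).2
        exact Prod.ext (ha'.trans hb'.symm) hab
    rw [h3]
    refine le_trans (Finset.sum_le_sum_of_subset_of_nonneg ?_ ?_) (Wf_sum R hR p y)
    · intro r hr
      obtain ⟨q, hq, rfl⟩ := Finset.mem_image.1 hr
      exact hS q (Finset.mem_filter.1 hq).1
    · intro r _ _
      exact CC_Wf_nonneg _ _
  refine (Finset.sum_le_sum h2).trans ?_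
  rw [Finset.sum_const, nsmul_eq_mul, mul_comm]

/-- sum of the same-scale kernel over a set with few centres -/
theorem far_sumW (d : ℕ) (hd : 4 ≤ d) : ∃ C : ℝ, 0 < C ∧ ∀ (k : ℕ) (B L : ℝ) (R : Finset ℝ)
    (Q : Finset (P d)) (p : P d), 0 ≤ B → 1 ≤ L →
    (∀ r ∈ R, ∀ s ∈ R, r ≠ s → 1 ≤ |r - s|) → (∀ q ∈ Q, q.2 ∈ R) →
    (∀ q ∈ Q, L ≤ 2 * dist p q) →
    (∀ i : ℕ, i ≤ k → (((nb Q p ((2 : ℝ) ^ i)).image Prod.fst).card : ℝ) ≤ B * 2 ^ i) →
    (∀ z ∈ Q, (((nb Q z ((2 : ℝ) ^ k)).image Prod.fst).card : ℝ) ≤ B * 2 ^ k) →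
    ∑ q ∈ Q, (1 + dist p q) ^ (-nu d) / (1 + dist p q / 2 ^ k) ^ (d + 2) * Wf p q ≤
      C * B * L ^ (1 - nu d) := by
  classical
  obtain ⟨C1, hC1, hcount⟩ := columns d
  have hν : (3 : ℝ) / 2 ≤ nu d := by
    unfold nu
    have : (4 : ℝ) ≤ (d : ℝ) := by exact_mod_cast hd
    linarith
  set r : ℝ := (2 : ℝ) ^ (1 - nu d) with hr
  have hr0 : 0 < r := Real.rpow_pos_of_pos (by norm_num) _
  have hr1 : r < 1 := Real.rpow_lt_one_of_one_lt_of_neg (by norm_num) (by linarith)
  have h1r : 0 < 1 - r := by linarith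
  have hrj : ∀ j : ℕ, ((2 : ℝ) ^ j) ^ (1 - nu d) = r ^ j := by
    intro j
    rw [hr, ← Real.rpow_natCast, ← Real.rpow_natCast, ← Real.rpow_mul (by norm_num),
      ← Real.rpow_mul (by norm_num), mul_comm]
  set W : ℝ := (2 : ℝ) ^ (nu d) with hW
  have hW0 : 0 < W := Real.rpow_pos_of_pos (by norm_num) _
  set A : ℝ := 12 * W * (1 + C1 * 2 ^ (d + 2)) with hA
  have hA0 : 0 < A := by positivity
  refine ⟨A * ((2 : ℝ) ^ (nu d - 1)) / (1 - r), by positivity, ?_⟩
  intro k B L R Q p hB hL hR hQR hQL hBi hBk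
  have hlev : ∀ q ∈ Q, ∃ j : ℕ, (2 : ℝ) ^ j ≤ 2 * dist p q ∧ 2 * dist p q < 2 ^ (j + 1) := by
    intro q hq
    exact exists_nat_pow_near (hL.trans (hQL q hq)) (by norm_num)
  choose! g hg using hlev
  obtain ⟨j0, hj0, hj0'⟩ := exists_nat_pow_near hL (by norm_num : (1 : ℝ) < 2)
  set w : ℕ → ℝ := fun j => ((2 : ℝ) ^ j / 2) ^ (-nu d) / (1 + 2 ^ j / 2 / 2 ^ k) ^ (d + 2) with hw
  have hw0 : ∀ j, 0 ≤ w j := fun j => by rw [hw]; positivity
  have hhalf : ∀ j : ℕ, ((2 : ℝ) ^ j / 2) ^ (-nu d) = W * ((2 : ℝ) ^ j) ^ (-nu d) := by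
    intro j
    have h2j : (0 : ℝ) ≤ 2 ^ j := by positivity
    rw [div_eq_mul_inv, Real.mul_rpow h2j (by norm_num), Real.inv_rpow (by norm_num),
      Real.rpow_neg (by norm_num : (0 : ℝ) ≤ 2), inv_inv, mul_comm]
  have hterm : ∀ q ∈ Q,
      (1 + dist p q) ^ (-nu d) / (1 + dist p q / 2 ^ k) ^ (d + 2) ≤ w (g q) := by
    intro q hq
    obtain ⟨h1, h2⟩ := hg q hq
    have hD0 : 0 ≤ dist p q := dist_nonneg
    have h2j : (0 : ℝ) < 2 ^ (g q) := by positivity
    rw [hw]
    refine div_le_div₀ (by positivity) ?_ (by positivity) ?_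
    · exact Real.rpow_le_rpow_of_nonpos (by positivity) (by linarith) (by linarith)
    · refine pow_le_pow_left₀ (by positivity) ?_ _
      have : (2 : ℝ) ^ (g q) / 2 / 2 ^ k ≤ dist p q / 2 ^ k := by
        apply div_le_div_of_nonneg_right _ (by positivity)
        linarith
      linarith
  have hshell : ∀ j : ℕ, w j * ∑ q ∈ Q with g q = j, Wf p q ≤ A * B * r ^ j := by
    intro j
    have hsub : ({q ∈ Q | g q = j} : Finset (P d)) ⊆ nb Q p ((2 : ℝ) ^ j) := by
      intro q hq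
      obtain ⟨hq1, hq2⟩ := Finset.mem_filter.1 hq
      have h2 := (hg q hq1).2
      rw [hq2, pow_succ] at h2
      refine Finset.mem_filter.2 ⟨hq1, ?_⟩
      rw [dist_comm]
      linarith
    have hc1 : ∑ q ∈ Q with g q = j, Wf p q ≤
        12 * (((({q ∈ Q | g q = j} : Finset (P d))).image Prod.fst).card : ℝ) :=
      CC_sum_Wf R hR _ (fun q hq => hQR q (Finset.mem_filter.1 hq).1) p
    have hc2 : (((({q ∈ Q | g q = j} : Finset (P d))).image Prod.fst).card : ℝ) ≤
        (((nb Q p ((2 : ℝ) ^ j)).image Prod.fst).card : ℝ) := by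
      exact_mod_cast Finset.card_le_card (Finset.image_subset_image hsub)
    have hνj : ((2 : ℝ) ^ j) ^ (-nu d) * 2 ^ j = r ^ j := by
      rw [← hrj j]
      have h2j : (0 : ℝ) < 2 ^ j := by positivity
      have : (1 : ℝ) - nu d = -nu d + 1 := by ring
      rw [this, Real.rpow_add h2j, Real.rpow_one]
    rcases Nat.lt_or_ge j k with hjk | hjk
    · -- small shells
      have hN : (((nb Q p ((2 : ℝ) ^ j)).image Prod.fst).card : ℝ) ≤ B * 2 ^ j := hBi j hjk.le
      have hwj : w j ≤ W * ((2 : ℝ) ^ j) ^ (-nu d) := by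
        rw [← hhalf j, hw]
        refine div_le_self (by positivity) ?_
        apply one_le_pow₀
        have : (0 : ℝ) ≤ 2 ^ j / 2 / 2 ^ k := by positivity
        linarith
      calc w j * ∑ q ∈ Q with g q = j, Wf p q
          ≤ (W * ((2 : ℝ) ^ j) ^ (-nu d)) * (12 * (B * 2 ^ j)) :=
            mul_le_mul hwj (hc1.trans (mul_le_mul_of_nonneg_left (hc2.trans hN) (by norm_num)))
              (Finset.sum_nonneg fun q _ => CC_Wf_nonneg _ _) (by positivity)
        _ = 12 * W * B * (((2 : ℝ) ^ j) ^ (-nu d) * 2 ^ j) := by ring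
        _ = 12 * W * 1 * B * r ^ j := by rw [hνj]; ring
        _ ≤ A * B * r ^ j := by
            refine mul_le_mul_of_nonneg_right (mul_le_mul_of_nonneg_right ?_ hB) (by positivity)
            rw [hA]
            refine mul_le_mul_of_nonneg_left ?_ (by positivity)
            have : 0 < C1 * 2 ^ (d + 2) := by positivity
            linarith
    · -- large shells
      obtain ⟨m, rfl⟩ := Nat.exists_eq_add_of_le hjk
      have hN : (((nb Q p ((2 : ℝ) ^ (k + m))).image Prod.fst).card : ℝ) ≤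
          C1 * B * 2 ^ k * 2 ^ (m * (d + 1)) := hcount k B Q hB hBk p m
      have hwj : w (k + m) ≤ W * ((2 : ℝ) ^ (k + m)) ^ (-nu d) / (2 ^ m / 2) ^ (d + 2) := by
        rw [← hhalf (k + m), hw]
        refine div_le_div_of_nonneg_left (by positivity) (by positivity) ?_
        refine pow_le_pow_left₀ (by positivity) ?_ _
        have : (2 : ℝ) ^ (k + m) / 2 / 2 ^ k = 2 ^ m / 2 := by
          rw [pow_add]; field_simp
        rw [this]; linarith
      have key : (2 : ℝ) ^ k * 2 ^ (m * (d + 1)) / (2 ^ m / 2) ^ (d + 2) ≤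
          2 ^ (d + 2) * 2 ^ (k + m) := by
        rw [div_pow, div_div_eq_mul_div, div_le_iff₀ (by positivity), ← pow_mul]
        have e1 : (2 : ℝ) ^ k * 2 ^ (m * (d + 1)) * 2 ^ (d + 2) =
            2 ^ (d + 2) * 2 ^ (k + m * (d + 1)) := by
          rw [pow_add (2 : ℝ) k]; ring
        have e2 : (2 : ℝ) ^ (d + 2) * 2 ^ (k + m) * 2 ^ (m * (d + 2)) =
            2 ^ (d + 2) * 2 ^ (k + m + m * (d + 2)) := by
          rw [pow_add (2 : ℝ) (k + m)]; ring
        rw [e1, e2]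
        refine mul_le_mul_of_nonneg_left ?_ (by positivity)
        apply pow_le_pow_right₀ (by norm_num)
        nlinarith
      calc w (k + m) * ∑ q ∈ Q with g q = k + m, Wf p q
          ≤ (W * ((2 : ℝ) ^ (k + m)) ^ (-nu d) / (2 ^ m / 2) ^ (d + 2)) *
              (12 * (C1 * B * 2 ^ k * 2 ^ (m * (d + 1)))) :=
            mul_le_mul hwj (hc1.trans (mul_le_mul_of_nonneg_left (hc2.trans hN) (by norm_num)))
              (Finset.sum_nonneg fun q _ => CC_Wf_nonneg _ _) (by positivity)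
        _ = 12 * W * C1 * B * ((2 : ℝ) ^ (k + m)) ^ (-nu d) *
              ((2 : ℝ) ^ k * 2 ^ (m * (d + 1)) / (2 ^ m / 2) ^ (d + 2)) := by ring
        _ ≤ 12 * W * C1 * B * ((2 : ℝ) ^ (k + m)) ^ (-nu d) * (2 ^ (d + 2) * 2 ^ (k + m)) :=
            mul_le_mul_of_nonneg_left key (by positivity)
        _ = 12 * W * (C1 * 2 ^ (d + 2)) * B * (((2 : ℝ) ^ (k + m)) ^ (-nu d) * 2 ^ (k + m)) := by
            ring
        _ = 12 * W * (C1 * 2 ^ (d + 2)) * B * r ^ (k + m) := by rw [hνj]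
        _ ≤ A * B * r ^ (k + m) := by
            refine mul_le_mul_of_nonneg_right (mul_le_mul_of_nonneg_right ?_ hB) (by positivity)
            rw [hA]
            refine mul_le_mul_of_nonneg_left ?_ (by positivity)
            linarith
  have hL0 : 0 < L := by linarith
  -- the first term
  have hfirst : r ^ j0 ≤ (2 : ℝ) ^ (nu d - 1) * L ^ (1 - nu d) := by
    have h1 : ((2 : ℝ) ^ (j0 + 1)) ^ (1 - nu d) ≤ L ^ (1 - nu d) :=
      Real.rpow_le_rpow_of_nonpos hL0 hj0'.le (by linarith)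
    rw [hrj (j0 + 1)] at h1
    have h2 : r * (2 : ℝ) ^ (nu d - 1) = 1 := by
      rw [hr, ← Real.rpow_add (by norm_num)]
      simp
    calc r ^ j0 = (2 : ℝ) ^ (nu d - 1) * r ^ (j0 + 1) := by
          rw [pow_succ]
          linear_combination (-(r ^ j0)) * h2
      _ ≤ (2 : ℝ) ^ (nu d - 1) * L ^ (1 - nu d) :=
          mul_le_mul_of_nonneg_left h1 (by positivity)
  calc ∑ q ∈ Q, (1 + dist p q) ^ (-nu d) / (1 + dist p q / 2 ^ k) ^ (d + 2) * Wf p q
      ≤ ∑ q ∈ Q, w (g q) * Wf p q :=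
        Finset.sum_le_sum fun q hq => mul_le_mul_of_nonneg_right (hterm q hq) (CC_Wf_nonneg _ _)
    _ = ∑ j ∈ Q.image g, ∑ q ∈ Q with g q = j, w (g q) * Wf p q :=
        (Finset.sum_fiberwise_of_maps_to (fun q hq => Finset.mem_image_of_mem g hq) _).symm
    _ = ∑ j ∈ Q.image g, w j * ∑ q ∈ Q with g q = j, Wf p q := by
        refine Finset.sum_congr rfl fun j _ => ?_
        rw [Finset.mul_sum]
        refine Finset.sum_congr rfl fun q hq => ?_
        rw [(Finset.mem_filter.1 hq).2]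
    _ ≤ ∑ j ∈ Q.image g, A * B * r ^ j := Finset.sum_le_sum fun j _ => hshell j
    _ = A * B * ∑ j ∈ Q.image g, r ^ j := by rw [Finset.mul_sum]
    _ ≤ A * B * (r ^ j0 / (1 - r)) := by
        refine mul_le_mul_of_nonneg_left ?_ (by positivity)
        refine geom_tail_aux r hr0.le hr1 j0 _ ?_
        intro j hj
        obtain ⟨q, hq, rfl⟩ := Finset.mem_image.1 hj
        have h1 := hQL q hq
        have h2 := (hg q hq).2
        have h3 : (2 : ℝ) ^ j0 < 2 ^ (g q + 1) := by linarith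
        have h4 := (pow_lt_pow_iff_right₀ (by norm_num : (1 : ℝ) < 2)).1 h3
        omega
    _ ≤ A * B * (((2 : ℝ) ^ (nu d - 1) * L ^ (1 - nu d)) / (1 - r)) := by
        refine mul_le_mul_of_nonneg_left ?_ (by positivity)
        exact div_le_div_of_nonneg_right hfirst h1r.le
    _ = A * ((2 : ℝ) ^ (nu d - 1)) / (1 - r) * B * L ^ (1 - nu d) := by ring

end Pool.LibTP53
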