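import Pool.Agent.LibTP53.Defs

/-
PLAN (CE). For y in Q.image Prod.fst choose q = q_y in Q with q.1 = y. For t in As b (Rk k R) p.2 q.2 (more than M elements) the point (y,t) is in Y x R (q in S subset of Y x R gives y in Y), has
lv = a y + b t = a y + b q.2 = n (q in En), so wn = 2^0 = 1; it is in sc k (Y x R) (t in Rk k R) and dist (y,t) z <= 2^i: first coordinate dist y z.1 <= dist q z <= 2^i; second: if
z = p: |t - p.2| <= |p.2 - q.2| <= dist q p <= 2^i; if i = k: t and z.2 both lie in [2^k, 2^(k+1)), difference <= 2^k. The points for different y are different, so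
u 2^i >= ww (nb (sc k T) z (2^i)) >= sum_y (card As) >= card(image) * M  (wn >= 0; Finset.sum_le_sum_of_subset_of_nonneg, Finset.sum_sigma / sum over a disjoint union: use
Finset.card_le_card or the injective map (y,t) |-> (y,t) on the sigma type). DensW applied to z.
-/

set_option autoImplicit false

noncomputable section

open MeasureTheory Metric Set Filter

namespace Pool.LibTP53

open Pool.LibSR53

/-- few centres carry many radii -/
theorem cols_near {d : ℕ} {Y : Finset (E d)} {R : Finset ℝ} {a : E d → ℤ} {b : ℝ → ℤ} {n : ℤ}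
    {u : ℝ} {S : Finset (P d)} (hS : S ⊆ En a b n (Y ×ˢ R)) (hD : DensW a b n (Y ×ˢ R) u S)
    {k i : ℕ} (hi : i ≤ k) {p z : P d} (hp : p ∈ sc k S) (hz : z ∈ sc k S)
    (hzp : z = p ∨ i = k) (M : ℕ) (Q : Finset (P d)) (hQ : Q ⊆ sc k S)
    (hQM : ∀ q ∈ Q, M < Ac b (Rk k R) p.2 q.2) (hQz : ∀ q ∈ Q, dist q z ≤ 2 ^ i) :
    ((Q.image Prod.fst).card : ℝ) * M ≤ u * 2 ^ i := by
  classical
  refine le_trans ?_ (hD k z hz i hi)
  have hsc : ∀ (T : Finset (P d)) (q : P d), q ∈ sc k T ↔
      q ∈ T ∧ (2 : ℝ) ^ k ≤ q.2 ∧ q.2 < (2 : ℝ) ^ (k + 1) := by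
    intro T q
    simp only [sc, Finset.mem_filter]
  set N : Finset (P d) := nb (sc k (Y ×ˢ R)) z ((2 : ℝ) ^ i) with hN
  have hNm : ∀ q : P d, q ∈ N ↔ q ∈ sc k (Y ×ˢ R) ∧ dist q z ≤ (2 : ℝ) ^ i := by
    intro q
    simp only [hN, nb, Finset.mem_filter]
  set N0 : Finset (P d) := N.filter (fun q => lv a b q = n ∧ q.1 ∈ Q.image Prod.fst) with hN0
  -- the sum of weights is at least the cardinality of N0
  have h1 : (N0.card : ℝ) ≤ ww a b n N := by
    have h2 : (N0.card : ℝ) = ∑ q ∈ N0, wn a b n q := by
      rw [Finset.card_eq_sum_ones, Nat.cast_sum]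
      apply Finset.sum_congr rfl
      intro q hq
      rw [hN0, Finset.mem_filter] at hq
      simp [wn, hq.2.1]
    rw [h2]
    apply Finset.sum_le_sum_of_subset_of_nonneg (Finset.filter_subset _ _)
    intro q _ _
    unfold wn
    split_ifs
    · positivity
    · exact le_rfl
  refine le_trans ?_ h1
  have h3 : M * (Q.image Prod.fst).card ≤ N0.card := by
    apply Finset.mul_card_image_le_card_of_maps_to (f := Prod.fst)
    · intro q hq
      rw [hN0, Finset.mem_filter] at hq
      exact hq.2.2
    · intro y hy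
      obtain ⟨q, hqQ, hqy⟩ := Finset.mem_image.mp hy
      have hqs := (hsc S q).mp (hQ hqQ)
      have hqE := hS hqs.1
      simp only [En, Finset.mem_filter, Finset.mem_product] at hqE
      have hdq := hQz q hqQ
      rw [Prod.dist_eq, max_le_iff] at hdq
      have hzs := (hsc S z).mp hz
      have h4 := hQM q hqQ
      refine le_trans (le_of_lt h4) ?_
      have h5 : Ac b (Rk k R) p.2 q.2 =
          ((As b (Rk k R) p.2 q.2).image (fun t : ℝ => ((y, t) : P d))).card := by
        rw [Finset.card_image_of_injective]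
        · rfl
        · intro t t' h
          exact (Prod.mk.inj h).2
      rw [h5]
      apply Finset.card_le_card
      intro x hx
      obtain ⟨t, ht, rfl⟩ := Finset.mem_image.mp hx
      simp only [As, Rk, Finset.mem_filter] at ht
      obtain ⟨⟨htR, htk, htk'⟩, htb, htd⟩ := ht
      rw [Finset.mem_filter, hN0, Finset.mem_filter, hNm, hsc, Finset.mem_product]
      refine ⟨⟨⟨⟨⟨?_, htR⟩, htk, htk'⟩, ?_⟩, ?_, hy⟩, rfl⟩
      · rw [← hqy]
        exact hqE.1.1
      · rw [Prod.dist_eq, max_le_iff]
        refine ⟨?_, ?_⟩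
        · rw [← hqy]
          exact hdq.1
        · show dist t z.2 ≤ 2 ^ i
          rcases hzp with hzp | hik
          · rw [hzp, Real.dist_eq]
            rw [hzp, Real.dist_eq, abs_sub_comm] at hdq
            exact htd.trans hdq.2
          · rw [Real.dist_eq, hik, abs_le]
            have h6 := hzs.2
            rw [pow_succ] at h6 htk'
            constructor <;> linarith [h6.1, h6.2]
      · show lv a b (y, t) = n
        have h7 := hqE.2
        simp only [lv] at h7 ⊢
        rw [← hqy, htb]
        exact h7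
  have h4 : ((M * (Q.image Prod.fst).card : ℕ) : ℝ) ≤ (N0.card : ℝ) := by exact_mod_cast h3
  rw [Nat.cast_mul] at h4
  rw [mul_comm]
  exact h4

end Pool.LibTP53
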