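import Pool.Agent.LibTP53.Defs

/-
PLAN (CF). For y in Q.image Prod.fst (q in Q, q.1 = y): the point (y, p.2) is in Y x R (q, p in S subset of Y x R), in scale k, with lv = a y + b p.2 = n - b q.2 + b p.2 >= n + s0, so
wn >= 2^s0 (zpow). dist (y,p.2) z <= 2^i: first coordinate as dist q z <= 2^i; second coordinate 0 if z = p, and <= 2^k if i = k (both radii in [2^k, 2^(k+1))). Distinct y give
distinct points: card * 2^s0 <= ww (nb (sc k T) z (2^i)) <= u 2^i.
-/

set_option autoImplicit false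

noncomputable section

open MeasureTheory Metric Set Filter

namespace Pool.LibTP53

open Pool.LibSR53

/-- few centres have a much larger level -/
theorem cols_low {d : ℕ} {Y : Finset (E d)} {R : Finset ℝ} {a : E d → ℤ} {b : ℝ → ℤ} {n : ℤ}
    {u : ℝ} {S : Finset (P d)} (hS : S ⊆ En a b n (Y ×ˢ R)) (hD : DensW a b n (Y ×ˢ R) u S)
    {k i : ℕ} (hi : i ≤ k) {p z : P d} (hp : p ∈ sc k S) (hz : z ∈ sc k S)
    (hzp : z = p ∨ i = k) (s0 : ℕ) (Q : Finset (P d)) (hQ : Q ⊆ sc k S)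
    (hQs : ∀ q ∈ Q, b q.2 + (s0 : ℤ) ≤ b p.2) (hQz : ∀ q ∈ Q, dist q z ≤ 2 ^ i) :
    ((Q.image Prod.fst).card : ℝ) * 2 ^ s0 ≤ u * 2 ^ i := by
  classical
  have hwn0 : ∀ q : P d, 0 ≤ wn a b n q := by
    intro q
    unfold wn
    split_ifs
    · positivity
    · exact le_refl 0
  have hpS : p ∈ S ∧ (2 : ℝ) ^ k ≤ p.2 ∧ p.2 < (2 : ℝ) ^ (k + 1) := by
    have h := hp
    unfold sc at h
    simpa using h
  have hzS : z ∈ S ∧ (2 : ℝ) ^ k ≤ z.2 ∧ z.2 < (2 : ℝ) ^ (k + 1) := by
    have h := hz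
    unfold sc at h
    simpa using h
  have hSE : ∀ q ∈ S, (q.1 ∈ Y ∧ q.2 ∈ R) ∧ a q.1 + b q.2 = n := by
    intro q hq
    have h := hS hq
    unfold En lv at h
    simpa [Finset.mem_filter, Finset.mem_product] using h
  have hpR := (hSE p hpS.1).1.2
  have hmain := hD k z hz i hi
  set f : E d → P d := fun y => (y, p.2) with hf
  have hinj : ∀ x ∈ Q.image Prod.fst, ∀ y ∈ Q.image Prod.fst, f x = f y → x = y := by
    intro x _ y _ hxy
    exact congrArg Prod.fst hxy
  have hsub : (Q.image Prod.fst).image f ⊆ nb (sc k (Y ×ˢ R)) z ((2 : ℝ) ^ i) := by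
    intro w hw
    rw [Finset.mem_image] at hw
    obtain ⟨y, hy, rfl⟩ := hw
    rw [Finset.mem_image] at hy
    obtain ⟨q, hq, rfl⟩ := hy
    have hqS : q ∈ S := by
      have h := hQ hq
      unfold sc at h
      exact (Finset.mem_filter.mp h).1
    have hqY := (hSE q hqS).1.1
    have hdq := hQz q hq
    unfold nb sc
    rw [Finset.mem_filter, Finset.mem_filter, Finset.mem_product]
    refine ⟨⟨⟨hqY, hpR⟩, hpS.2⟩, ?_⟩
    rw [Prod.dist_eq] at hdq ⊢
    refine max_le (le_trans (le_max_left _ _) hdq) ?_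
    show dist p.2 z.2 ≤ (2 : ℝ) ^ i
    rcases hzp with h | h
    · rw [h, dist_self]
      positivity
    · rw [h, Real.dist_eq, abs_le]
      have h1 := hpS.2
      have h2 := hzS.2
      have h3 : (2 : ℝ) ^ (k + 1) = 2 ^ k + 2 ^ k := by ring
      rw [h3] at h1 h2
      constructor
      · linarith [h1.1, h2.2]
      · linarith [h1.2, h2.1]
  have hlow : ((Q.image Prod.fst).card : ℝ) * 2 ^ s0
      ≤ ∑ w ∈ (Q.image Prod.fst).image f, wn a b n w := by
    rw [Finset.sum_image (by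
      intro x hx y hy hxy
      exact hinj x hx y hy hxy)]
    rw [← nsmul_eq_mul]
    apply Finset.card_nsmul_le_sum
    intro y hy
    rw [Finset.mem_image] at hy
    obtain ⟨q, hq, rfl⟩ := hy
    have hqS : q ∈ S := by
      have h := hQ hq
      unfold sc at h
      exact (Finset.mem_filter.mp h).1
    have hql := (hSE q hqS).2
    have hqb := hQs q hq
    have hlv : n + (s0 : ℤ) ≤ lv a b (f q.1) := by
      show n + (s0 : ℤ) ≤ a q.1 + b p.2
      linarith
    unfold wn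
    rw [if_pos (by
      have h0 : (0 : ℤ) ≤ (s0 : ℤ) := Int.natCast_nonneg s0
      linarith)]
    rw [← zpow_natCast (2 : ℝ) s0]
    apply zpow_le_zpow_right₀ (by norm_num)
    linarith
  calc ((Q.image Prod.fst).card : ℝ) * 2 ^ s0
      ≤ ∑ w ∈ (Q.image Prod.fst).image f, wn a b n w := hlow
    _ ≤ ∑ w ∈ nb (sc k (Y ×ˢ R)) z ((2 : ℝ) ^ i), wn a b n w :=
        Finset.sum_le_sum_of_subset_of_nonneg hsub (fun w _ _ => hwn0 w)
    _ ≤ u * 2 ^ i := hmain

end Pool.LibTP53
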