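import Pool.Agent.LibTP53.CC
import Pool.Agent.LibTP53.CD
import Pool.Agent.LibTP53.CE
import Pool.Agent.LibTP53.CF

/-
PLAN (CG). far_sumW with Q = the filtered set, R. (1) B = u / M, L = M: dist: Ac_dist on Rk k R (a subset of R) gives M <= 2|p.2 - q.2| <= 2 dist p q. Column counts: cols_near with the sets
nb Q p (2^i) (z = p) and nb Q z (2^k) (i = k, z in Q subset of sc k S). Result C (u/M) M^(1-nu) = C u M^(-nu). (2) B = u/2^s0, L = 1: q in the set is different from p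
(b q.2 < b p.2), points of Y x R are 1-separated (Sep; Prod.dist_eq), so dist >= 1; cols_low. 1^(1-nu) = 1.
-/

set_option autoImplicit false

noncomputable section

open MeasureTheory Metric Set Filter

namespace Pool.LibTP53

open Pool.LibSR53

private theorem CG_mem {d : ℕ} {Y : Finset (E d)} {R : Finset ℝ} {a : E d → ℤ} {b : ℝ → ℤ} {n : ℤ}
    {S : Finset (P d)} (hS : S ⊆ En a b n (Y ×ˢ R)) {k : ℕ} {q : P d} (hq : q ∈ sc k S) :
    q.2 ∈ R := by
  have h1 : q ∈ S := by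
    simp only [sc, Finset.mem_filter] at hq
    exact hq.1
  have h2 := hS h1
  simp only [En, Finset.mem_filter, Finset.mem_product] at h2
  exact h2.1.2

private theorem CG_dist {d : ℕ} (p q : P d) : |p.2 - q.2| ≤ dist p q := by
  rw [Prod.dist_eq, ← Real.dist_eq]
  exact le_max_right _ _

private theorem CG_nb_sub {d : ℕ} (Q : Finset (P d)) (p : P d) (h : ℝ) : nb Q p h ⊆ Q := by
  intro q hq
  simp only [nb, Finset.mem_filter] at hq
  exact hq.1

private theorem CG_nb_dist {d : ℕ} (Q : Finset (P d)) (p : P d) (h : ℝ) (q : P d)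
    (hq : q ∈ nb Q p h) : dist q p ≤ h := by
  simp only [nb, Finset.mem_filter] at hq
  exact hq.2

private theorem CG_Rk {k : ℕ} {R : Finset ℝ} (hR : ∀ r ∈ R, ∀ s ∈ R, r ≠ s → 1 ≤ |r - s|) :
    ∀ r ∈ Rk k R, ∀ s ∈ Rk k R, r ≠ s → 1 ≤ |r - s| := by
  intro r hr s hs hrs
  simp only [Rk, Finset.mem_filter] at hr hs
  exact hR r hr.1 s hs.1 hrs

open scoped Classical in
/-- far points, row by row -/
theorem row_far (d : ℕ) (hd : 4 ≤ d) : ∃ C : ℝ, 0 < C ∧ ∀ (Y : Finset (E d)) (R : Finset ℝ)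
    (a : E d → ℤ) (b : ℝ → ℤ) (n : ℤ) (S : Finset (P d)) (u : ℝ) (k : ℕ) (p : P d), Sep Y R →
    S ⊆ En a b n (Y ×ˢ R) → 0 ≤ u → DensW a b n (Y ×ˢ R) u S → p ∈ sc k S →
    (∀ M : ℕ, 1 ≤ M →
      ∑ q ∈ (sc k S).filter (fun q => M < Ac b (Rk k R) p.2 q.2),
        (1 + dist p q) ^ (-nu d) / (1 + dist p q / 2 ^ k) ^ (d + 2) * Wf p q ≤
        C * u * (M : ℝ) ^ (-nu d)) ∧
    (∀ s0 : ℕ, 1 ≤ s0 →
      ∑ q ∈ (sc k S).filter (fun q => b q.2 + (s0 : ℤ) ≤ b p.2),
        (1 + dist p q) ^ (-nu d) / (1 + dist p q / 2 ^ k) ^ (d + 2) * Wf p q ≤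
        C * u / 2 ^ s0) := by
  obtain ⟨C, hC, hfar⟩ := far_sumW d hd
  refine ⟨C, hC, ?_⟩
  intro Y R a b n S u k p hYR hS hu hD hp
  constructor
  · intro M hM
    have hM0 : (0 : ℝ) < M := by
      have : (1 : ℝ) ≤ M := by exact_mod_cast hM
      linarith
    set Q := (sc k S).filter (fun q => M < Ac b (Rk k R) p.2 q.2) with hQ
    have hQs : Q ⊆ sc k S := Finset.filter_subset _ _
    have hQM : ∀ q ∈ Q, M < Ac b (Rk k R) p.2 q.2 := fun q hq => (Finset.mem_filter.1 hq).2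
    have h := hfar k (u / M) M R Q p (div_nonneg hu hM0.le) (by exact_mod_cast hM) hYR.rsep
      (fun q hq => CG_mem hS (hQs hq)) ?_ ?_ ?_
    · refine h.trans (le_of_eq ?_)
      rw [show (1 - nu d : ℝ) = 1 + (-nu d) by ring, Real.rpow_add hM0, Real.rpow_one]
      field_simp
    · intro q hq
      have h1 := Ac_dist b (Rk k R) (CG_Rk hYR.rsep) p.2 q.2 M (hQM q hq)
      have h2 := CG_dist p q
      linarith
    · intro i hi
      have h1 := cols_near hS hD hi hp hp (Or.inl rfl) M (nb Q p ((2 : ℝ) ^ i))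
        ((CG_nb_sub _ _ _).trans hQs) (fun q hq => hQM q (CG_nb_sub _ _ _ hq))
        (fun q hq => CG_nb_dist _ _ _ q hq)
      rw [div_mul_eq_mul_div, le_div_iff₀ hM0]
      exact h1
    · intro z hz
      have h1 := cols_near hS hD le_rfl hp (hQs hz) (Or.inr rfl) M (nb Q z ((2 : ℝ) ^ k))
        ((CG_nb_sub _ _ _).trans hQs) (fun q hq => hQM q (CG_nb_sub _ _ _ hq))
        (fun q hq => CG_nb_dist _ _ _ q hq)
      rw [div_mul_eq_mul_div, le_div_iff₀ hM0]
      exact h1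
  · intro s0 hs0
    have h20 : (0 : ℝ) < 2 ^ s0 := by positivity
    set Q := (sc k S).filter (fun q => b q.2 + (s0 : ℤ) ≤ b p.2) with hQ
    have hQs : Q ⊆ sc k S := Finset.filter_subset _ _
    have hQb : ∀ q ∈ Q, b q.2 + (s0 : ℤ) ≤ b p.2 := fun q hq => (Finset.mem_filter.1 hq).2
    have h := hfar k (u / 2 ^ s0) 1 R Q p (div_nonneg hu h20.le) le_rfl hYR.rsep
      (fun q hq => CG_mem hS (hQs hq)) ?_ ?_ ?_
    · refine h.trans (le_of_eq ?_)
      rw [Real.one_rpow, mul_one, mul_div_assoc]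
    · intro q hq
      have h1 : p.2 ≠ q.2 := by
        intro h2
        have h3 := hQb q hq
        rw [h2] at h3
        omega
      have h4 := hYR.rsep p.2 (CG_mem hS hp) q.2 (CG_mem hS (hQs hq)) h1
      have h2 := CG_dist p q
      linarith
    · intro i hi
      have h1 := cols_low hS hD hi hp hp (Or.inl rfl) s0 (nb Q p ((2 : ℝ) ^ i))
        ((CG_nb_sub _ _ _).trans hQs) (fun q hq => hQb q (CG_nb_sub _ _ _ hq))
        (fun q hq => CG_nb_dist _ _ _ q hq)
      rw [div_mul_eq_mul_div, le_div_iff₀ h20]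
      exact h1
    · intro z hz
      have h1 := cols_low hS hD le_rfl hp (hQs hz) (Or.inr rfl) s0 (nb Q z ((2 : ℝ) ^ k))
        ((CG_nb_sub _ _ _).trans hQs) (fun q hq => hQb q (CG_nb_sub _ _ _ hq))
        (fun q hq => CG_nb_dist _ _ _ q hq)
      rw [div_mul_eq_mul_div, le_div_iff₀ h20]
      exact h1

end Pool.LibTP53
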