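import Pool.Agent.LibSR53.Defs

set_option autoImplicit false

noncomputable section

open MeasureTheory Metric Set Filter

namespace Pool.LibTP53

open Pool.LibSR53

/-! ### counting part -/

/-- localisation factor of the Gram matrix -/
def Wf {d : ℕ} (p q : P d) : ℝ :=
  1 / (1 + |‖p.1 - q.1‖ - (|p.2 - q.2|)|) ^ 2 + 1 / (1 + |‖p.1 - q.1‖ - (p.2 + q.2)|) ^ 2

/-- the level of an index point -/
def lv {d : ℕ} (a : E d → ℤ) (b : ℝ → ℤ) (q : P d) : ℤ := a q.1 + b q.2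

/-- the weight of a point relative to the level n -/
def wn {d : ℕ} (a : E d → ℤ) (b : ℝ → ℤ) (n : ℤ) (q : P d) : ℝ :=
  if n ≤ lv a b q then (2 : ℝ) ^ (lv a b q - n) else 0

/-- total weight of a finite set -/
def ww {d : ℕ} (a : E d → ℤ) (b : ℝ → ℤ) (n : ℤ) (S : Finset (P d)) : ℝ := ∑ q ∈ S, wn a b n q

/-- the same with the factor radius^(d-1) -/
def wtW {d : ℕ} (a : E d → ℤ) (b : ℝ → ℤ) (n : ℤ) (T : Finset (P d)) : ℝ :=
  ∑ q ∈ T, wn a b n q * q.2 ^ (d - 1)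

/-- the points of level n -/
def En {d : ℕ} (a : E d → ℤ) (b : ℝ → ℤ) (n : ℤ) (T : Finset (P d)) : Finset (P d) :=
  open scoped Classical in T.filter (fun q => lv a b q = n)

/-- weighted density of T around the points of S at most u, at all scales -/
def DensW {d : ℕ} (a : E d → ℤ) (b : ℝ → ℤ) (n : ℤ) (T : Finset (P d)) (u : ℝ)
    (S : Finset (P d)) : Prop :=
  ∀ k : ℕ, ∀ p ∈ sc k S, ∀ i : ℕ, i ≤ k → ww a b n (nb (sc k T) p ((2 : ℝ) ^ i)) ≤ u * 2 ^ i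

/-- separated sets of centres and of radii -/
structure Sep {d : ℕ} (Y : Finset (E d)) (R : Finset ℝ) : Prop where
  ysep : ∀ y ∈ Y, ∀ z ∈ Y, y ≠ z → 1 ≤ dist y z
  rsep : ∀ r ∈ R, ∀ s ∈ R, r ≠ s → 1 ≤ |r - s|
  one_le : ∀ r ∈ R, 1 ≤ r

/-- level function on the points of level n: weighted density about 2^j -/
structure LevW {d : ℕ} (a : E d → ℤ) (b : ℝ → ℤ) (n : ℤ) (T : Finset (P d)) (m : P d → ℕ) :
    Prop where
  dens : ∀ j : ℕ, DensW a b n T ((2 : ℝ) ^ (j + 1)) (lev (En a b n T) m j)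
  big : ∀ k : ℕ, ∀ p ∈ sc k (En a b n T), ∃ i : ℕ, i ≤ k ∧
    (2 : ℝ) ^ (m p + i) ≤ ww a b n (nb (sc k T) p ((2 : ℝ) ^ i))

/-- the radii of scale k -/
def Rk (k : ℕ) (R : Finset ℝ) : Finset ℝ :=
  open scoped Classical in R.filter (fun r => (2 : ℝ) ^ k ≤ r ∧ r < (2 : ℝ) ^ (k + 1))

/-- the radii of the same level as s which are not farther from r than s -/
def As (b : ℝ → ℤ) (R : Finset ℝ) (r s : ℝ) : Finset ℝ :=
  open scoped Classical in R.filter (fun t => b t = b s ∧ |t - r| ≤ |r - s|)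

/-- their number -/
def Ac (b : ℝ → ℤ) (R : Finset ℝ) (r s : ℝ) : ℕ := (As b R r s).card

/-- size bounds for the Gram matrix, with localisation -/
structure KerL {H : Type} [NormedAddCommGroup H] [InnerProductSpace ℂ H]
    (d : ℕ) (C : ℝ) (v : P d → H) : Prop extends Ker d C v where
  loc : ∀ R : ℝ, 1 ≤ R → ∀ p q : P d, R ≤ p.2 → p.2 ≤ 2 * R → R ≤ q.2 → q.2 ≤ 2 * R →
    ‖(inner ℂ (v p) (v q) : ℂ)‖ ≤
      C * R ^ (d - 1) * ((1 + dist p q) ^ (-nu d) / (1 + dist p q / R) ^ (d + 2) * Wf p q)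

/-! ### kernel part -/

/-- the two signs -/
def sgb (s : Bool) : ℝ := if s then 1 else -1

/-- twice differentiable on the half line, with bounds beyond delta -/
def Dd (δ K : ℝ) (g : ℝ → ℝ) (f : ℝ → ℂ) : Prop :=
  ∃ f1 f2 : ℝ → ℂ, (∀ t : ℝ, 0 < t → HasDerivAt f (f1 t) t) ∧
    (∀ t : ℝ, 0 < t → HasDerivAt f1 (f2 t) t) ∧
    ∀ t : ℝ, δ ≤ t → ‖f t‖ ≤ K * g t ∧ ‖f1 t‖ ≤ K * g t ∧ ‖f2 t‖ ≤ K * g t

/-- localisation near the two critical values -/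
def Ef (r r' t : ℝ) : ℝ := 1 / (1 + |t - (|r - r'|)|) ^ 2 + 1 / (1 + |t - (r + r')|) ^ 2

/-- the radial multiplier -/
def Hm (d : ℕ) (χ : ℝ → ℝ) (r r' : ℝ) (ξ : E d) : ℂ :=
  ((χ ‖ξ‖ * ((1 + ‖ξ‖ ^ 2) ^ (d + 1))⁻¹ * sh d r ξ * sh d r' ξ : ℝ) : ℂ)

end Pool.LibTP53
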