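import Pool.Agent.LibTP53.FB
import Pool.Agent.LibTP53.FD

/-
PLAN (FE). Assembly (chair).
-/

set_option autoImplicit false

noncomputable section

open MeasureTheory Metric Set Filter

namespace Pool.LibTP53

open Pool.LibSR53

theorem mainTP (d : ℕ) (hd : 4 ≤ d) (p : ℝ) (hp1 : 1 < p)
    (hp2 : p < 2 * ((d : ℝ) + 1) / ((d : ℝ) + 3))
    (η : SchwartzMap (EuclideanSpace ℝ (Fin d)) ℂ)
    (hη : ∃ ε : ℝ, 0 < ε ∧ ∀ ξ : EuclideanSpace ℝ (Fin d), ‖ξ‖ < ε →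
      ∫ x : EuclideanSpace ℝ (Fin d),
        Complex.exp (-(2 * (Real.pi : ℂ) * Complex.I * ((inner ℝ x ξ : ℝ) : ℂ))) * η x = 0) :
    ∃ C : ℝ, 0 < C ∧ ∀ (f : EuclideanSpace ℝ (Fin d) → ℝ) (b : ℝ → ℝ), Measurable f →
      Measurable b →
      ∀ g : EuclideanSpace ℝ (Fin d) × ℝ → ℂ, Measurable g → (∃ B : ℝ, ∀ z, ‖g z‖ ≤ B) →
      HasCompactSupport g → (∀ x r, ‖g (x, r)‖ ≤ |f x| * |b r|) →
      MeasureTheory.eLpNorm
        (fun x : EuclideanSpace ℝ (Fin d) =>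
          ∫ r in Set.Ioi (1 : ℝ), ∫ z : EuclideanSpace ℝ (Fin d),
            (∫ y in Metric.sphere (0 : EuclideanSpace ℝ (Fin d)) r, η (x - y - z)
              ∂(MeasureTheory.Measure.hausdorffMeasure ((d : ℝ) - 1))) * g (z, r))
        (ENNReal.ofReal p) MeasureTheory.volume
      ≤ ENNReal.ofReal C *
        (∫⁻ r in Set.Ioi (1 : ℝ), ∫⁻ x : EuclideanSpace ℝ (Fin d),
            ‖f x * b r‖ₑ ^ p * ENNReal.ofReal (r ^ (d - 1))) ^ (1 / p) := by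
  obtain ⟨ε, hε, hη'⟩ := hη
  have hd' : (4 : ℝ) ≤ d := by exact_mod_cast hd
  have hp3 : p * (1 + 1 / (nu d + 1)) < 2 := by
    have e0 : nu d + 1 = ((d : ℝ) + 1) / 2 := by unfold nu; ring
    have e1 : 1 + 1 / (nu d + 1) = ((d : ℝ) + 3) / ((d : ℝ) + 1) := by
      rw [e0]
      have : (d : ℝ) + 1 ≠ 0 := by linarith
      field_simp
      ring
    rw [e1, ← mul_div_assoc, div_lt_iff₀ (by linarith)]
    rwa [lt_div_iff₀ (by linarith)] at hp2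
  obtain ⟨C, hC, hdis⟩ := discrete_prod d hd η ε hε hη' p hp1 hp3
  obtain ⟨C1, hC1, hav⟩ := averagingP d (by omega) η p hp1 C hC hdis
  exact ⟨C1, hC1, hav⟩

end Pool.LibTP53
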