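import Pool.Agent.LibTP53.Defs
import Pool.Agent.LibSR53.S5
import Pool.Agent.LibSR53.K4
import Pool.Agent.LibSR53.S6

/-
PLAN (GA). Two finite measures on E d, both invariant under linear isometries and carried by the unit sphere: mu1 = (volume.toSphere).map Subtype.val (Mathlib: Measure.toSphere, polar coordinates
measurePreserving_homeomorphUnitSphereProd / integral_fun... via volumeIoiPow; toSphere s = dim * volume (Ioo 0 1 . s), so it is invariant because volume is) and mu2 = sg d 1 (sg_map).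
The characteristic functions (MeasureTheory.charFun) are radial: charFun mu (U t) = charFun mu t. Fubini for exp(i <x, |t| y>) on mu1 x mu2 gives
m2 charFun mu1 t = m1 charFun mu2 t (m_i the masses), so m2 mu1 = m1 mu2 by Measure.ext_of_charFun. Then polar coordinates of Mathlib:
int h = int_{r>0} r^(d-1) int h(r w) dmu1(w) dr, and int h dsg(r) = r^(d-1) int h(r w) dsg(1)(w) (sg_scale). c = m1/m2.
Alternative without charFun: any other proof is fine (the statement is what counts).
-/

set_option autoImplicit false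

noncomputable section

open MeasureTheory Metric Set Filter

namespace Pool.LibTP53

open Pool.LibSR53

open scoped Pointwise

/-- two rotation invariant finite measures on the unit sphere are proportional -/
private theorem GA_unique {d : ℕ} (μ ν : Measure (E d)) [IsFiniteMeasure μ] [IsFiniteMeasure ν]
    (hμ : ∀ U : E d ≃ₗᵢ[ℝ] E d, μ.map U = μ) (hν : ∀ U : E d ≃ₗᵢ[ℝ] E d, ν.map U = ν)
    (hμs : ∀ᵐ x ∂μ, ‖x‖ = 1) (hνs : ∀ᵐ x ∂ν, ‖x‖ = 1) :
    ν univ • μ = μ univ • ν := by
  have hcomp : ∀ (κ : Measure (E d)) (hκ : ∀ U : E d ≃ₗᵢ[ℝ] E d, κ.map U = κ)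
      (U : E d ≃ₗᵢ[ℝ] E d) (f : E d → ℂ), ∫ ζ, f (U ζ) ∂κ = ∫ ζ, f ζ ∂κ := by
    intro κ hκ U f
    have h := U.toHomeomorph.measurableEmbedding.integral_map (μ := κ) f
    have h1 : κ.map (U.toHomeomorph : E d → E d) = κ := hκ U
    rw [h1] at h
    exact h.symm
  have hrad : ∀ (κ : Measure (E d)) (hκ : ∀ U : E d ≃ₗᵢ[ℝ] E d, κ.map U = κ)
      (s t : E d), ‖s‖ = ‖t‖ → charFun κ s = charFun κ t := by
    intro κ hκ s t hst
    set U : E d ≃ₗᵢ[ℝ] E d := ((ℝ ∙ (s - t))ᗮ).reflection with hU
    have h1 : U s = t := Submodule.reflection_sub hst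
    rw [charFun_apply, charFun_apply,
      ← hcomp κ hκ U (fun ζ => Complex.exp (((inner ℝ ζ t : ℝ) : ℂ) * Complex.I))]
    refine integral_congr_ae (Filter.Eventually.of_forall fun ζ => ?_)
    change Complex.exp (((inner ℝ ζ s : ℝ) : ℂ) * Complex.I) =
      Complex.exp (((inner ℝ (U ζ) t : ℝ) : ℂ) * Complex.I)
    rw [← h1, U.inner_map_map]
  have hkey : ∀ (κ ρ : Measure (E d)) [IsFiniteMeasure κ] [IsFiniteMeasure ρ]
      (hκ : ∀ U : E d ≃ₗᵢ[ℝ] E d, κ.map U = κ) (hρs : ∀ᵐ x ∂ρ, ‖x‖ = 1) (t : E d),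
      ((ρ univ).toReal : ℂ) * charFun κ t =
        ∫ y, ∫ x, Complex.exp (((‖t‖ * inner ℝ x y : ℝ) : ℂ) * Complex.I) ∂κ ∂ρ := by
    intro κ ρ _ _ hκ hρs t
    have h1 : ∫ y, (charFun κ t) ∂ρ =
        ∫ y, ∫ x, Complex.exp (((‖t‖ * inner ℝ x y : ℝ) : ℂ) * Complex.I) ∂κ ∂ρ := by
      refine integral_congr_ae ?_
      filter_upwards [hρs] with y hy
      have h2 : charFun κ t = charFun κ (‖t‖ • y) := by
        refine hrad κ hκ _ _ ?_
        rw [norm_smul, hy, mul_one, norm_norm]
      rw [h2, charFun_apply]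
      refine integral_congr_ae (Filter.Eventually.of_forall fun x => ?_)
      change Complex.exp (((inner ℝ x (‖t‖ • y) : ℝ) : ℂ) * Complex.I) = _
      rw [real_inner_smul_right]
    rw [← h1, integral_const, measureReal_def, Complex.real_smul]
  have hswap : ∀ t : E d,
      ∫ y, ∫ x, Complex.exp (((‖t‖ * inner ℝ x y : ℝ) : ℂ) * Complex.I) ∂μ ∂ν =
      ∫ y, ∫ x, Complex.exp (((‖t‖ * inner ℝ x y : ℝ) : ℂ) * Complex.I) ∂ν ∂μ := by
    intro t
    have hint : Integrable (Function.uncurry fun y x : E d =>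
        Complex.exp (((‖t‖ * inner ℝ x y : ℝ) : ℂ) * Complex.I)) (ν.prod μ) := by
      refine Integrable.of_bound (C := 1) ?_ ?_
      · refine Continuous.aestronglyMeasurable ?_
        unfold Function.uncurry
        fun_prop
      · exact Filter.Eventually.of_forall fun p => by
          unfold Function.uncurry
          rw [Complex.norm_exp_ofReal_mul_I]
    rw [integral_integral_swap hint]
    refine integral_congr_ae (Filter.Eventually.of_forall fun x => ?_)
    refine integral_congr_ae (Filter.Eventually.of_forall fun y => ?_)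
    change Complex.exp (((‖t‖ * inner ℝ x y : ℝ) : ℂ) * Complex.I) =
      Complex.exp (((‖t‖ * inner ℝ y x : ℝ) : ℂ) * Complex.I)
    rw [real_inner_comm]
  have hfin1 : IsFiniteMeasure (ν univ • μ) := Measure.smul_finite _ (measure_ne_top ν univ)
  have hfin2 : IsFiniteMeasure (μ univ • ν) := Measure.smul_finite _ (measure_ne_top μ univ)
  refine Measure.ext_of_charFun (funext fun t => ?_)
  have e1 : charFun (ν univ • μ) t = ((ν univ).toReal : ℂ) * charFun μ t := by
    rw [charFun_apply, charFun_apply, integral_smul_measure, Complex.real_smul]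
  have e2 : charFun (μ univ • ν) t = ((μ univ).toReal : ℂ) * charFun ν t := by
    rw [charFun_apply, charFun_apply, integral_smul_measure, Complex.real_smul]
  rw [e1, e2, hkey μ ν hμ hνs t, hkey ν μ hν hμs t, hswap t]

/-- the spherical part of the Lebesgue measure, pushed to the space, is invariant -/
private theorem GA_toSphere_map {d : ℕ} (U : E d ≃ₗᵢ[ℝ] E d) :
    (((volume : Measure (E d)).toSphere.map Subtype.val).map U) =
      (volume : Measure (E d)).toSphere.map Subtype.val := by
  have hme : Measurable U := U.continuous.measurable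
  ext s hs
  rw [Measure.map_apply hme hs, Measure.map_apply measurable_subtype_coe (hme hs),
    Measure.map_apply measurable_subtype_coe hs,
    Measure.toSphere_apply' _ (measurable_subtype_coe (hme hs)),
    Measure.toSphere_apply' _ (measurable_subtype_coe hs)]
  congr 1
  rw [Subtype.image_preimage_coe, Subtype.image_preimage_coe]
  have e1 : (Ioo (0 : ℝ) 1 • (sphere (0 : E d) 1 ∩ U ⁻¹' s) : Set (E d)) =
      U ⁻¹' (Ioo (0 : ℝ) 1 • (sphere (0 : E d) 1 ∩ s)) := by
    ext x
    rw [mem_preimage, Set.mem_smul, Set.mem_smul]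
    constructor
    · rintro ⟨r, hr, y, ⟨hy1, hy2⟩, rfl⟩
      refine ⟨r, hr, U y, ⟨?_, hy2⟩, ?_⟩
      · rw [mem_sphere_zero_iff_norm, U.norm_map]
        exact mem_sphere_zero_iff_norm.mp hy1
      · rw [map_smul]
    · rintro ⟨r, hr, y, ⟨hy1, hy2⟩, hx⟩
      refine ⟨r, hr, U.symm y, ⟨?_, ?_⟩, ?_⟩
      · rw [mem_sphere_zero_iff_norm, U.symm.norm_map]
        exact mem_sphere_zero_iff_norm.mp hy1
      · rw [mem_preimage, U.apply_symm_apply]
        exact hy2
      · have := congrArg U.symm hx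
        rw [U.symm_apply_apply, map_smul] at this
        exact this
  rw [e1]
  exact U.measurePreserving.measure_preimage_equiv (f := U.toHomeomorph.toMeasurableEquiv) _

/-- polar coordinates of Mathlib for complex functions -/
private theorem GA_polar (d : ℕ) (hd : 2 ≤ d) (h : E d → ℂ) (hh : Integrable h) :
    ∫ x, h x = ∫ r in Ioi (0 : ℝ), ((r ^ (d - 1) : ℝ) : ℂ) *
      ∫ ζ, h (r • ζ) ∂((volume : Measure (E d)).toSphere.map Subtype.val) := by
  have hnt : Nontrivial (E d) := by
    have : Nonempty (Fin d) := ⟨⟨0, by omega⟩⟩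
    infer_instance
  have hdim : Module.finrank ℝ (E d) = d := by simp
  have hmp := (volume : Measure (E d)).measurePreserving_homeomorphUnitSphereProd
  rw [hdim] at hmp
  have hem := (homeomorphUnitSphereProd (E d)).measurableEmbedding
  set g : sphere (0 : E d) 1 × Ioi (0 : ℝ) → ℂ := fun p => h (p.2.1 • p.1.1) with hg
  have hgf : ∀ x : ({(0 : E d)}ᶜ : Set (E d)), g (homeomorphUnitSphereProd (E d) x) = h x.1 := by
    intro x
    have hx := congrArg Subtype.val
      ((homeomorphUnitSphereProd (E d)).symm_apply_apply x)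
    rw [homeomorphUnitSphereProd_symm_apply_coe] at hx
    rw [hg]
    exact congrArg h hx
  have h1 : ∫ x, h x = ∫ x : ({(0 : E d)}ᶜ : Set (E d)), h x.1 ∂((volume : Measure (E d)).comap (↑)) := by
    rw [integral_subtype_comap (measurableSet_singleton _).compl fun x => h x,
      restrict_compl_singleton]
  have h2 : ∫ x : ({(0 : E d)}ᶜ : Set (E d)), h x.1 ∂((volume : Measure (E d)).comap (↑)) =
      ∫ p, g p ∂((volume : Measure (E d)).toSphere.prod (Measure.volumeIoiPow (d - 1))) := by
    rw [← hmp.integral_comp hem g]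
    exact integral_congr_ae (Filter.Eventually.of_forall fun x => (hgf x).symm)
  have hgint : Integrable g ((volume : Measure (E d)).toSphere.prod
      (Measure.volumeIoiPow (d - 1))) := by
    rw [← hmp.integrable_comp_emb hem]
    have : g ∘ (homeomorphUnitSphereProd (E d)) = h ∘ Subtype.val := funext fun x => hgf x
    rw [this, ← integrableOn_iff_comap_subtypeVal (measurableSet_singleton _).compl]
    exact hh.integrableOn
  rw [h1, h2, integral_prod_symm _ hgint]
  have h3 : ∀ r : Ioi (0 : ℝ), ∫ x, g (x, r) ∂((volume : Measure (E d)).toSphere) =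
      ∫ ζ, h (r.1 • ζ) ∂((volume : Measure (E d)).toSphere.map Subtype.val) := by
    intro r
    rw [(MeasurableEmbedding.subtype_coe
      (isClosed_sphere (x := (0 : E d)) (ε := 1)).measurableSet).integral_map]
  simp only [h3]
  unfold Measure.volumeIoiPow
  simp only [ENNReal.ofReal]
  rw [integral_withDensity_eq_integral_smul,
    integral_subtype_comap measurableSet_Ioi fun a => Real.toNNReal (a ^ (d - 1)) •
      ∫ ζ, h (a • ζ) ∂((volume : Measure (E d)).toSphere.map Subtype.val)]
  · refine setIntegral_congr_fun measurableSet_Ioi fun x hx => ?_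
    rw [NNReal.smul_def, Real.coe_toNNReal _ (pow_nonneg (le_of_lt hx) _), Complex.real_smul]
  · exact (measurable_subtype_coe.pow_const _).real_toNNReal

/-- polar coordinates with the Hausdorff measures of the spheres -/
theorem polar_sg (d : ℕ) (hd : 2 ≤ d) : ∃ c : ℝ, 0 < c ∧ ∀ h : E d → ℂ, Integrable h →
    ∫ x, h x = (c : ℂ) * ∫ r in Ioi (0 : ℝ), ∫ ζ, h ζ ∂(sg d r) := by
  have hnt : Nontrivial (E d) := by
    have : Nonempty (Fin d) := ⟨⟨0, by omega⟩⟩
    infer_instance
  have hfin : IsFiniteMeasure (sg d 1) := ⟨sg_one_finite d hd⟩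
  set μ1 : Measure (E d) := (volume : Measure (E d)).toSphere.map Subtype.val with hμ1
  have hμ1s : ∀ᵐ x ∂μ1, ‖x‖ = 1 := by
    have hms : MeasurableSet {x : E d | ‖x‖ = 1} :=
      (isClosed_singleton.preimage continuous_norm).measurableSet
    rw [hμ1, ae_map_iff measurable_subtype_coe.aemeasurable hms]
    exact Filter.Eventually.of_forall fun x => mem_sphere_zero_iff_norm.mp x.2
  have hsgs : ∀ᵐ x ∂(sg d 1), ‖x‖ = 1 := by
    unfold sg
    filter_upwards [ae_restrict_mem (isClosed_sphere (x := (0 : E d)) (ε := 1)).measurableSet]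
      with ζ hζ
    exact mem_sphere_zero_iff_norm.1 hζ
  have huniq := GA_unique μ1 (sg d 1) (fun U => GA_toSphere_map U) (fun U => sg_map d 1 U)
    hμ1s hsgs
  have hm2 : 0 < (sg d 1 univ).toReal :=
    ENNReal.toReal_pos (sg_one_pos d hd).ne' (sg_one_finite d hd).ne
  have hm1 : 0 < (μ1 univ).toReal := by
    refine ENNReal.toReal_pos ?_ (measure_ne_top _ _)
    rw [hμ1, Measure.map_apply measurable_subtype_coe MeasurableSet.univ, preimage_univ]
    intro h0
    rw [Measure.measure_univ_eq_zero] at h0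
    exact Measure.toSphere_ne_zero (volume : Measure (E d)) h0
  refine ⟨(μ1 univ).toReal / (sg d 1 univ).toReal, div_pos hm1 hm2, fun h hh => ?_⟩
  rw [GA_polar d hd h hh]
  have hc : (((μ1 univ).toReal / (sg d 1 univ).toReal : ℝ) : ℂ) *
      ∫ r in Ioi (0 : ℝ), ∫ ζ, h ζ ∂(sg d r) =
      ∫ r in Ioi (0 : ℝ), (((μ1 univ).toReal / (sg d 1 univ).toReal : ℝ) : ℂ) *
        ∫ ζ, h ζ ∂(sg d r) := (integral_const_mul _ _).symm
  rw [hc]
  refine setIntegral_congr_fun measurableSet_Ioi fun r hr => ?_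
  have hr0 : (0 : ℝ) < r := hr
  have e1 : ∫ ζ, h ζ ∂(sg d r) = ((r ^ (d - 1) : ℝ) : ℂ) * ∫ ζ, h (r • ζ) ∂(sg d 1) := by
    have hemb : MeasurableEmbedding (fun ζ : E d => r • ζ) :=
      (Homeomorph.smulOfNeZero r hr0.ne').measurableEmbedding
    rw [sg_scale d hd r hr0, integral_smul_measure, hemb.integral_map,
      ENNReal.toReal_ofReal (by positivity), Complex.real_smul]
  have e2 : ((sg d 1 univ).toReal : ℂ) * ∫ ζ, h (r • ζ) ∂μ1 =
      ((μ1 univ).toReal : ℂ) * ∫ ζ, h (r • ζ) ∂(sg d 1) := by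
    have := congrArg (fun κ : Measure (E d) => ∫ ζ, h (r • ζ) ∂κ) huniq
    simp only [integral_smul_measure, Complex.real_smul] at this
    exact this
  change ((r ^ (d - 1) : ℝ) : ℂ) * ∫ ζ, h (r • ζ) ∂μ1 = _ * ∫ ζ, h ζ ∂(sg d r)
  rw [e1]
  have hm2' : ((sg d 1 univ).toReal : ℂ) ≠ 0 := by exact_mod_cast hm2.ne'
  push_cast
  field_simp
  linear_combination ((r : ℂ) ^ (d - 1)) * e2

end Pool.LibTP53
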