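import Pool.Agent.LibTP53.FE
import Pool.Agent.LibTP53.GC
import Pool.Agent.LibSR53.V2

/-
PLAN (GD). For fixed x: int_y (int_z eta (x-y-z) K0|z|) f y = c int_y int_{r>0} K0 r (int eta(x-y-zeta) dsg r) f y = c int_{r>1} int_y Fk eta y r x (f y K0 r) (conv_polar with w = x - y;
eta (x - y - zeta) = eta (x - zeta - y); Fubini: Fk bounded for r <= N (Fk_le in V2), f, K0 bounded with bounded support; K0 = 0 for r <= 1). mainTP with f := |f|, b := |K0|,
g (y,r) = f y * K0 r (measurable, bounded, compact support: support inside the product of the supports, closed ball of large radius). The right side factors: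
int_{r>1} int |f|^p |K0|^p r^(d-1) = |f|_p^p int_{r>1} |K0|^p r^(d-1) (lintegral_const_mul etc.), and |K0(|.|)|_p^p = d vol(ball) int_{r>0} |K0|^p r^(d-1)
(MeasureTheory.lintegral_fun_norm_addHaar or integral_fun_norm_addHaar). eLpNorm_const_smul for the factor c.
-/

set_option autoImplicit false

noncomputable section

open MeasureTheory Metric Set Filter

namespace Pool.LibTP53

open Pool.LibSR53

private theorem GD_polar {d : ℕ} (hd : 1 ≤ d) : ∃ κ : ENNReal, κ ≠ 0 ∧ κ ≠ ⊤ ∧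
    ∀ f : ℝ → ENNReal, Measurable f →
    ∫⁻ z : E d, f ‖z‖ = κ * ∫⁻ r in Ioi (0 : ℝ), f r * ENNReal.ofReal (r ^ (d - 1)) := by
  have : Nonempty (Fin d) := ⟨⟨0, hd⟩⟩
  have : Nontrivial (E d) := by infer_instance
  refine ⟨(volume : Measure (E d)).toSphere univ, ?_, ?_, ?_⟩
  · rw [Measure.toSphere_apply_univ]
    simp
    constructor
    · omega
    · exact (measure_ball_pos _ _ one_pos).ne'
  · exact measure_ne_top _ _
  · intro f hf
    calc ∫⁻ z : E d, f ‖z‖ = ∫⁻ x : ({(0 : E d)}ᶜ : Set (E d)), f ‖x.1‖ ∂(volume.comap Subtype.val) := by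
          rw [lintegral_subtype_comap (measurableSet_singleton _).compl fun x ↦ f (‖x‖),
            restrict_compl_singleton]
      _ = ∫⁻ x, f x.2 ∂(volume : Measure (E d)).toSphere.prod
            (.volumeIoiPow (Module.finrank ℝ (E d) - 1)) := by
          simpa using ((volume : Measure (E d)).measurePreserving_homeomorphUnitSphereProd.lintegral_comp_emb
            (Homeomorph.measurableEmbedding _) (f ∘ Subtype.val ∘ Prod.snd))
      _ = _ := by
          rw [lintegral_prod (fun x : (sphere (0 : E d) 1) × (Ioi (0 : ℝ)) => f x.2)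
            (hf.comp (measurable_subtype_coe.comp measurable_snd)).aemeasurable]
          simp only [lintegral_const]
          rw [mul_comm]
          congr 1
          rw [Measure.volumeIoiPow, lintegral_withDensity_eq_lintegral_mul
            (g := fun y : (Ioi (0 : ℝ)) => f y) _ (by fun_prop)
            (hf.comp measurable_subtype_coe)]
          simp only [Pi.mul_apply]
          rw [finrank_euclideanSpace_fin]
          rw [lintegral_subtype_comap measurableSet_Ioi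
            (fun a : ℝ => ENNReal.ofReal (a ^ (d - 1)) * f a)]
          exact lintegral_congr fun a => mul_comm _ _

private theorem GD_int {d : ℕ} (hd : 2 ≤ d) (η : SchwartzMap (E d) ℂ) (K0 : ℝ → ℂ)
    (hK : Measurable K0) (B N : ℝ) (hB : ∀ r, ‖K0 r‖ ≤ B) (hN : ∀ r, N < r → K0 r = 0)
    (f : E d → ℂ) (hf : Measurable f) (B' N' : ℝ) (hB' : ∀ x, ‖f x‖ ≤ B')
    (hN' : ∀ x, N' < ‖x‖ → f x = 0) (x : E d) :
    Integrable (Function.uncurry fun (y : E d) (r : ℝ) => Fk η y r x * (f y * K0 r))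
      ((volume : Measure (E d)).prod (volume.restrict (Ioi (1 : ℝ)))) := by
  obtain ⟨C, hC, hCb⟩ := Fk_le hd η
  have hmeas : AEStronglyMeasurable (Function.uncurry fun (y : E d) (r : ℝ) =>
      Fk η y r x * (f y * K0 r))
      ((volume : Measure (E d)).prod (volume.restrict (Ioi (1 : ℝ)))) := by
    refine AEStronglyMeasurable.mul ?_ ?_
    · have h1 : ContinuousOn (fun q : E d × ℝ => Fk η q.1 q.2 x) {q | 0 < q.2} :=
        (Fk_joint hd η).comp (f := fun q : E d × ℝ => ((q, x) : (E d × ℝ) × E d))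
          (Continuous.continuousOn (by fun_prop)) fun q hq => hq
      have h2 : MeasurableSet {q : E d × ℝ | 0 < q.2} :=
        measurableSet_lt measurable_const measurable_snd
      have h3 := (h1.aestronglyMeasurable (μ := volume) h2)
      have h4 : (volume : Measure (E d)).prod (volume.restrict (Ioi (1 : ℝ))) =
          (volume : Measure (E d × ℝ)).restrict (univ ×ˢ Ioi (1 : ℝ)) := by
        rw [← Measure.restrict_univ (μ := (volume : Measure (E d))), Measure.prod_restrict]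
        rfl
      rw [h4]
      refine h3.mono_measure (Measure.restrict_mono ?_ le_rfl)
      intro q hq
      exact lt_trans zero_lt_one (mem_Ioi.1 (mem_prod.1 hq).2)
    · exact ((hf.comp measurable_fst).mul (hK.comp measurable_snd)).aestronglyMeasurable
  have hsupp : Function.support (Function.uncurry fun (y : E d) (r : ℝ) =>
      Fk η y r x * (f y * K0 r)) ⊆ closedBall (0 : E d) N' ×ˢ Iic N := by
    intro q hq
    rw [Function.mem_support] at hq
    refine ⟨?_, ?_⟩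
    · by_contra h
      apply hq
      have : N' < ‖q.1‖ := by
        rw [mem_closedBall_zero_iff] at h
        exact lt_of_not_ge h
      simp [Function.uncurry, hN' _ this]
    · by_contra h
      apply hq
      have : N < q.2 := lt_of_not_ge h
      simp [Function.uncurry, hN _ this]
  rw [← integrableOn_iff_integrable_of_support_subset hsupp]
  have hfin : ((volume : Measure (E d)).prod (volume.restrict (Ioi (1 : ℝ))))
      (closedBall (0 : E d) N' ×ˢ Iic N) ≠ ⊤ := by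
    rw [Measure.prod_prod, Measure.restrict_apply measurableSet_Iic]
    refine ENNReal.mul_ne_top measure_closedBall_lt_top.ne ?_
    rw [inter_comm, Ioi_inter_Iic]
    exact measure_Ioc_lt_top.ne
  refine Measure.integrableOn_of_bounded (M := C * (max N 1) ^ (d - 1) * (B' * B)) hfin hmeas ?_
  have h5 : ∀ᵐ q ∂((volume : Measure (E d)).prod (volume.restrict (Ioi (1 : ℝ)))).restrict
      (closedBall (0 : E d) N' ×ˢ Iic N), q ∈ closedBall (0 : E d) N' ×ˢ Iic N :=
    ae_restrict_mem (measurableSet_closedBall.prod measurableSet_Iic)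
  have h6 : ∀ᵐ q ∂((volume : Measure (E d)).prod (volume.restrict (Ioi (1 : ℝ)))).restrict
      (closedBall (0 : E d) N' ×ˢ Iic N), 1 < q.2 := by
    refine ae_restrict_of_ae ?_
    have h7 : ∀ᵐ r ∂(volume.restrict (Ioi (1 : ℝ))), 1 < r := ae_restrict_mem measurableSet_Ioi
    exact (Measure.quasiMeasurePreserving_snd (μ := (volume : Measure (E d)))
      (ν := volume.restrict (Ioi (1 : ℝ)))).ae h7
  filter_upwards [h5, h6] with q h5 h6
  have hB0 : 0 ≤ B := le_trans (norm_nonneg _) (hB 0)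
  have hB0' : 0 ≤ B' := le_trans (norm_nonneg _) (hB' 0)
  have h8 : q.2 ≤ max N 1 := le_max_of_le_left h5.2
  have h9 : 0 < q.2 := by linarith
  calc ‖Function.uncurry (fun (y : E d) (r : ℝ) => Fk η y r x * (f y * K0 r)) q‖
      = ‖Fk η q.1 q.2 x‖ * (‖f q.1‖ * ‖K0 q.2‖) := by
        simp [Function.uncurry]
    _ ≤ (C * q.2 ^ (d - 1)) * (B' * B) := by
        gcongr
        · exact hCb _ _ _ h9
        · exact hB' _
        · exact hB _
    _ ≤ C * (max N 1) ^ (d - 1) * (B' * B) := by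
        gcongr

private theorem GD_left {d : ℕ} (hd : 2 ≤ d) (η : SchwartzMap (E d) ℂ) (c : ℝ)
    (K0 : ℝ → ℂ) (hc : ∀ w : E d,
    ∫ z, η (w - z) * K0 ‖z‖ = (c : ℂ) * ∫ r in Ioi (0 : ℝ), K0 r * ∫ ζ, η (w - ζ) ∂(sg d r))
    (hK : Measurable K0) (B N : ℝ) (hB : ∀ r, ‖K0 r‖ ≤ B) (hN : ∀ r, N < r → K0 r = 0)
    (h1 : ∀ r, r ≤ 1 → K0 r = 0)
    (f : E d → ℂ) (hf : Measurable f) (B' N' : ℝ) (hB' : ∀ x, ‖f x‖ ≤ B')
    (hN' : ∀ x, N' < ‖x‖ → f x = 0) (x : E d) :
    ∫ y, (∫ z, η (x - y - z) * K0 ‖z‖) * f y =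
      (c : ℂ) * ∫ r in Ioi (1 : ℝ), ∫ y, Fk η y r x * (f y * K0 r) := by
  rw [← integral_integral_swap (GD_int hd η K0 hK B N hB hN f hf B' N' hB' hN' x),
    ← integral_const_mul]
  refine integral_congr_ae (Eventually.of_forall fun y => ?_)
  beta_reduce
  rw [hc (x - y)]
  have h2 : ∫ r in Ioi (0 : ℝ), K0 r * ∫ ζ, η (x - y - ζ) ∂(sg d r) =
      ∫ r in Ioi (1 : ℝ), K0 r * ∫ ζ, η (x - y - ζ) ∂(sg d r) := by
    refine setIntegral_eq_of_subset_of_forall_sdiff_eq_zero measurableSet_Ioi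
      (Ioi_subset_Ioi zero_le_one) ?_
    intro r hr
    have h3 : r ≤ 1 := not_lt.1 fun h => hr.2 h
    rw [h1 r h3, zero_mul]
  rw [h2, mul_assoc, ← integral_mul_const]
  congr 1
  refine integral_congr_ae (Eventually.of_forall fun r => ?_)
  beta_reduce
  have h4 : Fk η y r x = ∫ ζ, η (x - y - ζ) ∂(sg d r) := by
    unfold Fk
    refine integral_congr_ae (Eventually.of_forall fun ζ => ?_)
    beta_reduce
    rw [sub_right_comm]
  rw [h4]
  ring

/-- radial kernels supported in 1 < |z| <= N -/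
theorem high_part (d : ℕ) (hd : 4 ≤ d) (p : ℝ) (hp1 : 1 < p)
    (hp2 : p < 2 * ((d : ℝ) + 1) / ((d : ℝ) + 3)) (η : SchwartzMap (E d) ℂ)
    (hη : ∃ ε : ℝ, 0 < ε ∧ Van η ε) :
    ∃ C : ℝ, 0 < C ∧ ∀ (K0 : ℝ → ℂ), Measurable K0 → (∃ B : ℝ, ∀ r, ‖K0 r‖ ≤ B) →
      (∀ r, r ≤ 1 → K0 r = 0) → (∃ N : ℝ, ∀ r, N < r → K0 r = 0) →
      ∀ f : E d → ℂ, Measurable f → (∃ B : ℝ, ∀ x, ‖f x‖ ≤ B) → (∃ N : ℝ, ∀ x, N < ‖x‖ → f x = 0) →
      eLpNorm (fun x => ∫ y, (∫ z, η (x - y - z) * K0 ‖z‖) * f y) (ENNReal.ofReal p) volume ≤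
        ENNReal.ofReal C * eLpNorm (fun z : E d => K0 ‖z‖) (ENNReal.ofReal p) volume *
          eLpNorm f (ENNReal.ofReal p) volume := by
  obtain ⟨c, hc, hconv⟩ := conv_polar d (by omega)
  obtain ⟨C, hC, hmain⟩ := mainTP d hd p hp1 hp2 η hη
  obtain ⟨κ, hκ0, hκt, hpol⟩ := GD_polar (d := d) (by omega)
  have hp0 : 0 < p := by linarith
  have hpp : ENNReal.ofReal p ≠ 0 := by simpa using hp0
  have hpt : (ENNReal.ofReal p).toReal = p := ENNReal.toReal_ofReal hp0.le
  refine ⟨c * C * (κ⁻¹ ^ (1 / p)).toReal + 1, by positivity, ?_⟩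
  intro K0 hK hKB hK1 hKN f hf hfB hfN
  obtain ⟨B, hB⟩ := hKB
  obtain ⟨N, hN⟩ := hKN
  obtain ⟨B', hB'⟩ := hfB
  obtain ⟨N', hN'⟩ := hfN
  have hleft : (fun x => ∫ y, (∫ z, η (x - y - z) * K0 ‖z‖) * f y) =
      (c : ℂ) • (fun x => ∫ r in Ioi (1 : ℝ), ∫ y, Fk η y r x * (f y * K0 r)) := by
    funext x
    rw [Pi.smul_apply, smul_eq_mul]
    exact GD_left (by omega) η c K0 (hconv η K0 hK ⟨B, hB⟩) hK B N hB hN hK1 f hf B' N' hB' hN' x
  have hB0 : 0 ≤ B := le_trans (norm_nonneg _) (hB 0)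
  have hB0' : 0 ≤ B' := le_trans (norm_nonneg _) (hB' 0)
  have hcs : HasCompactSupport (fun q : E d × ℝ => f q.1 * K0 q.2) := by
    refine HasCompactSupport.intro (K := closedBall (0 : E d) N' ×ˢ Icc 0 N)
      ((isCompact_closedBall _ _).prod isCompact_Icc) ?_
    intro q hq
    rw [mem_prod, not_and_or] at hq
    rcases hq with hq | hq
    · have : N' < ‖q.1‖ := by
        rw [mem_closedBall_zero_iff] at hq
        exact lt_of_not_ge hq
      rw [hN' _ this, zero_mul]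
    · rw [mem_Icc, not_and_or, not_le, not_le] at hq
      rcases hq with hq | hq
      · rw [hK1 _ (by linarith), mul_zero]
      · rw [hN _ hq, mul_zero]
  have hm := hmain (fun y => ‖f y‖) (fun r => ‖K0 r‖) hf.norm hK.norm
    (fun q => f q.1 * K0 q.2) ((hf.comp measurable_fst).mul (hK.comp measurable_snd))
    ⟨B' * B, fun q => by
      rw [norm_mul]
      exact mul_le_mul (hB' _) (hB _) (norm_nonneg _) hB0'⟩ hcs
    (fun x r => by rw [norm_mul, abs_norm, abs_norm])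
  have hm' : eLpNorm (fun x => ∫ r in Ioi (1 : ℝ), ∫ y, Fk η y r x * (f y * K0 r))
      (ENNReal.ofReal p) volume ≤ ENNReal.ofReal C *
      (∫⁻ r in Set.Ioi (1 : ℝ), ∫⁻ x : E d,
            ‖‖f x‖ * ‖K0 r‖‖ₑ ^ p * ENNReal.ofReal (r ^ (d - 1))) ^ (1 / p) := hm
  have hright : (∫⁻ r in Set.Ioi (1 : ℝ), ∫⁻ x : E d,
      ‖‖f x‖ * ‖K0 r‖‖ₑ ^ p * ENNReal.ofReal (r ^ (d - 1))) ≤
      (∫⁻ x, ‖f x‖ₑ ^ p) * (κ⁻¹ * ∫⁻ z : E d, ‖K0 ‖z‖‖ₑ ^ p) := by
    have h1 : ∀ r, (∫⁻ x : E d, ‖‖f x‖ * ‖K0 r‖‖ₑ ^ p * ENNReal.ofReal (r ^ (d - 1))) =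
        (∫⁻ x, ‖f x‖ₑ ^ p) * (‖K0 r‖ₑ ^ p * ENNReal.ofReal (r ^ (d - 1))) := by
      intro r
      rw [← lintegral_mul_const _ (hf.enorm.pow_const p)]
      refine lintegral_congr fun x => ?_
      rw [enorm_mul, enorm_norm, enorm_norm, ENNReal.mul_rpow_of_nonneg _ _ hp0.le, mul_assoc]
    simp only [h1]
    rw [lintegral_const_mul _ (by fun_prop)]
    gcongr
    rw [hpol (fun r => ‖K0 r‖ₑ ^ p) (hK.enorm.pow_const p), ← mul_assoc,
      ENNReal.inv_mul_cancel hκ0 hκt, one_mul]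
    exact lintegral_mono_set (Ioi_subset_Ioi zero_le_one)
  have hKt : κ⁻¹ ^ (1 / p) ≠ ⊤ :=
    ENNReal.rpow_ne_top_of_nonneg (by positivity) (ENNReal.inv_ne_top.2 hκ0)
  have hKn : eLpNorm (fun z : E d => K0 ‖z‖) (ENNReal.ofReal p) volume =
      (∫⁻ z : E d, ‖K0 ‖z‖‖ₑ ^ p) ^ (1 / p) := by
    rw [eLpNorm_eq_lintegral_rpow_enorm_toReal hpp ENNReal.ofReal_ne_top, hpt]
  have hfn : eLpNorm f (ENNReal.ofReal p) volume = (∫⁻ x : E d, ‖f x‖ₑ ^ p) ^ (1 / p) := by
    rw [eLpNorm_eq_lintegral_rpow_enorm_toReal hpp ENNReal.ofReal_ne_top, hpt]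
  rw [hleft, eLpNorm_const_smul, hKn, hfn]
  calc ‖(c : ℂ)‖ₑ * eLpNorm (fun x => ∫ r in Ioi (1 : ℝ), ∫ y, Fk η y r x * (f y * K0 r))
        (ENNReal.ofReal p) volume
      ≤ ENNReal.ofReal c * (ENNReal.ofReal C *
        ((∫⁻ x, ‖f x‖ₑ ^ p) * (κ⁻¹ * ∫⁻ z : E d, ‖K0 ‖z‖‖ₑ ^ p)) ^ (1 / p)) := by
        have h2 : ‖(c : ℂ)‖ₑ = ENNReal.ofReal c := by
          rw [← ofReal_norm, Complex.norm_real, Real.norm_of_nonneg hc.le]
        rw [h2]
        gcongr
        refine hm'.trans ?_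
        gcongr
    _ = ENNReal.ofReal (c * C * (κ⁻¹ ^ (1 / p)).toReal) *
        (∫⁻ z : E d, ‖K0 ‖z‖‖ₑ ^ p) ^ (1 / p) * (∫⁻ x : E d, ‖f x‖ₑ ^ p) ^ (1 / p) := by
        rw [ENNReal.mul_rpow_of_nonneg _ _ (by positivity),
          ENNReal.mul_rpow_of_nonneg _ _ (by positivity),
          ENNReal.ofReal_mul (by positivity), ENNReal.ofReal_mul hc.le,
          ENNReal.ofReal_toReal hKt]
        ring
    _ ≤ _ := by
        gcongr
        linarith

end Pool.LibTP53
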