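import Pool.Agent.LibTP53.HG
import Pool.Agent.LibTP53.MA
import Pool.Agent.LibTP53.MB

/-
PLAN (MC). exists_eta, mult_mainP, kernel_facts; conversion to the notation of Mathlib: Real.fourierInv_eq' and Real.fourier_eq' (see fourierInv_ex, fourier_ex in LibSR53.K1):
F^-1 g x = int ex x xi g xi (funext), F f xi = int ex (-y) xi f y.
-/

set_option autoImplicit false

noncomputable section

open MeasureTheory Metric Set Filter

namespace Pool.LibTP53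

open Pool.LibSR53

open scoped FourierTransform in
private theorem MC_inv {d : ℕ} (g : E d → ℂ) : 𝓕⁻ g = fun x => ∫ ξ, ex x ξ * g ξ := by
  funext x
  rw [Real.fourierInv_eq']
  refine integral_congr_ae (Eventually.of_forall fun ξ => ?_)
  simp only [ex, smul_eq_mul]
  rw [real_inner_comm]
  congr 2
  push_cast
  ring

open scoped FourierTransform in
private theorem MC_fwd {d : ℕ} (f : E d → ℂ) : 𝓕 f = fun ξ => ∫ y, ex (-y) ξ * f y := by
  funext ξ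
  rw [Real.fourier_eq']
  refine integral_congr_ae (Eventually.of_forall fun w => ?_)
  simp only [ex, smul_eq_mul, inner_neg_left]
  congr 2
  push_cast
  ring

open scoped FourierTransform in
/-- radial Fourier multipliers supported in an annulus -/
theorem radial_multipliers (d : ℕ) (hd : 4 ≤ d) (p : ℝ) (hp1 : 1 < p)
    (hp2 : p < 2 * ((d : ℝ) + 1) / ((d : ℝ) + 3)) (ε A : ℝ) (hε : 0 < ε) :
    ∃ C : ℝ, 0 < C ∧ ∀ m : E d → ℂ, Measurable m → (∃ B : ℝ, ∀ ξ, ‖m ξ‖ ≤ B) →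
      (∀ ξ ξ' : E d, ‖ξ‖ = ‖ξ'‖ → m ξ = m ξ') →
      (∀ ξ, m ξ ≠ 0 → ε ≤ ‖ξ‖ ∧ ‖ξ‖ ≤ A) →
      (∀ f : SchwartzMap (E d) ℂ,
        eLpNorm (𝓕⁻ (fun ξ => m ξ * 𝓕 (f : E d → ℂ) ξ)) (ENNReal.ofReal p) volume ≤
          ENNReal.ofReal C * eLpNorm (𝓕⁻ m) (ENNReal.ofReal p) volume *
            eLpNorm f (ENNReal.ofReal p) volume) ∧
      (∀ B : ENNReal, (∀ f : SchwartzMap (E d) ℂ,
        eLpNorm (𝓕⁻ (fun ξ => m ξ * 𝓕 (f : E d → ℂ) ξ)) (ENNReal.ofReal p) volume ≤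
          B * eLpNorm f (ENNReal.ofReal p) volume) →
        eLpNorm (𝓕⁻ m) (ENNReal.ofReal p) volume ≤ ENNReal.ofReal C * B) := by
  obtain ⟨η, hη, hη1⟩ := exists_eta d ε A hε
  obtain ⟨C, hC, h⟩ := mult_mainP d hd p hp1 hp2 η hη
  refine ⟨C, hC, fun m hm hmb hrad hsupp => ?_⟩
  obtain ⟨k1, k2, k3, k4, k5⟩ := kernel_facts d ε A η hη1 m hm hmb hrad hsupp
  obtain ⟨h1, h2⟩ := h (fun x => ∫ ξ, ex x ξ * m ξ) k1 k2 k3 k4
  have hmul : ∀ f : SchwartzMap (E d) ℂ, 𝓕⁻ (fun ξ => m ξ * 𝓕 (f : E d → ℂ) ξ) =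
      fun x => ∫ y, (∫ ξ, ex (x - y) ξ * m ξ) * f y := by
    intro f
    rw [MC_inv, MC_fwd]
    funext x
    exact (k5 f x).symm
  rw [MC_inv m]
  refine ⟨fun f => ?_, fun B hB => h2 B fun f => ?_⟩
  · rw [hmul f]
    exact h1 f (f.memLp _ _)
  · have h3 := hB f
    rw [hmul f] at h3
    exact h3

end Pool.LibTP53
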