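import Pool.Agent.LibTP53.Defs

/-
PLAN (NA). f' h + f h', f'' h + 2 f' h' + f h'' (as f'' h + f' h' + (f' h' + f h'')); norms <= 4 K K' g t.  Dd_mono: bigger constant.
-/

set_option autoImplicit false

noncomputable section

open MeasureTheory Metric Set Filter

namespace Pool.LibTP53

open Pool.LibSR53

/-- products -/
theorem Dd_mul {δ K K' : ℝ} {g : ℝ → ℝ} {f h : ℝ → ℂ} (hK : 0 ≤ K) (hK' : 0 ≤ K')
    (hg : ∀ t, 0 ≤ g t) (hf : Dd δ K g f) (hh : Dd δ K' (fun _ => 1) h) :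
    Dd δ (4 * K * K') g (fun t => f t * h t) := by
  obtain ⟨f1, f2, hf1, hf2, hfb⟩ := hf
  obtain ⟨h1, h2, hh1, hh2, hhb⟩ := hh
  refine ⟨fun t => f1 t * h t + f t * h1 t,
    fun t => (f2 t * h t + f1 t * h1 t) + (f1 t * h1 t + f t * h2 t),
    fun t ht => (hf1 t ht).fun_mul (hh1 t ht),
    fun t ht => ((hf2 t ht).fun_mul (hh1 t ht)).fun_add ((hf1 t ht).fun_mul (hh2 t ht)), ?_⟩
  intro t ht
  obtain ⟨a0, a1, a2⟩ := hfb t ht
  obtain ⟨b0, b1, b2⟩ := hhb t ht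
  rw [mul_one] at b0 b1 b2
  have hG : 0 ≤ K * g t := mul_nonneg hK (hg t)
  have key : ∀ a b : ℂ, ‖a‖ ≤ K * g t → ‖b‖ ≤ K' → ‖a * b‖ ≤ K * g t * K' := by
    intro a b ha hb
    rw [norm_mul]
    exact mul_le_mul ha hb (norm_nonneg _) hG
  have hP : 0 ≤ K * g t * K' := mul_nonneg hG hK'
  have e : 4 * K * K' * g t = 4 * (K * g t * K') := by ring
  rw [e]
  refine ⟨?_, ?_, ?_⟩
  · have := key _ _ a0 b0
    linarith
  · have u1 := key _ _ a1 b0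
    have u2 := key _ _ a0 b1
    have u3 := norm_add_le (f1 t * h t) (f t * h1 t)
    show ‖f1 t * h t + f t * h1 t‖ ≤ _
    linarith
  · have u1 := key _ _ a2 b0
    have u2 := key _ _ a1 b1
    have u3 := key _ _ a0 b2
    have u4 := norm_add_le (f2 t * h t + f1 t * h1 t) (f1 t * h1 t + f t * h2 t)
    have u5 := norm_add_le (f2 t * h t) (f1 t * h1 t)
    have u6 := norm_add_le (f1 t * h1 t) (f t * h2 t)
    show ‖(f2 t * h t + f1 t * h1 t) + (f1 t * h1 t + f t * h2 t)‖ ≤ _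
    linarith

theorem Dd_mono {δ K K' : ℝ} {g : ℝ → ℝ} {f : ℝ → ℂ} (hK : K ≤ K') (hg : ∀ t, 0 ≤ g t)
    (hf : Dd δ K g f) : Dd δ K' g f := by
  obtain ⟨f1, f2, hf1, hf2, hfb⟩ := hf
  refine ⟨f1, f2, hf1, hf2, fun t ht => ?_⟩
  obtain ⟨a0, a1, a2⟩ := hfb t ht
  have h := mul_le_mul_of_nonneg_right hK (hg t)
  exact ⟨a0.trans h, a1.trans h, a2.trans h⟩

end Pool.LibTP53
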