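import Pool.Agent.LibTP53.Defs

/-
PLAN (NB). f vanishes on (-inf, delta], so f is differentiable on the whole line, F1 = deriv f is f1 on t > 0 and 0 on t <= delta (at t = delta the derivative exists and the left difference
quotients are 0; uniqueness), F1 is differentiable everywhere, F2 = deriv F1 is f2 on t > 0 and 0 for t <= delta. f, F1, F2 are bounded by K/(1+t^2): integrable
(integrable_inv_one_add_sq; measurability of F2: measurable_deriv / AEStronglyMeasurable of a derivative). Real.fourierIntegral_deriv (or VectorFourier / integral_mul_deriv ...) twice: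
the integral of F2 e(st) is (-2 pi i s)^2 times the integral of f e(st). So 4 pi^2 s^2 |I| <= K pi and |I| <= K pi, hence (1+|s|)^2 |I| <= 2 (1+s^2) |I| <= C K.
The integral over Ioi 0 equals the integral over the line (f = 0 on t <= 0).
-/

set_option autoImplicit false

noncomputable section

open MeasureTheory Metric Set Filter

namespace Pool.LibTP53

open Pool.LibSR53

/-- uniqueness of the derivative from the left -/
private theorem NB_left_zero {g : ℝ → ℂ} {d : ℂ} {a t : ℝ} (hat : a < t) (hg : HasDerivAt g d t)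
    (h0 : ∀ x : ℝ, a < x → x ≤ t → g x = 0) : d = 0 := by
  have h1 : HasDerivWithinAt g d (Iic t) t := hg.hasDerivWithinAt
  have h2 : HasDerivWithinAt g (0 : ℂ) (Iic t) t := by
    have hc : HasDerivWithinAt (fun _ : ℝ => (0 : ℂ)) (0 : ℂ) (Iic t) t :=
      hasDerivWithinAt_const t (Iic t) (0 : ℂ)
    refine hc.congr_of_eventuallyEq ?_ (h0 t hat le_rfl)
    have hm : Ioc a t ∈ nhdsWithin t (Iic t) := Ioc_mem_nhdsLE hat
    filter_upwards [hm] with x hx
    exact h0 x hx.1 hx.2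
  have hu : UniqueDiffWithinAt ℝ (Iic t) t := (uniqueDiffOn_Iic t) t self_mem_Iic
  exact hu.eq_deriv (Iic t) h1 h2

/-- two integrations by parts -/
theorem osc : ∃ C : ℝ, 0 < C ∧ ∀ (δ K : ℝ) (f : ℝ → ℂ), 0 < δ → 0 ≤ K →
    Dd δ K (fun t => 1 / (1 + t ^ 2)) f → (∀ t : ℝ, t ≤ δ → f t = 0) → ∀ s : ℝ,
    ‖∫ t in Ioi (0 : ℝ), f t * Complex.exp (2 * (Real.pi : ℂ) * Complex.I * ((s * t : ℝ) : ℂ))‖ ≤
      C * K / (1 + |s|) ^ 2 := by
  refine ⟨2 * Real.pi + 1, by positivity, ?_⟩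
  intro δ K f hδ hK hD hf0 s
  obtain ⟨f1, f2, hd1, hd2, hb⟩ := hD
  have hz1 : ∀ t : ℝ, 0 < t → t ≤ δ → f1 t = 0 := by
    intro t ht htd
    exact NB_left_zero (a := 0) ht (hd1 t ht) (fun x _ hx => hf0 x (le_trans hx htd))
  have hz2 : ∀ t : ℝ, 0 < t → t ≤ δ → f2 t = 0 := by
    intro t ht htd
    exact NB_left_zero (a := 0) ht (hd2 t ht) (fun x hx0 hx => hz1 x hx0 (le_trans hx htd))
  set F1 : ℝ → ℂ := fun t => if 0 < t then f1 t else 0 with hF1
  set F2 : ℝ → ℂ := fun t => if 0 < t then f2 t else 0 with hF2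
  have hF1pos : ∀ t : ℝ, 0 < t → F1 t = f1 t := fun t ht => by simp only [hF1, if_pos ht]
  have hF2pos : ∀ t : ℝ, 0 < t → F2 t = f2 t := fun t ht => by simp only [hF2, if_pos ht]
  have hF1z : ∀ t : ℝ, t ≤ δ → F1 t = 0 := by
    intro t ht
    by_cases h : 0 < t
    · rw [hF1pos t h, hz1 t h ht]
    · simp only [hF1, if_neg h]
  have hF2z : ∀ t : ℝ, t ≤ δ → F2 t = 0 := by
    intro t ht
    by_cases h : 0 < t
    · rw [hF2pos t h, hz2 t h ht]
    · simp only [hF2, if_neg h]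
  have hder0 : ∀ (g : ℝ → ℂ) (t : ℝ), t < δ → (∀ x : ℝ, x ≤ δ → g x = 0) →
      HasDerivAt g 0 t := by
    intro g t ht hg
    refine (hasDerivAt_const t (0 : ℂ)).congr_of_eventuallyEq ?_
    filter_upwards [Iio_mem_nhds ht] with x hx
    exact hg x (le_of_lt hx)
  have hA : ∀ t : ℝ, HasDerivAt f (F1 t) t := by
    intro t
    by_cases h : 0 < t
    · rw [hF1pos t h]; exact hd1 t h
    · have ht : t < δ := lt_of_le_of_lt (not_lt.mp h) hδ
      rw [hF1z t ht.le]
      exact hder0 f t ht hf0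
  have hB : ∀ t : ℝ, HasDerivAt F1 (F2 t) t := by
    intro t
    by_cases h : 0 < t
    · rw [hF2pos t h]
      refine (hd2 t h).congr_of_eventuallyEq ?_
      filter_upwards [Ioi_mem_nhds h] with x hx
      exact hF1pos x hx
    · have ht : t < δ := lt_of_le_of_lt (not_lt.mp h) hδ
      rw [hF2z t ht.le]
      exact hder0 F1 t ht hF1z
  have hpos : ∀ t : ℝ, 0 < 1 + t ^ 2 := fun t => by positivity
  have hbf : ∀ t : ℝ, ‖f t‖ ≤ K * (1 + t ^ 2)⁻¹ := by
    intro t
    rcases le_or_gt δ t with h | h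
    · have h' : ‖f t‖ ≤ K * (1 / (1 + t ^ 2)) := (hb t h).1
      rwa [one_div] at h'
    · rw [hf0 t h.le, norm_zero]
      exact mul_nonneg hK (inv_nonneg.mpr (hpos t).le)
  have hb1 : ∀ t : ℝ, ‖F1 t‖ ≤ K * (1 + t ^ 2)⁻¹ := by
    intro t
    rcases le_or_gt δ t with h | h
    · have h' : ‖f1 t‖ ≤ K * (1 / (1 + t ^ 2)) := (hb t h).2.1
      rw [hF1pos t (lt_of_lt_of_le hδ h)]
      rwa [one_div] at h'
    · rw [hF1z t h.le, norm_zero]
      exact mul_nonneg hK (inv_nonneg.mpr (hpos t).le)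
  have hb2 : ∀ t : ℝ, ‖F2 t‖ ≤ K * (1 + t ^ 2)⁻¹ := by
    intro t
    rcases le_or_gt δ t with h | h
    · have h' : ‖f2 t‖ ≤ K * (1 / (1 + t ^ 2)) := (hb t h).2.2
      rw [hF2pos t (lt_of_lt_of_le hδ h)]
      rwa [one_div] at h'
    · rw [hF2z t h.le, norm_zero]
      exact mul_nonneg hK (inv_nonneg.mpr (hpos t).le)
  have hKi : Integrable (fun t : ℝ => K * (1 + t ^ 2)⁻¹) := integrable_inv_one_add_sq.const_mul K
  have hfc : Continuous f := continuous_iff_continuousAt.mpr fun t => (hA t).continuousAt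
  have hF1c : Continuous F1 := continuous_iff_continuousAt.mpr fun t => (hB t).continuousAt
  have hfi : Integrable f := hKi.mono' hfc.aestronglyMeasurable (ae_of_all _ hbf)
  have hF1i : Integrable F1 := hKi.mono' hF1c.aestronglyMeasurable (ae_of_all _ hb1)
  have hF2m : AEStronglyMeasurable F2 volume := by
    have : F2 = deriv F1 := funext fun t => (hB t).deriv.symm
    rw [this]
    exact (stronglyMeasurable_deriv F1).aestronglyMeasurable
  have hF2i : Integrable F2 := hKi.mono' hF2m (ae_of_all _ hb2)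
  -- the exponential
  set c : ℂ := 2 * (Real.pi : ℂ) * Complex.I * (s : ℂ) with hc
  set e : ℝ → ℂ := fun t =>
    Complex.exp (2 * (Real.pi : ℂ) * Complex.I * ((s * t : ℝ) : ℂ)) with he
  have hee : ∀ t : ℝ, e t = Complex.exp (c * (t : ℂ)) := by
    intro t
    simp only [he, hc]
    congr 1
    push_cast
    ring
  have hed : ∀ t : ℝ, HasDerivAt e (c * e t) t := by
    intro t
    have h1 : HasDerivAt (fun x : ℝ => Complex.exp (c * (x : ℂ)))
        (Complex.exp (c * (t : ℂ)) * (c * 1)) t :=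
      (((hasDerivAt_id (t : ℂ)).comp_ofReal).const_mul c).cexp
    have h2 : e = fun x : ℝ => Complex.exp (c * (x : ℂ)) := funext hee
    rw [h2]
    convert h1 using 1
    ring
  have hen : ∀ t : ℝ, ‖e t‖ = 1 := by
    intro t
    have : 2 * (Real.pi : ℂ) * Complex.I * ((s * t : ℝ) : ℂ) =
        ((2 * Real.pi * (s * t) : ℝ) : ℂ) * Complex.I := by
      push_cast; ring
    simp only [he]
    rw [this, Complex.norm_exp_ofReal_mul_I]
  have hec : Continuous e := continuous_iff_continuousAt.mpr fun t => (hed t).continuousAt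
  have hie : ∀ g : ℝ → ℂ, Integrable g → Integrable (g * e) := by
    intro g hg
    refine hg.norm.mono' (hg.aestronglyMeasurable.mul hec.aestronglyMeasurable) ?_
    refine ae_of_all _ fun t => ?_
    rw [Pi.mul_apply, norm_mul, hen t, mul_one]
  have hibp : ∀ g g' : ℝ → ℂ, (∀ t : ℝ, HasDerivAt g (g' t) t) → Integrable g → Integrable g' →
      c * ∫ t : ℝ, g t * e t = - ∫ t : ℝ, g' t * e t := by
    intro g g' hg hgi hg'i
    have hce : Integrable (g * fun t => c * e t) := by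
      have h3 : (g * fun t => c * e t) = fun t => c * (g * e) t := by
        funext t
        simp only [Pi.mul_apply]
        ring
      rw [h3]
      exact (hie g hgi).const_mul c
    have h4 := integral_mul_deriv_eq_deriv_mul_of_integrable (u := g) (v := e) (u' := g')
      (v' := fun t => c * e t) (fun x _ => hg x) (fun x _ => hed x) hce (hie g' hg'i) (hie g hgi)
    rw [← h4, ← integral_const_mul]
    congr 1
    funext t
    ring
  set I : ℂ := ∫ t : ℝ, f t * e t with hI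
  have hset : ∫ t in Ioi (0 : ℝ), f t *
      Complex.exp (2 * (Real.pi : ℂ) * Complex.I * ((s * t : ℝ) : ℂ)) = I := by
    rw [hI]
    refine setIntegral_eq_integral_of_forall_compl_eq_zero fun t ht => ?_
    have ht0 : t ≤ 0 := not_lt.mp ht
    rw [hf0 t (le_trans ht0 hδ.le), zero_mul]
  rw [hset]
  have hnb : ∀ g : ℝ → ℂ, (∀ t : ℝ, ‖g t‖ ≤ K * (1 + t ^ 2)⁻¹) →
      ‖∫ t : ℝ, g t * e t‖ ≤ K * Real.pi := by
    intro g hg
    have h5 : ‖∫ t : ℝ, g t * e t‖ ≤ ∫ t : ℝ, K * (1 + t ^ 2)⁻¹ := by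
      refine norm_integral_le_of_norm_le hKi (ae_of_all _ fun t => ?_)
      rw [norm_mul, hen t, mul_one]
      exact hg t
    rwa [integral_const_mul, integral_univ_inv_one_add_sq] at h5
  have h6 : c * (c * I) = ∫ t : ℝ, F2 t * e t := by
    have h7 := hibp f F1 hA hfi hF1i
    have h8 := hibp F1 F2 hB hF1i hF2i
    rw [← hI] at h7
    rw [h7, mul_neg, h8, neg_neg]
  have hcn : ‖c‖ = 2 * Real.pi * |s| := by
    simp only [hc, norm_mul, Complex.norm_I, mul_one, Complex.norm_real, Real.norm_eq_abs,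
      abs_of_pos Real.pi_pos]
    norm_num
  have h9 : (2 * Real.pi * |s|) ^ 2 * ‖I‖ ≤ K * Real.pi := by
    have h10 := hnb F2 hb2
    rw [← h6, norm_mul c, norm_mul c, hcn] at h10
    calc (2 * Real.pi * |s|) ^ 2 * ‖I‖ = 2 * Real.pi * |s| * (2 * Real.pi * |s| * ‖I‖) := by ring
      _ ≤ _ := h10
  have h11 : ‖I‖ ≤ K * Real.pi := hnb f hbf
  have hp3 : (3 : ℝ) < Real.pi := Real.pi_gt_three
  have hI0 : 0 ≤ ‖I‖ := norm_nonneg I
  rw [le_div_iff₀ (by positivity)]
  have h12 : |s| ^ 2 * ‖I‖ * 36 ≤ K * Real.pi := by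
    have h13 : (36 : ℝ) ≤ (2 * Real.pi) ^ 2 := by nlinarith
    have h14 : 0 ≤ |s| ^ 2 * ‖I‖ := by positivity
    calc |s| ^ 2 * ‖I‖ * 36 ≤ |s| ^ 2 * ‖I‖ * (2 * Real.pi) ^ 2 :=
          mul_le_mul_of_nonneg_left h13 h14
      _ = (2 * Real.pi * |s|) ^ 2 * ‖I‖ := by ring
      _ ≤ _ := h9
  have h15 : ‖I‖ * (1 + |s|) ^ 2 ≤ 2 * ‖I‖ + 2 * (|s| ^ 2 * ‖I‖) := by
    nlinarith [mul_nonneg hI0 (sq_nonneg (1 - |s|))]
  have h16 : Real.pi < 4 := by linarith [Real.pi_lt_d2]
  have h17 : 2 * (|s| ^ 2 * ‖I‖) ≤ K := by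
    have : K * Real.pi ≤ K * 4 := mul_le_mul_of_nonneg_left h16.le hK
    linarith
  calc ‖I‖ * (1 + |s|) ^ 2 ≤ 2 * ‖I‖ + 2 * (|s| ^ 2 * ‖I‖) := h15
    _ ≤ 2 * (K * Real.pi) + K := by linarith
    _ = (2 * Real.pi + 1) * K := by ring

end Pool.LibTP53
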