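import Pool.Agent.LibTP53.Defs
import Pool.Agent.LibSR53.S4

/-
PLAN (NC). u = t^nu J, u1 = nu t^(nu-1) J + t^nu J1 (derivative of u), and u1' = (c/t^2 - 1) u with c = nu(nu-1) (see the proof of ode_decay in LibSR53.S4, where du, du1 and the energy bound
Q = u^2 + u1^2 <= const on [1,inf) are proved: copy; on [delta,1] Q is continuous, so Q is bounded on [delta,inf)). For the sign s = sgb: alpha = (u - i s u1) e^(-i s t)/2,
alpha1 = -(i s/2)(c/t^2) u e^(-i s t), alpha2 = -(i s c/2)(-2 t^(-3) u + t^(-2) u1 - i s t^(-2) u) e^(-i s t) (use s^2 = 1). Identity: alpha_+ e^(it) + alpha_- e^(-it) = u, J = t^(-nu) u.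
-/

set_option autoImplicit false

noncomputable section

open MeasureTheory Metric Set Filter

namespace Pool.LibTP53

open Pool.LibSR53

private theorem NC_energy (ν : ℝ) (J J1 J2 : ℝ → ℝ) (h1 : ∀ t, HasDerivAt J (J1 t) t)
    (h2 : ∀ t, HasDerivAt J1 (J2 t) t) (h : ∀ t, t * J2 t + 2 * ν * J1 t + t * J t = 0)
    (δ : ℝ) (hδ : 0 < δ) : ∃ (S : ℝ) (u u1 : ℝ → ℝ), 0 ≤ S ∧
      (∀ t, 0 < t → HasDerivAt u (u1 t) t) ∧
      (∀ t, 0 < t → HasDerivAt u1 ((ν * (ν - 1) / t ^ 2 - 1) * u t) t) ∧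
      (∀ t, δ ≤ t → |u t| ≤ S ∧ |u1 t| ≤ S) ∧
      ∀ t, 0 < t → J t = t ^ (-ν) * u t := by
  set u : ℝ → ℝ := fun t => t ^ ν * J t with hu
  set u1 : ℝ → ℝ := fun t => ν * t ^ (ν - 1) * J t + t ^ ν * J1 t with hu1
  set c : ℝ := |ν * (ν - 1)| with hc
  have du : ∀ t : ℝ, 0 < t → HasDerivAt u (u1 t) t := by
    intro t ht
    have h3 := (Real.hasDerivAt_rpow_const (x := t) (p := ν) (Or.inl ht.ne')).mul (h1 t)
    exact h3
  have du1 : ∀ t : ℝ, 0 < t → HasDerivAt u1 ((ν * (ν - 1) / t ^ 2 - 1) * u t) t := by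
    intro t ht
    have h3 := ((Real.hasDerivAt_rpow_const (x := t) (p := ν - 1) (Or.inl ht.ne')).const_mul ν).mul
      (h1 t)
    have h4 := (Real.hasDerivAt_rpow_const (x := t) (p := ν) (Or.inl ht.ne')).mul (h2 t)
    have h5 := h3.add h4
    have e1 : t ^ (ν - 1) = t ^ ν / t := Real.rpow_sub_one ht.ne' ν
    have e2 : t ^ (ν - 1 - 1) = t ^ ν / t / t := by
      rw [Real.rpow_sub_one ht.ne', e1]
    have e3 : J2 t = -(2 * ν * J1 t) / t - J t := by
      have := h t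
      field_simp
      linarith
    have e4 : ν * ((ν - 1) * t ^ (ν - 1 - 1)) * J t + ν * t ^ (ν - 1) * J1 t +
        (ν * t ^ (ν - 1) * J1 t + t ^ ν * J2 t) = (ν * (ν - 1) / t ^ 2 - 1) * u t := by
      rw [e2, e1, e3, hu]
      field_simp
      ring
    rw [← e4]
    exact h5
  set W : ℝ → ℝ := fun t => (u t ^ 2 + u1 t ^ 2) * Real.exp (c / t) with hW
  have dW : ∀ t : ℝ, 0 < t → HasDerivAt W
      ((2 * u t * u1 t + 2 * u1 t * ((ν * (ν - 1) / t ^ 2 - 1) * u t)) * Real.exp (c / t) +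
        (u t ^ 2 + u1 t ^ 2) * (Real.exp (c / t) * (-c / t ^ 2))) t := by
    intro t ht
    have h3 := ((du t ht).pow 2).add ((du1 t ht).pow 2)
    have h4 : HasDerivAt (fun t : ℝ => c / t) (-c / t ^ 2) t := by
      have h5 := (hasDerivAt_inv ht.ne').const_mul c
      have e : (fun t : ℝ => c / t) = fun y => c * y⁻¹ := by
        ext y
        rw [div_eq_mul_inv]
      rw [e]
      refine h5.congr_deriv ?_
      rw [mul_neg, neg_div, div_eq_mul_inv]
    have h5 := h3.mul h4.exp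
    refine h5.congr_deriv ?_
    simp only [Nat.cast_ofNat, Nat.reduceSub, pow_one, Pi.add_apply, Pi.pow_apply]
  have hWneg : ∀ t : ℝ, 0 < t →
      (2 * u t * u1 t + 2 * u1 t * ((ν * (ν - 1) / t ^ 2 - 1) * u t)) * Real.exp (c / t) +
        (u t ^ 2 + u1 t ^ 2) * (Real.exp (c / t) * (-c / t ^ 2)) ≤ 0 := by
    intro t ht
    have e : (2 * u t * u1 t + 2 * u1 t * ((ν * (ν - 1) / t ^ 2 - 1) * u t)) * Real.exp (c / t) +
        (u t ^ 2 + u1 t ^ 2) * (Real.exp (c / t) * (-c / t ^ 2)) =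
        (2 * (ν * (ν - 1)) * (u t * u1 t) - c * (u t ^ 2 + u1 t ^ 2)) / t ^ 2 *
          Real.exp (c / t) := by
      field_simp
      ring
    rw [e]
    have h3 : 2 * (ν * (ν - 1)) * (u t * u1 t) ≤ c * (u t ^ 2 + u1 t ^ 2) := by
      have h4 : 2 * (ν * (ν - 1)) * (u t * u1 t) ≤ |2 * (ν * (ν - 1)) * (u t * u1 t)| := le_abs_self _
      have h5 : |2 * (ν * (ν - 1)) * (u t * u1 t)| = c * (2 * |u t * u1 t|) := by
        rw [abs_mul, abs_mul, hc]
        norm_num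
        ring
      have h6 : 2 * |u t * u1 t| ≤ u t ^ 2 + u1 t ^ 2 := by
        rw [abs_mul]
        have := two_mul_le_add_sq |u t| |u1 t|
        rw [sq_abs, sq_abs] at this
        linarith
      have h7 : c * (2 * |u t * u1 t|) ≤ c * (u t ^ 2 + u1 t ^ 2) :=
        mul_le_mul_of_nonneg_left h6 (abs_nonneg _)
      linarith
    have h8 : (2 * (ν * (ν - 1)) * (u t * u1 t) - c * (u t ^ 2 + u1 t ^ 2)) / t ^ 2 ≤ 0 :=
      div_nonpos_of_nonpos_of_nonneg (by linarith) (sq_nonneg t)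
    exact mul_nonpos_of_nonpos_of_nonneg h8 (Real.exp_pos _).le
  have hanti : AntitoneOn W (Ici δ) := by
    refine antitoneOn_of_deriv_nonpos (convex_Ici δ) ?_ ?_ ?_
    · intro t ht
      exact (dW t (lt_of_lt_of_le hδ ht)).continuousAt.continuousWithinAt
    · intro t ht
      rw [interior_Ici] at ht
      exact (dW t (lt_trans hδ ht)).differentiableAt.differentiableWithinAt
    · intro t ht
      rw [interior_Ici] at ht
      rw [(dW t (lt_trans hδ ht)).deriv]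
      exact hWneg t (lt_trans hδ ht)
  refine ⟨Real.sqrt (W δ), u, u1, Real.sqrt_nonneg _, du, du1, fun t ht => ?_, fun t ht => ?_⟩
  · have ht0 : 0 < t := lt_of_lt_of_le hδ ht
    have h3 : W t ≤ W δ := hanti (mem_Ici.2 le_rfl) (mem_Ici.2 ht) ht
    have h4 : 1 ≤ Real.exp (c / t) :=
      Real.one_le_exp (div_nonneg (abs_nonneg _) ht0.le)
    have h5 : u t ^ 2 + u1 t ^ 2 ≤ W t :=
      le_mul_of_one_le_right (by positivity) h4
    have h7 : 0 ≤ u1 t ^ 2 := sq_nonneg _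
    have h8 : 0 ≤ u t ^ 2 := sq_nonneg _
    exact ⟨Real.abs_le_sqrt (by linarith), Real.abs_le_sqrt (by linarith)⟩
  · have h3 : t ^ (-ν) * t ^ ν = 1 := by
      rw [← Real.rpow_add ht, neg_add_cancel, Real.rpow_zero]
    rw [hu]
    simp only
    rw [← mul_assoc, h3, one_mul]

private theorem NC_sgb_sq (s : Bool) : ((sgb s : ℝ) : ℂ) ^ 2 = 1 := by
  cases s <;> simp [sgb]

private theorem NC_sgb_norm (s : Bool) : ‖((sgb s : ℝ) : ℂ)‖ = 1 := by
  cases s <;> simp [sgb]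

private theorem NC_exp_norm (s : Bool) (t : ℝ) :
    ‖Complex.exp (-(((sgb s * t : ℝ) : ℂ) * Complex.I))‖ = 1 := by
  have : -(((sgb s * t : ℝ) : ℂ) * Complex.I) = ((-(sgb s * t) : ℝ) : ℂ) * Complex.I := by
    push_cast
    ring
  rw [this, Complex.norm_exp_ofReal_mul_I]

private theorem NC_exp_deriv (s : Bool) (t : ℝ) :
    HasDerivAt (fun t : ℝ => Complex.exp (-(((sgb s * t : ℝ) : ℂ) * Complex.I)))
      (-(((sgb s : ℝ) : ℂ) * Complex.I) * Complex.exp (-(((sgb s * t : ℝ) : ℂ) * Complex.I))) t := by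
  have h1 : HasDerivAt (fun t : ℝ => -(((sgb s * t : ℝ) : ℂ) * Complex.I))
      (-(((sgb s : ℝ) : ℂ) * Complex.I)) t := by
    have h2 : HasDerivAt (fun t : ℝ => sgb s * t) (sgb s) t := by
      simpa using (hasDerivAt_id t).const_mul (sgb s)
    exact (h2.ofReal_comp.mul_const Complex.I).neg
  have h3 := h1.cexp
  refine h3.congr_deriv ?_
  ring

/-- amplitude of the solutions of a Bessel equation -/
theorem amplitude (ν : ℝ) (J J1 J2 : ℝ → ℝ) (h1 : ∀ t, HasDerivAt J (J1 t) t)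
    (h2 : ∀ t, HasDerivAt J1 (J2 t) t) (h : ∀ t, t * J2 t + 2 * ν * J1 t + t * J t = 0)
    (δ : ℝ) (hδ : 0 < δ) : ∃ (C : ℝ) (α α1 α2 : Bool → ℝ → ℂ), 0 < C ∧
      (∀ s t, 0 < t → HasDerivAt (α s) (α1 s t) t) ∧
      (∀ s t, 0 < t → HasDerivAt (α1 s) (α2 s t) t) ∧
      (∀ s t, δ ≤ t → ‖α s t‖ ≤ C ∧ ‖α1 s t‖ ≤ C / t ^ 2 ∧ ‖α2 s t‖ ≤ C / t ^ 2) ∧
      ∀ t, 0 < t → ((J t : ℝ) : ℂ) = ((t ^ (-ν) : ℝ) : ℂ) *
        ∑ s : Bool, α s t * Complex.exp (((sgb s * t : ℝ) : ℂ) * Complex.I) := by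
  obtain ⟨S, u, u1, hS, du, du1, hb, hJ⟩ := NC_energy ν J J1 J2 h1 h2 h δ hδ
  set c : ℝ := ν * (ν - 1) with hc
  have hδi : 0 < 1 / δ := by positivity
  refine ⟨S * (1 + |c| + |c| * (1 / δ + 1)) + 1,
    fun s t => ((u t : ℝ) - Complex.I * (sgb s : ℝ) * (u1 t : ℝ)) *
      Complex.exp (-(((sgb s * t : ℝ) : ℂ) * Complex.I)) / 2,
    fun s t => -(Complex.I * (sgb s : ℝ) / 2) * ((c / t ^ 2 * u t : ℝ) : ℂ) *
      Complex.exp (-(((sgb s * t : ℝ) : ℂ) * Complex.I)),
    fun s t => -(Complex.I * (sgb s : ℝ) / 2) * (((c * (-2 / t ^ 3 * u t + 1 / t ^ 2 * u1 t) : ℝ) : ℂ) -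
      Complex.I * (sgb s : ℝ) * ((c / t ^ 2 * u t : ℝ) : ℂ)) *
      Complex.exp (-(((sgb s * t : ℝ) : ℂ) * Complex.I)), by positivity, ?_, ?_, ?_, ?_⟩
  · intro s t ht
    have h3 := (((du t ht).ofReal_comp).sub
      (((du1 t ht).ofReal_comp).const_mul (Complex.I * (sgb s : ℝ)))).mul (NC_exp_deriv s t)
    have h4 := h3.div_const 2
    refine h4.congr_deriv ?_
    have h5 : (Complex.I * ((sgb s : ℝ) : ℂ)) ^ 2 = -1 := by
      rw [mul_pow, NC_sgb_sq, Complex.I_sq, mul_one]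
    simp only [Pi.sub_apply]
    push_cast
    linear_combination ((u1 t : ℂ) * Complex.exp (-((sgb s : ℂ) * (t : ℂ) * Complex.I)) / 2) * h5
  · intro s t ht
    have h3 : HasDerivAt (fun t : ℝ => c / t ^ 2 * u t)
        (c * (-2 / t ^ 3 * u t + 1 / t ^ 2 * u1 t)) t := by
      have h4 : HasDerivAt (fun t : ℝ => c / t ^ 2) (c * (-2 / t ^ 3)) t := by
        have h5 : HasDerivAt (fun t : ℝ => (t ^ 2)⁻¹) (-(2 * t) / (t ^ 2) ^ 2) t := by
          have h6 := (hasDerivAt_pow 2 t).fun_inv (pow_ne_zero 2 ht.ne')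
          simpa using h6
        have h7 := h5.const_mul c
        have e : (fun t : ℝ => c / t ^ 2) = fun t => c * (t ^ 2)⁻¹ := by
          ext y
          rw [div_eq_mul_inv]
        rw [e]
        refine h7.congr_deriv ?_
        field_simp
      have h8 := h4.mul (du t ht)
      refine h8.congr_deriv ?_
      ring
    have h9 := ((h3.ofReal_comp).const_mul (-(Complex.I * ((sgb s : ℝ) : ℂ) / 2))).mul
      (NC_exp_deriv s t)
    refine h9.congr_deriv ?_
    push_cast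
    ring
  · intro s t ht
    have ht0 : 0 < t := lt_of_lt_of_le hδ ht
    obtain ⟨hb1, hb2⟩ := hb t ht
    have ht2 : 0 < t ^ 2 := by positivity
    have hc0 : 0 ≤ |c| := abs_nonneg c
    have hCS : 0 ≤ S * (1 + |c| + |c| * (1 / δ + 1)) := by positivity
    have n1 : ‖Complex.I * ((sgb s : ℝ) : ℂ)‖ = 1 := by
      rw [norm_mul, Complex.norm_I, NC_sgb_norm, one_mul]
    have n2 : ‖-(Complex.I * ((sgb s : ℝ) : ℂ) / 2)‖ = 1 / 2 := by
      rw [norm_neg, norm_div, n1]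
      norm_num
    have e1 : |c / t ^ 2 * u t| ≤ |c| * S / t ^ 2 := by
      rw [abs_mul, abs_div, abs_of_pos ht2, div_mul_eq_mul_div]
      exact div_le_div_of_nonneg_right (mul_le_mul_of_nonneg_left hb1 hc0) ht2.le
    refine ⟨?_, ?_, ?_⟩
    · rw [norm_div, norm_mul, NC_exp_norm, mul_one]
      have h3 : ‖((u t : ℝ) : ℂ) - Complex.I * ((sgb s : ℝ) : ℂ) * ((u1 t : ℝ) : ℂ)‖ ≤ S + S := by
        refine (norm_sub_le _ _).trans (add_le_add ?_ ?_)
        · rw [Complex.norm_real]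
          exact hb1
        · rw [norm_mul, n1, one_mul, Complex.norm_real]
          exact hb2
      have h4 : ‖(2 : ℂ)‖ = 2 := by norm_num
      rw [h4]
      have h5 : 0 ≤ S * (|c| + |c| * (1 / δ + 1)) := by positivity
      have h6 : ‖((u t : ℝ) : ℂ) - Complex.I * ((sgb s : ℝ) : ℂ) * ((u1 t : ℝ) : ℂ)‖ / 2 ≤ S := by
        linarith
      nlinarith
    · rw [norm_mul, NC_exp_norm, mul_one, norm_mul, n2, Complex.norm_real, Real.norm_eq_abs]
      rw [le_div_iff₀ ht2]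
      rw [le_div_iff₀ ht2] at e1
      have h5 : 0 ≤ S * (1 + |c| * (1 / δ + 1)) := by positivity
      have h6 : 0 ≤ |c| * S := by positivity
      nlinarith
    · rw [norm_mul, NC_exp_norm, mul_one, norm_mul, n2]
      have h3 : ‖((c * (-2 / t ^ 3 * u t + 1 / t ^ 2 * u1 t) : ℝ) : ℂ) -
          Complex.I * ((sgb s : ℝ) : ℂ) * ((c / t ^ 2 * u t : ℝ) : ℂ)‖ ≤
          |c| * (2 / δ * S + S) / t ^ 2 + |c| * S / t ^ 2 := by
        refine (norm_sub_le _ _).trans (add_le_add ?_ ?_)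
        · rw [Complex.norm_real, Real.norm_eq_abs]
          have h4 : c * (-2 / t ^ 3 * u t + 1 / t ^ 2 * u1 t) =
              c * (-(2 / t) * u t + u1 t) / t ^ 2 := by
            field_simp
          rw [h4, abs_div, abs_of_pos ht2, abs_mul]
          refine div_le_div_of_nonneg_right (mul_le_mul_of_nonneg_left ?_ hc0) ht2.le
          refine (abs_add_le _ _).trans (add_le_add ?_ hb2)
          rw [abs_mul, abs_neg, abs_of_pos (by positivity : (0 : ℝ) < 2 / t)]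
          refine mul_le_mul ?_ hb1 (abs_nonneg _) (by positivity)
          exact div_le_div_of_nonneg_left (by norm_num) hδ ht
        · rw [norm_mul, n1, one_mul, Complex.norm_real]
          exact e1
      have h4 : |c| * (2 / δ * S + S) / t ^ 2 + |c| * S / t ^ 2 =
          2 * (|c| * (1 / δ + 1) * S) / t ^ 2 := by
        field_simp
        ring
      rw [h4] at h3
      have h5 : 1 / 2 * (2 * (|c| * (1 / δ + 1) * S) / t ^ 2) = (|c| * (1 / δ + 1) * S) / t ^ 2 := by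
        ring
      calc _ ≤ 1 / 2 * (2 * (|c| * (1 / δ + 1) * S) / t ^ 2) := by
            exact mul_le_mul_of_nonneg_left h3 (by norm_num)
        _ = (|c| * (1 / δ + 1) * S) / t ^ 2 := h5
        _ ≤ _ := by
            refine div_le_div_of_nonneg_right ?_ ht2.le
            have h6 : 0 ≤ S * (1 + |c|) := by positivity
            nlinarith
  · intro t ht
    have h3 : ∀ s : Bool, ((u t : ℝ) - Complex.I * (sgb s : ℝ) * (u1 t : ℝ)) *
        Complex.exp (-(((sgb s * t : ℝ) : ℂ) * Complex.I)) / 2 *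
        Complex.exp (((sgb s * t : ℝ) : ℂ) * Complex.I) =
        ((u t : ℝ) - Complex.I * (sgb s : ℝ) * (u1 t : ℝ)) / 2 := by
      intro s
      have h4 : Complex.exp (-(((sgb s * t : ℝ) : ℂ) * Complex.I)) *
          Complex.exp (((sgb s * t : ℝ) : ℂ) * Complex.I) = 1 := by
        rw [← Complex.exp_add, neg_add_cancel, Complex.exp_zero]
      calc _ = ((u t : ℝ) - Complex.I * (sgb s : ℝ) * (u1 t : ℝ)) / 2 *
          (Complex.exp (-(((sgb s * t : ℝ) : ℂ) * Complex.I)) *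
          Complex.exp (((sgb s * t : ℝ) : ℂ) * Complex.I)) := by ring
        _ = _ := by rw [h4, mul_one]
    simp only [h3]
    rw [hJ t ht, Fintype.sum_bool]
    simp only [sgb, if_true, Bool.false_eq_true, if_false]
    push_cast
    ring

end Pool.LibTP53
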