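import Pool.Agent.LibTP53.NA
import Pool.Agent.LibTP53.NC

/-
PLAN (ND). rho >= 1: beta s t = (1+rho)^nu (2 pi rho t)^(-nu) alpha s (2 pi rho t) = ((1+rho)/(2 pi rho))^nu * t^(-nu) * alpha s (2 pi rho t); (1+rho)/(2 pi rho) <= 1. amplitude with delta' = 2 pi delta.
t^(-nu) has bounded value and two derivatives on t >= delta; alpha s (2 pi rho t): derivatives 2 pi rho alpha1, (2 pi rho)^2 alpha2, bounded by C/t^2 (rho >= 1). Products: Dd_mul (g = 1).
rho < 1: beta s t = (1+rho)^nu J(2 pi rho t) e^(-2 pi i s rho t)/2; J, J1, J2 bounded by B, all derivatives bounded since rho <= 1, (1+rho)^nu <= 2^nu.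
The sum over s of beta s e^(2 pi i s rho t) is then (1+rho)^nu J. One K for both cases (max; Dd_mono).
-/

set_option autoImplicit false

noncomputable section

open MeasureTheory Metric Set Filter

namespace Pool.LibTP53

open Pool.LibSR53

private theorem ND_const (δ : ℝ) (c : ℂ) (K : ℝ) (h : ‖c‖ ≤ K) : Dd δ K (fun _ => 1) (fun _ => c) := by
  have hK : 0 ≤ K := (norm_nonneg _).trans h
  refine ⟨fun _ => 0, fun _ => 0, fun t _ => hasDerivAt_const t c, fun t _ => hasDerivAt_const t 0, fun t _ => ?_⟩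
  simp only [norm_zero, mul_one]
  exact ⟨h, hK, hK⟩

private theorem ND_pow (ν δ : ℝ) (hν : 0 ≤ ν) (hδ : 0 < δ) :
    ∃ K : ℝ, 0 ≤ K ∧ Dd δ K (fun _ => 1) (fun t => ((t ^ (-ν) : ℝ) : ℂ)) := by
  have p0 : 0 ≤ δ ^ (-ν) := Real.rpow_nonneg hδ.le _
  have p1 : 0 ≤ ν * δ ^ (-ν - 1) := mul_nonneg hν (Real.rpow_nonneg hδ.le _)
  have p2 : 0 ≤ ν * ((ν + 1) * δ ^ (-ν - 1 - 1)) :=
    mul_nonneg hν (mul_nonneg (by linarith) (Real.rpow_nonneg hδ.le _))
  refine ⟨δ ^ (-ν) + ν * δ ^ (-ν - 1) + ν * ((ν + 1) * δ ^ (-ν - 1 - 1)), by positivity,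
    fun t => (((-ν) * t ^ (-ν - 1) : ℝ) : ℂ), fun t => (((-ν) * ((-ν - 1) * t ^ (-ν - 1 - 1)) : ℝ) : ℂ), ?_, ?_, ?_⟩
  · intro t ht
    exact (Real.hasDerivAt_rpow_const (Or.inl ht.ne')).ofReal_comp
  · intro t ht
    exact ((Real.hasDerivAt_rpow_const (Or.inl ht.ne')).const_mul (-ν)).ofReal_comp
  · intro t ht
    have ht0 : 0 < t := lt_of_lt_of_le hδ ht
    have q0 : t ^ (-ν) ≤ δ ^ (-ν) := Real.rpow_le_rpow_of_nonpos hδ ht (by linarith)
    have q1 : t ^ (-ν - 1) ≤ δ ^ (-ν - 1) := Real.rpow_le_rpow_of_nonpos hδ ht (by linarith)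
    have q2 : t ^ (-ν - 1 - 1) ≤ δ ^ (-ν - 1 - 1) := Real.rpow_le_rpow_of_nonpos hδ ht (by linarith)
    have r0 : 0 ≤ t ^ (-ν) := Real.rpow_nonneg ht0.le _
    have r1 : 0 ≤ t ^ (-ν - 1) := Real.rpow_nonneg ht0.le _
    have r2 : 0 ≤ t ^ (-ν - 1 - 1) := Real.rpow_nonneg ht0.le _
    simp only [mul_one]
    refine ⟨?_, ?_, ?_⟩
    · rw [Complex.norm_real, Real.norm_eq_abs, abs_of_nonneg r0]
      linarith
    · rw [Complex.norm_real, Real.norm_eq_abs, abs_mul, abs_neg, abs_of_nonneg hν, abs_of_nonneg r1]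
      have := mul_le_mul_of_nonneg_left q1 hν
      linarith
    · rw [Complex.norm_real, Real.norm_eq_abs, abs_mul, abs_mul, abs_neg, abs_of_nonneg hν, abs_of_nonneg r2,
        show |(-ν - 1 : ℝ)| = ν + 1 by rw [show (-ν - 1 : ℝ) = -(ν + 1) by ring, abs_neg, abs_of_nonneg (by linarith)]]
      have := mul_le_mul_of_nonneg_left (mul_le_mul_of_nonneg_left q2 (by linarith : (0:ℝ) ≤ ν + 1)) hν
      linarith

/-- scaling of a function -/
private theorem ND_scale {a δ K : ℝ} (ha : 0 < a) {f f1 f2 : ℝ → ℂ} (h1 : ∀ t, 0 < t → HasDerivAt f (f1 t) t)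
    (h2 : ∀ t, 0 < t → HasDerivAt f1 (f2 t) t)
    (hb : ∀ t, δ ≤ t → ‖f (a * t)‖ ≤ K ∧ a * ‖f1 (a * t)‖ ≤ K ∧ a ^ 2 * ‖f2 (a * t)‖ ≤ K) :
    Dd δ K (fun _ => 1) (fun t => f (a * t)) := by
  refine ⟨fun t => (a : ℂ) * f1 (a * t), fun t => (a : ℂ) * ((a : ℂ) * f2 (a * t)), ?_, ?_, ?_⟩
  · intro t ht
    have h3 : HasDerivAt (fun t : ℝ => a * t) a t := by simpa using (hasDerivAt_id t).const_mul a
    have h4 := (h1 (a * t) (mul_pos ha ht)).scomp t h3
    simpa [Function.comp_def, Complex.real_smul] using h4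
  · intro t ht
    have h3 : HasDerivAt (fun t : ℝ => a * t) a t := by simpa using (hasDerivAt_id t).const_mul a
    have h4 := ((h2 (a * t) (mul_pos ha ht)).scomp t h3).const_mul (a : ℂ)
    simpa [Function.comp_def, Complex.real_smul] using h4
  · intro t ht
    obtain ⟨b0, b1, b2⟩ := hb t ht
    simp only [mul_one, norm_mul, Complex.norm_real, Real.norm_eq_abs, abs_of_pos ha]
    exact ⟨b0, b1, by rw [← mul_assoc, ← pow_two]; exact b2⟩

private theorem ND_sgb (s : Bool) : |sgb s| = 1 := by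
  cases s <;> simp [sgb]

/-- the case of small scales -/
private theorem ND_small (ν : ℝ) (hν : 0 ≤ ν) (J J1 J2 : ℝ → ℝ) (h1 : ∀ t, HasDerivAt J (J1 t) t)
    (h2 : ∀ t, HasDerivAt J1 (J2 t) t)
    (B : ℝ) (hB : ∀ t, |J t| ≤ B ∧ |J1 t| ≤ B ∧ |J2 t| ≤ B) (δ : ℝ) :
    ∃ K : ℝ, 0 ≤ K ∧ ∀ ρ : ℝ, 0 ≤ ρ → ρ < 1 → ∃ β : Bool → ℝ → ℂ,
      (∀ s, Dd δ K (fun _ => 1) (β s)) ∧
      ∀ t : ℝ, 0 < t → ((J (2 * Real.pi * (ρ * t)) : ℝ) : ℂ) =
        (((1 + ρ) ^ (-ν) : ℝ) : ℂ) *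
        ∑ s : Bool, β s t * Complex.exp (2 * (Real.pi : ℂ) * Complex.I * ((sgb s * ρ * t : ℝ) : ℂ)) := by
  have hB0 : 0 ≤ B := (abs_nonneg _).trans (hB 0).1
  have hpi : 1 ≤ 2 * Real.pi := by linarith [Real.pi_gt_three]
  have hpi2 : 1 ≤ (2 * Real.pi) ^ 2 := one_le_pow₀ hpi
  have hpi3 : 2 * Real.pi ≤ (2 * Real.pi) ^ 2 := by nlinarith
  refine ⟨4 * (4 * (2 : ℝ) ^ ν * ((2 * Real.pi) ^ 2 * B)) * (2 * Real.pi) ^ 2, by positivity, ?_⟩
  intro ρ hρ0 hρ1
  refine ⟨fun s t => ((((1 + ρ) ^ ν / 2 : ℝ) : ℂ) * ((J (2 * Real.pi * ρ * t) : ℝ) : ℂ)) *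
    Complex.exp (-(2 * (Real.pi : ℂ) * Complex.I * ((sgb s * ρ * t : ℝ) : ℂ))), ?_, ?_⟩
  · intro s
    refine Dd_mul (δ := δ) (K := 4 * (2 : ℝ) ^ ν * ((2 * Real.pi) ^ 2 * B)) (K' := (2 * Real.pi) ^ 2)
      (by positivity) (by positivity) (fun _ => zero_le_one) ?_ ?_
    · refine Dd_mul (δ := δ) (K := (2 : ℝ) ^ ν) (K' := (2 * Real.pi) ^ 2 * B)
        (by positivity) (by positivity) (fun _ => zero_le_one) ?_ ?_
      · refine ND_const δ _ _ ?_
        have e1 : (1 + ρ) ^ ν ≤ 2 ^ ν := Real.rpow_le_rpow (by linarith) (by linarith) hν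
        have e0 : 0 ≤ (1 + ρ) ^ ν := Real.rpow_nonneg (by linarith) _
        rw [Complex.norm_real, Real.norm_eq_abs, abs_of_nonneg (by positivity)]
        linarith
      · refine ⟨fun t => ((2 * Real.pi * ρ * J1 (2 * Real.pi * ρ * t) : ℝ) : ℂ),
          fun t => ((2 * Real.pi * ρ * (2 * Real.pi * ρ * J2 (2 * Real.pi * ρ * t)) : ℝ) : ℂ), ?_, ?_, ?_⟩
        · intro t _
          have h3 : HasDerivAt (fun t : ℝ => 2 * Real.pi * ρ * t) (2 * Real.pi * ρ) t := by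
            simpa using (hasDerivAt_id t).const_mul (2 * Real.pi * ρ)
          have h4 := ((h1 (2 * Real.pi * ρ * t)).comp t h3).ofReal_comp
          rw [mul_comm (J1 _)] at h4
          exact h4
        · intro t _
          have h3 : HasDerivAt (fun t : ℝ => 2 * Real.pi * ρ * t) (2 * Real.pi * ρ) t := by
            simpa using (hasDerivAt_id t).const_mul (2 * Real.pi * ρ)
          have h5 := (h2 (2 * Real.pi * ρ * t)).comp t h3
          rw [mul_comm (J2 _)] at h5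
          exact (h5.const_mul (2 * Real.pi * ρ)).ofReal_comp
        · intro t _
          obtain ⟨b0, b1, b2⟩ := hB (2 * Real.pi * ρ * t)
          have hc0 : 0 ≤ 2 * Real.pi * ρ := by positivity
          have hc1 : 2 * Real.pi * ρ ≤ 2 * Real.pi := by nlinarith
          simp only [mul_one]
          rw [Complex.norm_real, Real.norm_eq_abs, Complex.norm_real, Real.norm_eq_abs, Complex.norm_real,
            Real.norm_eq_abs, abs_mul, abs_mul _ (2 * Real.pi * ρ * _), abs_mul _ (J2 _), abs_of_nonneg hc0]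
          refine ⟨?_, ?_, ?_⟩
          · nlinarith
          · calc 2 * Real.pi * ρ * |J1 (2 * Real.pi * ρ * t)| ≤ 2 * Real.pi * B :=
                mul_le_mul hc1 b1 (abs_nonneg _) (by positivity)
              _ ≤ _ := by nlinarith
          · calc 2 * Real.pi * ρ * (2 * Real.pi * ρ * |J2 (2 * Real.pi * ρ * t)|)
                ≤ 2 * Real.pi * (2 * Real.pi * B) := by
                  refine mul_le_mul hc1 ?_ (by positivity) (by positivity)
                  exact mul_le_mul hc1 b2 (abs_nonneg _) (by positivity)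
              _ = _ := by ring
    · -- the exponential
      set a : ℂ := -(2 * (Real.pi : ℂ) * Complex.I * ((sgb s * ρ : ℝ) : ℂ)) with ha
      have hfun : (fun t : ℝ => Complex.exp (-(2 * (Real.pi : ℂ) * Complex.I * ((sgb s * ρ * t : ℝ) : ℂ)))) =
          fun t : ℝ => Complex.exp (a * t) := by
        funext t
        congr 1
        rw [ha]
        push_cast
        ring
      have hna : ‖a‖ ≤ 2 * Real.pi := by
        rw [ha, norm_neg, norm_mul, norm_mul, norm_mul, Complex.norm_real, Complex.norm_I, Complex.norm_real,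
          Real.norm_eq_abs, Real.norm_eq_abs, abs_mul, ND_sgb, abs_of_nonneg hρ0, abs_of_pos Real.pi_pos]
        simp only [Complex.norm_ofNat, mul_one, one_mul]
        nlinarith [Real.pi_pos]
      have hne : ∀ t : ℝ, ‖Complex.exp (a * t)‖ = 1 := by
        intro t
        rw [Complex.norm_exp]
        have : (a * t).re = 0 := by
          rw [ha]
          simp
        rw [this, Real.exp_zero]
      have hd : ∀ t : ℝ, HasDerivAt (fun t : ℝ => Complex.exp (a * t)) (a * Complex.exp (a * t)) t := by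
        intro t
        have h3 : HasDerivAt (fun t : ℝ => a * (t : ℂ)) a t := by
          simpa using (Complex.ofRealCLM.hasDerivAt (x := t)).const_mul a
        have h4 := h3.cexp
        rwa [mul_comm] at h4
      rw [hfun]
      refine ⟨fun t => a * Complex.exp (a * t), fun t => a * (a * Complex.exp (a * t)), fun t _ => hd t,
        fun t _ => (hd t).const_mul a, ?_⟩
      intro t _
      simp only [mul_one, norm_mul, hne]
      refine ⟨hpi2, ?_, ?_⟩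
      · linarith
      · calc ‖a‖ * ‖a‖ ≤ 2 * Real.pi * (2 * Real.pi) := mul_le_mul hna hna (norm_nonneg _) (by positivity)
          _ = _ := by ring
  · intro t _
    have e1 : (((1 + ρ) ^ (-ν) : ℝ) : ℂ) * (((1 + ρ) ^ ν : ℝ) : ℂ) = 1 := by
      rw [← Complex.ofReal_mul, ← Real.rpow_add (by linarith : (0:ℝ) < 1 + ρ)]
      simp
    have e2 : ∀ z : ℂ, Complex.exp (-z) * Complex.exp z = 1 := by
      intro z
      rw [← Complex.exp_add]
      simp
    have e3 : 2 * Real.pi * (ρ * t) = 2 * Real.pi * ρ * t := by ring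
    rw [e3]
    simp only [Fintype.sum_bool]
    rw [mul_assoc _ (Complex.exp _) (Complex.exp _), mul_assoc _ (Complex.exp _) (Complex.exp _), e2, e2]
    simp only [mul_one]
    push_cast at e1 ⊢
    linear_combination (-(J (2 * Real.pi * ρ * t) : ℂ)) * e1

/-- the case of large scales -/
private theorem ND_large (ν : ℝ) (hν : 0 ≤ ν) (J J1 J2 : ℝ → ℝ) (h1 : ∀ t, HasDerivAt J (J1 t) t)
    (h2 : ∀ t, HasDerivAt J1 (J2 t) t) (h : ∀ t, t * J2 t + 2 * ν * J1 t + t * J t = 0) (δ : ℝ) (hδ : 0 < δ) :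
    ∃ K : ℝ, 0 ≤ K ∧ ∀ ρ : ℝ, 1 ≤ ρ → ∃ β : Bool → ℝ → ℂ,
      (∀ s, Dd δ K (fun _ => 1) (β s)) ∧
      ∀ t : ℝ, 0 < t → ((J (2 * Real.pi * (ρ * t)) : ℝ) : ℂ) =
        (((1 + ρ) ^ (-ν) : ℝ) : ℂ) *
        ∑ s : Bool, β s t * Complex.exp (2 * (Real.pi : ℂ) * Complex.I * ((sgb s * ρ * t : ℝ) : ℂ)) := by
  have hpi : 1 ≤ 2 * Real.pi := by linarith [Real.pi_gt_three]
  obtain ⟨C, α, α1, α2, hC, hα, hα1, hb, hJ⟩ := amplitude ν J J1 J2 h1 h2 h (2 * Real.pi * δ) (by positivity)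
  obtain ⟨K₁, hK₁, hD₁⟩ := ND_pow ν δ hν hδ
  refine ⟨4 * (4 * 1 * K₁) * (C + C / δ ^ 2), by positivity, ?_⟩
  intro ρ hρ
  have hρ0 : 0 < ρ := by linarith
  set a : ℝ := 2 * Real.pi * ρ with ha
  have ha0 : 0 < a := by positivity
  have ha1 : 1 ≤ a := by nlinarith
  refine ⟨fun s t => ((((1 + ρ) ^ ν * a ^ (-ν) : ℝ) : ℂ) * ((t ^ (-ν) : ℝ) : ℂ)) * α s (a * t), ?_, ?_⟩
  · intro s
    refine Dd_mul (δ := δ) (K := 4 * 1 * K₁) (K' := C + C / δ ^ 2)
      (by positivity) (by positivity) (fun _ => zero_le_one) ?_ ?_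
    · refine Dd_mul (δ := δ) (K := 1) (K' := K₁) zero_le_one hK₁ (fun _ => zero_le_one) ?_ hD₁
      refine ND_const δ _ _ ?_
      have e0 : 0 ≤ (1 + ρ) ^ ν * a ^ (-ν) :=
        mul_nonneg (Real.rpow_nonneg (by linarith) _) (Real.rpow_nonneg ha0.le _)
      rw [Complex.norm_real, Real.norm_eq_abs, abs_of_nonneg e0]
      have e1 : (1 + ρ) ^ ν ≤ a ^ ν := Real.rpow_le_rpow (by linarith) (by nlinarith [Real.pi_gt_three]) hν
      calc (1 + ρ) ^ ν * a ^ (-ν) ≤ a ^ ν * a ^ (-ν) := mul_le_mul_of_nonneg_right e1 (Real.rpow_nonneg ha0.le _)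
        _ = 1 := by
          rw [← Real.rpow_add ha0]
          simp
    · refine ND_scale ha0 (hα s) (hα1 s) ?_
      intro t ht
      have ht0 : 0 < t := lt_of_lt_of_le hδ ht
      have hat : 2 * Real.pi * δ ≤ a * t := by
        rw [ha]
        nlinarith [mul_le_mul hρ ht hδ.le hρ0.le, Real.pi_pos]
      obtain ⟨b0, b1, b2⟩ := hb s (a * t) hat
      have hCδ : 0 ≤ C / δ ^ 2 := by positivity
      have hCt : C / t ^ 2 ≤ C / δ ^ 2 := by
        refine div_le_div_of_nonneg_left hC.le (by positivity) ?_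
        exact pow_le_pow_left₀ hδ.le ht 2
      have hat0 : 0 < a * t := by positivity
      refine ⟨by linarith, ?_, ?_⟩
      · calc a * ‖α1 s (a * t)‖ ≤ a * (C / (a * t) ^ 2) := mul_le_mul_of_nonneg_left b1 ha0.le
          _ = (C / t ^ 2) / a := by field_simp
          _ ≤ C / t ^ 2 := div_le_self (by positivity) ha1
          _ ≤ _ := by linarith
      · calc a ^ 2 * ‖α2 s (a * t)‖ ≤ a ^ 2 * (C / (a * t) ^ 2) := mul_le_mul_of_nonneg_left b2 (by positivity)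
          _ = C / t ^ 2 := by field_simp
          _ ≤ _ := by linarith
  · intro t ht
    have e3 : 2 * Real.pi * (ρ * t) = a * t := by rw [ha]; ring
    have hat0 : 0 < a * t := by positivity
    rw [e3, hJ (a * t) hat0]
    have e1 : (((1 + ρ) ^ (-ν) : ℝ) : ℂ) * (((1 + ρ) ^ ν : ℝ) : ℂ) = 1 := by
      rw [← Complex.ofReal_mul, ← Real.rpow_add (by linarith : (0:ℝ) < 1 + ρ)]
      simp
    have e4 : ((a * t) ^ (-ν) : ℝ) = a ^ (-ν) * t ^ (-ν) := Real.mul_rpow ha0.le ht.le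
    have e5 : ∀ s : Bool, Complex.exp (2 * (Real.pi : ℂ) * Complex.I * ((sgb s * ρ * t : ℝ) : ℂ)) =
        Complex.exp (((sgb s * (a * t) : ℝ) : ℂ) * Complex.I) := by
      intro s
      congr 1
      rw [ha]
      push_cast
      ring
    simp only [Fintype.sum_bool, e5]
    rw [e4]
    push_cast at e1 ⊢
    linear_combination (-((a ^ (-ν) : ℝ) : ℂ) * ((t ^ (-ν) : ℝ) : ℂ) * (α true (a * t) *
      Complex.exp (((sgb true : ℝ) : ℂ) * ((a : ℂ) * (t : ℂ)) * Complex.I) + α false (a * t) *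
      Complex.exp (((sgb false : ℝ) : ℂ) * ((a : ℂ) * (t : ℂ)) * Complex.I))) * e1

/-- uniform form of the asymptotics, all scales -/
theorem J_unif (ν : ℝ) (hν : 0 ≤ ν) (J J1 J2 : ℝ → ℝ) (h1 : ∀ t, HasDerivAt J (J1 t) t)
    (h2 : ∀ t, HasDerivAt J1 (J2 t) t) (h : ∀ t, t * J2 t + 2 * ν * J1 t + t * J t = 0)
    (B : ℝ) (hB : ∀ t, |J t| ≤ B ∧ |J1 t| ≤ B ∧ |J2 t| ≤ B) (δ : ℝ) (hδ : 0 < δ) :
    ∃ K : ℝ, 0 < K ∧ ∀ ρ : ℝ, 0 ≤ ρ → ∃ β : Bool → ℝ → ℂ,
      (∀ s, Dd δ K (fun _ => 1) (β s)) ∧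
      ∀ t : ℝ, 0 < t → ((J (2 * Real.pi * (ρ * t)) : ℝ) : ℂ) =
        (((1 + ρ) ^ (-ν) : ℝ) : ℂ) *
        ∑ s : Bool, β s t * Complex.exp (2 * (Real.pi : ℂ) * Complex.I * ((sgb s * ρ * t : ℝ) : ℂ)) := by
  obtain ⟨K₁, hK₁, hs⟩ := ND_small ν hν J J1 J2 h1 h2 B hB δ
  obtain ⟨K₂, hK₂, hl⟩ := ND_large ν hν J J1 J2 h1 h2 h δ hδ
  refine ⟨K₁ + K₂ + 1, by linarith, ?_⟩
  intro ρ hρ
  rcases lt_or_ge ρ 1 with hρ1 | hρ1
  · obtain ⟨β, hβ, hJ⟩ := hs ρ hρ hρ1
    exact ⟨β, fun s => Dd_mono (by linarith) (fun _ => zero_le_one) (hβ s), hJ⟩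
  · obtain ⟨β, hβ, hJ⟩ := hl ρ hρ1
    exact ⟨β, fun s => Dd_mono (by linarith) (fun _ => zero_le_one) (hβ s), hJ⟩

end Pool.LibTP53
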