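import Pool.Agent.LibTP53.NA

/-
PLAN (NE). weight: f = t^n (1+t^2)^(-m). f' = n t^(n-1) (1+t^2)^(-m) - 2 m t^(n+1) (1+t^2)^(-m-1), and once more (do it as a product of t^n and (1+t^2)^(-m), or as n = 0 | n+1). Every term is
const * t^k (1+t^2)^(-l) with k + 2 <= 2 l, k,l natural, hence <= const /(1+t^2) for t >= 0 (t^k <= (1+t^2)^(l-1): t <= 1+t^2 and t^2 <= 1+t^2; t^k <= max 1 t ^(2(l-1)) <= (1+t^2)^(l-1)).
cutoff: chi t = Real.smoothTransition ((t - delta)/delta): contDiff, 0 for t <= delta, 1 for t >= 2 delta. Its two derivatives (deriv, iteratedDeriv 2 / deriv (deriv)) are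
continuous and 0 on t > 2 delta, so bounded on [delta, inf) (compactness of [delta, 2 delta] or [delta, 3 delta]).
-/

set_option autoImplicit false

noncomputable section

open MeasureTheory Metric Set Filter

namespace Pool.LibTP53

open Pool.LibSR53

/-- the functions `t ^ k / (1 + t ^ 2) ^ l` -/
private def NE_w (k l : ℕ) (t : ℝ) : ℝ := t ^ k * ((1 + t ^ 2) ^ l)⁻¹

private theorem NE_bd {k l : ℕ} (h : k + 2 ≤ 2 * l) {t : ℝ} (ht : 0 ≤ t) :
    |NE_w k l t| ≤ 1 / (1 + t ^ 2) := by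
  have h0 : 0 < 1 + t ^ 2 := by positivity
  obtain ⟨l', rfl⟩ : ∃ l', l = l' + 1 := ⟨l - 1, by omega⟩
  have hk : k ≤ 2 * l' := by omega
  unfold NE_w
  rw [abs_of_nonneg (by positivity)]
  have h1 : t ^ k ≤ (1 + t ^ 2) ^ l' := by
    have h2 : (max 1 t) ^ 2 ≤ 1 + t ^ 2 := by
      rcases le_total 1 t with h | h
      · rw [max_eq_right h]
        linarith
      · rw [max_eq_left h]
        nlinarith [sq_nonneg t]
    calc t ^ k ≤ (max 1 t) ^ k := pow_le_pow_left₀ ht (le_max_right _ _) k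
      _ ≤ (max 1 t) ^ (2 * l') := pow_le_pow_right₀ (le_max_left _ _) hk
      _ = ((max 1 t) ^ 2) ^ l' := by rw [pow_mul]
      _ ≤ (1 + t ^ 2) ^ l' := pow_le_pow_left₀ (by positivity) h2 l'
  rw [← div_eq_mul_inv, div_le_div_iff₀ (by positivity) h0, one_mul, pow_succ]
  exact mul_le_mul_of_nonneg_right h1 h0.le

private theorem NE_deriv {k l : ℕ} (h : k + 2 ≤ 2 * l) (t : ℝ) :
    HasDerivAt (NE_w k l) ((k : ℝ) * NE_w (k - 1) l t - 2 * l * NE_w (k + 1) (l + 1) t) t := by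
  have h0 : (1 + t ^ 2 : ℝ) ≠ 0 := by positivity
  obtain ⟨l', rfl⟩ : ∃ l', l = l' + 1 := ⟨l - 1, by omega⟩
  have h1 : HasDerivAt (fun t : ℝ => t ^ k) ((k : ℝ) * t ^ (k - 1)) t := hasDerivAt_pow k t
  have h2 : HasDerivAt (fun t : ℝ => (1 + t ^ 2)) (2 * t) t := by
    have := (hasDerivAt_pow 2 t).const_add 1
    simpa using this
  have h3 := (h2.fun_pow (l' + 1)).fun_inv (pow_ne_zero _ h0)
  have h4 := h1.fun_mul h3
  unfold NE_w
  refine h4.congr_deriv ?_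
  simp only [Nat.add_sub_cancel]
  push_cast
  field_simp
  ring

private theorem NE_tri (a b x y g : ℝ) (ha : 0 ≤ a) (hb : 0 ≤ b) (hx : |x| ≤ g) (hy : |y| ≤ g) :
    |a * x - b * y| ≤ (a + b) * g := by
  calc |a * x - b * y| ≤ |a * x| + |b * y| := abs_sub _ _
    _ = a * |x| + b * |y| := by rw [abs_mul, abs_mul, abs_of_nonneg ha, abs_of_nonneg hb]
    _ ≤ a * g + b * g := add_le_add (mul_le_mul_of_nonneg_left hx ha) (mul_le_mul_of_nonneg_left hy hb)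
    _ = _ := by ring

private theorem NE_bdd {f : ℝ → ℝ} (hf : Continuous f) (δ : ℝ) (h : ∀ t, 2 * δ < t → f t = 0) :
    ∃ K : ℝ, 0 ≤ K ∧ ∀ t, δ ≤ t → |f t| ≤ K := by
  obtain ⟨K, hK⟩ := (isCompact_Icc (a := δ) (b := 2 * δ)).exists_bound_of_continuousOn hf.continuousOn
  refine ⟨max K 0, le_max_right _ _, fun t ht => ?_⟩
  rcases le_or_gt t (2 * δ) with h2 | h2
  · exact (hK t ⟨ht, h2⟩).trans (le_max_left _ _)
  · rw [h t h2, abs_zero]
    exact le_max_right _ _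

/-- the weight -/
theorem weight (n m : ℕ) (hnm : n + 2 ≤ 2 * m) (δ : ℝ) (hδ : 0 < δ) : ∃ K : ℝ, 0 < K ∧
    Dd δ K (fun t => 1 / (1 + t ^ 2)) (fun t => ((t ^ n * ((1 + t ^ 2) ^ m)⁻¹ : ℝ) : ℂ)) := by
  have hk1 : (0 : ℝ) ≤ n := Nat.cast_nonneg n
  have hk2 : (0 : ℝ) ≤ ((n - 1 : ℕ) : ℝ) := Nat.cast_nonneg _
  have hm1 : (0 : ℝ) ≤ m := Nat.cast_nonneg m
  have c1 : n - 1 + 2 ≤ 2 * m := by omega
  have c2 : n + 1 + 2 ≤ 2 * (m + 1) := by omega
  have c3 : n - 1 - 1 + 2 ≤ 2 * m := by omega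
  have c4 : n - 1 + 1 + 2 ≤ 2 * (m + 1) := by omega
  have c5 : n + 1 - 1 + 2 ≤ 2 * (m + 1) := by omega
  have c6 : n + 1 + 1 + 2 ≤ 2 * (m + 1 + 1) := by omega
  refine ⟨1 + (n + 2 * m) + (n * (((n - 1 : ℕ) : ℝ) + 2 * m) +
    2 * m * (((n + 1 : ℕ) : ℝ) + 2 * ((m + 1 : ℕ) : ℝ))), by positivity,
    fun t => (((n : ℝ) * NE_w (n - 1) m t - 2 * m * NE_w (n + 1) (m + 1) t : ℝ) : ℂ),
    fun t => (((n : ℝ) * (((n - 1 : ℕ) : ℝ) * NE_w (n - 1 - 1) m t - 2 * m * NE_w (n - 1 + 1) (m + 1) t) -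
      2 * m * (((n + 1 : ℕ) : ℝ) * NE_w (n + 1 - 1) (m + 1) t -
        2 * ((m + 1 : ℕ) : ℝ) * NE_w (n + 1 + 1) (m + 1 + 1) t) : ℝ) : ℂ), ?_, ?_, ?_⟩
  · intro t _
    exact (NE_deriv hnm t).ofReal_comp
  · intro t _
    exact (((NE_deriv c1 t).const_mul (n : ℝ)).sub ((NE_deriv c2 t).const_mul (2 * (m : ℝ)))).ofReal_comp
  · intro t ht
    have ht0 : 0 ≤ t := hδ.le.trans ht
    have hg : 0 ≤ 1 / (1 + t ^ 2) := by positivity
    have b0 := NE_bd hnm ht0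
    have b1 := NE_tri n (2 * m) _ _ _ hk1 (by positivity) (NE_bd c1 ht0) (NE_bd c2 ht0)
    have b2 := NE_tri ((n - 1 : ℕ) : ℝ) (2 * m) _ _ _ hk2 (by positivity) (NE_bd c3 ht0) (NE_bd c4 ht0)
    have b3 := NE_tri ((n + 1 : ℕ) : ℝ) (2 * ((m + 1 : ℕ) : ℝ)) _ _ _ (by positivity) (by positivity)
      (NE_bd c5 ht0) (NE_bd c6 ht0)
    rw [Complex.norm_real, Complex.norm_real, Complex.norm_real, Real.norm_eq_abs, Real.norm_eq_abs, Real.norm_eq_abs]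
    have s1 : 0 ≤ (n + 2 * m : ℝ) * (1 / (1 + t ^ 2)) := by positivity
    have s2 : 0 ≤ (n * (((n - 1 : ℕ) : ℝ) + 2 * m) +
      2 * m * (((n + 1 : ℕ) : ℝ) + 2 * ((m + 1 : ℕ) : ℝ))) * (1 / (1 + t ^ 2)) := by positivity
    refine ⟨?_, ?_, ?_⟩
    · refine b0.trans ?_
      linarith
    · refine b1.trans ?_
      linarith
    · have e : |(n : ℝ) * (((n - 1 : ℕ) : ℝ) * NE_w (n - 1 - 1) m t - 2 * m * NE_w (n - 1 + 1) (m + 1) t) -
        2 * m * (((n + 1 : ℕ) : ℝ) * NE_w (n + 1 - 1) (m + 1) t -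
        2 * ((m + 1 : ℕ) : ℝ) * NE_w (n + 1 + 1) (m + 1 + 1) t)| ≤
        n * ((((n - 1 : ℕ) : ℝ) + 2 * m) * (1 / (1 + t ^ 2))) +
        2 * m * ((((n + 1 : ℕ) : ℝ) + 2 * ((m + 1 : ℕ) : ℝ)) * (1 / (1 + t ^ 2))) := by
        refine (abs_sub _ _).trans ?_
        rw [abs_mul, abs_mul (2 * (m : ℝ)), abs_of_nonneg hk1, abs_of_nonneg (by positivity : (0:ℝ) ≤ 2 * m)]
        exact add_le_add (mul_le_mul_of_nonneg_left b2 hk1) (mul_le_mul_of_nonneg_left b3 (by positivity))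
      refine e.trans ?_
      linarith

/-- the cutoff -/
theorem cutoff (δ : ℝ) (hδ : 0 < δ) : ∃ (χ : ℝ → ℝ) (K : ℝ), 0 < K ∧ Continuous χ ∧
    (∀ t, 0 ≤ χ t ∧ χ t ≤ 1) ∧ (∀ t, t ≤ δ → χ t = 0) ∧ (∀ t, 2 * δ ≤ t → χ t = 1) ∧
    Dd δ K (fun _ => 1) (fun t => ((χ t : ℝ) : ℂ)) := by
  set χ : ℝ → ℝ := fun t => Real.smoothTransition ((t - δ) / δ) with hχ
  have hc : ContDiff ℝ 2 χ := by
    have : ContDiff ℝ 2 (fun t : ℝ => (t - δ) / δ) := (contDiff_id.sub contDiff_const).div_const δ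
    exact Real.smoothTransition.contDiff.comp this
  have h1 : ∀ t, 2 * δ ≤ t → χ t = 1 := by
    intro t ht
    refine Real.smoothTransition.one_of_one_le ?_
    rw [le_div_iff₀ hδ]
    linarith
  have hd1 : ContDiff ℝ 1 (deriv χ) := by
    have : ContDiff ℝ (1 + 1) χ := by
      have e : (1 + 1 : WithTop ℕ∞) = 2 := one_add_one_eq_two
      rw [e]
      exact hc
    exact (contDiff_succ_iff_deriv.1 this).2.2
  have hd2 : Continuous (deriv (deriv χ)) := hd1.continuous_deriv le_rfl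
  have z1 : ∀ t, 2 * δ < t → deriv χ t = 0 := by
    intro t ht
    have : χ =ᶠ[nhds t] fun _ => 1 := by
      filter_upwards [lt_mem_nhds ht] with s hs
      exact h1 s hs.le
    rw [this.deriv_eq, deriv_const]
  have z2 : ∀ t, 2 * δ < t → deriv (deriv χ) t = 0 := by
    intro t ht
    have : deriv χ =ᶠ[nhds t] fun _ => 0 := by
      filter_upwards [lt_mem_nhds ht] with s hs
      exact z1 s hs
    rw [this.deriv_eq, deriv_const]
  obtain ⟨K1, hK1, b1⟩ := NE_bdd hd1.continuous δ z1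
  obtain ⟨K2, hK2, b2⟩ := NE_bdd hd2 δ z2
  have hχ01 : ∀ t, 0 ≤ χ t ∧ χ t ≤ 1 := fun t =>
    ⟨Real.smoothTransition.nonneg _, Real.smoothTransition.le_one _⟩
  refine ⟨χ, 1 + K1 + K2, by linarith, hc.continuous, hχ01, ?_, h1, fun t => ((deriv χ t : ℝ) : ℂ),
    fun t => ((deriv (deriv χ) t : ℝ) : ℂ), ?_, ?_, ?_⟩
  · intro t ht
    refine Real.smoothTransition.zero_of_nonpos ?_
    exact div_nonpos_of_nonpos_of_nonneg (by linarith) hδ.le
  · intro t _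
    exact ((hc.differentiable (by norm_num)).differentiableAt.hasDerivAt).ofReal_comp
  · intro t _
    exact ((hd1.differentiable (by norm_num)).differentiableAt.hasDerivAt).ofReal_comp
  · intro t ht
    rw [Complex.norm_real, Complex.norm_real, Complex.norm_real, Real.norm_eq_abs, Real.norm_eq_abs, Real.norm_eq_abs]
    have a1 := b1 t ht
    have a2 := b2 t ht
    obtain ⟨a3, a4⟩ := hχ01 t
    rw [abs_of_nonneg a3]
    refine ⟨?_, ?_, ?_⟩ <;> simp only [mul_one] <;> linarith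

end Pool.LibTP53
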