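import Pool.Agent.LibTP53.Defs
import Pool.Agent.LibSR53.K4
import Pool.Agent.LibSR53.K5
import Pool.Agent.LibSR53.S6

/-
PLAN (NF). Step 1 (h3 inside radial_avg, LibSR53.K4; copy with the private lemmas k4_*): for phi integrable and radial, m * int ex v xi phi xi = int (sh d 1 (|v| xi)) phi xi, m = (sg d 1).real univ > 0.
Here phi = Hm d chi r r': radial (sh_radial), integrable (|Hm| <= |sh_r||sh_r'| (1+|xi|^2)^(-(d+1)), sh bounded (sh_bound, (1+..)^(-nu) <= 1), K5_w_int; measurable: chi continuous,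
sh_continuous). Step 2: sh d r xi = r^(d-1) J (2 pi (r |xi|)) (sh_scale and hJ with e = xi/|xi| as in the proof of sh_bound, LibSR53.S6; any unit e if xi = 0). Step 3: polar coordinates
MeasureTheory.integral_fun_norm_addHaar (int f |x| = dim * vol(ball 0 1) * int_{Ioi 0} y^(dim-1) f y). c = d vol(ball) / m.
-/

set_option autoImplicit false

noncomputable section

open MeasureTheory Metric Set Filter

namespace Pool.LibTP53

open Pool.LibSR53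

private theorem NF_norm_ex {d : ℕ} (v ξ : E d) : ‖ex v ξ‖ = 1 := by
  unfold ex
  rw [show 2 * (Real.pi : ℂ) * Complex.I * ((inner ℝ v ξ : ℝ) : ℂ) =
    ((2 * Real.pi * inner ℝ v ξ : ℝ) : ℂ) * Complex.I by push_cast; ring]
  exact Complex.norm_exp_ofReal_mul_I _

private theorem NF_ex_smul {d : ℕ} (t : ℝ) (v ξ : E d) : ex (t • v) ξ = ex v (t • ξ) := by
  unfold ex
  rw [real_inner_smul_left, real_inner_smul_right]

private theorem NF_swap {d : ℕ} {μ : Measure (E d)} [IsFiniteMeasure μ] (k : E d → E d → ℂ)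
    (hk : Continuous fun p : E d × E d => k p.1 p.2) (hb : ∀ z ξ, ‖k z ξ‖ ≤ 1) (g : E d → ℂ)
    (hg : Integrable g) :
    ∫ ζ, ∫ ξ, k ζ ξ * g ξ ∂volume ∂μ = ∫ ξ, (∫ ζ, k ζ ξ ∂μ) * g ξ := by
  have h1 : Integrable (Function.uncurry fun ζ ξ => k ζ ξ * g ξ) (μ.prod volume) :=
    (hg.comp_snd μ).bdd_mul (f := fun p : E d × E d => k p.1 p.2) hk.aestronglyMeasurable
      (c := 1) (Eventually.of_forall fun p => hb p.1 p.2)
  rw [integral_integral_swap h1]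
  refine integral_congr_ae (Eventually.of_forall fun ξ => ?_)
  exact integral_mul_const (g ξ) fun ζ => k ζ ξ

private theorem NF_inv {d : ℕ} (φ : E d → ℂ) (hφ : ∀ ξ ξ', ‖ξ‖ = ‖ξ'‖ → φ ξ = φ ξ')
    (v w : E d) (h : ‖v‖ = ‖w‖) : ∫ ξ, ex v ξ * φ ξ = ∫ ξ, ex w ξ * φ ξ := by
  set U : E d ≃ₗᵢ[ℝ] E d := (ℝ ∙ (v - w))ᗮ.reflection with hU
  have h1 : U v = w := Submodule.reflection_sub h
  rw [← U.measurePreserving.integral_comp U.toHomeomorph.measurableEmbedding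
    (fun ξ => ex w ξ * φ ξ)]
  refine integral_congr_ae (Eventually.of_forall fun ξ => ?_)
  beta_reduce
  have h2 : ex w (U ξ) = ex v ξ := by
    unfold ex
    rw [← h1, U.inner_map_map]
  rw [h2, hφ (U ξ) ξ (U.norm_map ξ)]


/-- averaging a radial function -/
private theorem NF_avg (d : ℕ) (hd : 2 ≤ d) (φ : E d → ℂ) (hφ : Integrable φ)
    (hrad : ∀ ξ ξ', ‖ξ‖ = ‖ξ'‖ → φ ξ = φ ξ') (v : E d) :
    (((sg d 1).real univ : ℝ) : ℂ) * ∫ ξ, ex v ξ * φ ξ = ∫ ξ, (sh d 1 (‖v‖ • ξ) : ℂ) * φ ξ := by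
  have ifin := sg_fin d hd 1 one_pos
  set m := (sg d 1).real univ with hmdef
  have h1 : ∀ᵐ ω ∂(sg d 1), ∫ ξ, ex v ξ * φ ξ = ∫ ξ, ex (‖v‖ • ω) ξ * φ ξ := by
    have h2 : ∀ᵐ ω ∂(sg d 1), ω ∈ sphere (0 : E d) 1 :=
      ae_restrict_mem isClosed_sphere.measurableSet
    filter_upwards [h2] with ω hω
    refine NF_inv φ hrad v _ ?_
    rw [norm_smul, norm_norm, mem_sphere_zero_iff_norm.1 hω, mul_one]
  have h3 : (m : ℂ) * ∫ ξ, ex v ξ * φ ξ = ∫ ξ, (sh d 1 (‖v‖ • ξ) : ℂ) * φ ξ := by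
    have h4 : ∫ _ω, (∫ ξ, ex v ξ * φ ξ) ∂(sg d 1) = (m : ℂ) * ∫ ξ, ex v ξ * φ ξ := by
      rw [integral_const, Complex.real_smul]
    rw [← h4, integral_congr_ae h1]
    rw [NF_swap (fun ω ξ => ex (‖v‖ • ω) ξ) ?_ ?_ φ hφ]
    · refine integral_congr_ae (Eventually.of_forall fun ξ => ?_)
      beta_reduce
      have h5 : ∫ ω, ex (‖v‖ • ω) ξ ∂(sg d 1) = (sh d 1 (‖v‖ • ξ) : ℂ) := by
        rw [← sh_exp d hd 1 one_pos (‖v‖ • ξ)]
        exact integral_congr_ae (Eventually.of_forall fun ω => NF_ex_smul _ _ _)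
      rw [h5]
    · unfold ex
      fun_prop
    · intro z ξ
      rw [NF_norm_ex]
  exact h3

private theorem NF_unit (d : ℕ) (hd : 2 ≤ d) (η : E d) : ∃ e : E d, ‖e‖ = 1 ∧ η = ‖η‖ • e := by
  by_cases h : η = 0
  · refine ⟨EuclideanSpace.single (⟨0, by omega⟩ : Fin d) (1 : ℝ), by simp, ?_⟩
    rw [h, norm_zero, zero_smul]
  · have h0 : ‖η‖ ≠ 0 := norm_ne_zero_iff.2 h
    refine ⟨‖η‖⁻¹ • η, ?_, ?_⟩
    · rw [norm_smul, norm_inv, norm_norm, inv_mul_cancel₀ h0]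
    · rw [smul_smul, mul_inv_cancel₀ h0, one_smul]

private theorem NF_shJ (d : ℕ) (hd : 2 ≤ d) (J : ℝ → ℝ)
    (hJ : ∀ e : E d, ‖e‖ = 1 → ∀ t : ℝ, J t = ∫ ζ, Real.cos (t * inner ℝ ζ e) ∂(sg d 1))
    (t : ℝ) (ht : 0 ≤ t) (ξ : E d) : sh d 1 (t • ξ) = J (2 * Real.pi * (t * ‖ξ‖)) := by
  obtain ⟨e, he, heq⟩ := NF_unit d hd (t • ξ)
  have hn : ‖t • ξ‖ = t * ‖ξ‖ := by rw [norm_smul, Real.norm_eq_abs, abs_of_nonneg ht]
  rw [hJ e he, sh]
  refine integral_congr_ae (Eventually.of_forall (fun ζ => ?_))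
  show Real.cos (2 * Real.pi * inner ℝ ζ (t • ξ)) = Real.cos (2 * Real.pi * (t * ‖ξ‖) * inner ℝ ζ e)
  rw [heq, hn, inner_smul_right, mul_assoc (2 * Real.pi)]

theorem Hm_facts (d : ℕ) (hd : 2 ≤ d) (χ : ℝ → ℝ) (hχ : Continuous χ)
    (hχ1 : ∀ t, 0 ≤ χ t ∧ χ t ≤ 1) (r r' : ℝ) (hr : 0 < r) (hr' : 0 < r') :
    Integrable (Hm d χ r r') ∧ ∀ ξ ξ' : E d, ‖ξ‖ = ‖ξ'‖ → Hm d χ r r' ξ = Hm d χ r r' ξ' := by
  constructor
  · obtain ⟨C, hC, hb⟩ := sh_bound d hd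
    have hnu : 0 ≤ nu d := K5_nu_nonneg hd
    have hb' : ∀ r : ℝ, 0 < r → ∀ ξ : E d, |sh d r ξ| ≤ C * r ^ (d - 1) := by
      intro r hr ξ
      refine (hb r hr ξ).trans ?_
      have h1 : (1 + r * ‖ξ‖) ^ (-nu d) ≤ 1 := by
        refine Real.rpow_le_one_of_one_le_of_nonpos ?_ (neg_nonpos.2 hnu)
        have := mul_nonneg hr.le (norm_nonneg ξ)
        linarith
      exact mul_le_of_le_one_right (by positivity) h1
    have hcont : Continuous (Hm d χ r r') := by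
      unfold Hm
      refine Complex.continuous_ofReal.comp ?_
      refine Continuous.mul (Continuous.mul (Continuous.mul (hχ.comp continuous_norm) ?_)
        (sh_continuous d hd r hr)) (sh_continuous d hd r' hr')
      refine Continuous.inv₀ (by fun_prop) fun ξ => ?_
      positivity
    refine ((K5_w_int d).const_mul (C * r ^ (d - 1) * (C * r' ^ (d - 1)))).mono'
      hcont.aestronglyMeasurable (Eventually.of_forall fun ξ => ?_)
    unfold Hm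
    rw [Complex.norm_real, Real.norm_eq_abs, abs_mul, abs_mul, abs_mul]
    have w0 : 0 ≤ ((1 + ‖ξ‖ ^ 2) ^ (d + 1))⁻¹ := by positivity
    rw [abs_of_nonneg (hχ1 ‖ξ‖).1, abs_of_nonneg w0]
    have e1 := hb' r hr ξ
    have e2 := hb' r' hr' ξ
    calc χ ‖ξ‖ * ((1 + ‖ξ‖ ^ 2) ^ (d + 1))⁻¹ * |sh d r ξ| * |sh d r' ξ|
        ≤ 1 * ((1 + ‖ξ‖ ^ 2) ^ (d + 1))⁻¹ * (C * r ^ (d - 1)) * (C * r' ^ (d - 1)) := by
          refine mul_le_mul ?_ e2 (abs_nonneg _) (by positivity)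
          refine mul_le_mul ?_ e1 (abs_nonneg _) (by positivity)
          exact mul_le_mul_of_nonneg_right (hχ1 ‖ξ‖).2 w0
      _ = C * r ^ (d - 1) * (C * r' ^ (d - 1)) * ((1 + ‖ξ‖ ^ 2) ^ (d + 1))⁻¹ := by ring
  · intro ξ ξ' h
    unfold Hm
    rw [sh_radial d r ξ ξ' h, sh_radial d r' ξ ξ' h, h]

/-- the radial multiplier in polar coordinates -/
theorem H_polar (d : ℕ) (hd : 2 ≤ d) (J : ℝ → ℝ)
    (hJ : ∀ e : E d, ‖e‖ = 1 → ∀ t : ℝ, J t = ∫ ζ, Real.cos (t * inner ℝ ζ e) ∂(sg d 1)) :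
    ∃ c : ℝ, 0 < c ∧ ∀ χ : ℝ → ℝ, Continuous χ → (∀ t, 0 ≤ χ t ∧ χ t ≤ 1) →
      ∀ r r' : ℝ, 0 < r → 0 < r' → ∀ v : E d,
      ∫ ξ, ex v ξ * Hm d χ r r' ξ = ((c * r ^ (d - 1) * r' ^ (d - 1) : ℝ) : ℂ) *
        ∫ t in Ioi (0 : ℝ), ((t ^ (d - 1) * ((1 + t ^ 2) ^ (d + 1))⁻¹ * χ t *
          J (2 * Real.pi * (r * t)) * J (2 * Real.pi * (r' * t)) *
          J (2 * Real.pi * (‖v‖ * t)) : ℝ) : ℂ) := by
  have ifin := sg_fin d hd 1 one_pos
  have hm : 0 < (sg d 1).real univ :=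
    ENNReal.toReal_pos (sg_one_pos d hd).ne' (sg_one_finite d hd).ne
  set m := (sg d 1).real univ with hmdef
  have hdim : Module.finrank ℝ (E d) = d := finrank_euclideanSpace_fin
  have hnt : Nontrivial (E d) := Module.nontrivial_of_finrank_pos (R := ℝ) (by rw [hdim]; omega)
  have hball : 0 < (volume : Measure (E d)).real (ball 0 1) :=
    ENNReal.toReal_pos (measure_ball_pos _ _ one_pos).ne' measure_ball_lt_top.ne
  set b := (volume : Measure (E d)).real (ball 0 1) with hb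
  have hd0 : (0 : ℝ) < d := by
    have : 0 < d := by omega
    exact_mod_cast this
  refine ⟨d * b / m, by positivity, ?_⟩
  intro χ hχ hχ1 r r' hr hr' v
  obtain ⟨hint, hrad⟩ := Hm_facts d hd χ hχ hχ1 r r' hr hr'
  have h3 := NF_avg d hd (Hm d χ r r') hint hrad v
  rw [← hmdef] at h3
  let F : ℝ → ℂ := fun t => ((J (2 * Real.pi * (‖v‖ * t)) * (χ t * ((1 + t ^ 2) ^ (d + 1))⁻¹ *
    (r ^ (d - 1) * J (2 * Real.pi * (r * t))) * (r' ^ (d - 1) * J (2 * Real.pi * (r' * t)))) : ℝ) : ℂ)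
  have h4 : ∀ ξ : E d, (sh d 1 (‖v‖ • ξ) : ℂ) * Hm d χ r r' ξ = F ‖ξ‖ := by
    intro ξ
    unfold Hm
    rw [← Complex.ofReal_mul, sh_scale d hd r hr, sh_scale d hd r' hr', NF_shJ d hd J hJ _ (norm_nonneg v),
      NF_shJ d hd J hJ _ hr.le, NF_shJ d hd J hJ _ hr'.le]
  have h5 : ∫ ξ : E d, (sh d 1 (‖v‖ • ξ) : ℂ) * Hm d χ r r' ξ = ∫ ξ : E d, F ‖ξ‖ :=
    integral_congr_ae (Eventually.of_forall h4)
  have h6 := integral_fun_norm_addHaar (volume : Measure (E d)) F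
  rw [hdim, ← hb] at h6
  rw [h5, h6] at h3
  have hmC : (m : ℂ) ≠ 0 := by exact_mod_cast hm.ne'
  have h7 : ∫ y in Ioi (0 : ℝ), y ^ (d - 1) • F y = ((r ^ (d - 1) * r' ^ (d - 1) : ℝ) : ℂ) *
      ∫ t in Ioi (0 : ℝ), ((t ^ (d - 1) * ((1 + t ^ 2) ^ (d + 1))⁻¹ * χ t *
          J (2 * Real.pi * (r * t)) * J (2 * Real.pi * (r' * t)) *
          J (2 * Real.pi * (‖v‖ * t)) : ℝ) : ℂ) := by
    rw [← integral_const_mul]
    refine integral_congr_ae (Eventually.of_forall fun t => ?_)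
    show t ^ (d - 1) • F t = _
    simp only [F]
    rw [Complex.real_smul]
    push_cast
    ring
  rw [h7] at h3
  refine mul_left_cancel₀ hmC ?_
  rw [h3, nsmul_eq_mul, Complex.real_smul]
  generalize (∫ t in Ioi (0 : ℝ), ((t ^ (d - 1) * ((1 + t ^ 2) ^ (d + 1))⁻¹ * χ t *
          J (2 * Real.pi * (r * t)) * J (2 * Real.pi * (r' * t)) *
          J (2 * Real.pi * (‖v‖ * t)) : ℝ) : ℂ)) = I
  push_cast
  field_simp

end Pool.LibTP53
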