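import Pool.Agent.LibTP53.NA
import Pool.Agent.LibTP53.NB
import Pool.Agent.LibTP53.ND
import Pool.Agent.LibTP53.NE
import Pool.Agent.LibTP53.NF
import Pool.Agent.LibTP53.NS

/-
PLAN (NG). exists_JB, cutoff (chi), H_polar, J_unif (nu = nu d >= 0) for rho = r, r', |v| (beta, beta', beta''). For t > 0 the integrand of H_polar is [(1+r)(1+r')(1+|v|)]^(-nu) times the sum over
three signs of (weight * chi * beta * beta' * beta'')(t) exp(2 pi i (s1 r + s2 r' + s3 |v|) t); weight (n = d-1, m = d+1) * chi * betas: Dd_mul four times, vanishes for t <= delta.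
osc for each of the 8 terms (integral_finset_sum; integrability of each term: bounded by K/(1+t^2), continuous on t > 0), |s1 r + s2 r' + s3 |v|| >= min(||v|-|r-r'||, ||v|-(r+r')|):
so 1/(1+|s|)^2 <= Ef r r' |v|. Finally r^(d-1) (1+r)^(-nu) <= r^nu (d-1 = 2 nu), same for r'.
Write the product of the three sums over Bool with Finset.sum_mul_sum / simp [Fintype.sum_bool].
-/

set_option autoImplicit false

noncomputable section

open MeasureTheory Metric Set Filter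

namespace Pool.LibTP53

open Pool.LibSR53

private lemma NG_int {δ K : ℝ} {f : ℝ → ℂ} (hK : 0 ≤ K)
    (hf : Dd δ K (fun t => 1 / (1 + t ^ 2)) f) (h0 : ∀ t : ℝ, t ≤ δ → f t = 0) (s : ℝ) :
    IntegrableOn (fun t : ℝ => f t *
      Complex.exp (2 * (Real.pi : ℂ) * Complex.I * ((s * t : ℝ) : ℂ))) (Ioi 0) := by
  obtain ⟨f1, f2, h1, h2, h3⟩ := hf
  have hI : Integrable (fun t : ℝ => K * (1 / (1 + t ^ 2))) := by
    have := (integrable_inv_one_add_sq).const_mul K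
    simpa [one_div] using this
  refine Integrable.mono' hI.integrableOn ?_ ?_
  · refine ContinuousOn.aestronglyMeasurable ?_ measurableSet_Ioi
    refine ContinuousOn.mul (fun t ht => (h1 t ht).continuousAt.continuousWithinAt) ?_
    fun_prop
  · refine (ae_restrict_iff' measurableSet_Ioi).2 (Eventually.of_forall fun t ht => ?_)
    have he : ‖Complex.exp (2 * (Real.pi : ℂ) * Complex.I * ((s * t : ℝ) : ℂ))‖ = 1 := by
      have : 2 * (Real.pi : ℂ) * Complex.I * ((s * t : ℝ) : ℂ) =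
          ((2 * Real.pi * (s * t) : ℝ) : ℂ) * Complex.I := by push_cast; ring
      rw [this, Complex.norm_exp_ofReal_mul_I]
    rw [norm_mul, he, mul_one]
    by_cases h : t ≤ δ
    · rw [h0 t h, norm_zero]; positivity
    · exact (h3 t (le_of_not_ge h)).1

private lemma NG_sum (f : ℝ → ℂ) (b b' b'' : Bool → ℝ → ℂ)
    (x y z t : ℝ) :
    f t * (∑ s : Bool, b s t *
        Complex.exp (2 * (Real.pi : ℂ) * Complex.I * ((sgb s * x * t : ℝ) : ℂ))) *
      (∑ s : Bool, b' s t *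
        Complex.exp (2 * (Real.pi : ℂ) * Complex.I * ((sgb s * y * t : ℝ) : ℂ))) *
      (∑ s : Bool, b'' s t *
        Complex.exp (2 * (Real.pi : ℂ) * Complex.I * ((sgb s * z * t : ℝ) : ℂ))) =
    ∑ s : Bool × Bool × Bool, (f t * b s.1 t * b' s.2.1 t * b'' s.2.2 t) *
      Complex.exp (2 * (Real.pi : ℂ) * Complex.I *
        (((sgb s.1 * x + sgb s.2.1 * y + sgb s.2.2 * z) * t : ℝ) : ℂ)) := by
  have hexp : ∀ a b c : ℝ, Complex.exp (2 * (Real.pi : ℂ) * Complex.I *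
        (((a + b + c) * t : ℝ) : ℂ)) =
      Complex.exp (2 * (Real.pi : ℂ) * Complex.I * ((a * t : ℝ) : ℂ)) *
      Complex.exp (2 * (Real.pi : ℂ) * Complex.I * ((b * t : ℝ) : ℂ)) *
      Complex.exp (2 * (Real.pi : ℂ) * Complex.I * ((c * t : ℝ) : ℂ)) := by
    intro a b c
    rw [← Complex.exp_add, ← Complex.exp_add]
    congr 1
    push_cast
    ring
  simp only [Fintype.sum_prod_type, Fintype.sum_bool, hexp]
  ring

private lemma NG_ef (r r' t : ℝ) (hr : 0 < r) (hr' : 0 < r') (ht : 0 ≤ t) (s : Bool × Bool × Bool) :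
    1 / (1 + |sgb s.1 * r + sgb s.2.1 * r' + sgb s.2.2 * t|) ^ 2 ≤ Ef r r' t := by
  have key : (|t - (|r - r'|)| ≤ |sgb s.1 * r + sgb s.2.1 * r' + sgb s.2.2 * t|) ∨
      (|t - (r + r')| ≤ |sgb s.1 * r + sgb s.2.1 * r' + sgb s.2.2 * t|) := by
    obtain ⟨a, b, c⟩ := s
    have h2 : ∀ x : ℝ, 0 ≤ x → |t - x| ≤ |t + x| := by
      intro x hx
      rw [abs_of_nonneg (by linarith : (0 : ℝ) ≤ t + x)]
      exact abs_le.2 ⟨by linarith, by linarith⟩
    have h3 : |t - (|r - r'|)| ≤ |t - (r - r')| := by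
      rcases abs_cases (r - r') with ⟨h, h'⟩ | ⟨h, h'⟩
      · rw [h]
      · rw [h]
        have := h2 (-(r - r')) (by linarith)
        rwa [← sub_eq_add_neg] at this
    have h4 : |t - (|r - r'|)| ≤ |t + (r - r')| := by
      rcases abs_cases (r - r') with ⟨h, h'⟩ | ⟨h, h'⟩
      · rw [h]; exact h2 _ h'
      · rw [h]
        exact le_of_eq (by congr 1; ring)
    cases a <;> cases b <;> cases c <;> simp only [sgb, if_true, if_false, Bool.false_eq_true]
    · right; rw [← abs_neg (-1 * r + -1 * r' + -1 * t)]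
      have := h2 (r + r') (by linarith)
      refine this.trans (le_of_eq ?_); congr 1; ring
    · right; refine le_of_eq ?_; congr 1; ring
    · left; rw [← abs_neg (-1 * r + 1 * r' + -1 * t)]
      refine h4.trans (le_of_eq ?_); congr 1; ring
    · left; refine h3.trans (le_of_eq ?_); congr 1; ring
    · left; rw [← abs_neg (1 * r + -1 * r' + -1 * t)]
      refine h3.trans (le_of_eq ?_); congr 1; ring
    · left; refine h4.trans (le_of_eq ?_); congr 1; ring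
    · right; rw [← abs_neg (1 * r + 1 * r' + -1 * t)]
      refine le_of_eq ?_; congr 1; ring
    · right
      have := h2 (r + r') (by linarith)
      refine this.trans (le_of_eq ?_); congr 1; ring
  unfold Ef
  have hp1 : 0 ≤ 1 / (1 + |t - (|r - r'|)|) ^ 2 := by positivity
  have hp2 : 0 ≤ 1 / (1 + |t - (r + r')|) ^ 2 := by positivity
  rcases key with h | h
  · have : 1 / (1 + |sgb s.1 * r + sgb s.2.1 * r' + sgb s.2.2 * t|) ^ 2 ≤
        1 / (1 + |t - (|r - r'|)|) ^ 2 := by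
      apply one_div_le_one_div_of_le (by positivity)
      gcongr
    linarith
  · have : 1 / (1 + |sgb s.1 * r + sgb s.2.1 * r' + sgb s.2.2 * t|) ^ 2 ≤
        1 / (1 + |t - (r + r')|) ^ 2 := by
      apply one_div_le_one_div_of_le (by positivity)
      gcongr
    linarith

private lemma NG_pow (d : ℕ) (hd : 2 ≤ d) (r : ℝ) (hr : 0 < r) :
    r ^ (d - 1) * (1 + r) ^ (-nu d) ≤ r ^ (nu d) := by
  have hnu : 0 ≤ nu d := by
    unfold nu
    have : (2 : ℝ) ≤ d := by exact_mod_cast hd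
    linarith
  have h1 : (1 + r) ^ (-nu d) ≤ r ^ (-nu d) :=
    Real.rpow_le_rpow_of_nonpos hr (by linarith) (by linarith)
  have h2 : r ^ (d - 1) = r ^ (nu d + nu d) := by
    rw [← Real.rpow_natCast]
    congr 1
    rw [Nat.cast_sub (by omega)]
    unfold nu
    push_cast
    ring
  have h3 : r ^ (d - 1) * r ^ (-nu d) = r ^ (nu d) := by
    rw [h2, ← Real.rpow_add hr]
    congr 1
    ring
  rw [← h3]
  exact mul_le_mul_of_nonneg_left h1 (by positivity)

/-- the localised bound for the radial multiplier -/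
theorem H_bound (d : ℕ) (hd : 2 ≤ d) (δ : ℝ) (hδ : 0 < δ) : ∃ χ : ℝ → ℝ, Continuous χ ∧
    (∀ t, 0 ≤ χ t ∧ χ t ≤ 1) ∧ (∀ t, t ≤ δ → χ t = 0) ∧ (∀ t, 2 * δ ≤ t → χ t = 1) ∧
    ∃ C : ℝ, 0 < C ∧ ∀ r r' : ℝ, 0 < r → 0 < r' → ∀ v : E d,
      ‖∫ ξ, ex v ξ * Hm d χ r r' ξ‖ ≤
        C * (r * r') ^ (nu d) * (1 + ‖v‖) ^ (-nu d) * Ef r r' ‖v‖ := by
  have hnu : 0 ≤ nu d := by
    unfold nu
    have : (2 : ℝ) ≤ d := by exact_mod_cast hd
    linarith
  obtain ⟨J, J1, J2, B, hJ, hJ1, hJ2, hode, hB⟩ := exists_JB d hd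
  obtain ⟨χ, Kχ, hKχ, hχc, hχ1, hχ0, hχ2, hχD⟩ := cutoff δ hδ
  obtain ⟨Kb, hKb, hunif⟩ := J_unif (nu d) hnu J J1 J2 hJ1 hJ2 hode B hB δ hδ
  obtain ⟨Kw, hKw, hw⟩ := weight (d - 1) (d + 1) (by omega) δ hδ
  obtain ⟨c, hc, hpol⟩ := H_polar d hd J hJ
  obtain ⟨Co, hCo, hosc⟩ := osc
  refine ⟨χ, hχc, hχ1, hχ0, hχ2, ?_⟩
  set K1 : ℝ := 4 * (4 * (4 * (4 * Kw * Kχ) * Kb) * Kb) * Kb with hK1
  have hK1p : 0 < K1 := by positivity
  refine ⟨c * (8 * (Co * K1)), by positivity, fun r r' hr hr' v => ?_⟩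
  obtain ⟨b, hb, hbJ⟩ := hunif r hr.le
  obtain ⟨b', hb', hbJ'⟩ := hunif r' hr'.le
  obtain ⟨b'', hb'', hbJ''⟩ := hunif ‖v‖ (norm_nonneg v)
  rw [hpol χ hχc hχ1 r r' hr hr' v]
  set F0 : ℝ → ℂ := fun t => ((t ^ (d - 1) * ((1 + t ^ 2) ^ (d + 1))⁻¹ : ℝ) : ℂ) * ((χ t : ℝ) : ℂ)
    with hF0
  have hg : ∀ t : ℝ, (0 : ℝ) ≤ (fun t => 1 / (1 + t ^ 2)) t := fun t => by positivity
  have hF : ∀ s : Bool × Bool × Bool, Dd δ K1 (fun t => 1 / (1 + t ^ 2))
      (fun t => F0 t * b s.1 t * b' s.2.1 t * b'' s.2.2 t) := by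
    intro s
    have e1 := Dd_mul hKw.le hKχ.le hg hw hχD
    have e2 := Dd_mul (by positivity) hKb.le hg e1 (hb s.1)
    have e3 := Dd_mul (by positivity) hKb.le hg e2 (hb' s.2.1)
    exact Dd_mul (by positivity) hKb.le hg e3 (hb'' s.2.2)
  have hF00 : ∀ s : Bool × Bool × Bool, ∀ t : ℝ, t ≤ δ →
      (fun t => F0 t * b s.1 t * b' s.2.1 t * b'' s.2.2 t) t = 0 := by
    intro s t ht
    simp [hF0, hχ0 t ht]
  set A : ℝ := (1 + r) ^ (-nu d) * (1 + r') ^ (-nu d) * (1 + ‖v‖) ^ (-nu d) with hA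
  have hApos : 0 < A := by positivity
  have hint : ∫ t in Ioi (0 : ℝ), ((t ^ (d - 1) * ((1 + t ^ 2) ^ (d + 1))⁻¹ * χ t *
          J (2 * Real.pi * (r * t)) * J (2 * Real.pi * (r' * t)) *
          J (2 * Real.pi * (‖v‖ * t)) : ℝ) : ℂ) =
      (A : ℂ) * ∑ s : Bool × Bool × Bool, ∫ t in Ioi (0 : ℝ),
        (F0 t * b s.1 t * b' s.2.1 t * b'' s.2.2 t) *
      Complex.exp (2 * (Real.pi : ℂ) * Complex.I *
        (((sgb s.1 * r + sgb s.2.1 * r' + sgb s.2.2 * ‖v‖) * t : ℝ) : ℂ)) := by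
    rw [← integral_finsetSum, ← integral_const_mul]
    · refine setIntegral_congr_fun measurableSet_Ioi fun t ht => ?_
      rw [← NG_sum F0 b b' b'' r r' ‖v‖ t]
      have e1 := hbJ t ht
      have e2 := hbJ' t ht
      have e3 := hbJ'' t ht
      have : ((t ^ (d - 1) * ((1 + t ^ 2) ^ (d + 1))⁻¹ * χ t *
          J (2 * Real.pi * (r * t)) * J (2 * Real.pi * (r' * t)) *
          J (2 * Real.pi * (‖v‖ * t)) : ℝ) : ℂ) =
          F0 t * ((J (2 * Real.pi * (r * t)) : ℝ) : ℂ) *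
          ((J (2 * Real.pi * (r' * t)) : ℝ) : ℂ) * ((J (2 * Real.pi * (‖v‖ * t)) : ℝ) : ℂ) := by
        simp only [hF0]
        push_cast
        ring
      rw [this, e1, e2, e3, hA]
      push_cast
      ring
    · intro s _
      exact NG_int hK1p.le (hF s) (hF00 s) _
  rw [hint]
  have hsum : ‖∑ s : Bool × Bool × Bool, ∫ t in Ioi (0 : ℝ),
        (F0 t * b s.1 t * b' s.2.1 t * b'' s.2.2 t) *
      Complex.exp (2 * (Real.pi : ℂ) * Complex.I *
        (((sgb s.1 * r + sgb s.2.1 * r' + sgb s.2.2 * ‖v‖) * t : ℝ) : ℂ))‖ ≤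
      8 * (Co * K1 * Ef r r' ‖v‖) := by
    refine (norm_sum_le _ _).trans ?_
    have : ∀ s ∈ (Finset.univ : Finset (Bool × Bool × Bool)), ‖∫ t in Ioi (0 : ℝ),
        (F0 t * b s.1 t * b' s.2.1 t * b'' s.2.2 t) *
      Complex.exp (2 * (Real.pi : ℂ) * Complex.I *
        (((sgb s.1 * r + sgb s.2.1 * r' + sgb s.2.2 * ‖v‖) * t : ℝ) : ℂ))‖ ≤
        Co * K1 * Ef r r' ‖v‖ := by
      intro s _
      refine (hosc δ K1 _ hδ hK1p.le (hF s) (hF00 s) _).trans ?_
      have := NG_ef r r' ‖v‖ hr hr' (norm_nonneg v) s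
      calc _ = Co * K1 * (1 / (1 + |sgb s.1 * r + sgb s.2.1 * r' + sgb s.2.2 * ‖v‖|) ^ 2) := by
            ring
        _ ≤ _ := mul_le_mul_of_nonneg_left this (by positivity)
    refine (Finset.sum_le_card_nsmul _ _ _ this).trans (le_of_eq ?_)
    simp
  have hEf : 0 ≤ Ef r r' ‖v‖ := by unfold Ef; positivity
  have h1 := NG_pow d hd r hr
  have h2 := NG_pow d hd r' hr'
  have h12 : (r ^ (d - 1) * (1 + r) ^ (-nu d)) * (r' ^ (d - 1) * (1 + r') ^ (-nu d)) ≤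
      (r * r') ^ (nu d) := by
    rw [Real.mul_rpow hr.le hr'.le]
    exact mul_le_mul h1 h2 (by positivity) (by positivity)
  rw [norm_mul, norm_mul, Complex.norm_real, Complex.norm_real, Real.norm_of_nonneg hApos.le,
    Real.norm_of_nonneg (by positivity)]
  calc c * r ^ (d - 1) * r' ^ (d - 1) * (A * ‖∑ s : Bool × Bool × Bool, ∫ t in Ioi (0 : ℝ),
        (F0 t * b s.1 t * b' s.2.1 t * b'' s.2.2 t) *
      Complex.exp (2 * (Real.pi : ℂ) * Complex.I *
        (((sgb s.1 * r + sgb s.2.1 * r' + sgb s.2.2 * ‖v‖) * t : ℝ) : ℂ))‖)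
      ≤ c * r ^ (d - 1) * r' ^ (d - 1) * (A * (8 * (Co * K1 * Ef r r' ‖v‖))) := by
        gcongr
    _ = (c * (8 * (Co * K1))) * ((r ^ (d - 1) * (1 + r) ^ (-nu d)) *
          (r' ^ (d - 1) * (1 + r') ^ (-nu d))) * (1 + ‖v‖) ^ (-nu d) * Ef r r' ‖v‖ := by
        rw [hA]; ring
    _ ≤ _ := by gcongr

end Pool.LibTP53
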