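import Pool.Agent.LibTP53.NH
import Pool.Agent.LibSR53.K8

/-
PLAN (NI). Copy of the proof of kernel_same (LibSR53.K8). Case |v| <= 8R, |r-r'| <= 2|v|+2: Ip_loc (1+m <= 3(1+|v|), (1+m/R) <= 9). Case |v| <= 8R, |r-r'| > 2|v|+2: tail_bound with
delta = m/2 = |r-r'|/2 and exponent M = 2d+6 instead of 2d+2 (room for two more powers): Ef r r' |v| >= 1/(1+||v|-|r-r'||)^2 >= 1/(1+m)^2 >= 1/(4 delta)^2. Case |v| > 8R: m = |v|, delta = m/2,
Ef r r' |v| >= 1/(1+m)^2 (0 <= |v| - |r-r'| <= |v|) as well.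
-/

set_option autoImplicit false

noncomputable section

open MeasureTheory Metric Set Filter

namespace Pool.LibTP53

open Pool.LibSR53

private theorem NI_nu_pos {d : ℕ} (hd : 2 ≤ d) : 0 < nu d := by
  have : (2 : ℝ) ≤ d := by exact_mod_cast hd
  simp only [nu]
  linarith

private theorem NI_nu_le {d : ℕ} (hd : 2 ≤ d) : nu d + ((d : ℝ) + 2) ≤ 2 * d + 2 := by
  have : (2 : ℝ) ≤ d := by exact_mod_cast hd
  simp only [nu]
  linarith

private theorem NI_sq {d : ℕ} (hd : 2 ≤ d) {x : ℝ} (hx : 0 < x) :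
    x ^ nu d * x ^ nu d = x ^ (d - 1) := by
  rw [← Real.rpow_add hx, ← Real.rpow_natCast]
  congr 1
  rw [Nat.cast_sub (by omega)]
  simp only [nu]
  push_cast
  ring

/-- division of a power -/
private theorem NI_split {d : ℕ} (hd : 2 ≤ d) {δ : ℝ} (hδ : 1 ≤ δ) (n : ℕ) (hn : n ≤ d + 4) :
    δ ^ nu d * δ ^ n ≤ δ ^ (2 * d + 6) := by
  have h0 : 0 < δ := by linarith
  rw [← Real.rpow_natCast δ n, ← Real.rpow_add h0, ← Real.rpow_natCast δ (2 * d + 6)]
  refine Real.rpow_le_rpow_of_exponent_le hδ ?_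
  have h1 := NI_nu_le hd
  have h2 : (n : ℝ) ≤ d + 4 := by exact_mod_cast hn
  push_cast
  linarith

/-- Gram matrix at comparable radii, localised -/
theorem kernel_loc {d : ℕ} (hd : 2 ≤ d) (Ψ φ : SchwartzMap (E d) ℂ)
    (hφ : ∀ v, Ψ v = ∫ ξ, ex v ξ * φ ξ) (ε : ℝ) (hε : 0 < ε) (hv : ∀ ξ, ‖ξ‖ < ε → φ ξ = 0) :
    ∃ C : ℝ, 0 < C ∧ ∀ R : ℝ, 1 ≤ R → ∀ r r' : ℝ, R ≤ r → r ≤ 2 * R → R ≤ r' → r' ≤ 2 * R →
      ∀ v : E d, ‖Ip Ψ r r' v‖ ≤
        C * R ^ (d - 1) * ((1 + max ‖v‖ |r - r'|) ^ (-nu d) /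
          (1 + max ‖v‖ |r - r'| / R) ^ (d + 2) * Ef r r' ‖v‖) := by
  obtain ⟨Cb, hCb, hb⟩ := Ip_loc hd Ψ φ hφ ε hε hv
  obtain ⟨Ct, hCt, ht⟩ := tail_bound hd Ψ (2 * d + 6)
  have hν := NI_nu_pos hd
  refine ⟨2 ^ (d - 1) * (Cb + Ct) * 4 ^ nu d * 9 ^ (d + 2) * 16, by positivity, ?_⟩
  intro R hR r r' h1 h2 h3 h4 v
  have hR0 : 0 < R := by linarith
  have hr0 : 0 < r := by linarith
  have hr0' : 0 < r' := by linarith
  set m := max ‖v‖ |r - r'| with hm
  have hm0 : 0 ≤ m := le_trans (norm_nonneg v) (le_max_left _ _)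
  have hvm : ‖v‖ ≤ m := le_max_left _ _
  have hrm : |r - r'| ≤ m := le_max_right _ _
  have hrr : |r - r'| ≤ R := by
    rw [abs_le]
    constructor <;> linarith
  have hv0 := norm_nonneg v
  have hP : (r * r') ^ nu d ≤ 2 ^ (d - 1) * R ^ (d - 1) := by
    calc (r * r') ^ nu d ≤ ((2 * R) * (2 * R)) ^ nu d := by
          refine Real.rpow_le_rpow (by positivity) ?_ hν.le
          exact mul_le_mul h2 h4 hr0'.le (by positivity)
      _ = (2 * R) ^ nu d * (2 * R) ^ nu d := Real.mul_rpow (by positivity) (by positivity)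
      _ = (2 * R) ^ (d - 1) := NI_sq hd (by positivity)
      _ = 2 ^ (d - 1) * R ^ (d - 1) := mul_pow _ _ _
  have hX : 0 < 1 + m := by linarith
  have hY : 0 < 1 + m / R := by positivity
  set e := Ef r r' ‖v‖ with he
  have he0 : 0 ≤ e := NH_Ef_nonneg _ _ _
  -- lower bound for the localisation factor
  have hEm : 1 ≤ (1 + m) ^ 2 * e := by
    have g1 : |‖v‖ - (|r - r'|)| ≤ m := by
      rw [abs_le]
      have := abs_nonneg (r - r')
      constructor <;> linarith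
    have g2 : 1 / (1 + m) ^ 2 ≤ 1 / (1 + |‖v‖ - (|r - r'|)|) ^ 2 := by
      apply one_div_le_one_div_of_le (by positivity)
      apply pow_le_pow_left₀ (by positivity)
      linarith
    have g3 : 1 / (1 + m) ^ 2 ≤ e := by
      refine g2.trans ?_
      rw [he]
      unfold Ef
      have : (0 : ℝ) ≤ 1 / (1 + |‖v‖ - (r + r')|) ^ 2 := by positivity
      linarith
    rw [div_le_iff₀ (by positivity)] at g3
    linarith
  have hE1 : 1 ≤ m / 2 → 1 ≤ (m / 2) ^ 2 * (16 * e) := by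
    intro h
    have g1 : (1 + m) ^ 2 ≤ 16 * (m / 2) ^ 2 := by nlinarith
    calc (1 : ℝ) ≤ (1 + m) ^ 2 * e := hEm
      _ ≤ 16 * (m / 2) ^ 2 * e := mul_le_mul_of_nonneg_right g1 he0
      _ = _ := by ring
  -- reduction: it suffices to have a bound
  have key : ∀ b : ℝ, 0 ≤ b → ‖Ip Ψ r r' v‖ ≤ (Cb + Ct) * (r * r') ^ nu d * b →
      b * (1 + m) ^ nu d * (1 + m / R) ^ (d + 2) ≤ 4 ^ nu d * 9 ^ (d + 2) * (16 * e) →
      ‖Ip Ψ r r' v‖ ≤ 2 ^ (d - 1) * (Cb + Ct) * 4 ^ nu d * 9 ^ (d + 2) * 16 * R ^ (d - 1) *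
        ((1 + m) ^ (-nu d) / (1 + m / R) ^ (d + 2) * e) := by
    intro b hb0 hb1 hb2
    have hXp : 0 < (1 + m) ^ nu d := Real.rpow_pos_of_pos hX _
    have hYp : 0 < (1 + m / R) ^ (d + 2) := by positivity
    have g1 : ‖Ip Ψ r r' v‖ * ((1 + m) ^ nu d * (1 + m / R) ^ (d + 2)) ≤
        2 ^ (d - 1) * (Cb + Ct) * 4 ^ nu d * 9 ^ (d + 2) * 16 * R ^ (d - 1) * e := by
      calc ‖Ip Ψ r r' v‖ * ((1 + m) ^ nu d * (1 + m / R) ^ (d + 2))
          ≤ ((Cb + Ct) * (r * r') ^ nu d * b) * ((1 + m) ^ nu d * (1 + m / R) ^ (d + 2)) := by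
            gcongr
        _ = (Cb + Ct) * (r * r') ^ nu d * (b * (1 + m) ^ nu d * (1 + m / R) ^ (d + 2)) := by ring
        _ ≤ (Cb + Ct) * (2 ^ (d - 1) * R ^ (d - 1)) * (4 ^ nu d * 9 ^ (d + 2) * (16 * e)) := by
            gcongr
        _ = _ := by ring
    rw [← le_div_iff₀ (by positivity)] at g1
    refine g1.trans (le_of_eq ?_)
    rw [Real.rpow_neg hX.le]
    field_simp
  have hrp : 0 ≤ (r * r') ^ nu d := by positivity
  by_cases hA : ‖v‖ ≤ 8 * R
  · have hm8 : m ≤ 8 * R := max_le hA (by linarith)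
    have h9 : (1 + m / R) ^ (d + 2) ≤ 9 ^ (d + 2) := by
      refine pow_le_pow_left₀ hY.le ?_ _
      have : m / R ≤ 8 := by
        rw [div_le_iff₀ hR0]
        exact hm8
      linarith
    by_cases hA1 : |r - r'| ≤ 2 * ‖v‖ + 2
    · refine key ((1 + ‖v‖) ^ (-nu d) * e) (by positivity) ?_ ?_
      · refine (hb r r' hr0 hr0' v).trans ?_
        rw [mul_assoc (Cb * (r * r') ^ nu d)]
        gcongr
        linarith
      · have h5 : 1 + m ≤ 3 * (1 + ‖v‖) := by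
          have : m ≤ 2 * ‖v‖ + 2 := max_le (by linarith) hA1
          linarith
        have h6 : (1 + m) ^ nu d ≤ 3 ^ nu d * (1 + ‖v‖) ^ nu d := by
          rw [← Real.mul_rpow (by norm_num) (by positivity)]
          exact Real.rpow_le_rpow hX.le h5 hν.le
        have h7 : (1 + ‖v‖) ^ (-nu d) * (1 + m) ^ nu d ≤ 4 ^ nu d := by
          rw [Real.rpow_neg (by positivity), inv_mul_le_iff₀ (by positivity), mul_comm]
          refine h6.trans ?_
          gcongr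
          norm_num
        have h8 : (1 + ‖v‖) ^ (-nu d) * (1 + m) ^ nu d * (1 + m / R) ^ (d + 2) ≤
            4 ^ nu d * 9 ^ (d + 2) := mul_le_mul h7 h9 (by positivity) (by positivity)
        calc (1 + ‖v‖) ^ (-nu d) * e * (1 + m) ^ nu d * (1 + m / R) ^ (d + 2)
            = ((1 + ‖v‖) ^ (-nu d) * (1 + m) ^ nu d * (1 + m / R) ^ (d + 2)) * e := by ring
          _ ≤ (4 ^ nu d * 9 ^ (d + 2)) * e := mul_le_mul_of_nonneg_right h8 he0
          _ ≤ (4 ^ nu d * 9 ^ (d + 2)) * (16 * e) := by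
              apply mul_le_mul_of_nonneg_left _ (by positivity)
              linarith
    · push Not at hA1
      have hmr : m = |r - r'| := max_eq_right (by linarith)
      have hδ : 1 ≤ m / 2 := by
        rw [hmr]
        linarith
      have h5 := (ht (m / 2) r r' hδ hr0 hr0' v (by
        intro ζ ζ' hz hz'
        have e1 : |r - r'| ≤ ‖ζ - ζ'‖ := by
          rw [← hz, ← hz']
          exact abs_norm_sub_norm_le ζ ζ'
        have e2 : ‖ζ - ζ'‖ ≤ ‖v + ζ - ζ'‖ + ‖v‖ := by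
          have := norm_sub_le (v + ζ - ζ') v
          rwa [show v + ζ - ζ' - v = ζ - ζ' by abel] at this
        rw [hmr]
        linarith)).1
      refine key (1 / (m / 2) ^ (2 * d + 6)) (by positivity) ?_ ?_
      · refine h5.trans ?_
        rw [mul_one_div]
        gcongr
        linarith
      · have h6 : (m / 2) ^ nu d * (m / 2) ^ 2 ≤ (m / 2) ^ (2 * d + 6) :=
          NI_split hd hδ 2 (by omega)
        have h7 : (1 + m) ^ nu d ≤ 4 ^ nu d * (m / 2) ^ nu d := by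
          rw [← Real.mul_rpow (by norm_num) (by positivity)]
          refine Real.rpow_le_rpow hX.le ?_ hν.le
          linarith
        have h10 := hE1 hδ
        rw [mul_assoc, one_div, inv_mul_le_iff₀ (by positivity)]
        have h11 : 0 ≤ 4 ^ nu d * (m / 2) ^ nu d * 9 ^ (d + 2) := by positivity
        calc (1 + m) ^ nu d * (1 + m / R) ^ (d + 2)
            ≤ (4 ^ nu d * (m / 2) ^ nu d) * 9 ^ (d + 2) := by gcongr
          _ = (4 ^ nu d * (m / 2) ^ nu d * 9 ^ (d + 2)) * 1 := by ring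
          _ ≤ (4 ^ nu d * (m / 2) ^ nu d * 9 ^ (d + 2)) * ((m / 2) ^ 2 * (16 * e)) :=
              mul_le_mul_of_nonneg_left h10 h11
          _ = ((m / 2) ^ nu d * (m / 2) ^ 2) * (4 ^ nu d * 9 ^ (d + 2) * (16 * e)) := by ring
          _ ≤ (m / 2) ^ (2 * d + 6) * (4 ^ nu d * 9 ^ (d + 2) * (16 * e)) := by gcongr
  · push Not at hA
    have hmv : m = ‖v‖ := max_eq_left (by linarith)
    have hδ : 1 ≤ m / 2 := by
      rw [hmv]
      linarith
    have h5 := (ht (m / 2) r r' hδ hr0 hr0' v (by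
      intro ζ ζ' hz hz'
      have e2 : ‖v‖ ≤ ‖v + ζ - ζ'‖ + (‖ζ‖ + ‖ζ'‖) := by
        have e3 := norm_sub_le (v + ζ - ζ') (ζ - ζ')
        rw [show v + ζ - ζ' - (ζ - ζ') = v by abel] at e3
        have e4 := norm_sub_le ζ ζ'
        linarith
      rw [hz, hz'] at e2
      rw [hmv]
      linarith)).1
    refine key (1 / (m / 2) ^ (2 * d + 6)) (by positivity) ?_ ?_
    · refine h5.trans ?_
      rw [mul_one_div]
      gcongr
      linarith
    · have h6 : (m / 2) ^ nu d * (m / 2) ^ (d + 4) ≤ (m / 2) ^ (2 * d + 6) :=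
        NI_split hd hδ (d + 4) le_rfl
      have h7 : (1 + m) ^ nu d ≤ 4 ^ nu d * (m / 2) ^ nu d := by
        rw [← Real.mul_rpow (by norm_num) (by positivity)]
        refine Real.rpow_le_rpow hX.le ?_ hν.le
        linarith
      have h8 : (1 + m / R) ^ (d + 2) ≤ 9 ^ (d + 2) * (m / 2) ^ (d + 2) := by
        rw [← mul_pow]
        refine pow_le_pow_left₀ hY.le ?_ _
        have : m / R ≤ m := div_le_self hm0 hR
        linarith
      have h10 := hE1 hδ
      have h11 : 0 ≤ (4 ^ nu d * (m / 2) ^ nu d) * (9 ^ (d + 2) * (m / 2) ^ (d + 2)) := by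
        positivity
      rw [mul_assoc, one_div, inv_mul_le_iff₀ (by positivity)]
      calc (1 + m) ^ nu d * (1 + m / R) ^ (d + 2)
          ≤ (4 ^ nu d * (m / 2) ^ nu d) * (9 ^ (d + 2) * (m / 2) ^ (d + 2)) := by gcongr
        _ = ((4 ^ nu d * (m / 2) ^ nu d) * (9 ^ (d + 2) * (m / 2) ^ (d + 2))) * 1 := by ring
        _ ≤ ((4 ^ nu d * (m / 2) ^ nu d) * (9 ^ (d + 2) * (m / 2) ^ (d + 2))) *
            ((m / 2) ^ 2 * (16 * e)) := mul_le_mul_of_nonneg_left h10 h11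
        _ = ((m / 2) ^ nu d * (m / 2) ^ (d + 4)) * (4 ^ nu d * 9 ^ (d + 2) * (16 * e)) := by
            rw [pow_add (m / 2) d 4, pow_add (m / 2) d 2]; ring
        _ ≤ (m / 2) ^ (2 * d + 6) * (4 ^ nu d * 9 ^ (d + 2) * (16 * e)) := by gcongr

end Pool.LibTP53
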